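import Pool.Agent.Lib_MP_a95293_ps.Defs

/-!
# Archimedean energy. Definitions

`ker N Δ u = cos (Δ u / 2) ^ (2 N)`: a positive definite kernel, close to `1` for `|u|` small and tiny for `|u|` not small.
-/

set_option autoImplicit false

namespace Pool.MP_a95293_nt.SF

open Finset

noncomputable def ker (N : ℕ) (Δ u : ℝ) : ℝ := Real.cos (Δ * u / 2) ^ (2 * N)

noncomputable def EA (N : ℕ) (Δ : ℝ) (K : ℕ) (H : Fin K → ℕ) : ℝ :=
  ∑ z ∈ (Fintype.piFinset fun i => Icc 1 (H i)) ×ˢ (Fintype.piFinset fun i => Icc 1 (H i)),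
    ker N Δ (∑ i : Fin K, ((i.val : ℝ) + 1) * (Real.log (z.1 i) - Real.log (z.2 i)))

noncomputable def TA (N : ℕ) (Δ : ℝ) (k p H : ℕ) : ℝ :=
  ∑ z ∈ (Fintype.piFinset fun _ : Fin p => Icc 1 H) ×ˢ (Fintype.piFinset fun _ : Fin p => Icc 1 H),
    ker N Δ ((k : ℝ) * ∑ j : Fin p, (Real.log (z.1 j) - Real.log (z.2 j)))

/-- the numbers up to `N` of radical at most `Y` -/
def SA (Y N : ℕ) : Finset ℕ := (Icc 1 N).filter fun n => Pool.MP_a95293_nt.RC.rd n ≤ Y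

theorem ker_nonneg (N : ℕ) (Δ u : ℝ) : 0 ≤ ker N Δ u := by
  unfold ker
  rw [pow_mul]
  positivity

end Pool.MP_a95293_nt.SF
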