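import Pool.Agent.Lib_MP_a95293_sf.Defs

/-!
# Piece APXC: on a residue class of the curve `F = G = 0`, `F = α x^k + β y^m + γ z^l`, the coordinates `y, z` are polynomials in
`x - x₀` modulo every power of the prime `q`, if the minor `F_y G_z - F_z G_y` is prime to `q`

PROOF.  Let `M = [F_y, F_z; G_y, G_z]` at `(x0, y0, z0)` (`F_y = m β y^(m-1)`, `F_z = l γ z^(l-1)`), `det M = Jyz` prime to `q`, so there
are integers `a b c d` with `[a b; c d] M ≡ 1` modulo `q`.  Induction on `n`.  `n = 0`: the constants `y0, z0`.  Step: let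
`g1, g2` be good modulo `q^(n+1)`.  Put `Φ = C al (C x0 + X)^k + C be g1^m + C ga g2^l`, `Ψ = ∑ G i j h (C x0 + X)^i g1^j g2^h`, and
`g1' = g1 - (C a Φ + C b Ψ)`, `g2' = g2 - (C c Φ + C d Ψ)`.  At a point write `y = Y + q^(n+1) u`, `z = Z + q^(n+1) v` (`Y, Z` the values of
`g1, g2`).  Then `0 = F(x,y,z) ≡ F(x,Y,Z) + q^(n+1) (F_y(Y) u + F_z(Z) v)` modulo `q^(2n+2)`, and the same for `G`
(lemma: `(Y + ε)^j ≡ Y^j + j Y^(j-1) ε` modulo `ε^2`, `Polynomial.powAddExpansion`; for `ev3` sum over the monomials), and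
`Y ≡ y ≡ y0`, `Z ≡ z ≡ z0`, `x ≡ x0` modulo `q` allow to replace the derivatives by `M` modulo `q`.  So
`(Φ, Ψ)(x) ≡ - q^(n+1) M (u, v)` modulo `q^(n+2)` and `y - g1' = q^(n+1) u + a Φ + b Ψ ≡ 0` modulo `q^(n+2)`.
-/

set_option autoImplicit false

namespace Pool.MP_a95293_nt.SF

open Finset Polynomial

private theorem sup3_shift (r : ℕ) (a : ℕ → ℤ) (h : a r = 0) (Y : ℤ) :
    ∑ j ∈ range r, a j * ((j : ℤ) * Y ^ (j - 1)) = ∑ j ∈ range r, ((j : ℤ) + 1) * a (j + 1) * Y ^ j := by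
  have h1 : ∑ j ∈ range (r + 1), a j * ((j : ℤ) * Y ^ (j - 1)) =
      ∑ j ∈ range r, a j * ((j : ℤ) * Y ^ (j - 1)) := by
    rw [sum_range_succ, h]
    simp
  rw [← h1, sum_range_succ']
  simp only [Nat.cast_zero, zero_mul, mul_zero, add_zero]
  refine sum_congr rfl fun j _ => ?_
  rw [Nat.add_sub_cancel]
  push_cast
  ring

private theorem ev3_expand (r : ℕ) (G : ℕ → ℕ → ℕ → ℤ) (hG : Sup3 r G) (x Y Z e u v : ℤ) :
    ∃ c : ℤ, ev3 r G x (Y + e * u) (Z + e * v) = ev3 r G x Y Z +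
      e * (u * ev3 r (d2 G) x Y Z + v * ev3 r (d3 G) x Y Z) + e ^ 2 * c := by
  have key : ∀ i j h : ℕ, ∃ c : ℤ, G i j h * x ^ i * (Y + e * u) ^ j * (Z + e * v) ^ h =
      G i j h * x ^ i * Y ^ j * Z ^ h + e * (u * (G i j h * x ^ i * ((j : ℤ) * Y ^ (j - 1)) * Z ^ h) +
        v * (G i j h * x ^ i * Y ^ j * ((h : ℤ) * Z ^ (h - 1)))) + e ^ 2 * c := by
    intro i j h
    obtain ⟨K, hK⟩ := Polynomial.powAddExpansion Y (e * u) j
    obtain ⟨K', hK'⟩ := Polynomial.powAddExpansion Z (e * v) h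
    refine ⟨G i j h * x ^ i * (K * u ^ 2 * (Z ^ h + (h : ℤ) * Z ^ (h - 1) * (e * v) +
      K' * (e * v) ^ 2) + (Y ^ j + (j : ℤ) * Y ^ (j - 1) * (e * u)) * (K' * v ^ 2) +
      (j : ℤ) * Y ^ (j - 1) * u * ((h : ℤ) * Z ^ (h - 1) * v)), ?_⟩
    rw [hK, hK']
    ring
  choose c hc using key
  refine ⟨∑ i ∈ range r, ∑ j ∈ range r, ∑ h ∈ range r, c i j h, ?_⟩
  have e2 : ev3 r (d2 G) x Y Z = ∑ i ∈ range r, ∑ j ∈ range r, ∑ h ∈ range r,
      G i j h * x ^ i * ((j : ℤ) * Y ^ (j - 1)) * Z ^ h := by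
    unfold ev3 d2
    refine sum_congr rfl fun i _ => ?_
    rw [sum_comm, sum_comm (s := range r) (t := range r)
      (f := fun j h => G i j h * x ^ i * ((j : ℤ) * Y ^ (j - 1)) * Z ^ h)]
    refine sum_congr rfl fun h _ => ?_
    have := sup3_shift r (fun j => G i j h) (by
      by_contra hne
      exact absurd (hG i r h hne).2.1 (lt_irrefl r)) Y
    have t1 : ∑ j ∈ range r, G i j h * x ^ i * ((j : ℤ) * Y ^ (j - 1)) * Z ^ h =
        x ^ i * Z ^ h * ∑ j ∈ range r, G i j h * ((j : ℤ) * Y ^ (j - 1)) := by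
      rw [mul_sum]
      exact sum_congr rfl fun j _ => by ring
    have t2 : ∑ j ∈ range r, ((j : ℤ) + 1) * G i (j + 1) h * x ^ i * Y ^ j * Z ^ h =
        x ^ i * Z ^ h * ∑ j ∈ range r, ((j : ℤ) + 1) * G i (j + 1) h * Y ^ j := by
      rw [mul_sum]
      exact sum_congr rfl fun j _ => by ring
    rw [t1, t2, this]
  have e3 : ev3 r (d3 G) x Y Z = ∑ i ∈ range r, ∑ j ∈ range r, ∑ h ∈ range r,
      G i j h * x ^ i * Y ^ j * ((h : ℤ) * Z ^ (h - 1)) := by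
    unfold ev3 d3
    refine sum_congr rfl fun i _ => sum_congr rfl fun j _ => ?_
    have := sup3_shift r (fun h => G i j h) (by
      by_contra hne
      exact absurd (hG i j r hne).2.2 (lt_irrefl r)) Z
    have t1 : ∑ h ∈ range r, G i j h * x ^ i * Y ^ j * ((h : ℤ) * Z ^ (h - 1)) =
        x ^ i * Y ^ j * ∑ h ∈ range r, G i j h * ((h : ℤ) * Z ^ (h - 1)) := by
      rw [mul_sum]
      exact sum_congr rfl fun h _ => by ring
    have t2 : ∑ h ∈ range r, ((h : ℤ) + 1) * G i j (h + 1) * x ^ i * Y ^ j * Z ^ h =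
        x ^ i * Y ^ j * ∑ h ∈ range r, ((h : ℤ) + 1) * G i j (h + 1) * Z ^ h := by
      rw [mul_sum]
      exact sum_congr rfl fun h _ => by ring
    rw [t1, t2, this]
  rw [e2, e3]
  unfold ev3
  simp_rw [hc]
  simp only [sum_add_distrib, mul_sum, mul_add]

private theorem ev3_cong (q : ℤ) (r : ℕ) (H : ℕ → ℕ → ℕ → ℤ) {x x' y y' z z' : ℤ} (hx : q ∣ x - x')
    (hy : q ∣ y - y') (hz : q ∣ z - z') : q ∣ ev3 r H x y z - ev3 r H x' y' z' := by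
  unfold ev3
  rw [← sum_sub_distrib]
  refine dvd_sum fun i _ => ?_
  rw [← sum_sub_distrib]
  refine dvd_sum fun j _ => ?_
  rw [← sum_sub_distrib]
  refine dvd_sum fun h _ => ?_
  obtain ⟨a, ha⟩ := hx.trans (sub_dvd_pow_sub_pow x x' i)
  obtain ⟨b, hb⟩ := hy.trans (sub_dvd_pow_sub_pow y y' j)
  obtain ⟨c, hc⟩ := hz.trans (sub_dvd_pow_sub_pow z z' h)
  refine ⟨H i j h * (a * y ^ j * z ^ h + x' ^ i * b * z ^ h + x' ^ i * y' ^ j * c), ?_⟩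
  linear_combination H i j h * (y ^ j * z ^ h * ha + x' ^ i * z ^ h * hb + x' ^ i * y' ^ j * hc)

theorem approxC (q : ℕ) (hq : q.Prime) (k m l r : ℕ) (al be ga : ℤ) (G : ℕ → ℕ → ℕ → ℤ)
    (hG : Sup3 r G) (x0 y0 z0 : ℤ) (hJ : ¬ (q : ℤ) ∣ Jyz m l r be ga G x0 y0 z0) {ι : Type}
    (x y z : ι → ℤ) (hF : ∀ i, al * x i ^ k + be * y i ^ m + ga * z i ^ l = 0)
    (hG0 : ∀ i, ev3 r G (x i) (y i) (z i) = 0) (hx : ∀ i, (q : ℤ) ∣ x i - x0)
    (hy : ∀ i, (q : ℤ) ∣ y i - y0) (hz : ∀ i, (q : ℤ) ∣ z i - z0) (n : ℕ) :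
    ∃ g₁ g₂ : ℤ[X], ∀ i, (q : ℤ) ^ (n + 1) ∣ y i - g₁.eval (x i - x0) ∧
      (q : ℤ) ^ (n + 1) ∣ z i - g₂.eval (x i - x0) := by
  have hlp : Prime (q : ℤ) := Nat.prime_iff_prime_int.1 hq
  set Fy : ℤ := m * be * y0 ^ (m - 1) with hFy
  set Fz : ℤ := l * ga * z0 ^ (l - 1) with hFz
  set Gy : ℤ := ev3 r (d2 G) x0 y0 z0 with hGy
  set Gz : ℤ := ev3 r (d3 G) x0 y0 z0 with hGz
  have hJe : Jyz m l r be ga G x0 y0 z0 = Fy * Gz - Fz * Gy := rfl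
  rw [hJe] at hJ
  obtain ⟨w, s, hw⟩ : ∃ w s : ℤ, w * (Fy * Gz - Fz * Gy) = 1 + q * s := by
    obtain ⟨a, b, hab⟩ := (Prime.coprime_iff_not_dvd hlp).2 hJ
    exact ⟨b, -a, by linear_combination hab⟩
  induction n with
  | zero =>
    refine ⟨C y0, C z0, fun i => ?_⟩
    simp only [eval_C, zero_add, pow_one]
    exact ⟨hy i, hz i⟩
  | succ n ih =>
    obtain ⟨g₁, g₂, hg⟩ := ih
    set Φ : ℤ[X] := C al * (C x0 + X) ^ k + C be * g₁ ^ m + C ga * g₂ ^ l with hΦ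
    set Ψ : ℤ[X] := ∑ i ∈ range r, ∑ j ∈ range r, ∑ h ∈ range r,
      C (G i j h) * (C x0 + X) ^ i * g₁ ^ j * g₂ ^ h with hΨ
    refine ⟨g₁ - (C (w * Gz) * Φ + C (-(w * Fz)) * Ψ), g₂ - (C (-(w * Gy)) * Φ + C (w * Fy) * Ψ),
      fun i => ?_⟩
    obtain ⟨⟨u, hu⟩, ⟨v, hv⟩⟩ := hg i
    set Y := g₁.eval (x i - x0) with hY
    set Z := g₂.eval (x i - x0) with hZ
    have eΦ : Φ.eval (x i - x0) = al * x i ^ k + be * Y ^ m + ga * Z ^ l := by
      rw [hΦ]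
      simp only [eval_add, eval_mul, eval_pow, eval_C, eval_X, add_sub_cancel, hY, hZ]
    have eΨ : Ψ.eval (x i - x0) = ev3 r G (x i) Y Z := by
      rw [hΨ]
      simp only [eval_finsetSum, eval_add, eval_mul, eval_pow, eval_C, eval_X, add_sub_cancel,
        hY, hZ, ev3]
    have hyi : y i = Y + (q : ℤ) ^ (n + 1) * u := by linear_combination hu
    have hzi : z i = Z + (q : ℤ) ^ (n + 1) * v := by linear_combination hv
    obtain ⟨K₁, hK₁⟩ := Polynomial.powAddExpansion Y ((q : ℤ) ^ (n + 1) * u) m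
    obtain ⟨K₂, hK₂⟩ := Polynomial.powAddExpansion Z ((q : ℤ) ^ (n + 1) * v) l
    obtain ⟨c, hc⟩ := ev3_expand r G hG (x i) Y Z ((q : ℤ) ^ (n + 1)) u v
    have h1 := hF i
    have h2 := hG0 i
    rw [hyi, hzi] at h1 h2
    rw [hc] at h2
    rw [hK₁, hK₂] at h1
    have hYy : (q : ℤ) ∣ Y - y0 := by
      have := hy i
      rw [hyi] at this
      have h3 : (q : ℤ) ∣ (q : ℤ) ^ (n + 1) * u := Dvd.dvd.mul_right (dvd_pow_self _ (Nat.succ_ne_zero n)) u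
      have h4 := dvd_sub this h3
      have e : Y + (q : ℤ) ^ (n + 1) * u - y0 - (q : ℤ) ^ (n + 1) * u = Y - y0 := by ring
      rwa [e] at h4
    have hZz : (q : ℤ) ∣ Z - z0 := by
      have := hz i
      rw [hzi] at this
      have h3 : (q : ℤ) ∣ (q : ℤ) ^ (n + 1) * v := Dvd.dvd.mul_right (dvd_pow_self _ (Nat.succ_ne_zero n)) v
      have h4 := dvd_sub this h3
      have e : Z + (q : ℤ) ^ (n + 1) * v - z0 - (q : ℤ) ^ (n + 1) * v = Z - z0 := by ring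
      rwa [e] at h4
    obtain ⟨s₁, hs₁⟩ := hYy.trans (sub_dvd_pow_sub_pow Y y0 (m - 1))
    obtain ⟨s₂, hs₂⟩ := hZz.trans (sub_dvd_pow_sub_pow Z z0 (l - 1))
    obtain ⟨s₃, hs₃⟩ := ev3_cong q r (d2 G) (hx i) hYy hZz
    obtain ⟨s₄, hs₄⟩ := ev3_cong q r (d3 G) (hx i) hYy hZz
    rw [← hGy] at hs₃
    rw [← hGz] at hs₄
    have f1 : Y ^ (m - 1) = y0 ^ (m - 1) + q * s₁ := by linear_combination hs₁
    have f2 : Z ^ (l - 1) = z0 ^ (l - 1) + q * s₂ := by linear_combination hs₂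
    have f3 : ev3 r (d2 G) (x i) Y Z = Gy + q * s₃ := by linear_combination hs₃
    have f4 : ev3 r (d3 G) (x i) Y Z = Gz + q * s₄ := by linear_combination hs₄
    rw [f1, f2] at h1
    rw [f3, f4] at h2
    simp only [eval_sub, eval_add, eval_mul, eval_C, ← hY, ← hZ, eΦ, eΨ]
    rw [hyi, hzi]
    have hpow : (q : ℤ) ^ (n + 1 + 1) = (q : ℤ) ^ (n + 1) * q := pow_succ _ _
    have hpow2 : (q : ℤ) ^ (n + 1) = q * (q : ℤ) ^ n := by rw [pow_succ, mul_comm]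
    set P := (q : ℤ) ^ (n + 1) with hP
    constructor
    · refine ⟨-(s * u) - w * Gz * ((m : ℤ) * be * s₁ * u + (l : ℤ) * ga * s₂ * v) +
        w * Fz * (s₃ * u + s₄ * v) - (q : ℤ) ^ n * (w * Gz * (be * K₁ * u ^ 2 + ga * K₂ * v ^ 2) -
          w * Fz * c), ?_⟩
      rw [hpow]
      linear_combination (w * Gz) * h1 + (-(w * Fz)) * h2 - P * u * hw + (P * (w * Gz * (be * K₁ * u ^ 2 + ga * K₂ * v ^ 2) -
          w * Fz * c)) * hpow2
    · refine ⟨-(s * v) + w * Gy * ((m : ℤ) * be * s₁ * u + (l : ℤ) * ga * s₂ * v) -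
        w * Fy * (s₃ * u + s₄ * v) - (q : ℤ) ^ n * (-(w * Gy) * (be * K₁ * u ^ 2 + ga * K₂ * v ^ 2) +
          w * Fy * c), ?_⟩
      rw [hpow]
      linear_combination (-(w * Gy)) * h1 + (w * Fy) * h2 - P * v * hw + (P * (-(w * Gy) * (be * K₁ * u ^ 2 + ga * K₂ * v ^ 2) +
          w * Fy * c)) * hpow2

end Pool.MP_a95293_nt.SF
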