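import Mathlib

/-!
# Piece APXS: on a residue class of the surface `y` is a polynomial in `x - x₀`, `z - z₀` modulo every power of the prime

PROOF: word for word as `Pool.MP_a95293_nt.PS.Bp.approx` in `Lib_MP_a95293_ps/BpA.lean`, with `ga` replaced by `-(γ z ^ l)`:
the new approximation is `g + C u * (-(C ga * (C z0 + X 1) ^ l) - C al * (C x0 + X 0) ^ k - C be * g ^ m)`.
-/

set_option autoImplicit false

namespace Pool.MP_a95293_nt.SF

open Finset

theorem approx2 (q : ℕ) (hq : q.Prime) (k m l : ℕ) (hm : ¬ q ∣ m) (al be ga x0 y0 z0 : ℤ)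
    (hbe : ¬ (q : ℤ) ∣ be) (hy0 : ¬ (q : ℤ) ∣ y0) {ι : Type} (x y z : ι → ℤ)
    (hxyz : ∀ i, al * x i ^ k + be * y i ^ m + ga * z i ^ l = 0) (hy : ∀ i, (q : ℤ) ∣ y i - y0)
    (n : ℕ) : ∃ g : MvPolynomial (Fin 2) ℤ, ∀ i, (q : ℤ) ^ (n + 1) ∣
      y i - MvPolynomial.eval ![x i - x0, z i - z0] g := by
  have hlp : Prime (q : ℤ) := Nat.prime_iff_prime_int.1 hq
  have hm0 : m ≠ 0 := by
    rintro rfl
    exact hm (dvd_zero q)
  -- inverse
  obtain ⟨u, hu⟩ : ∃ u : ℤ, (q : ℤ) ∣ u * (be * (m * y0 ^ (m - 1))) - 1 := by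
    have hnd : ¬ (q : ℤ) ∣ be * (m * y0 ^ (m - 1)) := by
      intro h
      rcases hlp.dvd_or_dvd h with h | h
      · exact hbe h
      rcases hlp.dvd_or_dvd h with h | h
      · exact hm (Int.natCast_dvd_natCast.1 h)
      · exact hy0 (hlp.dvd_of_dvd_pow h)
    have hc : IsCoprime (q : ℤ) (be * (m * y0 ^ (m - 1))) :=
      (Prime.coprime_iff_not_dvd hlp).2 hnd
    obtain ⟨a, b, hab⟩ := hc
    exact ⟨b, ⟨-a, by linear_combination hab⟩⟩
  induction n with
  | zero =>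
    refine ⟨MvPolynomial.C y0, fun i => ?_⟩
    simpa using hy i
  | succ n ih =>
    obtain ⟨g, hg⟩ := ih
    refine ⟨g + MvPolynomial.C u * (-(MvPolynomial.C ga * (MvPolynomial.C z0 + MvPolynomial.X 1) ^ l)
      - MvPolynomial.C al * (MvPolynomial.C x0 + MvPolynomial.X 0) ^ k -
        MvPolynomial.C be * g ^ m), fun i => ?_⟩
    obtain ⟨w, hw⟩ := hg i
    set G := MvPolynomial.eval ![x i - x0, z i - z0] g with hG
    have e1 : MvPolynomial.eval ![x i - x0, z i - z0] (g + MvPolynomial.C u *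
        (-(MvPolynomial.C ga * (MvPolynomial.C z0 + MvPolynomial.X 1) ^ l) -
          MvPolynomial.C al * (MvPolynomial.C x0 + MvPolynomial.X 0) ^ k -
            MvPolynomial.C be * g ^ m)) =
        G + u * (-(ga * z i ^ l) - al * x i ^ k - be * G ^ m) := by
      simp only [map_add, map_mul, MvPolynomial.eval_C, map_sub, map_neg, map_pow,
        MvPolynomial.eval_X, hG, Matrix.cons_val_zero, Matrix.cons_val_one]
      ring
    rw [e1]
    have hyi : y i = G + (q : ℤ) ^ (n + 1) * w := by linear_combination hw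
    obtain ⟨K, hK⟩ := Polynomial.powAddExpansion G ((q : ℤ) ^ (n + 1) * w) m
    have e2 : -(ga * z i ^ l) - al * x i ^ k - be * G ^ m =
        be * (m * G ^ (m - 1) * ((q : ℤ) ^ (n + 1) * w) + K * ((q : ℤ) ^ (n + 1) * w) ^ 2) := by
      have h1 := hxyz i
      rw [hyi, hK] at h1
      linear_combination -h1
    have hGy : (q : ℤ) ∣ G - y0 := by
      have h1 : (q : ℤ) ∣ (q : ℤ) ^ (n + 1) * w := Dvd.dvd.mul_right (dvd_pow_self _ (by omega)) w
      have h2 := hy i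
      rw [hyi] at h2
      have h3 := dvd_sub h2 h1
      rwa [show G + (q : ℤ) ^ (n + 1) * w - y0 - (q : ℤ) ^ (n + 1) * w = G - y0 by ring] at h3
    have hGp : (q : ℤ) ∣ G ^ (m - 1) - y0 ^ (m - 1) := hGy.trans (sub_dvd_pow_sub_pow _ _ _)
    have h1 : (q : ℤ) ∣ 1 - u * (be * (m * G ^ (m - 1))) := by
      obtain ⟨c, hc⟩ := hGp
      obtain ⟨d, hd⟩ := hu
      exact ⟨-d - u * be * m * c, by linear_combination (-(u * be * m)) * hc - hd⟩
    obtain ⟨c, hc⟩ := h1
    rw [e2, hyi]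
    refine ⟨w * c - u * be * K * (q : ℤ) ^ n * w ^ 2, ?_⟩
    have e3 : ((q : ℤ) ^ (n + 1) * w) ^ 2 = (q : ℤ) ^ (n + 1 + 1) * (q : ℤ) ^ n * w ^ 2 := by
      ring
    rw [e3]
    linear_combination ((q : ℤ) ^ (n + 1) * w) * hc

end Pool.MP_a95293_nt.SF
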