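import Pool.Agent.Lib_MP_a95293_sf.AeD
import Pool.Agent.Lib_MP_a95293_ps.Hol

/-!
# Piece BIN: the inequality of Hoelder for the kernel

PROOF.  As in `Lib_MP_a95293_ps/Hol.lean` with the characters replaced by the integers `j ∈ range (2 N + 1)` with the weights
`w j = (2N choose j) / 4^N` (sum `1`, `Nat.sum_range_choose`): `cos (φ/2) ^ (2N) = ∑_j w j * exp (i (j - N) φ)` (binomial theorem for
`(exp (iφ/2) + exp (-iφ/2))^(2N)`).  With `S i j = ∑_(x ∈ Icc 1 (H i)) exp (I (j - N) Δ (i + 1) log x)`: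
`EA = ∑_j w j ∏_i ‖S i j‖^2` and `TA N Δ (i+1) p (H i) = ∑_j w j (‖S i j‖^2)^p`; then the finite Hoelder inequality
(private lemma `Hol_holder` in Hol.lean: copy it).
-/

set_option autoImplicit false

namespace Pool.MP_a95293_nt.SF

open Finset

open scoped ComplexConjugate

/-- the inequality of Hoelder for several functions -/
private lemma Bin_holder {ι : Type*} (s : Finset ι) (w : ι → ℝ) (hw : ∀ x ∈ s, 0 ≤ w x) (hw1 : ∑ x ∈ s, w x = 1)
    {K : ℕ} (a : Fin K → ι → ℝ) (ha : ∀ i x, 0 ≤ a i x) (p : Fin K → ℕ) (hp : ∀ i, 1 ≤ p i)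
    (hs : ∑ i, (1 : ℝ) / (p i : ℝ) ≤ 1) :
    ∑ x ∈ s, w x * ∏ i, a i x ≤ ∏ i, (∑ x ∈ s, w x * a i x ^ p i) ^ ((1 : ℝ) / (p i : ℝ)) := by
  have hA : ∀ i, 0 ≤ ∑ x ∈ s, w x * a i x ^ p i := fun i =>
    Finset.sum_nonneg fun x hx => mul_nonneg (hw x hx) (pow_nonneg (ha i x) _)
  have hR : 0 ≤ ∏ i, (∑ x ∈ s, w x * a i x ^ p i) ^ ((1 : ℝ) / (p i : ℝ)) :=
    Finset.prod_nonneg fun i _ => Real.rpow_nonneg (hA i) _
  by_cases h0 : ∃ i, ∑ x ∈ s, w x * a i x ^ p i = 0
  · obtain ⟨i, hi⟩ := h0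
    rw [Finset.sum_eq_zero_iff_of_nonneg fun x hx => mul_nonneg (hw x hx) (pow_nonneg (ha i x) _)] at hi
    have : ∑ x ∈ s, w x * ∏ i, a i x = 0 := by
      apply Finset.sum_eq_zero
      intro x hx
      rcases mul_eq_zero.1 (hi x hx) with h | h
      · rw [h, zero_mul]
      · have h' : a i x = 0 := pow_eq_zero_iff (by have := hp i; omega) |>.1 h
        rw [Finset.prod_eq_zero (Finset.mem_univ i) h', mul_zero]
    rw [this]
    exact hR
  · push Not at h0
    have hpos : ∀ i, 0 < ∑ x ∈ s, w x * a i x ^ p i := fun i => lt_of_le_of_ne (hA i) (h0 i).symm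
    set A : Fin K → ℝ := fun i => ∑ x ∈ s, w x * a i x ^ p i with hAd
    set B : Fin K → ℝ := fun i => A i ^ ((1 : ℝ) / (p i : ℝ)) with hBd
    have hB : ∀ i, 0 < B i := fun i => Real.rpow_pos_of_pos (hpos i) _
    have key : ∀ x, ∏ i, (a i x / B i) ≤ ∑ i, (1 : ℝ) / (p i : ℝ) * (a i x ^ p i / A i) + (1 - ∑ i, (1 : ℝ) / (p i : ℝ)) := by
      intro x
      have h := Real.geom_mean_le_arith_mean_weighted (s := (Finset.univ : Finset (Option (Fin K))))
        (fun o => o.elim (1 - ∑ i, (1 : ℝ) / (p i : ℝ)) (fun i => (1 : ℝ) / (p i : ℝ)))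
        (fun o => o.elim 1 (fun i => a i x ^ p i / A i))
        (by
          intro o _
          cases o with
          | none => exact sub_nonneg.2 hs
          | some i => exact div_nonneg zero_le_one (Nat.cast_nonneg _))
        (by
          rw [Fintype.sum_option]
          simp only [Option.elim]
          ring)
        (by
          intro o _
          cases o with
          | none => exact zero_le_one
          | some i => exact div_nonneg (pow_nonneg (ha i x) _) (hA i))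
      rw [Fintype.sum_option, Fintype.prod_option] at h
      simp only [Option.elim, Real.one_rpow, one_mul, mul_one] at h
      rw [add_comm]
      refine le_trans (le_of_eq ?_) h
      apply Finset.prod_congr rfl
      intro i _
      have hp0 : p i ≠ 0 := by have := hp i; omega
      rw [Real.div_rpow (pow_nonneg (ha i x) _) (hA i)]
      congr 1
      rw [one_div, Real.pow_rpow_inv_natCast (ha i x) hp0]
    have h1 : ∑ x ∈ s, w x * ∏ i, (a i x / B i) ≤ 1 := by
      calc ∑ x ∈ s, w x * ∏ i, (a i x / B i)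
          ≤ ∑ x ∈ s, w x * (∑ i, (1 : ℝ) / (p i : ℝ) * (a i x ^ p i / A i) + (1 - ∑ i, (1 : ℝ) / (p i : ℝ))) :=
            Finset.sum_le_sum fun x hx => mul_le_mul_of_nonneg_left (key x) (hw x hx)
        _ = ∑ i, (1 : ℝ) / (p i : ℝ) * ((∑ x ∈ s, w x * a i x ^ p i) / A i) +
            (∑ x ∈ s, w x) * (1 - ∑ i, (1 : ℝ) / (p i : ℝ)) := by
            simp only [mul_add, Finset.sum_add_distrib]
            congr 1
            · simp only [Finset.mul_sum, Finset.sum_div]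
              rw [Finset.sum_comm]
              apply Finset.sum_congr rfl
              intro i _
              apply Finset.sum_congr rfl
              intro x _
              ring
            · rw [Finset.sum_mul]
        _ = 1 := by
            rw [hw1, one_mul]
            have h2 : ∀ i, (1 : ℝ) / (p i : ℝ) * ((∑ x ∈ s, w x * a i x ^ p i) / A i) = (1 : ℝ) / (p i : ℝ) := by
              intro i
              rw [div_self (hpos i).ne', mul_one]
            rw [Finset.sum_congr rfl fun i _ => h2 i]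
            ring
    have h3 : ∑ x ∈ s, w x * ∏ i, a i x = (∑ x ∈ s, w x * ∏ i, (a i x / B i)) * ∏ i, B i := by
      rw [Finset.sum_mul]
      apply Finset.sum_congr rfl
      intro x _
      rw [Finset.prod_div_distrib, mul_assoc, div_mul_cancel₀ _ (Finset.prod_pos fun i _ => hB i).ne']
    rw [h3]
    calc (∑ x ∈ s, w x * ∏ i, (a i x / B i)) * ∏ i, B i ≤ 1 * ∏ i, B i :=
          mul_le_mul_of_nonneg_right h1 (Finset.prod_nonneg fun i _ => (hB i).le)
      _ = _ := one_mul _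

/-- the weights -/
private noncomputable def Bin_w (N j : ℕ) : ℝ := ((2 * N).choose j : ℝ) / 4 ^ N

private lemma Bin_w_nonneg (N j : ℕ) : 0 ≤ Bin_w N j := by
  unfold Bin_w
  positivity

private lemma Bin_w_sum (N : ℕ) : ∑ j ∈ range (2 * N + 1), Bin_w N j = 1 := by
  unfold Bin_w
  rw [← Finset.sum_div]
  have h : ∑ j ∈ range (2 * N + 1), ((2 * N).choose j : ℝ) = 4 ^ N := by
    have h1 := Nat.sum_range_choose (2 * N)
    have h2 : ((∑ j ∈ range (2 * N + 1), (2 * N).choose j : ℕ) : ℝ) = ((2 ^ (2 * N) : ℕ) : ℝ) := by rw [h1]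
    push_cast at h2
    rw [h2, pow_mul]
    norm_num
  rw [h, div_self (by positivity)]

/-- the unit vector with the phase `(j - N) t` -/
private noncomputable def Bin_e (N j : ℕ) (t : ℝ) : ℂ :=
  Complex.exp (Complex.I * (((j : ℝ) - (N : ℝ)) * t : ℝ))

private lemma Bin_e_add (N j : ℕ) (s t : ℝ) : Bin_e N j (s + t) = Bin_e N j s * Bin_e N j t := by
  unfold Bin_e
  rw [← Complex.exp_add]
  congr 1
  push_cast
  ring

private lemma Bin_e_zero (N j : ℕ) : Bin_e N j 0 = 1 := by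
  unfold Bin_e
  simp

private lemma Bin_e_sum (N j : ℕ) {ι : Type*} (s : Finset ι) (f : ι → ℝ) :
    Bin_e N j (∑ i ∈ s, f i) = ∏ i ∈ s, Bin_e N j (f i) := by
  classical
  induction s using Finset.induction_on with
  | empty => simp [Bin_e_zero]
  | insert a s ha ih => rw [Finset.sum_insert ha, Finset.prod_insert ha, Bin_e_add, ih]

private lemma Bin_e_conj (N j : ℕ) (t : ℝ) : conj (Bin_e N j t) = Bin_e N j (-t) := by
  unfold Bin_e
  rw [← Complex.exp_conj]
  congr 1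
  rw [map_mul, Complex.conj_I, Complex.conj_ofReal]
  push_cast
  ring

private lemma Bin_cos (N : ℕ) (t : ℝ) :
    ((Real.cos (t / 2) ^ (2 * N) : ℝ) : ℂ) = ∑ j ∈ range (2 * N + 1), (Bin_w N j : ℂ) * Bin_e N j t := by
  have h1 : ((Real.cos (t / 2) : ℝ) : ℂ) =
      (Complex.exp (Complex.I * ((t / 2 : ℝ) : ℂ)) + Complex.exp (-(Complex.I * ((t / 2 : ℝ) : ℂ)))) / 2 := by
    rw [Complex.ofReal_cos, Complex.cos]
    congr 2
    · congr 1
      ring
    · congr 1
      ring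
  rw [Complex.ofReal_pow, h1, div_pow, add_pow, Finset.sum_div]
  apply Finset.sum_congr rfl
  intro j hj
  have hj' : j ≤ 2 * N := Nat.lt_succ_iff.1 (Finset.mem_range.1 hj)
  have h2 : Complex.exp (Complex.I * ((t / 2 : ℝ) : ℂ)) ^ j *
      Complex.exp (-(Complex.I * ((t / 2 : ℝ) : ℂ))) ^ (2 * N - j) = Bin_e N j t := by
    unfold Bin_e
    rw [← Complex.exp_nat_mul, ← Complex.exp_nat_mul, ← Complex.exp_add]
    congr 1
    rw [Nat.cast_sub hj']
    push_cast
    ring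
  have h3 : (2 : ℂ) ^ (2 * N) = 4 ^ N := by
    rw [pow_mul]
    norm_num
  rw [h2, h3]
  unfold Bin_w
  push_cast
  ring

/-- the quadratic form of the kernel -/
private lemma Bin_quad (N : ℕ) {α : Type*} (Z : Finset α) (g : α → ℝ) :
    ∑ z ∈ Z ×ˢ Z, Real.cos ((g z.1 - g z.2) / 2) ^ (2 * N) =
      ∑ j ∈ range (2 * N + 1), Bin_w N j * ‖∑ z ∈ Z, Bin_e N j (g z)‖ ^ 2 := by
  have h1 : ∀ j, ((‖∑ z ∈ Z, Bin_e N j (g z)‖ ^ 2 : ℝ) : ℂ) = ∑ z ∈ Z ×ˢ Z, Bin_e N j (g z.1 - g z.2) := by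
    intro j
    rw [Complex.ofReal_pow, ← Complex.mul_conj', map_sum, Finset.sum_mul_sum, Finset.sum_product]
    apply Finset.sum_congr rfl
    intro z _
    apply Finset.sum_congr rfl
    intro z' _
    rw [Bin_e_conj, sub_eq_add_neg, Bin_e_add]
  have h2 : ((∑ z ∈ Z ×ˢ Z, Real.cos ((g z.1 - g z.2) / 2) ^ (2 * N) : ℝ) : ℂ) =
      ((∑ j ∈ range (2 * N + 1), Bin_w N j * ‖∑ z ∈ Z, Bin_e N j (g z)‖ ^ 2 : ℝ) : ℂ) := by
    rw [Complex.ofReal_sum, Complex.ofReal_sum]
    rw [Finset.sum_congr rfl fun z _ => Bin_cos N (g z.1 - g z.2), Finset.sum_comm]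
    apply Finset.sum_congr rfl
    intro j _
    rw [Complex.ofReal_mul, h1, Finset.mul_sum]
  exact_mod_cast h2

private lemma Bin_EA (N : ℕ) (Δ : ℝ) (K : ℕ) (H : Fin K → ℕ) :
    EA N Δ K H = ∑ j ∈ range (2 * N + 1), Bin_w N j *
      ∏ i : Fin K, ‖∑ x ∈ Icc 1 (H i), Bin_e N j (Δ * (((i.val : ℝ) + 1) * Real.log x))‖ ^ 2 := by
  classical
  have h := Bin_quad N (Fintype.piFinset fun i : Fin K => Icc 1 (H i))
    (fun z => ∑ i : Fin K, Δ * (((i.val : ℝ) + 1) * Real.log (z i)))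
  unfold EA
  have h1 : ∀ z : (Fin K → ℕ) × (Fin K → ℕ),
      ker N Δ (∑ i : Fin K, ((i.val : ℝ) + 1) * (Real.log (z.1 i) - Real.log (z.2 i))) =
      Real.cos ((∑ i : Fin K, Δ * (((i.val : ℝ) + 1) * Real.log (z.1 i)) -
        ∑ i : Fin K, Δ * (((i.val : ℝ) + 1) * Real.log (z.2 i))) / 2) ^ (2 * N) := by
    intro z
    unfold ker
    congr 3
    rw [← Finset.sum_sub_distrib, Finset.mul_sum]
    apply Finset.sum_congr rfl
    intro i _
    ring
  rw [Finset.sum_congr rfl fun z _ => h1 z, h]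
  apply Finset.sum_congr rfl
  intro j _
  rw [Finset.prod_pow, ← norm_prod, Finset.prod_univ_sum]
  congr 3
  apply Finset.sum_congr rfl
  intro z _
  rw [Bin_e_sum]

private lemma Bin_TA (N : ℕ) (Δ : ℝ) (k p H : ℕ) :
    TA N Δ k p H = ∑ j ∈ range (2 * N + 1), Bin_w N j *
      (‖∑ x ∈ Icc 1 H, Bin_e N j (Δ * ((k : ℝ) * Real.log x))‖ ^ 2) ^ p := by
  classical
  have h := Bin_quad N (Fintype.piFinset fun _ : Fin p => Icc 1 H)
    (fun z => ∑ i : Fin p, Δ * ((k : ℝ) * Real.log (z i)))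
  unfold TA
  have h1 : ∀ z : (Fin p → ℕ) × (Fin p → ℕ),
      ker N Δ ((k : ℝ) * ∑ j : Fin p, (Real.log (z.1 j) - Real.log (z.2 j))) =
      Real.cos ((∑ i : Fin p, Δ * ((k : ℝ) * Real.log (z.1 i)) -
        ∑ i : Fin p, Δ * ((k : ℝ) * Real.log (z.2 i))) / 2) ^ (2 * N) := by
    intro z
    unfold ker
    congr 3
    rw [← Finset.sum_sub_distrib, Finset.mul_sum, Finset.mul_sum]
    apply Finset.sum_congr rfl
    intro i _
    ring
  rw [Finset.sum_congr rfl fun z _ => h1 z, h]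
  apply Finset.sum_congr rfl
  intro j _
  rw [← pow_mul, mul_comm 2 p, pow_mul]
  congr 2
  rw [← norm_pow]
  congr 1
  have h2 : (∑ x ∈ Icc 1 H, Bin_e N j (Δ * ((k : ℝ) * Real.log x))) ^ p =
      ∏ _i : Fin p, ∑ x ∈ Icc 1 H, Bin_e N j (Δ * ((k : ℝ) * Real.log x)) := by
    rw [Finset.prod_const, Finset.card_univ, Fintype.card_fin]
  rw [h2, Finset.prod_univ_sum]
  apply Finset.sum_congr rfl
  intro z _
  rw [Bin_e_sum]

theorem EA_le (N : ℕ) (Δ : ℝ) (K : ℕ) (H p : Fin K → ℕ) (hp : ∀ i, 1 ≤ p i)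
    (hs : ∑ i, (1 : ℝ) / (p i : ℝ) ≤ 1) :
    EA N Δ K H ≤ ∏ i : Fin K, (TA N Δ (i.val + 1) (p i) (H i)) ^ ((1 : ℝ) / (p i : ℝ)) := by
  have h := Bin_holder (range (2 * N + 1)) (Bin_w N) (fun j _ => Bin_w_nonneg N j) (Bin_w_sum N)
    (fun (i : Fin K) j => ‖∑ x ∈ Icc 1 (H i), Bin_e N j (Δ * (((i.val : ℝ) + 1) * Real.log x))‖ ^ 2)
    (fun i j => by positivity) p hp hs
  rw [← Bin_EA] at h
  refine h.trans (le_of_eq ?_)
  apply Finset.prod_congr rfl
  intro i _
  rw [Bin_TA]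
  push_cast
  rfl

end Pool.MP_a95293_nt.SF
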