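import Pool.Agent.Lib_MP_a95293_sf.Defs

/-!
# Piece BRAN: the branch of a plane curve `c (x, z) = 0` at a point with `c_z ≠ 0`

`sh x0 : ℚ[X] → ℚ⟦X⟧`, `X ↦ x0 + X`.  `pol r c : ℚ[X][X]` is the polynomial `c` in `z` over `ℚ[x]`.

PROOF of `branch`.  The leading coefficient `a` of `(pol r c).map (sh x0)` has constant coefficient `a (x0) ≠ 0`, so it is
a unit of `ℚ⟦X⟧` and `a⁻¹ c (x0 + X, z)` is monic in `z`.  `ℚ⟦X⟧` is `(X)`-adically complete (`PowerSeries` instance in
Mathlib/RingTheory/AdicCompletion/Completeness.lean), so it is a `HenselianRing` for `Ideal.span {X}`; Hensel's lemma at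
`C z0` gives `z`.
`z'`: compare the coefficients of `X` in `c (x0 + X, z) = 0`: `c_x + c_z * coeff 1 z = 0`.
-/

set_option autoImplicit false

namespace Pool.MP_a95293_nt.SF

open Finset Polynomial

/-- the substitution `X ↦ x0 + X` -/
noncomputable def sh (x0 : ℚ) : ℚ[X] →+* PowerSeries ℚ :=
  eval₂RingHom (PowerSeries.C (R := ℚ)) (PowerSeries.C (R := ℚ) x0 + PowerSeries.X)

/-- the polynomial `c (x, z)` as a polynomial in `z` over `ℚ[x]` -/
noncomputable def pol (r : ℕ) (c : ℕ → ℕ → ℤ) : ℚ[X][X] :=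
  ∑ h ∈ range r, C (∑ i ∈ range r, C ((c i h : ℤ) : ℚ) * X ^ i) * X ^ h

theorem pol_eval (r : ℕ) (c : ℕ → ℕ → ℤ) (x z : ℤ) :
    ((pol r c).map (evalRingHom (x : ℚ))).eval (z : ℚ) = (ev2 r c x z : ℚ) := by
  unfold pol ev2
  rw [Finset.sum_comm]
  push_cast
  rw [Polynomial.map_sum, eval_finsetSum]
  refine Finset.sum_congr rfl fun h _ => ?_
  rw [Polynomial.map_mul, Polynomial.map_pow, Polynomial.map_C, Polynomial.map_X, eval_mul, eval_pow,
    eval_C, eval_X, coe_evalRingHom, eval_finsetSum, Finset.sum_mul]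
  refine Finset.sum_congr rfl fun i _ => ?_
  simp

/-- shift of a finite sum -/
private theorem bran_shift {M : Type*} [AddCommMonoid M] (s : ℕ) (f g : ℕ → M) (h0 : f 0 = 0) (hs : g s = 0)
    (h : ∀ k, f (k + 1) = g k) :
    ∑ k ∈ range (s + 1), f k = ∑ k ∈ range (s + 1), g k := by
  rw [Finset.sum_range_succ', Finset.sum_range_succ, h0, hs, add_zero, add_zero]
  exact Finset.sum_congr rfl fun k _ => h k

/-- the derivative in `z` of `pol r c` is `pol r (dz c)` -/
private theorem bran_deriv (r : ℕ) (c : ℕ → ℕ → ℤ) (hc : Sup2 r c) :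
    derivative (pol r c) = pol r (dz c) := by
  unfold pol
  rw [derivative_sum]
  rcases r with _ | s
  · simp
  · refine bran_shift s _ _ ?_ ?_ fun h => ?_
    · rw [pow_zero, mul_one, derivative_C]
    · have e2 : (∑ i ∈ range (s + 1), C ((dz c i s : ℤ) : ℚ) * X ^ i : ℚ[X]) = 0 := by
        refine Finset.sum_eq_zero fun i _ => ?_
        have : c i (s + 1) = 0 := by
          by_contra hne
          have := (hc i (s + 1) hne).2
          omega
        simp [dz, this]
      rw [e2, map_zero, zero_mul]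
    · have e3 : (∑ i ∈ range (s + 1), C ((dz c i h : ℤ) : ℚ) * X ^ i : ℚ[X])
          = C ((h : ℚ) + 1) * ∑ i ∈ range (s + 1), C ((c i (h + 1) : ℤ) : ℚ) * X ^ i := by
        rw [Finset.mul_sum]
        refine Finset.sum_congr rfl fun i _ => ?_
        simp only [dz]
        push_cast
        simp only [map_mul, map_add, map_one, map_natCast]
        ring
      rw [e3, derivative_mul, derivative_C, zero_mul, zero_add, derivative_X_pow]
      simp only [map_mul, map_add, map_one, map_natCast, Nat.add_sub_cancel, Nat.cast_add, Nat.cast_one]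
      ring

theorem pol_deriv (r : ℕ) (c : ℕ → ℕ → ℤ) (hc : Sup2 r c) (x z : ℤ) :
    ((derivative (pol r c)).map (evalRingHom (x : ℚ))).eval (z : ℚ) = (ev2 r (dz c) x z : ℚ) := by
  rw [bran_deriv r c hc, pol_eval]

theorem pol_coeff (r : ℕ) (c : ℕ → ℕ → ℤ) (h : ℕ) :
    ((pol r c).coeff h).natDegree ≤ r ∧ (pol r c).natDegree < r + 1 := by
  have hd : ∀ j : ℕ, (∑ i ∈ range r, C ((c i j : ℤ) : ℚ) * X ^ i : ℚ[X]).natDegree ≤ r := by
    intro j
    refine natDegree_sum_le_of_forall_le _ _ fun i hi => ?_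
    exact (natDegree_C_mul_X_pow_le _ _).trans (Finset.mem_range.1 hi).le
  constructor
  · unfold pol
    rw [finsetSum_coeff]
    refine natDegree_sum_le_of_forall_le _ _ fun j hj => ?_
    rw [coeff_C_mul_X_pow]
    split_ifs
    · exact hd j
    · simp
  · refine Nat.lt_succ_of_le ?_
    unfold pol
    refine natDegree_sum_le_of_forall_le _ _ fun j hj => ?_
    exact (natDegree_C_mul_X_pow_le _ _).trans (Finset.mem_range.1 hj).le

/-- the constant coefficient of `sh x0 p` is `p (x0)` -/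
private theorem bran_sh (x0 : ℚ) :
    (PowerSeries.constantCoeff (R := ℚ)).comp (sh x0) = evalRingHom x0 := by
  refine Polynomial.ringHom_ext (fun a => ?_) ?_
  · simp [sh]
  · simp [sh]

/-- the constant coefficient of `p (x0 + X, w)` -/
private theorem bran_const (x0 : ℚ) (p : ℚ[X][X]) (w : PowerSeries ℚ) :
    PowerSeries.constantCoeff (R := ℚ) (p.eval₂ (sh x0) w)
      = (p.map (evalRingHom x0)).eval (PowerSeries.constantCoeff (R := ℚ) w) := by
  rw [hom_eval₂, bran_sh, eval_map]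

/-- the coefficient of `X` in `c (x0 + X, z)` -/
private theorem bran_one (r : ℕ) (c : ℕ → ℕ → ℤ) (hc : Sup2 r c) (x0 z0 : ℤ) (z : PowerSeries ℚ)
    (hz : PowerSeries.constantCoeff (R := ℚ) z = (z0 : ℚ)) :
    PowerSeries.coeff (R := ℚ) 1 ((pol r c).eval₂ (sh x0) z)
      = (ev2 r (dx c) x0 z0 : ℚ) + (ev2 r (dz c) x0 z0 : ℚ) * PowerSeries.coeff (R := ℚ) 1 z := by
  have hsh : ∀ j : ℕ, sh x0 (∑ i ∈ range r, C ((c i j : ℤ) : ℚ) * X ^ i)
      = ∑ i ∈ range r, PowerSeries.C (R := ℚ) ((c i j : ℤ) : ℚ)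
          * (PowerSeries.C (R := ℚ) (x0 : ℚ) + PowerSeries.X) ^ i := by
    intro j
    rw [map_sum]
    refine Finset.sum_congr rfl fun i _ => ?_
    rw [sh, coe_eval₂RingHom, eval₂_mul, eval₂_C, eval₂_X_pow]
  have h1 : (pol r c).eval₂ (sh x0) z
      = ∑ h ∈ range r, ∑ i ∈ range r, PowerSeries.C (R := ℚ) ((c i h : ℤ) : ℚ)
          * (PowerSeries.C (R := ℚ) (x0 : ℚ) + PowerSeries.X) ^ i * z ^ h := by
    unfold pol
    rw [eval₂_finsetSum]
    refine Finset.sum_congr rfl fun h _ => ?_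
    rw [eval₂_mul, eval₂_C, eval₂_X_pow, hsh, Finset.sum_mul]
  have hx1 : PowerSeries.coeff (R := ℚ) 1 (PowerSeries.C (R := ℚ) (x0 : ℚ) + PowerSeries.X) = 1 := by
    rw [map_add, PowerSeries.coeff_C, PowerSeries.coeff_one_X, if_neg one_ne_zero, zero_add]
  have hx0 : PowerSeries.constantCoeff (R := ℚ) (PowerSeries.C (R := ℚ) (x0 : ℚ) + PowerSeries.X) = x0 := by
    simp
  -- the coefficient of one term
  have h2 : ∀ i h : ℕ, PowerSeries.coeff (R := ℚ) 1 (PowerSeries.C (R := ℚ) ((c i h : ℤ) : ℚ)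
          * (PowerSeries.C (R := ℚ) (x0 : ℚ) + PowerSeries.X) ^ i * z ^ h)
      = (c i h : ℚ) * (i : ℚ) * (x0 : ℚ) ^ (i - 1) * (z0 : ℚ) ^ h
        + (c i h : ℚ) * (x0 : ℚ) ^ i * ((h : ℚ) * (z0 : ℚ) ^ (h - 1)) * PowerSeries.coeff (R := ℚ) 1 z := by
    intro i h
    rw [mul_assoc, PowerSeries.coeff_C_mul, PowerSeries.coeff_one_mul, PowerSeries.coeff_one_pow,
      PowerSeries.coeff_one_pow, map_pow, map_pow, hx1, hx0, hz]
    ring
  rw [h1, map_sum]
  simp only [map_sum, h2, Finset.sum_add_distrib]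
  -- the two shifts
  have hA : ∑ h ∈ range r, ∑ i ∈ range r, (c i h : ℚ) * (i : ℚ) * (x0 : ℚ) ^ (i - 1) * (z0 : ℚ) ^ h
      = (ev2 r (dx c) x0 z0 : ℚ) := by
    unfold ev2
    rw [Finset.sum_comm]
    push_cast
    rcases r with _ | s
    · simp
    · refine bran_shift s _ _ (by simp) ?_ fun i => ?_
      · refine Finset.sum_eq_zero fun h _ => ?_
        have : c (s + 1) h = 0 := by
          by_contra hne
          have := (hc (s + 1) h hne).1
          omega
        simp [dx, this]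
      · refine Finset.sum_congr rfl fun h _ => ?_
        simp only [dx]
        rw [Nat.add_sub_cancel]
        push_cast
        ring
  have hB : ∑ h ∈ range r, ∑ i ∈ range r, (c i h : ℚ) * (x0 : ℚ) ^ i * ((h : ℚ) * (z0 : ℚ) ^ (h - 1))
        * PowerSeries.coeff (R := ℚ) 1 z
      = (ev2 r (dz c) x0 z0 : ℚ) * PowerSeries.coeff (R := ℚ) 1 z := by
    have e0 : ∑ h ∈ range r, ∑ i ∈ range r, (c i h : ℚ) * (x0 : ℚ) ^ i * ((h : ℚ) * (z0 : ℚ) ^ (h - 1))
        = (ev2 r (dz c) x0 z0 : ℚ) := by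
      unfold ev2
      rw [Finset.sum_comm (s := range r) (t := range r) (f := fun i h => dz c i h * x0 ^ i * z0 ^ h)]
      push_cast
      rcases r with _ | s
      · simp
      · refine bran_shift s _ _ (by simp) ?_ fun h => ?_
        · refine Finset.sum_eq_zero fun i _ => ?_
          have : c i (s + 1) = 0 := by
            by_contra hne
            have := (hc i (s + 1) hne).2
            omega
          simp [dz, this]
        · refine Finset.sum_congr rfl fun i _ => ?_
          simp only [dz]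
          rw [Nat.add_sub_cancel]
          push_cast
          ring
    rw [← e0, Finset.sum_mul]
    exact Finset.sum_congr rfl fun h _ => by rw [Finset.sum_mul]
  rw [hA, hB]

theorem branch (r : ℕ) (c : ℕ → ℕ → ℤ) (hc : Sup2 r c) (x0 z0 : ℤ) (h0 : ev2 r c x0 z0 = 0)
    (h1 : ev2 r (dz c) x0 z0 ≠ 0) (h2 : ((pol r c).leadingCoeff).eval (x0 : ℚ) ≠ 0) :
    ∃ z : PowerSeries ℚ, PowerSeries.constantCoeff (R := ℚ) z = (z0 : ℚ) ∧
      (pol r c).eval₂ (sh x0) z = 0 ∧
      (ev2 r (dx c) x0 z0 : ℚ) + (ev2 r (dz c) x0 z0 : ℚ) * PowerSeries.coeff (R := ℚ) 1 z = 0 := by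
  set p : ℚ[X][X] := pol r c with hp
  set a : PowerSeries ℚ := sh x0 p.leadingCoeff with ha
  have hac : PowerSeries.constantCoeff (R := ℚ) a = p.leadingCoeff.eval (x0 : ℚ) := by
    have := congrArg (fun φ : ℚ[X] →+* ℚ => φ p.leadingCoeff) (bran_sh (x0 : ℚ))
    simpa using this
  have hau : IsUnit a := by
    rw [PowerSeries.isUnit_iff_constantCoeff, hac]
    exact isUnit_iff_ne_zero.2 h2
  obtain ⟨b, hb⟩ := hau.exists_left_inv
  have ha0 : a ≠ 0 := hau.ne_zero
  set g : (PowerSeries ℚ)[X] := C b * p.map (sh x0) with hg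
  have hgm : g.Monic := by
    have hlc : (p.map (sh x0)).leadingCoeff = a := leadingCoeff_map_of_leadingCoeff_ne_zero _ ha0
    unfold Monic
    rw [hg, leadingCoeff_mul, leadingCoeff_C, hlc, hb]
  have hge : ∀ w : PowerSeries ℚ, g.eval w = b * p.eval₂ (sh x0) w := by
    intro w
    rw [hg, eval_mul, eval_C, eval_map]
  have hgd : ∀ w : PowerSeries ℚ, (derivative g).eval w = b * (derivative p).eval₂ (sh x0) w := by
    intro w
    rw [hg, derivative_C_mul, eval_mul, eval_C, derivative_map, eval_map]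
  have hbc : PowerSeries.constantCoeff (R := ℚ) b ≠ 0 := by
    intro h
    have := congrArg (PowerSeries.constantCoeff (R := ℚ)) hb
    rw [map_mul, h, zero_mul, map_one] at this
    exact one_ne_zero this.symm
  have hI : ∀ w : PowerSeries ℚ, w ∈ (Ideal.span {PowerSeries.X} : Ideal (PowerSeries ℚ))
      ↔ PowerSeries.constantCoeff (R := ℚ) w = 0 := by
    intro w
    rw [Ideal.mem_span_singleton, PowerSeries.X_dvd_iff]
  have key := HenselianRing.is_henselian (I := (Ideal.span {PowerSeries.X} : Ideal (PowerSeries ℚ)))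
    g hgm (PowerSeries.C (R := ℚ) (z0 : ℚ)) (by
      rw [hI, hge, map_mul, bran_const, PowerSeries.constantCoeff_C, hp, pol_eval, h0]
      simp) (by
      have hu : IsUnit ((derivative g).eval (PowerSeries.C (R := ℚ) (z0 : ℚ))) := by
        rw [PowerSeries.isUnit_iff_constantCoeff, hgd, map_mul, bran_const,
          PowerSeries.constantCoeff_C, hp, pol_deriv r c hc]
        exact isUnit_iff_ne_zero.2 (mul_ne_zero hbc (by exact_mod_cast h1))
      exact hu.map _)
  obtain ⟨z, hz1, hz2⟩ := key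
  have hzc : PowerSeries.constantCoeff (R := ℚ) z = (z0 : ℚ) := by
    rw [hI, map_sub, PowerSeries.constantCoeff_C] at hz2
    exact sub_eq_zero.1 hz2
  have hz0 : p.eval₂ (sh x0) z = 0 := by
    have h3 : g.eval z = 0 := hz1
    rw [hge] at h3
    have h4 : a * (b * p.eval₂ (sh x0) z) = 0 := by rw [h3, mul_zero]
    have h5 : a * b = 1 := by rw [mul_comm]; exact hb
    rwa [← mul_assoc, h5, one_mul] at h4
  refine ⟨z, hzc, hz0, ?_⟩
  rw [← bran_one r c hc x0 z0 z hzc, ← hp, hz0, map_zero]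

end Pool.MP_a95293_nt.SF
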