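import Pool.Agent.Lib_MP_a95293_ps.Greedy

/-!
# Piece CASH: every triple is in one of the families, exponent `1/2`

Logarithms of the radicals: `la, lb, lc`, sum at most `L = log X`.
-/

set_option autoImplicit false

namespace Pool.MP_a95293_nt.SF

open Finset
open Pool.MP_a95293_nt.RC (rd Prm pr3)

/-- two coprime divisors `≥ X`, or a prime power times a number `< X` -/
theorem side (n X : ℕ) (hX : 2 ≤ X) (hn : X ^ 4 ≤ n) :
    (∃ q q' : ℕ, X ≤ q ∧ X ≤ q' ∧ q.Coprime q' ∧ q * q' ∣ n) ∨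
      ∃ B p e : ℕ, n = B * p ^ e ∧ p.Prime ∧ B.Coprime p ∧ B < X ∧ 1 ≤ e := by
  have hXn : X ≤ n := (Nat.le_self_pow (by norm_num) X).trans hn
  obtain ⟨u, p, e, v, hn', hp, he, g1, g2, g3, hu, hv, huX, hXq, -, -⟩ := PS.greedy n X hX hXn
  rcases le_or_gt X v with hXv | hvX
  · refine Or.inl ⟨u * p ^ e, v, hXq, hXv, ?_, ⟨1, by rw [hn', mul_one]⟩⟩
    exact Nat.Coprime.mul_left g3 (Nat.Coprime.pow_left e g2.symm)
  rcases le_or_gt X (u * v) with hXuv | huvX
  · refine Or.inl ⟨p ^ e, u * v, ?_, hXuv, ?_, ⟨1, by rw [hn']; ring⟩⟩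
    · by_contra h
      push Not at h
      have h1 : u * p ^ e * v < X * X * X := by
        have h2 : u * p ^ e < X * X := Nat.mul_lt_mul'' huX h
        exact Nat.mul_lt_mul'' h2 hvX
      have h3 : X * X * X ≤ X ^ 4 := by
        calc X * X * X = X ^ 3 := by ring
          _ ≤ X ^ 4 := Nat.pow_le_pow_right (by omega) (by norm_num)
      omega
    · exact Nat.Coprime.mul_right (Nat.Coprime.pow_left e g1.symm) (Nat.Coprime.pow_left e g2.symm)
  · exact Or.inr ⟨u * v, p, e, by rw [hn']; ring, hp, Nat.Coprime.mul_left g1 g2, huvX, he⟩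

/-- one side, when the energy move does not apply -/
private theorem CasH_side {n X K : ℕ} {θ s : ℝ} (hX : 2 ≤ X) (hθ : 1 / 2 < θ) (hn : 0 < n)
    (h1 : ((K : ℝ) + 4) * Real.log X ≤ Real.log n) (h2 : Real.log (rd n) ≤ Real.log X)
    (h3 : Real.log (rd n) + s ≤ Real.log X)
    (hq : ∀ q : ℕ, q ∣ n → X ≤ q → θ * Real.log X < Real.log (rd q) + s / 2) :
    ∃ B p e : ℕ, n = B * p ^ e ∧ p.Prime ∧ K ≤ e ∧
      Real.log (rd B) = Real.log (rd n) - Real.log p ∧ θ * Real.log X < Real.log p + s / 2 ∧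
      e * Real.log p ≤ Real.log n ∧ p ≤ X := by
  have hX0 : (0 : ℝ) < X := by exact_mod_cast (by omega : 0 < X)
  have hX1 : (1 : ℝ) < X := by exact_mod_cast (by omega : 1 < X)
  have hL0 : 0 < Real.log X := Real.log_pos hX1
  have hn0 : (0 : ℝ) < n := by exact_mod_cast hn
  have hn4 : X ^ 4 ≤ n := by
    have h4 : Real.log ((X : ℝ) ^ 4) ≤ Real.log n := by
      rw [Real.log_pow]
      push_cast
      have : (0 : ℝ) ≤ K := Nat.cast_nonneg K
      nlinarith
    have h5 := (Real.log_le_log_iff (by positivity) hn0).1 h4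
    exact_mod_cast h5
  rcases side n X hX hn4 with ⟨q, q', hXq, hXq', hc, hd⟩ | ⟨B, p, e, hn', hp, hc, hBX, he⟩
  · exfalso
    have e1 := hq q (dvd_trans (Dvd.intro _ rfl) hd) hXq
    have e2 := hq q' (dvd_trans (Dvd.intro_left _ rfl) hd) hXq'
    have e3 : rd q * rd q' ≤ rd n := by
      rw [← Pool.MP_a95293_nt.RC.rd_mul hc]
      refine Nat.le_of_dvd (Pool.MP_a95293_nt.RC.rd_pos n) ?_
      unfold Pool.MP_a95293_nt.RC.rd
      exact prod_dvd_prod_of_subset _ _ _ (Nat.primeFactors_mono hd hn.ne')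
    have r1 : (0 : ℝ) < rd q := by exact_mod_cast Pool.MP_a95293_nt.RC.rd_pos q
    have r2 : (0 : ℝ) < rd q' := by exact_mod_cast Pool.MP_a95293_nt.RC.rd_pos q'
    have e4 : Real.log (rd q) + Real.log (rd q') ≤ Real.log (rd n) := by
      rw [← Real.log_mul r1.ne' r2.ne']
      exact Real.log_le_log (by positivity) (by exact_mod_cast e3)
    have e5 : 1 / 2 * Real.log X < θ * Real.log X := mul_lt_mul_of_pos_right hθ hL0
    linarith
  · have hB0 : 0 < B := by
      rcases Nat.eq_zero_or_pos B with h | h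
      · rw [h, zero_mul] at hn'
        omega
      · exact h
    have B0 : (0 : ℝ) < B := by exact_mod_cast hB0
    have p0 : (0 : ℝ) < p := by exact_mod_cast hp.pos
    have p1 : (1 : ℝ) < p := by exact_mod_cast hp.one_lt
    have lp : 0 < Real.log p := Real.log_pos p1
    have lB : 0 ≤ Real.log (B : ℝ) := Real.log_nonneg (by exact_mod_cast hB0)
    have rdp : rd (p ^ e) = p := by
      unfold Pool.MP_a95293_nt.RC.rd
      rw [Nat.primeFactors_prime_pow (by omega) hp, prod_singleton]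
    have e1 : Real.log n = Real.log B + e * Real.log p := by
      rw [hn']
      push_cast
      rw [Real.log_mul (by positivity) (by positivity), Real.log_pow]
    have e2 : rd n = rd B * p := by
      rw [hn', Pool.MP_a95293_nt.RC.rd_mul (Nat.Coprime.pow_right e hc), rdp]
    have rB : (0 : ℝ) < rd B := by exact_mod_cast Pool.MP_a95293_nt.RC.rd_pos B
    have rB1 : (1 : ℝ) ≤ rd B := by exact_mod_cast Pool.MP_a95293_nt.RC.rd_pos B
    have lrB : 0 ≤ Real.log (rd B) := Real.log_nonneg rB1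
    have e3 : Real.log (rd n) = Real.log (rd B) + Real.log p := by
      rw [e2]
      push_cast
      rw [Real.log_mul (by positivity) (by positivity)]
    have e4 : Real.log B ≤ Real.log X := Real.log_le_log B0 (by exact_mod_cast hBX.le)
    have hK0 : (0 : ℝ) ≤ K := Nat.cast_nonneg K
    have e5 : ((K : ℝ) + 3) * Real.log X ≤ e * Real.log p := by linarith
    have e6 : X ≤ p ^ e := by
      have h4 : Real.log X ≤ Real.log ((p : ℝ) ^ e) := by
        rw [Real.log_pow]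
        nlinarith
      have h5 := (Real.log_le_log_iff hX0 (by positivity)).1 h4
      exact_mod_cast h5
    have e7 := hq (p ^ e) ⟨B, by rw [hn', mul_comm]⟩ e6
    rw [rdp] at e7
    have e8 : Real.log p ≤ Real.log X := by linarith
    have e9 : (K : ℝ) < e := by
      have he0 : (0 : ℝ) ≤ e := Nat.cast_nonneg e
      have h4 : (e : ℝ) * Real.log p ≤ e * Real.log X := mul_le_mul_of_nonneg_left e8 he0
      have h5 : (K : ℝ) * Real.log X < e * Real.log X := by nlinarith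
      exact lt_of_mul_lt_mul_right h5 hL0.le
    refine ⟨B, p, e, hn', hp, ?_, by linarith, e7, by linarith, ?_⟩
    · have : K < e := by exact_mod_cast e9
      exact this.le
    · have h4 := (Real.log_le_log_iff p0 hX0).1 e8
      exact_mod_cast h4

/-- the energy move does not apply -/
private theorem CasH_en {q r s : ℕ} {Y : ℝ} (hr : 0 < r) (hs : 0 < s) (hq : 0 < q)
    (hY : 0 < Y) (h : Y < (q : ℝ) * Real.sqrt ((r : ℝ) * s)) :
    Real.log Y < Real.log q + (Real.log r + Real.log s) / 2 := by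
  have hr0 : (0 : ℝ) < r := by exact_mod_cast hr
  have hs0 : (0 : ℝ) < s := by exact_mod_cast hs
  have hq0 : (0 : ℝ) < q := by exact_mod_cast hq
  have h2 := Real.log_lt_log hY h
  rwa [Real.log_mul (by positivity) (by positivity), Real.log_sqrt (by positivity),
    Real.log_mul (by positivity) (by positivity)] at h2

private theorem CasH_c {q r : ℕ} {Y : ℝ} (hr : 0 < r) (hq : 0 < q)
    (hY : 0 < Y) (h : Y < (q : ℝ) * r) : Real.log Y < Real.log q + Real.log r := by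
  have hr0 : (0 : ℝ) < r := by exact_mod_cast hr
  have hq0 : (0 : ℝ) < q := by exact_mod_cast hq
  have h2 := Real.log_lt_log hY h
  rwa [Real.log_mul (by positivity) (by positivity)] at h2

theorem casH (θ : ℝ) (h1 : 1 / 2 < θ) (h2 : θ < 2 / 3) (e₀ : ℕ) (η : ℝ) (hη : 0 < η)
    (hη' : η < 2 * θ - 1) : ∃ M : ℕ, ∀ A : ℕ, ∃ E : ℕ,
    ∀ C : ℝ, 1 ≤ C → ∃ X₀ : ℕ, ∀ X : ℕ, X₀ ≤ X → ∀ z : ℕ × ℕ, Prm z → z.1 ≤ z.2 →
    rd (pr3 z) ≤ X → rd (pr3 z) ^ M ≤ z.1 + z.2 → z.1 + z.2 ≤ X ^ A →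
    ((rd z.1 : ℝ) * rd z.2 ≤ (X : ℝ) ^ θ ∨ (rd z.1 : ℝ) * rd (z.1 + z.2) ≤ (X : ℝ) ^ θ ∨
        (rd z.2 : ℝ) * rd (z.1 + z.2) ≤ (X : ℝ) ^ θ) ∨
    (z.1 * X ≤ z.2 ∧ C * (X : ℝ) ^ η * (rd z.2 : ℝ) ^ 2 ≤ X ∧
        C * (X : ℝ) ^ η * (rd (z.1 + z.2) : ℝ) ^ 2 ≤ X ∧
        Real.sqrt ((rd z.2 : ℝ) * rd (z.1 + z.2)) ≤ (X : ℝ) ^ θ) ∨
    (∃ q : ℕ, 1 ≤ q ∧ q ∣ z.1 + z.2 ∧ C * (rd z.1 : ℝ) ^ 2 ≤ q ∧ C * (rd z.2 : ℝ) ^ 2 ≤ q ∧
        (rd q : ℝ) * Real.sqrt ((rd z.1 : ℝ) * rd z.2) ≤ (X : ℝ) ^ θ) ∨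
    (∃ q : ℕ, 1 ≤ q ∧ q ∣ z.2 ∧ C * (rd z.1 : ℝ) ^ 2 ≤ q ∧ C * (rd (z.1 + z.2) : ℝ) ^ 2 ≤ q ∧
        (rd q : ℝ) * Real.sqrt ((rd z.1 : ℝ) * rd (z.1 + z.2)) ≤ (X : ℝ) ^ θ) ∨
    (∃ q : ℕ, 1 ≤ q ∧ q ∣ z.1 ∧ C * (rd z.2 : ℝ) ^ 2 ≤ q ∧ C * (rd (z.1 + z.2) : ℝ) ^ 2 ≤ q ∧
        (rd q : ℝ) * Real.sqrt ((rd z.2 : ℝ) * rd (z.1 + z.2)) ≤ (X : ℝ) ^ θ) ∨
    (∃ k m l B D A' x y t : ℕ, e₀ ≤ k ∧ k ≤ E ∧ e₀ ≤ m ∧ m ≤ E ∧ e₀ ≤ l ∧ l ≤ E ∧
        x.Prime ∧ y.Prime ∧ t.Prime ∧ x ≤ X ∧ y ≤ X ∧ t ≤ X ∧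
        (X : ℝ) ^ (2 * θ - 1) ≤ x ∧ (X : ℝ) ^ (2 * θ - 1) ≤ y ∧ (X : ℝ) ^ (2 * θ - 1) ≤ t ∧
        z.1 = A' * t ^ l ∧ z.2 = B * x ^ k ∧ z.1 + z.2 = D * y ^ m ∧
        (rd A' : ℝ) * rd B * rd D ≤ (X : ℝ) ^ (2 - 3 * θ)) := by
  have hξ0 : 0 < 2 * θ - 1 := by linarith
  set δ : ℝ := 2 * θ - 1 - η with hδ
  have hδ0 : 0 < δ := by linarith
  refine ⟨2 * (e₀ + 6), fun A => ⟨⌈(A : ℝ) / (2 * θ - 1)⌉₊, fun C hC => ⟨⌈C ^ (1 / δ)⌉₊ + 2, ?_⟩⟩⟩
  intro X hX z hz hab hR hRM hcA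
  set E : ℕ := ⌈(A : ℝ) / (2 * θ - 1)⌉₊ with hE
  have hX2 : 2 ≤ X := by omega
  have hC0 : 0 < C := by linarith
  have hX0 : (0 : ℝ) < X := by exact_mod_cast (by omega : 0 < X)
  have hX1 : (1 : ℝ) < X := by exact_mod_cast (by omega : 1 < X)
  have hL0 : 0 < Real.log X := Real.log_pos hX1
  have hCL : Real.log C ≤ δ * Real.log X := by
    have h3 : C ^ (1 / δ) ≤ (X : ℝ) :=
      (Nat.le_ceil _).trans (by exact_mod_cast (by omega : ⌈C ^ (1 / δ)⌉₊ ≤ X))
    have h4 := Real.log_le_log (by positivity) h3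
    rw [Real.log_rpow hC0] at h4
    have h5 : δ * (1 / δ * Real.log C) = Real.log C := by field_simp
    rw [← h5]
    exact mul_le_mul_of_nonneg_left h4 hδ0.le
  have hY0 : 0 < (X : ℝ) ^ θ := by positivity
  have hlY : Real.log ((X : ℝ) ^ θ) = θ * Real.log X := Real.log_rpow hX0 θ
  by_contra hcon
  push Not at hcon
  obtain ⟨⟨n12, n13, n23⟩, nA, nF1, nF2, nF3, nS⟩ := hcon
  set a := z.1 with ha
  set b := z.2 with hb
  have ha0 : 0 < a := hz.1
  have hb0 : 0 < b := hz.2.1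
  have rap : 0 < rd a := Pool.MP_a95293_nt.RC.rd_pos a
  have rbp : 0 < rd b := Pool.MP_a95293_nt.RC.rd_pos b
  have rcp : 0 < rd (a + b) := Pool.MP_a95293_nt.RC.rd_pos (a + b)
  have ra : (0 : ℝ) < rd a := by exact_mod_cast rap
  have rb : (0 : ℝ) < rd b := by exact_mod_cast rbp
  have rc : (0 : ℝ) < rd (a + b) := by exact_mod_cast rcp
  have h12 := CasH_c rbp rap hY0 n12
  have h13 := CasH_c rcp rap hY0 n13
  have h23 := CasH_c rcp rbp hY0 n23
  rw [hlY] at h12 h13 h23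
  have hpr : rd (pr3 z) = rd a * rd b * rd (a + b) := Pool.MP_a95293_nt.RC.rd_pr3 hz
  have hlpr : Real.log (rd (pr3 z)) = Real.log (rd a) + Real.log (rd b) +
      Real.log (rd (a + b)) := by
    rw [hpr]
    push_cast
    rw [Real.log_mul (by positivity) (by positivity), Real.log_mul (by positivity) (by positivity)]
  have hprpos : (0 : ℝ) < rd (pr3 z) := by exact_mod_cast Pool.MP_a95293_nt.RC.rd_pos (pr3 z)
  have hs : Real.log (rd a) + Real.log (rd b) + Real.log (rd (a + b)) ≤ Real.log X := by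
    rw [← hlpr]
    exact Real.log_le_log hprpos (by exact_mod_cast hR)
  have hla0 : 0 ≤ Real.log (rd a) := Real.log_nonneg (by exact_mod_cast rap)
  have hlb0 : 0 ≤ Real.log (rd b) := Real.log_nonneg (by exact_mod_cast rbp)
  have hlc0 : 0 ≤ Real.log (rd (a + b)) := Real.log_nonneg (by exact_mod_cast rcp)
  set L := Real.log X with hL
  set la := Real.log (rd a) with hla
  set lb := Real.log (rd b) with hlb
  set lc := Real.log (rd (a + b)) with hlc
  set t := θ * L with ht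
  have htL : 1 / 2 * L < t := mul_lt_mul_of_pos_right h1 hL0
  have hηL : 0 < η * L := mul_pos hη hL0
  have hδL : 0 < δ * L := mul_pos hδ0 hL0
  have hδe : δ * L = 2 * t - L - η * L := by rw [hδ, ht]; ring
  have ua : la < L - t := by linarith
  have ub : lb < L - t := by linarith
  have uc : lc < L - t := by linarith
  set c := a + b with hc
  have hc0 : (0 : ℝ) < c := by exact_mod_cast (by omega : 0 < c)
  have hb0r : (0 : ℝ) < b := by exact_mod_cast hb0
  have ha0r : (0 : ℝ) < a := by exact_mod_cast ha0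
  have hlogc : ((2 * (e₀ + 6) : ℕ) : ℝ) * (la + lb + lc) ≤ Real.log c := by
    rw [← hlpr, ← Real.log_pow]
    exact Real.log_le_log (by positivity) (by exact_mod_cast hRM)
  have hsum : 3 / 4 * L ≤ la + lb + lc := by linarith
  have hK0 : (0 : ℝ) ≤ e₀ := Nat.cast_nonneg e₀
  have hcL : ((e₀ : ℝ) + 6) * L ≤ Real.log c := by
    refine le_trans ?_ hlogc
    push_cast
    nlinarith
  have hlog2 : Real.log 2 ≤ L := Real.log_le_log (by norm_num) (by exact_mod_cast hX2)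
  have hlogb : Real.log c - L ≤ Real.log b := by
    have h3 : Real.log c - Real.log 2 ≤ Real.log b := by
      rw [← Real.log_div hc0.ne' (by norm_num)]
      apply Real.log_le_log (by positivity)
      rw [div_le_iff₀ (by norm_num)]
      have h3 : c ≤ b * 2 := by omega
      exact_mod_cast h3
    linarith
  have hcAL : Real.log c ≤ A * L := by
    rw [hL, ← Real.log_pow]
    exact Real.log_le_log hc0 (by exact_mod_cast hcA)
  have hbAL : Real.log b ≤ A * L :=
    (Real.log_le_log hb0r (by exact_mod_cast (by omega : b ≤ c))).trans hcAL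
  have haAL : Real.log a ≤ A * L :=
    (Real.log_le_log ha0r (by exact_mod_cast (by omega : a ≤ c))).trans hcAL
  -- the square conditions
  have sq : ∀ (r q : ℕ), 0 < r → Real.log r < L - t → X ≤ q → C * (r : ℝ) ^ 2 ≤ q := by
    intro r q hr h3 h4
    have hr0 : (0 : ℝ) < r := by exact_mod_cast hr
    have h5 : Real.log (C * (r : ℝ) ^ 2) ≤ L := by
      rw [Real.log_mul hC0.ne' (by positivity), Real.log_pow]
      push_cast
      linarith
    have h6 : C * (r : ℝ) ^ 2 ≤ X := (Real.log_le_log_iff (by positivity) hX0).1 h5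
    have h7 : (X : ℝ) ≤ q := by exact_mod_cast h4
    linarith
  have sqA : ∀ r : ℕ, 0 < r → Real.log r < L - t → C * (X : ℝ) ^ η * (r : ℝ) ^ 2 ≤ X := by
    intro r hr h3
    have hr0 : (0 : ℝ) < r := by exact_mod_cast hr
    have hXη : 0 < (X : ℝ) ^ η := by positivity
    apply (Real.log_le_log_iff (by positivity) hX0).1
    rw [Real.log_mul (by positivity) (by positivity), Real.log_mul hC0.ne' hXη.ne', Real.log_pow,
      Real.log_rpow hX0, ← hL]
    push_cast
    linarith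
  -- `a` is large
  have hreg : b < a * X := by
    by_contra h3
    push Not at h3
    have h4 := nA h3 (sqA _ rbp ub) (sqA _ rcp uc)
    have h5 := Real.log_lt_log hY0 h4
    rw [hlY, Real.log_sqrt (by positivity), Real.log_mul rb.ne' rc.ne'] at h5
    linarith
  have hloga : Real.log b - L ≤ Real.log a := by
    have h3 : Real.log b ≤ Real.log ((a : ℝ) * X) :=
      Real.log_le_log hb0r (by exact_mod_cast hreg.le)
    rw [Real.log_mul ha0r.ne' hX0.ne'] at h3
    linarith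
  have hc1 : ((e₀ : ℝ) + 4) * L ≤ Real.log c := by linarith
  have hb1 : ((e₀ : ℝ) + 4) * L ≤ Real.log b := by linarith
  have ha1 : ((e₀ : ℝ) + 4) * L ≤ Real.log a := by linarith
  obtain ⟨D, y, m, hn, hp, he, hlD, hy, hep, hyX⟩ :=
    CasH_side (n := c) (K := e₀) (θ := θ) (s := la + lb) hX2 h1 (by omega) hc1 (by linarith)
      (by linarith) (fun q hq hXq => by
        have h3 := CasH_en rap rbp (Pool.MP_a95293_nt.RC.rd_pos q) hY0
          (nF1 q (by omega) hq (sq _ _ rap ua hXq) (sq _ _ rbp ub hXq))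
        rwa [hlY] at h3)
  obtain ⟨B, x, k, hn', hp', he', hlB, hx, hep', hxX⟩ :=
    CasH_side (n := b) (K := e₀) (θ := θ) (s := la + lc) hX2 h1 (by omega) hb1 (by linarith)
      (by linarith) (fun q hq hXq => by
        have h3 := CasH_en rap rcp (Pool.MP_a95293_nt.RC.rd_pos q) hY0
          (nF2 q (by omega) hq (sq _ _ rap ua hXq) (sq _ _ rcp uc hXq))
        rwa [hlY] at h3)
  obtain ⟨F, w, l, hn'', hp'', he'', hlF, hw, hep'', hwX⟩ :=
    CasH_side (n := a) (K := e₀) (θ := θ) (s := lb + lc) hX2 h1 (by omega) ha1 (by linarith)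
      (by linarith) (fun q hq hXq => by
        have h3 := CasH_en rbp rcp (Pool.MP_a95293_nt.RC.rd_pos q) hY0
          (nF3 q (by omega) hq (sq _ _ rbp ub hXq) (sq _ _ rcp uc hXq))
        rwa [hlY] at h3)
  rw [← hL, ← ht] at hy hx hw
  rw [← hlc] at hlD
  rw [← hlb] at hlB
  rw [← hla] at hlF
  have hξL : (2 * θ - 1) * L = 2 * t - L := by rw [ht]; ring
  -- exponents bounded
  have bound : ∀ (e : ℕ) (u : ℝ), (2 * θ - 1) * L < u → e * u ≤ A * L → e ≤ E := by
    intro e u h3 h4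
    have he0 : (0 : ℝ) ≤ e := Nat.cast_nonneg e
    have h5 : (e : ℝ) * ((2 * θ - 1) * L) ≤ A * L :=
      (mul_le_mul_of_nonneg_left h3.le he0).trans h4
    have h6 : (e : ℝ) * (2 * θ - 1) ≤ A := by
      by_contra h7
      push Not at h7
      have := mul_lt_mul_of_pos_right h7 hL0
      linarith
    have h7 : (e : ℝ) ≤ (A : ℝ) / (2 * θ - 1) := by
      rw [le_div_iff₀ hξ0]
      exact h6
    have h8 : (e : ℝ) ≤ (E : ℝ) := h7.trans (Nat.le_ceil _)
    exact_mod_cast h8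
  have big : ∀ p : ℕ, p.Prime → (2 * θ - 1) * L < Real.log p → (X : ℝ) ^ (2 * θ - 1) ≤ p := by
    intro p hp h3
    have p0 : (0 : ℝ) < p := by exact_mod_cast hp.pos
    apply (Real.log_le_log_iff (by positivity) p0).1
    rw [Real.log_rpow hX0]
    exact h3.le
  have py : (2 * θ - 1) * L < Real.log y := by linarith
  have px : (2 * θ - 1) * L < Real.log x := by linarith
  have pw : (2 * θ - 1) * L < Real.log w := by linarith
  have hfin := nS k m l B D F x y w he' (bound _ _ px (hep'.trans hbAL)) he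
    (bound _ _ py (hep.trans hcAL)) he'' (bound _ _ pw (hep''.trans haAL)) hp' hp hp'' hxX hyX hwX
    (big _ hp' px) (big _ hp py) (big _ hp'' pw) hn'' hn' hn
  have rD : (0 : ℝ) < rd D := by exact_mod_cast Pool.MP_a95293_nt.RC.rd_pos D
  have rB : (0 : ℝ) < rd B := by exact_mod_cast Pool.MP_a95293_nt.RC.rd_pos B
  have rF : (0 : ℝ) < rd F := by exact_mod_cast Pool.MP_a95293_nt.RC.rd_pos F
  have h3 := Real.log_lt_log (by positivity) hfin
  rw [Real.log_rpow hX0, Real.log_mul (by positivity) (by positivity),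
    Real.log_mul (by positivity) (by positivity), ← hL] at h3
  have h4 : (2 - 3 * θ) * L = 2 * L - 3 * t := by rw [ht]; ring
  linarith

end Pool.MP_a95293_nt.SF
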