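import Mathlib

/-!
# MP_a95293_nt (n = 3), exponent 1/2: prime points on the surface `α x^k + β y^m + γ z^l = 0`. Definitions

THEOREM SURF (file `Surf`): for `τ, ξ > 0` there is `e₀` such that for all `E, A` the number of triples of distinct primes in
`[X ^ ξ, X]` (coprime to the coefficients) with `α x^k + β y^m + γ z^l = 0`, `k, m, l ∈ [e₀, E]`, is `O (X ^ τ)`.

Polynomials in two (three) variables are given by coefficient arrays `c : ℕ → ℕ → ℤ` with support in `[0, r)²`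
(`G : ℕ → ℕ → ℕ → ℤ`, support in `[0, r)³`).
-/

set_option autoImplicit false

namespace Pool.MP_a95293_nt.SF

open Finset

/-- value at `(x, z)` of the polynomial with coefficients `c i h` (`i, h < r`) -/
def ev2 (r : ℕ) (c : ℕ → ℕ → ℤ) (x z : ℤ) : ℤ :=
  ∑ i ∈ range r, ∑ h ∈ range r, c i h * x ^ i * z ^ h

/-- value at `(x, y, z)` of the polynomial with coefficients `G i j h` (`i, j, h < r`) -/
def ev3 (r : ℕ) (G : ℕ → ℕ → ℕ → ℤ) (x y z : ℤ) : ℤ :=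
  ∑ i ∈ range r, ∑ j ∈ range r, ∑ h ∈ range r, G i j h * x ^ i * y ^ j * z ^ h

/-- the support is in `[0, r)²` -/
def Sup2 (r : ℕ) (c : ℕ → ℕ → ℤ) : Prop := ∀ i h, c i h ≠ 0 → i < r ∧ h < r

/-- the support is in `[0, r)³` -/
def Sup3 (r : ℕ) (G : ℕ → ℕ → ℕ → ℤ) : Prop := ∀ i j h, G i j h ≠ 0 → i < r ∧ j < r ∧ h < r

/-- derivative with respect to the first variable -/
def dx (c : ℕ → ℕ → ℤ) : ℕ → ℕ → ℤ := fun i h => ((i : ℤ) + 1) * c (i + 1) h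

/-- derivative with respect to the second variable -/
def dz (c : ℕ → ℕ → ℤ) : ℕ → ℕ → ℤ := fun i h => ((h : ℤ) + 1) * c i (h + 1)

/-- derivatives of polynomials in three variables -/
def d1 (G : ℕ → ℕ → ℕ → ℤ) : ℕ → ℕ → ℕ → ℤ := fun i j h => ((i : ℤ) + 1) * G (i + 1) j h
def d2 (G : ℕ → ℕ → ℕ → ℤ) : ℕ → ℕ → ℕ → ℤ := fun i j h => ((j : ℤ) + 1) * G i (j + 1) h
def d3 (G : ℕ → ℕ → ℕ → ℤ) : ℕ → ℕ → ℕ → ℤ := fun i j h => ((h : ℤ) + 1) * G i j (h + 1)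

/-- the operator `l x ∂_x + k z ∂_z` -/
def W (k l : ℕ) (c : ℕ → ℕ → ℤ) : ℕ → ℕ → ℤ := fun i h => ((l * i + k * h : ℕ) : ℤ) * c i h

/-- points with prime coordinates in `[L, X]` on the surface `α x^k + β y^m + γ z^l = 0`, coprime to the coefficients -/
def Pt (k m l : ℕ) (al be ga : ℤ) (L X : ℕ) (P : ℕ × ℕ × ℕ) : Prop :=
  (P.1.Prime ∧ P.2.1.Prime ∧ P.2.2.Prime) ∧ (P.1 ≠ P.2.1 ∧ P.1 ≠ P.2.2 ∧ P.2.1 ≠ P.2.2) ∧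
  (L ≤ P.1 ∧ L ≤ P.2.1 ∧ L ≤ P.2.2) ∧ (P.1 ≤ X ∧ P.2.1 ≤ X ∧ P.2.2 ≤ X) ∧
  (¬ (P.1 : ℤ) ∣ be * ga ∧ ¬ (P.2.1 : ℤ) ∣ al * ga ∧ ¬ (P.2.2 : ℤ) ∣ al * be) ∧
  al * (P.1 : ℤ) ^ k + be * (P.2.1 : ℤ) ^ m + ga * (P.2.2 : ℤ) ^ l = 0

/-- the minor `F_y G_z - F_z G_y` at `(x, y, z)` -/
def Jyz (m l r : ℕ) (be ga : ℤ) (G : ℕ → ℕ → ℕ → ℤ) (x y z : ℤ) : ℤ :=
  m * be * y ^ (m - 1) * ev3 r (d3 G) x y z - l * ga * z ^ (l - 1) * ev3 r (d2 G) x y z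

/-- the minor `F_x G_z - F_z G_x` at `(x, y, z)` -/
def Jxz (k l r : ℕ) (al ga : ℤ) (G : ℕ → ℕ → ℕ → ℤ) (x y z : ℤ) : ℤ :=
  k * al * x ^ (k - 1) * ev3 r (d3 G) x y z - l * ga * z ^ (l - 1) * ev3 r (d1 G) x y z

/-- the minor `F_x G_y - F_y G_x` at `(x, y, z)` -/
def Jxy (k m r : ℕ) (al be : ℤ) (G : ℕ → ℕ → ℕ → ℤ) (x y z : ℤ) : ℤ :=
  k * al * x ^ (k - 1) * ev3 r (d2 G) x y z - m * be * y ^ (m - 1) * ev3 r (d1 G) x y z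

end Pool.MP_a95293_nt.SF
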