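import Pool.Agent.Lib_MP_a95293_sf.Good

/-!
# Piece DEG: points of the surface on which a polynomial `G` of bounded degree and height vanishes

PROOF.  Induction on `n`.  `n = 0`: `G` is a nonzero constant, `T` is empty.  Step `n + 1`: `X = 1`: `T` is empty (no primes `≤ 1`); let `X ≥ 2`.
`T₁`: points with `G_x = G_y = G_z = 0`.  If `G` has a monomial with `i ≥ 1`, then `d1 G ≠ 0`, its degree is `≤ n`, and
`|d1 G| ≤ r X^h ≤ X^(h + r)`: induction hypothesis for `h + r`; the same for `j` or the last exponent; otherwise `G` is constant.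
`T₂`: the other points; for `X ≥ X₀` `minor_ne` applies (`r^3 (r X^h) X^(3r) < L^(k-1)`, `m < L`, because `L ≥ X^ξ` and
`ξ (e₀ - 1) ≥ h + 3 r + 1`), so `T₂` is the union of three sets.  `Jyz ≠ 0`: `good_x`.  `Jxz ≠ 0`: `good_x` for the points `(y, x, z)`, the surface
`β y^m + α x^k + γ z^l` and `G' i j n = G j i n`.  `Jxy ≠ 0`: `good_x` for the points `(z, x, y)`, the surface `γ z^l + α x^k + β y^m`
and `G' i j n = G j n i`.  (`Jyz k l r al ga G' y x z = Jxz k l r al ga G x y z`, `Jyz k m r al be G' z x y = Jxy k m r al be G x y z`.)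
For `X < X₀`: `T.card ≤ X₀^3`.
-/

set_option autoImplicit false

namespace Pool.MP_a95293_nt.SF

open Finset

namespace DegP

private lemma ev3_swap (r : ℕ) (G : ℕ → ℕ → ℕ → ℤ) (x y z : ℤ) :
    ev3 r (fun i j n => G j i n) y x z = ev3 r G x y z := by
  unfold ev3
  rw [sum_comm]
  refine sum_congr rfl fun i _ => sum_congr rfl fun j _ => sum_congr rfl fun n _ => ?_
  ring

private lemma ev3_rot (r : ℕ) (G : ℕ → ℕ → ℕ → ℤ) (x y z : ℤ) :
    ev3 r (fun i j n => G j n i) z x y = ev3 r G x y z := by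
  unfold ev3
  rw [sum_comm]
  refine sum_congr rfl fun j _ => ?_
  rw [sum_comm]
  refine sum_congr rfl fun n _ => sum_congr rfl fun i _ => ?_
  ring

private lemma jac_swap (k l r : ℕ) (al ga : ℤ) (G : ℕ → ℕ → ℕ → ℤ) (x y z : ℤ) :
    Jyz k l r al ga (fun i j n => G j i n) y x z = Jxz k l r al ga G x y z := by
  have e3 : ev3 r (d3 fun i j n => G j i n) y x z = ev3 r (d3 G) x y z := by
    rw [← ev3_swap r (d3 G)]
    rfl
  have e2 : ev3 r (d2 fun i j n => G j i n) y x z = ev3 r (d1 G) x y z := by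
    rw [← ev3_swap r (d1 G)]
    rfl
  rw [Jyz, Jxz, e3, e2]

private lemma jac_rot (k m r : ℕ) (al be : ℤ) (G : ℕ → ℕ → ℕ → ℤ) (x y z : ℤ) :
    Jyz k m r al be (fun i j n => G j n i) z x y = Jxy k m r al be G x y z := by
  have e3 : ev3 r (d3 fun i j n => G j n i) z x y = ev3 r (d2 G) x y z := by
    rw [← ev3_rot r (d2 G)]
    rfl
  have e2 : ev3 r (d2 fun i j n => G j n i) z x y = ev3 r (d1 G) x y z := by
    rw [← ev3_rot r (d1 G)]
    rfl
  rw [Jyz, Jxy, e3, e2]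

private lemma pt_swap (k m l : ℕ) (al be ga : ℤ) (L X : ℕ) (P : ℕ × ℕ × ℕ)
    (h : Pt k m l al be ga L X P) : Pt m k l be al ga L X (P.2.1, P.1, P.2.2) := by
  obtain ⟨⟨a1, a2, a3⟩, ⟨b1, b2, b3⟩, ⟨c1, c2, c3⟩, ⟨d1, d2, d3⟩, ⟨f1, f2, f3⟩, g⟩ := h
  refine ⟨⟨a2, a1, a3⟩, ⟨b1.symm, b3, b2⟩, ⟨c2, c1, c3⟩, ⟨d2, d1, d3⟩, ⟨f2, f1, ?_⟩, ?_⟩
  · rw [mul_comm be al]
    exact f3
  · show be * (P.2.1 : ℤ) ^ m + al * (P.1 : ℤ) ^ k + ga * (P.2.2 : ℤ) ^ l = 0
    linarith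

private lemma pt_rot (k m l : ℕ) (al be ga : ℤ) (L X : ℕ) (P : ℕ × ℕ × ℕ)
    (h : Pt k m l al be ga L X P) : Pt l k m ga al be L X (P.2.2, P.1, P.2.1) := by
  obtain ⟨⟨a1, a2, a3⟩, ⟨b1, b2, b3⟩, ⟨c1, c2, c3⟩, ⟨d1, d2, d3⟩, ⟨f1, f2, f3⟩, g⟩ := h
  refine ⟨⟨a3, a1, a2⟩, ⟨b2.symm, b3.symm, b1⟩, ⟨c3, c1, c2⟩, ⟨d3, d1, d2⟩, ⟨f3, ?_, ?_⟩, ?_⟩
  · rw [mul_comm ga be]
    exact f1
  · rw [mul_comm ga al]
    exact f2
  · show ga * (P.2.2 : ℤ) ^ l + al * (P.1 : ℤ) ^ k + be * (P.2.1 : ℤ) ^ m = 0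
    linarith

/-- all points are in a box -/
lemma card_box (X : ℕ) (T : Finset (ℕ × ℕ × ℕ))
    (hT : ∀ P ∈ T, P.1 ≤ X ∧ P.2.1 ≤ X ∧ P.2.2 ≤ X) : T.card ≤ (X + 1) ^ 3 := by
  have hsub : T ⊆ range (X + 1) ×ˢ (range (X + 1) ×ˢ range (X + 1)) := by
    intro P hP
    obtain ⟨h1, h2, h3⟩ := hT P hP
    rw [mem_product, mem_product, mem_range, mem_range, mem_range]
    omega
  refine (card_le_card hsub).trans (le_of_eq ?_)
  rw [card_product, card_product, card_range]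
  ring

/-- a constant polynomial -/
private lemma ev3_const (r : ℕ) (G : ℕ → ℕ → ℕ → ℤ) (hG : Sup3 r G) (h1 : ∃ i j p, G i j p ≠ 0)
    (h0 : ∀ i j p, G i j p ≠ 0 → i = 0 ∧ j = 0 ∧ p = 0) (x y z : ℤ) : ev3 r G x y z ≠ 0 := by
  obtain ⟨i, j, p, hne⟩ := h1
  obtain ⟨rfl, rfl, rfl⟩ := h0 i j p hne
  have hr : 0 < r := (hG 0 0 0 hne).1
  have e : ev3 r G x y z = G 0 0 0 := by
    unfold ev3
    rw [sum_eq_single_of_mem 0 (mem_range.2 hr)]
    · rw [sum_eq_single_of_mem 0 (mem_range.2 hr)]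
      · rw [sum_eq_single_of_mem 0 (mem_range.2 hr)]
        · simp
        · intro p _ hp
          have : G 0 0 p = 0 := by
            by_contra hcon
            exact hp (h0 _ _ _ hcon).2.2
          rw [this]
          ring
      · intro j _ hj
        refine sum_eq_zero fun p _ => ?_
        have : G 0 j p = 0 := by
          by_contra hcon
          exact hj (h0 _ _ _ hcon).2.1
        rw [this]
        ring
    · intro i _ hi
      refine sum_eq_zero fun j _ => sum_eq_zero fun p _ => ?_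
      have : G i j p = 0 := by
        by_contra hcon
        exact hi (h0 _ _ _ hcon).1
      rw [this]
      ring
  rw [e]
  exact hne

private lemma der_bound (r h X i : ℕ) (hX : 2 ≤ X) (g : ℤ) (hg : |g| ≤ (X : ℤ) ^ h)
    (hi : g ≠ 0 → i + 1 < r) : |((i : ℤ) + 1) * g| ≤ (X : ℤ) ^ (h + r) := by
  by_cases h0 : g = 0
  · rw [h0, mul_zero, abs_zero]
    positivity
  · have h1 := hi h0
    have h2 : ((i : ℤ) + 1) ≤ (X : ℤ) ^ r := by
      have h3 : i + 1 ≤ X ^ r := by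
        calc i + 1 ≤ r := h1.le
          _ ≤ 2 ^ r := Nat.lt_two_pow_self.le
          _ ≤ X ^ r := Nat.pow_le_pow_left hX r
      exact_mod_cast h3
    rw [abs_mul, abs_of_nonneg (by positivity : (0 : ℤ) ≤ (i : ℤ) + 1), pow_add, mul_comm]
    exact mul_le_mul hg h2 (by positivity) (by positivity)

end DegP

open DegP

theorem deg_claim (τ ξ : ℝ) (hτ : 0 < τ) (hξ : 0 < ξ) (r : ℕ) : ∀ n h : ℕ, ∃ e₀ : ℕ, 2 ≤ e₀ ∧
    ∀ E A : ℕ, ∃ C : ℝ, 1 ≤ C ∧ ∀ (X L k m l : ℕ) (al be ga : ℤ), 1 ≤ X → (X : ℝ) ^ ξ ≤ L →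
    e₀ ≤ k → k ≤ E → e₀ ≤ m → m ≤ E → e₀ ≤ l → l ≤ E → al ≠ 0 → be ≠ 0 → ga ≠ 0 →
    |al| ≤ (X : ℤ) ^ A → |be| ≤ (X : ℤ) ^ A → |ga| ≤ (X : ℤ) ^ A → ∀ G : ℕ → ℕ → ℕ → ℤ,
    Sup3 r G → (∃ i j p, G i j p ≠ 0) → (∀ i j p, G i j p ≠ 0 → i + j + p ≤ n) →
    (∀ i j p, |G i j p| ≤ (X : ℤ) ^ h) → ∀ T : Finset (ℕ × ℕ × ℕ),
    (∀ P ∈ T, Pt k m l al be ga L X P ∧ ev3 r G P.1 P.2.1 P.2.2 = 0) →
    (T.card : ℝ) ≤ C * (X : ℝ) ^ τ := by
  classical
  intro n
  induction n with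
  | zero =>
    intro h
    refine ⟨2, le_rfl, fun E A => ⟨1, le_rfl, ?_⟩⟩
    intro X L k m l al be ga hX _ _ _ _ _ _ _ _ _ _ _ _ _ G hG hne hdeg _ T hT
    have hT0 : T = ∅ := by
      rw [eq_empty_iff_forall_notMem]
      intro P hP
      refine ev3_const r G hG hne (fun i j p hijp => ?_) _ _ _ (hT P hP).2
      have := hdeg i j p hijp
      omega
    rw [hT0, card_empty]
    push_cast
    positivity
  | succ n ih =>
    intro h
    obtain ⟨e₁, he₁, H1⟩ := ih (h + r)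
    obtain ⟨e₂, he₂, H2⟩ := good_x τ ξ hτ hξ r h
    set e₃ : ℕ := ⌈((h : ℝ) + 3 * r + 1) / ξ⌉₊ + 1 with he₃
    refine ⟨max e₁ (max e₂ e₃), le_max_of_le_left he₁, fun E A => ?_⟩
    obtain ⟨C₁, hC₁, H1⟩ := H1 E A
    obtain ⟨C₂, hC₂, H2⟩ := H2 E A
    set X₀ : ℕ := r ^ 4 + 2 + ⌈((E : ℝ) + 1) ^ (1 / ξ)⌉₊ with hX₀
    refine ⟨C₁ + 3 * C₂ + ((X₀ : ℝ) + 1) ^ 3, ?_, ?_⟩
    · have : (0 : ℝ) ≤ ((X₀ : ℝ) + 1) ^ 3 := by positivity
      linarith
    intro X L k m l al be ga hX hL hk hkE hm hmE hl hlE hal hbe hga hal' hbe' hga' G hG hne hdeg hGb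
      T hT
    have hX0 : (0 : ℝ) < X := by exact_mod_cast hX
    have hX1 : (1 : ℝ) ≤ X := by exact_mod_cast hX
    have hXτ : (1 : ℝ) ≤ (X : ℝ) ^ τ := Real.one_le_rpow hX1 hτ.le
    have hk1 : e₁ ≤ k := (le_max_left _ _).trans hk
    have hk2 : e₂ ≤ k := ((le_max_left _ _).trans (le_max_right _ _)).trans hk
    have hk3 : e₃ ≤ k := ((le_max_right _ _).trans (le_max_right _ _)).trans hk
    have hm1 : e₁ ≤ m := (le_max_left _ _).trans hm
    have hm2 : e₂ ≤ m := ((le_max_left _ _).trans (le_max_right _ _)).trans hm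
    have hl1 : e₁ ≤ l := (le_max_left _ _).trans hl
    have hl2 : e₂ ≤ l := ((le_max_left _ _).trans (le_max_right _ _)).trans hl
    rcases lt_or_ge X X₀ with hXX | hXX
    · have h1 := card_box X T (fun P hP => (hT P hP).1.2.2.2.1)
      have h2 : (T.card : ℝ) ≤ ((X₀ : ℝ) + 1) ^ 3 := by
        have h3 : T.card ≤ (X₀ + 1) ^ 3 := h1.trans (Nat.pow_le_pow_left (by omega) 3)
        exact_mod_cast h3
      have h4 : (0 : ℝ) ≤ ((X₀ : ℝ) + 1) ^ 3 := by positivity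
      nlinarith
    -- large X
    have hX2 : 2 ≤ X := by omega
    -- the points with zero gradient
    set T₁ := T.filter fun P => ev3 r (d1 G) P.1 P.2.1 P.2.2 = 0 ∧
      ev3 r (d2 G) P.1 P.2.1 P.2.2 = 0 ∧ ev3 r (d3 G) P.1 P.2.1 P.2.2 = 0 with hT₁
    have c1 : (T₁.card : ℝ) ≤ C₁ * (X : ℝ) ^ τ := by
      by_cases hi : ∃ i j p, G (i + 1) j p ≠ 0
      · obtain ⟨i, j, p, hijp⟩ := hi
        refine H1 X L k m l al be ga hX hL hk1 hkE hm1 hmE hl1 hlE hal hbe hga hal' hbe' hga' (d1 G)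
          ?_ ⟨i, j, p, ?_⟩ ?_ ?_ T₁ ?_
        · intro a b c habc
          have h1 : G (a + 1) b c ≠ 0 := right_ne_zero_of_mul habc
          obtain ⟨h2, h3, h4⟩ := hG _ _ _ h1
          exact ⟨by omega, h3, h4⟩
        · exact mul_ne_zero (by positivity) hijp
        · intro a b c habc
          have h1 : G (a + 1) b c ≠ 0 := right_ne_zero_of_mul habc
          have := hdeg _ _ _ h1
          omega
        · intro a b c
          exact der_bound r h X a hX2 _ (hGb _ _ _) (fun h1 => (hG _ _ _ h1).1)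
        · intro P hP
          rw [hT₁, mem_filter] at hP
          exact ⟨(hT P hP.1).1, hP.2.1⟩
      by_cases hj : ∃ i j p, G i (j + 1) p ≠ 0
      · obtain ⟨i, j, p, hijp⟩ := hj
        refine H1 X L k m l al be ga hX hL hk1 hkE hm1 hmE hl1 hlE hal hbe hga hal' hbe' hga' (d2 G)
          ?_ ⟨i, j, p, ?_⟩ ?_ ?_ T₁ ?_
        · intro a b c habc
          have h1 : G a (b + 1) c ≠ 0 := right_ne_zero_of_mul habc
          obtain ⟨h2, h3, h4⟩ := hG _ _ _ h1
          exact ⟨h2, by omega, h4⟩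
        · exact mul_ne_zero (by positivity) hijp
        · intro a b c habc
          have h1 : G a (b + 1) c ≠ 0 := right_ne_zero_of_mul habc
          have := hdeg _ _ _ h1
          omega
        · intro a b c
          exact der_bound r h X b hX2 _ (hGb _ _ _) (fun h1 => (hG _ _ _ h1).2.1)
        · intro P hP
          rw [hT₁, mem_filter] at hP
          exact ⟨(hT P hP.1).1, hP.2.2.1⟩
      by_cases hp : ∃ i j p, G i j (p + 1) ≠ 0
      · obtain ⟨i, j, p, hijp⟩ := hp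
        refine H1 X L k m l al be ga hX hL hk1 hkE hm1 hmE hl1 hlE hal hbe hga hal' hbe' hga' (d3 G)
          ?_ ⟨i, j, p, ?_⟩ ?_ ?_ T₁ ?_
        · intro a b c habc
          have h1 : G a b (c + 1) ≠ 0 := right_ne_zero_of_mul habc
          obtain ⟨h2, h3, h4⟩ := hG _ _ _ h1
          exact ⟨h2, h3, by omega⟩
        · exact mul_ne_zero (by positivity) hijp
        · intro a b c habc
          have h1 : G a b (c + 1) ≠ 0 := right_ne_zero_of_mul habc
          have := hdeg _ _ _ h1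
          omega
        · intro a b c
          exact der_bound r h X c hX2 _ (hGb _ _ _) (fun h1 => (hG _ _ _ h1).2.2)
        · intro P hP
          rw [hT₁, mem_filter] at hP
          exact ⟨(hT P hP.1).1, hP.2.2.2⟩
      -- `G` is constant
      have hT0 : T₁ = ∅ := by
        rw [eq_empty_iff_forall_notMem]
        intro P hP
        rw [hT₁, mem_filter] at hP
        refine ev3_const r G hG hne (fun i j p hijp => ⟨?_, ?_, ?_⟩) _ _ _ (hT P hP.1).2
        · by_contra h1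
          obtain ⟨i', rfl⟩ := Nat.exists_eq_succ_of_ne_zero h1
          exact hi ⟨i', j, p, hijp⟩
        · by_contra h1
          obtain ⟨j', rfl⟩ := Nat.exists_eq_succ_of_ne_zero h1
          exact hj ⟨i, j', p, hijp⟩
        · by_contra h1
          obtain ⟨p', rfl⟩ := Nat.exists_eq_succ_of_ne_zero h1
          exact hp ⟨i, j, p', hijp⟩
      rw [hT0, card_empty]
      push_cast
      positivity
    -- the three sets
    set U₁ := T.filter fun P => Jyz m l r be ga G P.1 P.2.1 P.2.2 ≠ 0 with hU₁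
    set U₂ := T.filter fun P => Jxz k l r al ga G P.1 P.2.1 P.2.2 ≠ 0 with hU₂
    set U₃ := T.filter fun P => Jxy k m r al be G P.1 P.2.1 P.2.2 ≠ 0 with hU₃
    have c2 : (U₁.card : ℝ) ≤ C₂ * (X : ℝ) ^ τ := by
      refine H2 X L k m l al be ga hX hL hk2 hkE hm2 hmE hl2 hlE hal hbe hga hal' hbe' hga' G hG hGb
        U₁ ?_
      intro P hP
      rw [hU₁, mem_filter] at hP
      exact ⟨(hT P hP.1).1, (hT P hP.1).2, hP.2⟩
    have c3 : (U₂.card : ℝ) ≤ C₂ * (X : ℝ) ^ τ := by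
      have hinj : Function.Injective fun P : ℕ × ℕ × ℕ => (P.2.1, P.1, P.2.2) := by
        intro P Q h
        simp only [Prod.mk.injEq] at h
        exact Prod.ext h.2.1 (Prod.ext h.1 h.2.2)
      rw [← card_image_of_injective U₂ hinj]
      refine H2 X L m k l be al ga hX hL hm2 hmE hk2 hkE hl2 hlE hbe hal hga hbe' hal' hga'
        (fun i j n => G j i n) ?_ (fun i j n => hGb j i n) _ ?_
      · intro i j p hijp
        obtain ⟨h1, h2, h3⟩ := hG _ _ _ hijp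
        exact ⟨h2, h1, h3⟩
      · intro Q hQ
        obtain ⟨P, hP, rfl⟩ := mem_image.1 hQ
        rw [hU₂, mem_filter] at hP
        refine ⟨pt_swap k m l al be ga L X P (hT P hP.1).1, ?_, ?_⟩
        · show ev3 r (fun i j n => G j i n) P.2.1 P.1 P.2.2 = 0
          rw [ev3_swap]
          exact (hT P hP.1).2
        · show Jyz k l r al ga (fun i j n => G j i n) P.2.1 P.1 P.2.2 ≠ 0
          rw [jac_swap]
          exact hP.2
    have c4 : (U₃.card : ℝ) ≤ C₂ * (X : ℝ) ^ τ := by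
      have hinj : Function.Injective fun P : ℕ × ℕ × ℕ => (P.2.2, P.1, P.2.1) := by
        intro P Q h
        simp only [Prod.mk.injEq] at h
        exact Prod.ext h.2.1 (Prod.ext h.2.2 h.1)
      rw [← card_image_of_injective U₃ hinj]
      refine H2 X L l k m ga al be hX hL hl2 hlE hk2 hkE hm2 hmE hga hal hbe hga' hal' hbe'
        (fun i j n => G j n i) ?_ (fun i j n => hGb j n i) _ ?_
      · intro i j p hijp
        obtain ⟨h1, h2, h3⟩ := hG _ _ _ hijp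
        exact ⟨h3, h1, h2⟩
      · intro Q hQ
        obtain ⟨P, hP, rfl⟩ := mem_image.1 hQ
        rw [hU₃, mem_filter] at hP
        refine ⟨pt_rot k m l al be ga L X P (hT P hP.1).1, ?_, ?_⟩
        · show ev3 r (fun i j n => G j n i) P.2.2 P.1 P.2.1 = 0
          rw [ev3_rot]
          exact (hT P hP.1).2
        · show Jyz k m r al be (fun i j n => G j n i) P.2.2 P.1 P.2.1 ≠ 0
          rw [jac_rot]
          exact hP.2
    -- sizes
    have hrX : r ^ 4 < X := by omega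
    have hEX : ((E : ℝ) + 1) ^ (1 / ξ) ≤ X := by
      have h1 := Nat.le_ceil (((E : ℝ) + 1) ^ (1 / ξ))
      have h2 : ⌈((E : ℝ) + 1) ^ (1 / ξ)⌉₊ ≤ X := by omega
      exact h1.trans (by exact_mod_cast h2)
    have hEL : (E : ℝ) + 1 ≤ L := by
      calc (E : ℝ) + 1 = (((E : ℝ) + 1) ^ (1 / ξ)) ^ ξ := by
            rw [← Real.rpow_mul (by positivity), one_div, inv_mul_cancel₀ hξ.ne', Real.rpow_one]
        _ ≤ (X : ℝ) ^ ξ := Real.rpow_le_rpow (by positivity) hEX hξ.le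
        _ ≤ L := hL
    have hmL : m < L := by
      have : E + 1 ≤ L := by exact_mod_cast hEL
      omega
    have hsize : r ^ 3 * (r * X ^ h) * X ^ (3 * r) < L ^ (k - 1) := by
      have hξk : (h : ℝ) + 3 * r + 1 ≤ ξ * ((k - 1 : ℕ) : ℝ) := by
        have h1 := Nat.le_ceil (((h : ℝ) + 3 * r + 1) / ξ)
        have h2 : ⌈((h : ℝ) + 3 * r + 1) / ξ⌉₊ ≤ k - 1 := by omega
        have h3 : ((h : ℝ) + 3 * r + 1) / ξ ≤ ((k - 1 : ℕ) : ℝ) :=
          h1.trans (by exact_mod_cast h2)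
        rw [div_le_iff₀ hξ] at h3
        linarith
      have h5 : ((X ^ (h + 3 * r + 1) : ℕ) : ℝ) ≤ ((L ^ (k - 1) : ℕ) : ℝ) := by
        push_cast
        calc (X : ℝ) ^ (h + 3 * r + 1) = (X : ℝ) ^ ((h : ℝ) + 3 * r + 1) := by
              rw [← Real.rpow_natCast]
              push_cast
              rfl
          _ ≤ (X : ℝ) ^ (ξ * ((k - 1 : ℕ) : ℝ)) := Real.rpow_le_rpow_of_exponent_le hX1 hξk
          _ = ((X : ℝ) ^ ξ) ^ (k - 1) := by
              rw [Real.rpow_mul hX0.le, Real.rpow_natCast]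
          _ ≤ (L : ℝ) ^ (k - 1) := pow_le_pow_left₀ (by positivity) hL _
      have h6 : X ^ (h + 3 * r + 1) ≤ L ^ (k - 1) := by exact_mod_cast h5
      refine lt_of_lt_of_le ?_ h6
      calc r ^ 3 * (r * X ^ h) * X ^ (3 * r) = r ^ 4 * X ^ (h + 3 * r) := by
            rw [pow_add]
            ring
        _ < X * X ^ (h + 3 * r) := Nat.mul_lt_mul_of_pos_right hrX (by positivity)
        _ = X ^ (h + 3 * r + 1) := by ring
    have hsub : T ⊆ T₁ ∪ (U₁ ∪ (U₂ ∪ U₃)) := by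
      intro P hP
      by_cases hg : ev3 r (d1 G) P.1 P.2.1 P.2.2 = 0 ∧
          ev3 r (d2 G) P.1 P.2.1 P.2.2 = 0 ∧ ev3 r (d3 G) P.1 P.2.1 P.2.2 = 0
      · exact mem_union_left _ (mem_filter.2 ⟨hP, hg⟩)
      · refine mem_union_right _ ?_
        rcases minor_ne r k m l L X al be ga (by omega) (by omega) hmL hal G (X ^ h)
          (fun i j p => by exact_mod_cast hGb i j p) hsize P (hT P hP).1 hG hg with h1 | h1 | h1
        · exact mem_union_left _ (mem_filter.2 ⟨hP, h1⟩)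
        · exact mem_union_right _ (mem_union_left _ (mem_filter.2 ⟨hP, h1⟩))
        · exact mem_union_right _ (mem_union_right _ (mem_filter.2 ⟨hP, h1⟩))
    have hcard : T.card ≤ T₁.card + (U₁.card + (U₂.card + U₃.card)) := by
      refine (card_le_card hsub).trans ((card_union_le _ _).trans ?_)
      refine Nat.add_le_add_left ((card_union_le _ _).trans ?_) _
      exact Nat.add_le_add_left (card_union_le _ _) _
    have hcard' : (T.card : ℝ) ≤ T₁.card + (U₁.card + (U₂.card + U₃.card)) := by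
      exact_mod_cast hcard
    have h9 : (0 : ℝ) ≤ ((X₀ : ℝ) + 1) ^ 3 * (X : ℝ) ^ τ := by positivity
    calc (T.card : ℝ) ≤ T₁.card + (U₁.card + (U₂.card + U₃.card)) := hcard'
      _ ≤ C₁ * (X : ℝ) ^ τ + (C₂ * (X : ℝ) ^ τ + (C₂ * (X : ℝ) ^ τ + C₂ * (X : ℝ) ^ τ)) := by
          gcongr
      _ ≤ (C₁ + 3 * C₂ + ((X₀ : ℝ) + 1) ^ 3) * (X : ℝ) ^ τ := by
          nlinarith

end Pool.MP_a95293_nt.SF
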