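import Mathlib

/-!
# Piece DETB: determinants of polynomials in two small variables

PROOF of `sum_inj2`: `∑ j, deg (f j) ≥ ∑ j, (if deg (f j) ≥ d then d else 0) = d * #{j : deg (f j) ≥ d}` with
`deg (a, b) = a + b`, and at most `d (d + 1) / 2` of the `j` have `deg (f j) < d`, since `f` is injective and there are
`d (d + 1) / 2` pairs with `a + b < d` (`Finset.Nat.antidiagonal`, `Finset.sum_range_id`).
PROOF of `det_dvd2`: as `Pool.MP_a95293_nt.PS.Bp.det_dvd` in `Lib_MP_a95293_ps/BpA.lean` (expand every row
`fun i => (g j).eval (t i, u i)` as a sum over the exponent vectors in the union of the supports, `MultilinearMap.map_sum`;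
a term with two equal exponent vectors has two equal rows; the other ones are divisible by `l ^ ∑ deg`).
-/

set_option autoImplicit false

namespace Pool.MP_a95293_nt.SF

open Finset

theorem sum_inj2 (s d : ℕ) (f : Fin s → ℕ × ℕ) (hf : Function.Injective f) :
    d * (s - d * (d + 1) / 2) ≤ ∑ j, ((f j).1 + (f j).2) := by
  classical
  set B : Finset (Fin s) := univ.filter fun j => (f j).1 + (f j).2 < d with hB
  have h1 : B.card ≤ d * (d + 1) / 2 := by
    have h2 : B.card ≤ ((range d).biUnion fun n => antidiagonal n).card := by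
      refine card_le_card_of_injOn f (fun j hj => ?_) (hf.injOn)
      have hj' : (f j).1 + (f j).2 < d := by
        have := mem_coe.1 hj
        rw [hB, mem_filter] at this
        exact this.2
      refine mem_coe.2 (mem_biUnion.2 ⟨(f j).1 + (f j).2, mem_range.2 hj', ?_⟩)
      rw [HasAntidiagonal.mem_antidiagonal]
    refine h2.trans (card_biUnion_le.trans (le_of_eq ?_))
    have h3 : ∑ n ∈ range (d + 1), n = (d + 1) * d / 2 := sum_range_id (d + 1)
    rw [sum_range_succ', add_zero] at h3
    rw [mul_comm d, ← h3]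
    exact sum_congr rfl fun n _ => Nat.card_antidiagonal n
  have h4 : d * (univ \ B).card ≤ ∑ j ∈ univ \ B, ((f j).1 + (f j).2) := by
    rw [mul_comm, ← smul_eq_mul]
    refine card_nsmul_le_sum _ _ _ fun j hj => ?_
    rw [mem_sdiff, hB, mem_filter] at hj
    exact not_lt.1 fun h => hj.2 ⟨mem_univ j, h⟩
  have h5 : (univ \ B).card + B.card = s := by
    rw [card_sdiff_add_card_eq_card (subset_univ B), card_univ, Fintype.card_fin]
  calc d * (s - d * (d + 1) / 2) ≤ d * (univ \ B).card := Nat.mul_le_mul_left _ (by omega)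
    _ ≤ _ := h4
    _ ≤ _ := sum_le_sum_of_subset (subset_univ _)

theorem det_dvd2 (l : ℤ) (s d : ℕ) (g : Fin s → MvPolynomial (Fin 2) ℤ) (t u : Fin s → ℤ)
    (ht : ∀ i, l ∣ t i) (hu : ∀ i, l ∣ u i) :
    l ^ (d * (s - d * (d + 1) / 2)) ∣
      Matrix.det (Matrix.of fun j i => MvPolynomial.eval ![t i, u i] (g j)) := by
  classical
  choose τ hτ using ht
  choose υ hυ using hu
  set S : Finset (Fin 2 →₀ ℕ) := univ.biUnion fun j => (g j).support with hS
  have e1 : Matrix.det (Matrix.of fun j i => MvPolynomial.eval ![t i, u i] (g j)) =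
      (Matrix.detRowAlternating (R := ℤ) (n := Fin s)).toMultilinearMap
        (fun j => ∑ e : S, (g j).coeff e.1 • fun i => t i ^ (e.1 0) * u i ^ (e.1 1)) := by
    show _ = Matrix.det _
    congr 1
    ext j i
    rw [Matrix.of_apply, MvPolynomial.eval_eq', Finset.sum_apply,
      Finset.sum_coe_sort S (fun e => ((g j).coeff e • fun i => t i ^ (e 0) * u i ^ (e 1)) i)]
    refine (sum_congr rfl fun e _ => ?_).trans
      (sum_subset (subset_biUnion_of_mem (fun j => (g j).support) (mem_univ j)) fun e _ he => ?_)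
    · rw [Fin.prod_univ_two]
      simp
    · rw [MvPolynomial.notMem_support_iff.1 he, zero_smul]
      rfl
  rw [e1, MultilinearMap.map_sum]
  refine dvd_sum fun f _ => ?_
  rw [MultilinearMap.map_smul_univ]
  refine Dvd.dvd.mul_left ?_ _
  show _ ∣ Matrix.det (Matrix.of fun j i => t i ^ ((f j).1 0) * u i ^ ((f j).1 1))
  by_cases hf : Function.Injective f
  · have e2 : (Matrix.of fun j i => t i ^ ((f j).1 0) * u i ^ ((f j).1 1) :
        Matrix (Fin s) (Fin s) ℤ) = Matrix.of fun j i => l ^ ((f j).1 0 + (f j).1 1) *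
          (Matrix.of fun j i => τ i ^ ((f j).1 0) * υ i ^ ((f j).1 1) :
            Matrix (Fin s) (Fin s) ℤ) j i := by
      ext j i
      rw [Matrix.of_apply, Matrix.of_apply, Matrix.of_apply, hτ i, hυ i, mul_pow, mul_pow, pow_add]
      ring
    rw [e2, Matrix.det_mul_column, Finset.prod_pow_eq_pow_sum]
    refine Dvd.dvd.mul_right (pow_dvd_pow _ ?_) _
    refine sum_inj2 s d (fun j => ((f j).1 0, (f j).1 1)) fun a b h => hf (Subtype.ext ?_)
    have h1 := congrArg Prod.fst h
    have h2 := congrArg Prod.snd h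
    refine Finsupp.ext fun k => ?_
    fin_cases k
    · exact h1
    · exact h2
  · rw [Function.not_injective_iff] at hf
    obtain ⟨a, b, hab, hne⟩ := hf
    rw [Matrix.det_zero_of_row_eq hne (by
      ext i
      simp [hab])]
    exact dvd_zero _

end Pool.MP_a95293_nt.SF
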