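import Pool.Agent.Lib_MP_a95293_sf.Elim
import Pool.Agent.Lib_MP_a95293_sf.Bran

/-!
# Piece DICH: the dichotomy

Points on `c (x, z) = 0`, `c₂ (x, y) = 0`, `F = α x^k + β y^m + γ z^l = 0` with `c_z ≠ 0`, `c₂_y ≠ 0`: either `x` is a root of a fixed nonzero
polynomial of bounded degree, or the derivative of `F` along the curve `c = c₂ = 0` vanishes.

PROOF.  If `pol r c` or `pol r c₂` has degree `0` in the second variable, `c_z = 0` (or `c₂_y = 0`) at all points: `φ = 1`.  Otherwise let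
`a₁, a₂` be the leading coefficients, `d₁, d₂ ≥ 1` the degrees.  Monic polynomials
`p₁ = X^d₁ + ∑_(j<d₁) C (coeff_j a₁^(d₁-1-j)) X^j` (so `a₁^(d₁-1) (pol r c)(z) = p₁ (a₁ z)`) and `p₂`; coefficients of degree `≤ r (r+1)`.
`elim` with `u = γ a₂^m`, `v = β a₁^l`, `w = α x^k a₁^l a₂^m`, `D = max` of all degrees (`≤ 2 (E + 1) (r + 1)^2`), gives `φ₀`; `φ = a₁ a₂ φ₀`.
At a point with `a₁ a₂ (x0) ≠ 0`: `branch` gives `z` and `y` in `S = ℚ⟦X⟧`; `Z = (sh x0 a₁) z`, `Y = (sh x0 a₂) y`,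
`f = (sh x0 a₁)^l (sh x0 a₂)^m (α (x0+X)^k + β y^m + γ z^l)`, `e = constantCoeff`, `e f = 0`.  If `f ≠ 0`: `φ₀ (x0) = 0`.
If `f = 0` then `α (x0+X)^k + β y^m + γ z^l = 0` (domain, `sh x0 a₁ ≠ 0`); its coefficient of `X` is
`k α x0^(k-1) + m β y0^(m-1) y1 + l γ z0^(l-1) z1 = 0`, `y1 = coeff 1 y`, `z1 = coeff 1 z`; multiply by `c_z c₂_y` and use the relations for
`z1, y1` in `branch`.
-/

set_option autoImplicit false

namespace Pool.MP_a95293_nt.SF

open Finset Polynomial

private lemma dich_sh (x0 : ℚ) (q : ℚ[X]) :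
    PowerSeries.constantCoeff (R := ℚ) (sh x0 q) = q.eval x0 := by
  have h : ((PowerSeries.constantCoeff (R := ℚ)).comp (sh x0)) = evalRingHom x0 := by
    apply Polynomial.ringHom_ext
    · intro a
      simp [sh]
    · simp [sh]
  exact congrArg (fun g : ℚ[X] →+* ℚ => g q) h

private lemma dich_deg0 (r : ℕ) (c : ℕ → ℕ → ℤ) (hc : Sup2 r c) (h : (pol r c).natDegree = 0)
    (x z : ℤ) : ev2 r (dz c) x z = 0 := by
  have h1 := pol_deriv r c hc x z
  have h2 : derivative (pol r c) = 0 := by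
    rw [eq_C_of_natDegree_eq_zero h, derivative_C]
  rw [h2] at h1
  simp only [Polynomial.map_zero, eval_zero] at h1
  exact_mod_cast h1.symm

private lemma dich_cf (r : ℕ) (c : ℕ → ℕ → ℤ) (j : ℕ) :
    ((pol r c).integralNormalization.coeff j).natDegree ≤ r * (r + 1) := by
  by_cases hj : j = (pol r c).natDegree
  · by_cases h0 : pol r c = 0
    · rw [h0, integralNormalization_zero, coeff_zero, natDegree_zero]
      exact Nat.zero_le _
    · rw [hj, integralNormalization_coeff_natDegree h0, natDegree_one]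
      exact Nat.zero_le _
  · rw [integralNormalization_coeff_ne_natDegree hj]
    have h1 := (pol_coeff r c j).1
    have h2 := (pol_coeff r c (pol r c).natDegree).1
    have h3 := (pol_coeff r c j).2
    calc ((pol r c).coeff j * (pol r c).leadingCoeff ^ ((pol r c).natDegree - 1 - j)).natDegree
        ≤ ((pol r c).coeff j).natDegree +
          ((pol r c).leadingCoeff ^ ((pol r c).natDegree - 1 - j)).natDegree := natDegree_mul_le
      _ ≤ r + ((pol r c).natDegree - 1 - j) * r := by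
          apply add_le_add h1
          refine natDegree_pow_le.trans ?_
          exact Nat.mul_le_mul_left _ h2
      _ ≤ r + r * r := by
          apply Nat.add_le_add_left
          apply Nat.mul_le_mul_right
          omega
      _ = r * (r + 1) := by ring

theorem dich (r E : ℕ) : ∃ N : ℕ, ∀ (k m l : ℕ), k ≤ E → m ≤ E → l ≤ E → ∀ (al be ga : ℤ)
    (c c₂ : ℕ → ℕ → ℤ), Sup2 r c → Sup2 r c₂ → ∃ φ : ℚ[X], φ ≠ 0 ∧ φ.natDegree ≤ N ∧
    ∀ x y z : ℤ, ev2 r c x z = 0 → ev2 r (dz c) x z ≠ 0 → ev2 r c₂ x y = 0 →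
      ev2 r (dz c₂) x y ≠ 0 → al * x ^ k + be * y ^ m + ga * z ^ l = 0 →
      φ.eval (x : ℚ) = 0 ∨
      k * al * x ^ (k - 1) * ev2 r (dz c) x z * ev2 r (dz c₂) x y -
        m * be * y ^ (m - 1) * ev2 r (dx c₂) x y * ev2 r (dz c) x z -
        l * ga * z ^ (l - 1) * ev2 r (dx c) x z * ev2 r (dz c₂) x y = 0 := by
  set D : ℕ := r * (r + 1) + E * (2 * r + 1) with hD
  refine ⟨2 * r + r * r * ((2 * E + 1) * D), ?_⟩
  intro k m l hk hm hl al be ga c c₂ hc hc₂
  by_cases hd₁ : (pol r c).natDegree = 0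
  · refine ⟨1, one_ne_zero, by simp, ?_⟩
    intro x y z _ h2
    exact absurd (dich_deg0 r c hc hd₁ x z) h2
  by_cases hd₂ : (pol r c₂).natDegree = 0
  · refine ⟨1, one_ne_zero, by simp, ?_⟩
    intro x y z _ _ _ h4
    exact absurd (dich_deg0 r c₂ hc₂ hd₂ x y) h4
  have hq₁ : pol r c ≠ 0 := by
    intro h
    rw [h, natDegree_zero] at hd₁
    exact hd₁ rfl
  have hq₂ : pol r c₂ ≠ 0 := by
    intro h
    rw [h, natDegree_zero] at hd₂
    exact hd₂ rfl
  set a₁ : ℚ[X] := (pol r c).leadingCoeff with ha₁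
  set a₂ : ℚ[X] := (pol r c₂).leadingCoeff with ha₂
  have ha₁0 : a₁ ≠ 0 := leadingCoeff_ne_zero.2 hq₁
  have ha₂0 : a₂ ≠ 0 := leadingCoeff_ne_zero.2 hq₂
  have ha₁d : a₁.natDegree ≤ r := (pol_coeff r c (pol r c).natDegree).1
  have ha₂d : a₂.natDegree ≤ r := (pol_coeff r c₂ (pol r c₂).natDegree).1
  have hpow : ∀ (a : ℚ[X]) (n : ℕ), a.natDegree ≤ r → n ≤ E → (a ^ n).natDegree ≤ E * r := by
    intro a n ha hn
    exact natDegree_pow_le.trans (Nat.mul_le_mul hn ha)
  have hEr : E * (2 * r + 1) = E * r + E * r + E := by ring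
  have hbound : ∀ n : ℕ, n ≤ E * r + E * r + E → n ≤ D := by
    intro n hn
    rw [hD, hEr]
    omega
  have hu : (C (ga : ℚ) * a₂ ^ m).natDegree ≤ D := by
    apply hbound
    refine (natDegree_C_mul_le _ _).trans ?_
    have := hpow a₂ m ha₂d hm
    omega
  have hv : (C (be : ℚ) * a₁ ^ l).natDegree ≤ D := by
    apply hbound
    refine (natDegree_C_mul_le _ _).trans ?_
    have := hpow a₁ l ha₁d hl
    omega
  have hw : (C (al : ℚ) * (X ^ k * (a₁ ^ l * a₂ ^ m))).natDegree ≤ D := by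
    apply hbound
    refine (natDegree_C_mul_le _ _).trans ?_
    have h1 := hpow a₂ m ha₂d hm
    have h2 := hpow a₁ l ha₁d hl
    have h3 : (X ^ k * (a₁ ^ l * a₂ ^ m) : ℚ[X]).natDegree ≤
        (X ^ k : ℚ[X]).natDegree + (a₁ ^ l * a₂ ^ m).natDegree := natDegree_mul_le
    have h4 : (a₁ ^ l * a₂ ^ m).natDegree ≤ (a₁ ^ l).natDegree + (a₂ ^ m).natDegree :=
      natDegree_mul_le
    have h5 : (X ^ k : ℚ[X]).natDegree = k := natDegree_X_pow k
    omega
  obtain ⟨φ₀, hφ0, hφd, hφ⟩ := elim (pol r c).natDegree (pol r c₂).natDegree D l m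
    (pol r c).integralNormalization (pol r c₂).integralNormalization
    (monic_integralNormalization hq₁) (monic_integralNormalization hq₂)
    natDegree_integralNormalization natDegree_integralNormalization
    (Nat.one_le_iff_ne_zero.2 hd₁) (Nat.one_le_iff_ne_zero.2 hd₂)
    (fun j => (dich_cf r c j).trans (Nat.le_add_right _ _))
    (fun j => (dich_cf r c₂ j).trans (Nat.le_add_right _ _)) _ _ _ hu hv hw
  refine ⟨a₁ * a₂ * φ₀, mul_ne_zero (mul_ne_zero ha₁0 ha₂0) hφ0, ?_, ?_⟩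
  · have h1 : (a₁ * a₂ * φ₀).natDegree ≤ (a₁ * a₂).natDegree + φ₀.natDegree := natDegree_mul_le
    have h2 : (a₁ * a₂).natDegree ≤ a₁.natDegree + a₂.natDegree := natDegree_mul_le
    have h3 := (pol_coeff r c 0).2
    have h4 := (pol_coeff r c₂ 0).2
    have h5 : (pol r c).natDegree * (pol r c₂).natDegree * ((l + m + 1) * D) ≤
        r * r * ((2 * E + 1) * D) := by
      apply Nat.mul_le_mul
      · apply Nat.mul_le_mul <;> omega
      · apply Nat.mul_le_mul_right
        omega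
    omega
  · intro x y z hcx hcz hcx2 hcz2 hF
    by_cases he₁ : a₁.eval (x : ℚ) = 0
    · left
      rw [eval_mul, eval_mul, he₁, zero_mul, zero_mul]
    by_cases he₂ : a₂.eval (x : ℚ) = 0
    · left
      rw [eval_mul, eval_mul, he₂, mul_zero, zero_mul]
    obtain ⟨zs, hz0, hzr, hz1⟩ := branch r c hc x z hcx hcz he₁
    obtain ⟨ys, hy0, hyr, hy1⟩ := branch r c₂ hc₂ x y hcx2 hcz2 he₂
    have hZ : (pol r c).integralNormalization.eval₂ (sh x) (sh x a₁ * zs) = 0 := by
      rw [ha₁, integralNormalization_eval₂_leadingCoeff_mul (Nat.one_le_iff_ne_zero.2 hd₁), hzr,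
        mul_zero]
    have hY : (pol r c₂).integralNormalization.eval₂ (sh x) (sh x a₂ * ys) = 0 := by
      rw [ha₂, integralNormalization_eval₂_leadingCoeff_mul (Nat.one_le_iff_ne_zero.2 hd₂), hyr,
        mul_zero]
    have hshX : sh (x : ℚ) X = PowerSeries.C (R := ℚ) (x : ℚ) + PowerSeries.X := by
      simp [sh]
    have hshC : ∀ a : ℚ, sh (x : ℚ) (C a) = PowerSeries.C (R := ℚ) a := by
      intro a
      simp [sh]
    set g : PowerSeries ℚ := PowerSeries.C (R := ℚ) (al : ℚ) *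
        (PowerSeries.C (R := ℚ) (x : ℚ) + PowerSeries.X) ^ k +
        PowerSeries.C (R := ℚ) (be : ℚ) * ys ^ m + PowerSeries.C (R := ℚ) (ga : ℚ) * zs ^ l with hg
    have hf : sh x (C (ga : ℚ) * a₂ ^ m) * (sh x a₁ * zs) ^ l +
        sh x (C (be : ℚ) * a₁ ^ l) * (sh x a₂ * ys) ^ m +
        sh x (C (al : ℚ) * (X ^ k * (a₁ ^ l * a₂ ^ m))) =
        (sh x a₁) ^ l * (sh x a₂) ^ m * g := by
      simp only [map_mul, map_pow, hshX, hshC, hg]
      ring
    have hFQ : (al : ℚ) * (x : ℚ) ^ k + be * (y : ℚ) ^ m + ga * (z : ℚ) ^ l = 0 := by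
      exact_mod_cast hF
    have heg : PowerSeries.constantCoeff (R := ℚ) g = 0 := by
      rw [hg]
      simp only [map_add, map_mul, map_pow, hz0, hy0, PowerSeries.constantCoeff_C,
        PowerSeries.constantCoeff_X, add_zero]
      exact hFQ
    by_cases hgz : g = 0
    · right
      have h1 : PowerSeries.coeff (R := ℚ) 1 g = 0 := by rw [hgz, map_zero]
      have h2 : PowerSeries.coeff (R := ℚ) 1 g = al * (k * (x : ℚ) ^ (k - 1)) +
          be * (m * PowerSeries.coeff (R := ℚ) 1 ys * (y : ℚ) ^ (m - 1)) +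
          ga * (l * PowerSeries.coeff (R := ℚ) 1 zs * (z : ℚ) ^ (l - 1)) := by
        rw [hg]
        simp only [map_add, PowerSeries.coeff_C_mul, PowerSeries.coeff_one_pow, hz0, hy0,
          PowerSeries.constantCoeff_C, PowerSeries.constantCoeff_X, add_zero,
          PowerSeries.coeff_one_X]
        have h3 : PowerSeries.coeff (R := ℚ) 1 (PowerSeries.C (R := ℚ) (x : ℚ)) = 0 := by
          rw [PowerSeries.coeff_C]
          simp
        rw [h3]
        ring
      rw [h1] at h2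
      have h4 : ((k * al * x ^ (k - 1) * ev2 r (dz c) x z * ev2 r (dz c₂) x y -
        m * be * y ^ (m - 1) * ev2 r (dx c₂) x y * ev2 r (dz c) x z -
        l * ga * z ^ (l - 1) * ev2 r (dx c) x z * ev2 r (dz c₂) x y : ℤ) : ℚ) = 0 := by
        push_cast
        have h5 : (ev2 r (dx c) x z : ℚ) =
            -((ev2 r (dz c) x z : ℚ) * PowerSeries.coeff (R := ℚ) 1 zs) := by linarith
        have h6 : (ev2 r (dx c₂) x y : ℚ) =
            -((ev2 r (dz c₂) x y : ℚ) * PowerSeries.coeff (R := ℚ) 1 ys) := by linarith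
        rw [h5, h6]
        linear_combination (-(ev2 r (dz c) x z : ℚ) * (ev2 r (dz c₂) x y : ℚ)) * h2
      exact_mod_cast h4
    · left
      have hs₁ : sh (x : ℚ) a₁ ≠ 0 := by
        intro h
        apply he₁
        rw [← dich_sh, h, map_zero]
      have hs₂ : sh (x : ℚ) a₂ ≠ 0 := by
        intro h
        apply he₂
        rw [← dich_sh, h, map_zero]
      have h7 := hφ (PowerSeries ℚ) (sh x) (PowerSeries.constantCoeff (R := ℚ)) _ _ hZ hY
        (by
          rw [hf]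
          exact mul_ne_zero (mul_ne_zero (pow_ne_zero _ hs₁) (pow_ne_zero _ hs₂)) hgz)
        (by rw [hf, map_mul, heg, mul_zero])
      rw [dich_sh] at h7
      rw [eval_mul, h7, mul_zero]

end Pool.MP_a95293_nt.SF
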