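import Mathlib

/-!
# Piece ELIM: `u Z^l + v Y^m + w` for algebraic functions `Z, Y`

PROOF.  Companion matrices `C₁` (size `d₁`) and `C₂` (size `d₂`) over `ℚ[X]`: for a root `Z` of `p₁` in a ring `S` over `ψ` the vector
`v₁ = (1, Z, …, Z^(d₁-1))` satisfies `C₁ v₁ = Z v₁` (row `i`: `e_(i+1)` for `i + 1 < d₁`, the last row `- coeff p₁ j`).  Put
`M = u C₁^l ⊗ 1 + 1 ⊗ v C₂^m + w 1`, a matrix over `ℚ[X]` indexed by `Fin d₁ × Fin d₂` (`Matrix.kroneckerMap`), entries of degree at most
`(l + m + 1) D`.  Let `Φ = M.charpoly = X^s Φ₁` with `Φ₁ (0) = φ ≠ 0` (`Φ` is monic, so nonzero: `Polynomial.exists_eq_pow_rootMultiplicity_mul_and_not_dvd`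
at the root `0`, or `Polynomial.natTrailingDegree`: `φ = Φ.coeff Φ.natTrailingDegree`).  Every coefficient (in `ℚ[X]`) of `Φ`
has degree at most `d₁ d₂ (l + m + 1) D` (`Φ = det (X - M)`; the predicate 'all coefficients have degree `≤ D`' is additive in products).
For `S, ψ, Z, Y`: `f = ψ u Z^l + ψ v Y^m + ψ w` is an eigenvalue of `M.map ψ` with the eigenvector `v₁ ⊗ v₂ ≠ 0` (its `(0,0)` entry is
`1`), so `(Φ.map ψ).eval f = 0` (`Matrix.charpoly_map`, `Matrix.eval_charpoly`, `Matrix.exists_mulVec_eq_zero_iff`, `S` is a domain);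
`f^s (Φ₁.map ψ).eval f = 0`, `f ≠ 0`, so `(Φ₁.map ψ).eval f = 0`; apply `e`: `e f = 0`, so `e (ψ φ) = 0`.
-/

set_option autoImplicit false

namespace Pool.MP_a95293_nt.SF

open Finset Polynomial

private def ElBd (N : ℕ) (f : ℚ[X][X]) : Prop := ∀ k, (f.coeff k).natDegree ≤ N

private theorem ElBd_mul {a b : ℕ} {f g : ℚ[X][X]} (hf : ElBd a f) (hg : ElBd b g) :
    ElBd (a + b) (f * g) := by
  intro k
  rw [coeff_mul]
  exact natDegree_sum_le_of_forall_le _ _ fun x _ => natDegree_mul_le_of_le (hf _) (hg _)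

private theorem ElBd_prod {ι : Type} (N : ℕ) (f : ι → ℚ[X][X]) (s : Finset ι)
    (h : ∀ i ∈ s, ElBd N (f i)) : ElBd (s.card * N) (∏ i ∈ s, f i) := by
  classical
  induction s using Finset.induction_on with
  | empty =>
    intro k
    rw [prod_empty, coeff_one]
    split_ifs
    · rw [natDegree_one]
      exact Nat.zero_le _
    · rw [natDegree_zero]
      exact Nat.zero_le _
  | insert a s ha ih =>
    rw [prod_insert ha, card_insert_of_notMem ha]
    have h1 := ElBd_mul (h a (mem_insert_self a s)) (ih fun i hi => h i (mem_insert_of_mem hi))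
    have e : (s.card + 1) * N = N + s.card * N := by ring
    rw [e]
    exact h1

private theorem ElBd_det {n : Type} [Fintype n] [DecidableEq n] (A : Matrix n n ℚ[X][X]) (N : ℕ)
    (h : ∀ i j, ElBd N (A i j)) : ElBd (Fintype.card n * N) A.det := by
  intro k
  rw [Matrix.det_apply, finsetSum_coeff]
  refine natDegree_sum_le_of_forall_le _ _ fun σ _ => ?_
  have h1 := ElBd_prod N (fun i => A (σ i) i) univ (fun i _ => h _ _) k
  rw [card_univ] at h1
  rcases Int.units_eq_one_or (Equiv.Perm.sign σ) with e | e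
  · rw [e, one_smul]
    exact h1
  · rw [e, Units.smul_def, Units.val_neg, Units.val_one, neg_smul, one_smul, coeff_neg,
      natDegree_neg]
    exact h1

/-- The companion matrix. -/
private noncomputable def elC (d : ℕ) (p : ℚ[X][X]) : Matrix (Fin d) (Fin d) ℚ[X] :=
  Matrix.of fun i j => if (i : ℕ) + 1 < d then (if (j : ℕ) = i + 1 then 1 else 0) else - p.coeff j

private theorem elC_deg (d D : ℕ) (p : ℚ[X][X]) (hB : ∀ j, (p.coeff j).natDegree ≤ D) (l : ℕ) :
    ∀ i j, ((elC d p ^ l) i j).natDegree ≤ l * D := by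
  induction l with
  | zero =>
    intro i j
    rw [pow_zero, Matrix.one_apply]
    split_ifs
    · rw [natDegree_one]
      exact Nat.zero_le _
    · rw [natDegree_zero]
      exact Nat.zero_le _
  | succ l ih =>
    intro i j
    rw [pow_succ, Matrix.mul_apply]
    refine natDegree_sum_le_of_forall_le _ _ fun x _ => ?_
    have h1 : (elC d p x j).natDegree ≤ D := by
      show (if (x : ℕ) + 1 < d then (if (j : ℕ) = x + 1 then (1 : ℚ[X]) else 0)
        else - p.coeff j).natDegree ≤ D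
      split_ifs
      · rw [natDegree_one]
        exact Nat.zero_le _
      · rw [natDegree_zero]
        exact Nat.zero_le _
      · rw [natDegree_neg]
        exact hB _
    have e : (l + 1) * D = l * D + D := by ring
    rw [e]
    exact natDegree_mul_le_of_le (ih i x) h1

private theorem elC_eig (d : ℕ) (p : ℚ[X][X]) (hp : p.Monic) (hd : p.natDegree = d)
    {S : Type} [CommRing S] (ψ : ℚ[X] →+* S) (Z : S) (hZ : p.eval₂ ψ Z = 0) (l : ℕ) :
    ∀ i : Fin d, ∑ j : Fin d, ψ ((elC d p ^ l) i j) * Z ^ (j : ℕ) = Z ^ l * Z ^ (i : ℕ) := by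
  have h1 : ∀ i : Fin d, ∑ j : Fin d, ψ (elC d p i j) * Z ^ (j : ℕ) = Z * Z ^ (i : ℕ) := by
    intro i
    by_cases hi : (i : ℕ) + 1 < d
    · have e : ∀ j : Fin d, ψ (elC d p i j) * Z ^ (j : ℕ) =
          if j = ⟨(i : ℕ) + 1, hi⟩ then Z * Z ^ (i : ℕ) else 0 := by
        intro j
        have e1 : elC d p i j = if (j : ℕ) = i + 1 then (1 : ℚ[X]) else 0 := by
          show (if (i : ℕ) + 1 < d then (if (j : ℕ) = i + 1 then (1 : ℚ[X]) else 0)
            else - p.coeff j) = _
          rw [if_pos hi]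
        rw [e1]
        by_cases hj : (j : ℕ) = i + 1
        · rw [if_pos hj, if_pos (Fin.ext hj), map_one, one_mul, hj, pow_succ']
        · rw [if_neg hj, if_neg (fun e => hj (congrArg Fin.val e)), map_zero, zero_mul]
      rw [Finset.sum_congr rfl fun j _ => e j, Finset.sum_ite_eq' univ, if_pos (mem_univ _)]
    · have hi' : (i : ℕ) + 1 = d := by
        have := i.isLt
        omega
      have e : ∀ j : Fin d, ψ (elC d p i j) * Z ^ (j : ℕ) =
          - (fun n : ℕ => ψ (p.coeff n) * Z ^ n) j := by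
        intro j
        have e1 : elC d p i j = - p.coeff j := by
          show (if (i : ℕ) + 1 < d then (if (j : ℕ) = i + 1 then (1 : ℚ[X]) else 0)
            else - p.coeff j) = _
          rw [if_neg hi]
        rw [e1, map_neg, neg_mul]
      rw [Finset.sum_congr rfl fun j _ => e j, Finset.sum_neg_distrib,
        Fin.sum_univ_eq_sum_range (fun n : ℕ => ψ (p.coeff n) * Z ^ n) d]
      rw [eval₂_eq_sum_range, hd, Finset.sum_range_succ] at hZ
      have e2 : p.coeff d = 1 := by
        rw [← hd]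
        exact hp
      rw [e2, map_one, one_mul] at hZ
      have e3 : Z * Z ^ (i : ℕ) = Z ^ d := by rw [← pow_succ', hi']
      rw [e3]
      linear_combination -hZ
  induction l with
  | zero =>
    intro i
    rw [Finset.sum_eq_single i]
    · rw [pow_zero, Matrix.one_apply_eq, map_one, pow_zero]
    · intro j _ hj
      rw [pow_zero, Matrix.one_apply_ne (Ne.symm hj), map_zero, zero_mul]
    · intro h
      exact absurd (mem_univ _) h
  | succ l ih =>
    intro i
    have e : ∀ j : Fin d, ψ ((elC d p ^ (l + 1)) i j) * Z ^ (j : ℕ) =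
        ∑ x : Fin d, ψ ((elC d p ^ l) i x) * (ψ (elC d p x j) * Z ^ (j : ℕ)) := by
      intro j
      rw [pow_succ, Matrix.mul_apply, map_sum, Finset.sum_mul]
      refine Finset.sum_congr rfl fun x _ => ?_
      rw [map_mul]
      ring
    rw [Finset.sum_congr rfl fun j _ => e j, Finset.sum_comm]
    have e' : ∀ x : Fin d, ∑ j : Fin d, ψ ((elC d p ^ l) i x) * (ψ (elC d p x j) * Z ^ (j : ℕ)) =
        Z * (ψ ((elC d p ^ l) i x) * Z ^ (x : ℕ)) := by
      intro x
      rw [← Finset.mul_sum, h1 x]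
      ring
    rw [Finset.sum_congr rfl fun x _ => e' x, ← Finset.mul_sum, ih i, pow_succ]
    ring

/-- The matrix `u A ⊗ 1 + v 1 ⊗ B + w`. -/
private noncomputable def elK {m n : Type} [DecidableEq m] [DecidableEq n] {R : Type} [CommRing R]
    (A : Matrix m m R) (B : Matrix n n R) (u v w : R) : Matrix (m × n) (m × n) R :=
  Matrix.of fun x y => u * A x.1 y.1 * (if x.2 = y.2 then 1 else 0) +
    v * B x.2 y.2 * (if x.1 = y.1 then 1 else 0) +
    w * ((if x.1 = y.1 then 1 else 0) * (if x.2 = y.2 then 1 else 0))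

private theorem elK_eig {m n : Type} [Fintype m] [Fintype n] [DecidableEq m] [DecidableEq n]
    {R S : Type} [CommRing R] [CommRing S] (A : Matrix m m R) (B : Matrix n n R) (u v w : R)
    (ψ : R →+* S) (a : m → S) (b : n → S) (α β : S)
    (ha : ∀ i, ∑ j, ψ (A i j) * a j = α * a i) (hb : ∀ i, ∑ j, ψ (B i j) * b j = β * b i)
    (x : m × n) : ∑ y : m × n, ψ (elK A B u v w x y) * (a y.1 * b y.2) =
      (ψ u * α + ψ v * β + ψ w) * (a x.1 * b x.2) := by
  rw [Fintype.sum_prod_type]
  have e : ∀ (i : m) (j : n), ψ (elK A B u v w x (i, j)) * (a i * b j) =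
      (if x.2 = j then ψ u * (ψ (A x.1 i) * a i) * b j else 0) +
      (if x.1 = i then ψ v * (ψ (B x.2 j) * b j) * a i else 0) +
      (if x.1 = i then (if x.2 = j then ψ w * (a i * b j) else 0) else 0) := by
    intro i j
    show ψ (u * A x.1 i * (if x.2 = j then 1 else 0) + v * B x.2 j * (if x.1 = i then 1 else 0) +
      w * ((if x.1 = i then 1 else 0) * (if x.2 = j then 1 else 0))) * (a i * b j) = _
    by_cases h1 : x.1 = i
    · by_cases h2 : x.2 = j
      · simp only [if_pos h1, if_pos h2, map_add, map_mul, map_one]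
        ring
      · simp only [if_pos h1, if_neg h2, map_add, map_mul, map_one, map_zero]
        ring
    · by_cases h2 : x.2 = j
      · simp only [if_neg h1, if_pos h2, map_add, map_mul, map_one, map_zero]
        ring
      · simp only [if_neg h1, if_neg h2, map_add, map_mul, map_zero]
        ring
  have e1 : ∀ i : m, ∑ j : n, ψ (elK A B u v w x (i, j)) * (a i * b j) =
      ψ u * b x.2 * (ψ (A x.1 i) * a i) + (if x.1 = i then ψ v * (β * b x.2) * a i else 0) +
      (if x.1 = i then ψ w * (a i * b x.2) else 0) := by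
    intro i
    rw [Finset.sum_congr rfl fun j _ => e i j, Finset.sum_add_distrib, Finset.sum_add_distrib,
      Finset.sum_ite_eq univ, if_pos (mem_univ _)]
    have e2 : ∑ j : n, (if x.1 = i then ψ v * (ψ (B x.2 j) * b j) * a i else 0) =
        if x.1 = i then ψ v * (β * b x.2) * a i else 0 := by
      split_ifs
      · rw [← hb x.2, Finset.mul_sum, Finset.sum_mul]
      · rw [Finset.sum_const_zero]
    have e3 : ∑ j : n, (if x.1 = i then (if x.2 = j then ψ w * (a i * b j) else 0) else 0) =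
        if x.1 = i then ψ w * (a i * b x.2) else 0 := by
      split_ifs
      · rw [Finset.sum_ite_eq univ, if_pos (mem_univ _)]
      · rw [Finset.sum_const_zero]
    rw [e2, e3]
    ring
  rw [Finset.sum_congr rfl fun i _ => e1 i, Finset.sum_add_distrib, Finset.sum_add_distrib,
    Finset.sum_ite_eq univ, if_pos (mem_univ _), Finset.sum_ite_eq univ, if_pos (mem_univ _),
    ← Finset.mul_sum, ha x.1]
  ring

theorem elim (d₁ d₂ D l m : ℕ) (p₁ p₂ : ℚ[X][X]) (hp₁ : p₁.Monic) (hp₂ : p₂.Monic)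
    (h₁ : p₁.natDegree = d₁) (h₂ : p₂.natDegree = d₂) (h₁' : 1 ≤ d₁) (h₂' : 1 ≤ d₂)
    (hB₁ : ∀ j, (p₁.coeff j).natDegree ≤ D) (hB₂ : ∀ j, (p₂.coeff j).natDegree ≤ D)
    (u v w : ℚ[X]) (hu : u.natDegree ≤ D) (hv : v.natDegree ≤ D) (hw : w.natDegree ≤ D) :
    ∃ φ : ℚ[X], φ ≠ 0 ∧ φ.natDegree ≤ d₁ * d₂ * ((l + m + 1) * D) ∧
      ∀ (S : Type) [CommRing S] [IsDomain S] (ψ : ℚ[X] →+* S) (e : S →+* ℚ) (Z Y : S),
        p₁.eval₂ ψ Z = 0 → p₂.eval₂ ψ Y = 0 → ψ u * Z ^ l + ψ v * Y ^ m + ψ w ≠ 0 →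
        e (ψ u * Z ^ l + ψ v * Y ^ m + ψ w) = 0 → e (ψ φ) = 0 := by
  classical
  set M : Matrix (Fin d₁ × Fin d₂) (Fin d₁ × Fin d₂) ℚ[X] :=
    elK (elC d₁ p₁ ^ l) (elC d₂ p₂ ^ m) u v w with hM
  have hMd : ∀ x y, (M x y).natDegree ≤ (l + m + 1) * D := by
    intro x y
    have i1 : ∀ P : Prop, ∀ _ : Decidable P, (if P then (1 : ℚ[X]) else 0).natDegree ≤ 0 := by
      intro P _
      split_ifs
      · rw [natDegree_one]
      · rw [natDegree_zero]
    show (u * (elC d₁ p₁ ^ l) x.1 y.1 * (if x.2 = y.2 then 1 else 0) +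
      v * (elC d₂ p₂ ^ m) x.2 y.2 * (if x.1 = y.1 then 1 else 0) +
      w * ((if x.1 = y.1 then 1 else 0) * (if x.2 = y.2 then 1 else 0))).natDegree ≤ _
    refine natDegree_add_le_of_degree_le (natDegree_add_le_of_degree_le ?_ ?_) ?_
    · refine (natDegree_mul_le_of_le (natDegree_mul_le_of_le hu
        (elC_deg d₁ D p₁ hB₁ l x.1 y.1)) (i1 _ _)).trans ?_
      nlinarith [Nat.zero_le (m * D)]
    · refine (natDegree_mul_le_of_le (natDegree_mul_le_of_le hv
        (elC_deg d₂ D p₂ hB₂ m x.2 y.2)) (i1 _ _)).trans ?_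
      nlinarith [Nat.zero_le (l * D)]
    · refine (natDegree_mul_le_of_le hw (natDegree_mul_le_of_le (i1 _ _) (i1 _ _))).trans ?_
      nlinarith [Nat.zero_le (l * D), Nat.zero_le (m * D)]
  have hΦ0 : M.charpoly ≠ 0 := (Matrix.charpoly_monic M).ne_zero
  have hΦd : ElBd (Fintype.card (Fin d₁ × Fin d₂) * ((l + m + 1) * D)) M.charpoly := by
    refine ElBd_det _ _ fun x y k => ?_
    by_cases hxy : x = y
    · subst hxy
      rw [Matrix.charmatrix_apply_eq, coeff_sub, coeff_X, coeff_C]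
      refine (natDegree_sub_le _ _).trans (max_le ?_ ?_)
      · split_ifs
        · rw [natDegree_one]
          exact Nat.zero_le _
        · rw [natDegree_zero]
          exact Nat.zero_le _
      · split_ifs
        · exact hMd _ _
        · rw [natDegree_zero]
          exact Nat.zero_le _
    · rw [Matrix.charmatrix_apply_ne _ _ _ hxy, coeff_neg, natDegree_neg, coeff_C]
      split_ifs
      · exact hMd _ _
      · rw [natDegree_zero]
        exact Nat.zero_le _
  rw [Fintype.card_prod, Fintype.card_fin, Fintype.card_fin] at hΦd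
  obtain ⟨q, hq, hq'⟩ := exists_eq_pow_rootMultiplicity_mul_and_not_dvd M.charpoly hΦ0 0
  rw [map_zero, sub_zero] at hq hq'
  set s := M.charpoly.rootMultiplicity 0 with hs
  have hc : M.charpoly.coeff s = q.coeff 0 := by
    have := coeff_X_pow_mul q s 0
    rw [zero_add] at this
    rw [← this, ← hq]
  refine ⟨q.coeff 0, fun h => hq' (X_dvd_iff.mpr h), ?_, ?_⟩
  · rw [← hc]
    exact hΦd s
  · intro S _ _ ψ e Z Y hZ hY hf hef
    set f := ψ u * Z ^ l + ψ v * Y ^ m + ψ w with hfdef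
    have hev : (M.charpoly.map ψ).eval f = 0 := by
      rw [← Matrix.charpoly_map, Matrix.eval_charpoly, ← Matrix.exists_mulVec_eq_zero_iff]
      refine ⟨fun x => Z ^ (x.1 : ℕ) * Y ^ (x.2 : ℕ), ?_, ?_⟩
      · intro h0
        have := congrFun h0 (⟨0, h₁'⟩, ⟨0, h₂'⟩)
        simp at this
      · rw [Matrix.sub_mulVec]
        funext x
        rw [Pi.sub_apply, Pi.zero_apply, sub_eq_zero]
        have e1 : (Matrix.scalar (Fin d₁ × Fin d₂) f).mulVec
            (fun x => Z ^ (x.1 : ℕ) * Y ^ (x.2 : ℕ)) x = f * (Z ^ (x.1 : ℕ) * Y ^ (x.2 : ℕ)) := by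
          rw [Matrix.scalar_apply, Matrix.mulVec_diagonal]
        rw [e1]
        have e2 := elK_eig (elC d₁ p₁ ^ l) (elC d₂ p₂ ^ m) u v w ψ (fun i => Z ^ (i : ℕ))
          (fun i => Y ^ (i : ℕ)) (Z ^ l) (Y ^ m) (elC_eig d₁ p₁ hp₁ h₁ ψ Z hZ l)
          (elC_eig d₂ p₂ hp₂ h₂ ψ Y hY m) x
        rw [← hM, ← hfdef] at e2
        exact e2.symm
    rw [hq, Polynomial.map_mul, Polynomial.map_pow, map_X, eval_mul, eval_pow, eval_X] at hev
    have hev2 : (q.map ψ).eval f = 0 := (mul_eq_zero.mp hev).resolve_left (pow_ne_zero _ hf)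
    have h3 := congrArg e hev2
    rw [map_zero, eval_map, hom_eval₂, hef, eval₂_at_zero] at h3
    exact h3

end Pool.MP_a95293_nt.SF
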