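import Pool.Agent.Lib_MP_a95293_sf.AeD

/-!
# Piece OFF: only equal products contribute

PROOF.  `u = ∑ log x_j - log x'_j = log n - log n'`, `n = ∏ x_j ≤ H^p ≤ Q`, `n' = ∏ x'_j`.  Pairs with `n = n'` (kernel `≤ 1`): for given
`x'` every `x_j` divides `n'`: at most `D^p`; together `H^p D^p`.  Pairs with `n ≠ n'`: `|u| ≥ 1 / Q` (`log (n / n') ≥ 1 - n'/n ≥ 1/n` for `n > n'`) and
`|u| ≤ log Q`; `θ = Δ k u / 2` has `|θ| ≤ π / 2`, `|θ| ≥ Δ / (2 Q)`, `cos θ ^ 2 ≤ 1 / (1 + θ^2)` (`Real.cos_le_one_div_sqrt_sq_add_one`), so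
`cos θ ^ (2N) ≤ (1 + θ^2)^(-N) ≤ exp (- N θ^2 / 4) ≤ exp (- N Δ^2 / (16 Q^2)) ≤ Q^(-2)` (`1 + t ≥ exp (t / 4)` for `0 ≤ t ≤ 3`).  There are at most
`H^(2p) ≤ Q^2` such pairs.  Total `≤ H^p D^p + 1 ≤ 2 H^p D^p`.
-/

set_option autoImplicit false

namespace Pool.MP_a95293_nt.SF

open Finset

private theorem Off_ker_le_one (N : ℕ) (Δ u : ℝ) : ker N Δ u ≤ 1 := by
  unfold ker
  rw [pow_mul]
  exact pow_le_one₀ (sq_nonneg _) (Real.cos_sq_le_one _)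

private theorem Off_cos (θ : ℝ) (h : |θ| ≤ 3 / 2) : Real.cos θ ^ 2 ≤ Real.exp (-(θ ^ 2 / 4)) := by
  have hπ := Real.pi_gt_three
  have h1 := (abs_le.1 h).1
  have h2 := (abs_le.1 h).2
  have hc0 : 0 ≤ Real.cos θ := Real.cos_nonneg_of_mem_Icc ⟨by linarith, by linarith⟩
  have hc1 : Real.cos θ ≤ 1 / √(θ ^ 2 + 1) :=
    Real.cos_le_one_div_sqrt_sq_add_one (by linarith) (by linarith)
  have ht : θ ^ 2 ≤ 3 := by
    have : θ ^ 2 = |θ| ^ 2 := (sq_abs θ).symm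
    rw [this]
    nlinarith [abs_nonneg θ]
  have hpos : 0 < θ ^ 2 + 1 := by positivity
  have h3 : Real.cos θ ^ 2 ≤ 1 / (θ ^ 2 + 1) := by
    calc Real.cos θ ^ 2 ≤ (1 / √(θ ^ 2 + 1)) ^ 2 := pow_le_pow_left₀ hc0 hc1 2
      _ = 1 / (θ ^ 2 + 1) := by
          rw [div_pow, one_pow, Real.sq_sqrt hpos.le]
  refine h3.trans ?_
  rw [div_le_iff₀ hpos]
  have h4 : 1 - θ ^ 2 / 4 ≤ Real.exp (-(θ ^ 2 / 4)) := Real.one_sub_le_exp_neg _
  have h5 : 1 ≤ (1 - θ ^ 2 / 4) * (θ ^ 2 + 1) := by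
    nlinarith [sq_nonneg θ]
  exact h5.trans (mul_le_mul_of_nonneg_right h4 hpos.le)

private theorem Off_log_sub {a b Q : ℕ} (hb : 1 ≤ b) (hab : b < a) (haQ : a ≤ Q) :
    1 / (Q : ℝ) ≤ Real.log a - Real.log b := by
  have hb0 : (0 : ℝ) < b := by exact_mod_cast hb
  have ha0 : (0 : ℝ) < a := by exact_mod_cast (by omega : 0 < a)
  have hQ0 : (0 : ℝ) < Q := by exact_mod_cast (by omega : 0 < Q)
  rw [← Real.log_div ha0.ne' hb0.ne']
  have h1 := Real.one_sub_inv_le_log_of_pos (div_pos ha0 hb0)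
  refine le_trans ?_ h1
  rw [inv_div, one_sub_div ha0.ne', div_le_div_iff₀ hQ0 ha0]
  have h2 : (b : ℝ) + 1 ≤ a := by exact_mod_cast hab
  have h3 : (a : ℝ) ≤ Q := by exact_mod_cast haQ
  nlinarith

private theorem Off_abs {a b Q : ℕ} (ha : 1 ≤ a) (hb : 1 ≤ b) (haQ : a ≤ Q) (hbQ : b ≤ Q)
    (hab : a ≠ b) : 1 / (Q : ℝ) ≤ |Real.log a - Real.log b| ∧
      |Real.log a - Real.log b| ≤ Real.log Q := by
  have hb0 : (0 : ℝ) < b := by exact_mod_cast hb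
  have ha0 : (0 : ℝ) < a := by exact_mod_cast ha
  have la : 0 ≤ Real.log a := Real.log_nonneg (by exact_mod_cast ha)
  have lb : 0 ≤ Real.log b := Real.log_nonneg (by exact_mod_cast hb)
  have la' : Real.log a ≤ Real.log Q := Real.log_le_log ha0 (by exact_mod_cast haQ)
  have lb' : Real.log b ≤ Real.log Q := Real.log_le_log hb0 (by exact_mod_cast hbQ)
  constructor
  · rcases lt_or_gt_of_ne hab with h | h
    · rw [abs_sub_comm]
      exact (Off_log_sub ha h hbQ).trans (le_abs_self _)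
    · exact (Off_log_sub hb h haQ).trans (le_abs_self _)
  · rw [abs_le]
    constructor <;> linarith

private theorem Off_ker (N k Q : ℕ) (Δ u : ℝ) (hk : 1 ≤ k) (hQ : 1 ≤ Q) (hΔ : 0 < Δ)
    (hΔ1 : Δ * k * Real.log Q ≤ 3) (hN : 32 * (Q : ℝ) ^ 2 * Real.log Q ≤ N * Δ ^ 2)
    (hu1 : 1 / (Q : ℝ) ≤ |u|) (hu2 : |u| ≤ Real.log Q) :
    ker N Δ (k * u) ≤ 1 / (Q : ℝ) ^ 2 := by
  have hQ0 : (0 : ℝ) < Q := by exact_mod_cast hQ
  have hk1 : (1 : ℝ) ≤ k := by exact_mod_cast hk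
  have hk0 : (0 : ℝ) < k := by linarith
  set θ : ℝ := Δ * (k * u) / 2 with hθ
  have habs : |θ| = Δ * k * |u| / 2 := by
    rw [hθ, abs_div, abs_mul, abs_mul, abs_of_pos hΔ, abs_of_pos hk0, abs_of_pos (by norm_num : (0 : ℝ) < 2)]
    ring
  have h1 : |θ| ≤ 3 / 2 := by
    rw [habs]
    have : Δ * k * |u| ≤ Δ * k * Real.log Q := mul_le_mul_of_nonneg_left hu2 (by positivity)
    linarith
  have h2 : Δ / (2 * Q) ≤ |θ| := by
    rw [habs]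
    have h3 : Δ * (1 / (Q : ℝ)) ≤ Δ * k * |u| := by
      have h4 : Δ * (1 / (Q : ℝ)) ≤ Δ * |u| := mul_le_mul_of_nonneg_left hu1 hΔ.le
      have h5 : Δ * |u| ≤ Δ * k * |u| := by
        apply mul_le_mul_of_nonneg_right _ (abs_nonneg u)
        nlinarith
      linarith
    have h6 : Δ / (2 * Q) = Δ * (1 / (Q : ℝ)) / 2 := by
      field_simp
    rw [h6]
    linarith
  have h3 : Δ ^ 2 / (4 * (Q : ℝ) ^ 2) ≤ θ ^ 2 := by
    rw [← sq_abs θ]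
    have h4 := pow_le_pow_left₀ (by positivity) h2 2
    refine le_trans (le_of_eq ?_) h4
    rw [div_pow]
    ring
  have hker : ker N Δ (k * u) = (Real.cos θ ^ 2) ^ N := by
    unfold ker
    rw [pow_mul]
  rw [hker]
  have h4 : (Real.cos θ ^ 2) ^ N ≤ (Real.exp (-(θ ^ 2 / 4))) ^ N :=
    pow_le_pow_left₀ (sq_nonneg _) (Off_cos θ h1) N
  refine h4.trans ?_
  rw [← Real.exp_nat_mul]
  have h5 : 1 / (Q : ℝ) ^ 2 = Real.exp (-(2 * Real.log Q)) := by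
    rw [Real.exp_neg, mul_comm, Real.exp_mul, Real.exp_log hQ0, one_div]
    norm_num
  rw [h5]
  apply Real.exp_le_exp.2
  have h6 : 2 * Real.log Q ≤ N * (θ ^ 2 / 4) := by
    have h7 : 2 * Real.log Q = (32 * (Q : ℝ) ^ 2 * Real.log Q) / (16 * (Q : ℝ) ^ 2) := by
      field_simp
      ring
    rw [h7]
    have h8 : (32 * (Q : ℝ) ^ 2 * Real.log Q) / (16 * (Q : ℝ) ^ 2) ≤ N * Δ ^ 2 / (16 * (Q : ℝ) ^ 2) :=
      div_le_div_of_nonneg_right hN (by positivity)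
    refine h8.trans ?_
    have h9 : N * Δ ^ 2 / (16 * (Q : ℝ) ^ 2) = N * ((Δ ^ 2 / (4 * (Q : ℝ) ^ 2)) / 4) := by
      field_simp
      ring
    rw [h9]
    apply mul_le_mul_of_nonneg_left _ (Nat.cast_nonneg N)
    linarith
  linarith

private theorem Off_prod {p H Q : ℕ} (hH : H ^ p ≤ Q) {x : Fin p → ℕ}
    (hx : x ∈ Fintype.piFinset fun _ : Fin p => Icc 1 H) :
    1 ≤ ∏ j, x j ∧ ∏ j, x j ≤ Q ∧ ∑ j, Real.log (x j) = Real.log ((∏ j, x j : ℕ) : ℝ) := by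
  rw [Fintype.mem_piFinset] at hx
  have hx' : ∀ j, 1 ≤ x j ∧ x j ≤ H := fun j => mem_Icc.1 (hx j)
  refine ⟨?_, ?_, ?_⟩
  · apply Nat.one_le_iff_ne_zero.2
    rw [Finset.prod_ne_zero_iff]
    intro j _
    have := (hx' j).1
    omega
  · refine le_trans ?_ hH
    calc ∏ j, x j ≤ ∏ _j : Fin p, H := prod_le_prod' fun j _ => (hx' j).2
      _ = H ^ p := by simp
  · rw [Nat.cast_prod, Real.log_prod]
    intro j _
    have := (hx' j).1
    have : (1 : ℝ) ≤ x j := by exact_mod_cast this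
    linarith

private theorem Off_card (p H D Q : ℕ) (hH : H ^ p ≤ Q)
    (hD : ∀ n, 1 ≤ n → n ≤ Q → n.divisors.card ≤ D) :
    (((Fintype.piFinset fun _ : Fin p => Icc 1 H) ×ˢ (Fintype.piFinset fun _ : Fin p => Icc 1 H)).filter
      fun z => ∏ j, z.1 j = ∏ j, z.2 j).card ≤ H ^ p * D ^ p := by
  classical
  set S := Fintype.piFinset fun _ : Fin p => Icc 1 H with hS
  have hcS : S.card = H ^ p := by
    rw [hS, Fintype.card_piFinset]
    simp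
  have h1 : ((S ×ˢ S).filter fun z => ∏ j, z.1 j = ∏ j, z.2 j) ⊆
      S.biUnion fun y => (Fintype.piFinset fun _ : Fin p => (∏ j, y j).divisors).image fun x => (x, y) := by
    intro z hz
    rw [mem_filter, mem_product] at hz
    obtain ⟨⟨hz1, hz2⟩, hz3⟩ := hz
    rw [mem_biUnion]
    refine ⟨z.2, hz2, ?_⟩
    rw [mem_image]
    refine ⟨z.1, ?_, rfl⟩
    rw [Fintype.mem_piFinset]
    intro j
    rw [Nat.mem_divisors]
    refine ⟨?_, ?_⟩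
    · rw [← hz3]
      exact dvd_prod_of_mem _ (mem_univ j)
    · have := (Off_prod hH hz2).1
      omega
  refine (card_le_card h1).trans ?_
  refine card_biUnion_le.trans ?_
  rw [← hcS, ← smul_eq_mul, ← sum_const]
  apply sum_le_sum
  intro y hy
  refine card_image_le.trans ?_
  rw [Fintype.card_piFinset]
  obtain ⟨hy1, hy2, _⟩ := Off_prod hH hy
  calc ∏ _j : Fin p, (∏ j, y j).divisors.card ≤ ∏ _j : Fin p, D := prod_le_prod' fun _ _ => hD _ hy1 hy2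
    _ = D ^ p := by simp

theorem TA_le (N k p H D Q : ℕ) (Δ : ℝ) (hk : 1 ≤ k) (hp : 1 ≤ p) (hH0 : 1 ≤ H) (hH : H ^ p ≤ Q)
    (hD : ∀ n, 1 ≤ n → n ≤ Q → n.divisors.card ≤ D) (hΔ : 0 < Δ)
    (hΔ1 : Δ * k * Real.log Q ≤ 3) (hN : 32 * (Q : ℝ) ^ 2 * Real.log Q ≤ N * Δ ^ 2) :
    TA N Δ k p H ≤ (H : ℝ) ^ p * (2 * (D : ℝ) ^ p) := by
  classical
  have hQ : 1 ≤ Q := (Nat.one_le_pow p H hH0).trans hH
  have hQ0 : (0 : ℝ) < Q := by exact_mod_cast hQ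
  have hD1 : 1 ≤ D := by
    have := hD 1 le_rfl hQ
    simpa using this
  have hHp1 : (1 : ℝ) ≤ (H : ℝ) ^ p := one_le_pow₀ (by exact_mod_cast hH0)
  have hDp1 : (1 : ℝ) ≤ (D : ℝ) ^ p := one_le_pow₀ (by exact_mod_cast hD1)
  unfold TA
  set S := Fintype.piFinset fun _ : Fin p => Icc 1 H with hS
  have hcS : S.card = H ^ p := by
    rw [hS, Fintype.card_piFinset]
    simp
  rw [← sum_filter_add_sum_filter_not (S ×ˢ S) (fun z => ∏ j, z.1 j = ∏ j, z.2 j)]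
  have h1 : ∑ z ∈ (S ×ˢ S).filter (fun z => ∏ j, z.1 j = ∏ j, z.2 j),
      ker N Δ ((k : ℝ) * ∑ j : Fin p, (Real.log (z.1 j) - Real.log (z.2 j))) ≤ (H : ℝ) ^ p * (D : ℝ) ^ p := by
    calc ∑ z ∈ (S ×ˢ S).filter (fun z => ∏ j, z.1 j = ∏ j, z.2 j),
          ker N Δ ((k : ℝ) * ∑ j : Fin p, (Real.log (z.1 j) - Real.log (z.2 j)))
        ≤ ∑ z ∈ (S ×ˢ S).filter (fun z => ∏ j, z.1 j = ∏ j, z.2 j), (1 : ℝ) :=
          sum_le_sum fun z _ => Off_ker_le_one _ _ _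
      _ = (((S ×ˢ S).filter (fun z => ∏ j, z.1 j = ∏ j, z.2 j)).card : ℝ) := by simp
      _ ≤ (H : ℝ) ^ p * (D : ℝ) ^ p := by exact_mod_cast Off_card p H D Q hH hD
  have h2 : ∑ z ∈ (S ×ˢ S).filter (fun z => ¬ ∏ j, z.1 j = ∏ j, z.2 j),
      ker N Δ ((k : ℝ) * ∑ j : Fin p, (Real.log (z.1 j) - Real.log (z.2 j))) ≤ 1 := by
    calc ∑ z ∈ (S ×ˢ S).filter (fun z => ¬ ∏ j, z.1 j = ∏ j, z.2 j),
          ker N Δ ((k : ℝ) * ∑ j : Fin p, (Real.log (z.1 j) - Real.log (z.2 j)))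
        ≤ ∑ z ∈ (S ×ˢ S).filter (fun z => ¬ ∏ j, z.1 j = ∏ j, z.2 j), 1 / (Q : ℝ) ^ 2 := by
          apply sum_le_sum
          intro z hz
          rw [mem_filter, mem_product] at hz
          obtain ⟨⟨hz1, hz2⟩, hz3⟩ := hz
          obtain ⟨a1, a2, a3⟩ := Off_prod hH hz1
          obtain ⟨b1, b2, b3⟩ := Off_prod hH hz2
          rw [sum_sub_distrib, a3, b3]
          obtain ⟨u1, u2⟩ := Off_abs a1 b1 a2 b2 hz3
          exact Off_ker N k Q Δ _ hk hQ hΔ hΔ1 hN u1 u2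
      _ = (((S ×ˢ S).filter (fun z => ¬ ∏ j, z.1 j = ∏ j, z.2 j)).card : ℝ) * (1 / (Q : ℝ) ^ 2) := by
          rw [sum_const, nsmul_eq_mul]
      _ ≤ (Q : ℝ) ^ 2 * (1 / (Q : ℝ) ^ 2) := by
          apply mul_le_mul_of_nonneg_right _ (by positivity)
          have h3 : ((S ×ˢ S).filter (fun z => ¬ ∏ j, z.1 j = ∏ j, z.2 j)).card ≤ Q ^ 2 := by
            refine (card_filter_le _ _).trans ?_
            rw [card_product, hcS, ← sq]
            exact Nat.pow_le_pow_left hH 2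
          exact_mod_cast h3
      _ = 1 := by
          field_simp
  nlinarith

end Pool.MP_a95293_nt.SF
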