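import Pool.Agent.Lib_MP_a95293_sf.Bin
import Pool.Agent.Lib_MP_a95293_sf.Off
import Pool.Agent.Lib_MP_a95293_ps.Omg

/-!
# Piece ENA: archimedean energy of a box

PROOF.  As `enK` in `Lib_MP_a95293_ps/EnK.lean` (double the sides, `p i = Nat.log (2 H i) Q`), with `EA_le`, `TA_le` instead of `EE_le`, `TT_le`
(no roots of unity); `EA` is monotone in `H` because the kernel is nonnegative.
-/

set_option autoImplicit false

namespace Pool.MP_a95293_nt.SF

open Finset

private theorem EnA_mono (N : ℕ) (Δ : ℝ) {K : ℕ} {H H' : Fin K → ℕ} (h : ∀ i, H i ≤ H' i) :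
    EA N Δ K H ≤ EA N Δ K H' := by
  unfold EA
  apply sum_le_sum_of_subset_of_nonneg
  · apply product_subset_product
    · exact Fintype.piFinset_subset _ _ fun i => Icc_subset_Icc le_rfl (h i)
    · exact Fintype.piFinset_subset _ _ fun i => Icc_subset_Icc le_rfl (h i)
  · intro z _ _
    exact ker_nonneg _ _ _

private theorem EnA_TA_nonneg (N : ℕ) (Δ : ℝ) (k p H : ℕ) : 0 ≤ TA N Δ k p H := by
  unfold TA
  exact sum_nonneg fun z _ => ker_nonneg _ _ _

private theorem EnA_inv {H q : ℕ} (hH : 2 ≤ H) (hHq : H ≤ q) :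
    1 ≤ Nat.log H q ∧ H ^ Nat.log H q ≤ q ∧
      (1 : ℝ) / (Nat.log H q : ℝ) ≤ 2 * Real.log H / Real.log q := by
  have h1 : 1 ≤ Nat.log H q := Nat.log_pos (by omega) hHq
  refine ⟨h1, Nat.pow_log_le_self H (by omega), ?_⟩
  have hq : (1 : ℝ) < q := by exact_mod_cast (by omega : 1 < q)
  have hlq := Real.log_pos hq
  have hp : (0 : ℝ) < (Nat.log H q : ℝ) := by exact_mod_cast h1
  rw [div_le_div_iff₀ hp hlq, one_mul]
  have h2 : q < H ^ (Nat.log H q + 1) := Nat.lt_pow_succ_log_self (by omega) q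
  have h3 : H ^ (Nat.log H q + 1) ≤ H ^ (2 * Nat.log H q) :=
    Nat.pow_le_pow_right (by omega) (by omega)
  have h4 : (q : ℝ) ≤ (H : ℝ) ^ (2 * Nat.log H q) := by exact_mod_cast (h2.trans_le h3).le
  have h5 := Real.log_le_log (by linarith) h4
  rw [Real.log_pow] at h5
  push_cast at h5
  linarith

theorem enA (K A : ℕ) (ε : ℝ) (hε : 0 < ε) : ∃ C : ℝ, 1 ≤ C ∧ ∀ X Q : ℕ, 1 ≤ X → 1 ≤ Q →
    Q ≤ X ^ A → ∀ H : Fin K → ℕ, (∀ i, 1 ≤ H i) → 4 ^ K * (∏ i, H i) ^ 2 ≤ Q →
    ∀ (N : ℕ) (Δ : ℝ), 0 < Δ → Δ * K * Real.log Q ≤ 3 →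
    32 * (Q : ℝ) ^ 2 * Real.log Q ≤ N * Δ ^ 2 →
    EA N Δ K H ≤ C * (X : ℝ) ^ ε * ∏ i, (H i : ℝ) := by
  classical
  set ε₁ : ℝ := ε / (A * K + 1) with hε₁
  have hden : (0 : ℝ) < A * K + 1 := by positivity
  have hε₁0 : 0 < ε₁ := div_pos hε hden
  obtain ⟨C₁, hC₁, h₁⟩ := Pool.MP_a95293_nt.PS.card_div ε₁ hε₁0
  refine ⟨(4 * C₁) ^ K, one_le_pow₀ (by nlinarith), ?_⟩
  intro X q hX hq hqX H hH hHq N Δ hΔ hΔ3 hN
  set H' : Fin K → ℕ := fun i => 2 * H i with hH'
  have hprod : ∏ i, H' i = 2 ^ K * ∏ i, H i := by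
    rw [hH', prod_mul_distrib]
    simp
  have hsq : (∏ i, H' i) ^ 2 ≤ q := by
    rw [hprod, mul_pow, ← pow_mul, mul_comm K 2, pow_mul]
    exact hHq
  have hH'2 : ∀ i, 2 ≤ H' i := fun i => by
    have := hH i
    show 2 ≤ 2 * H i
    omega
  have hpos : ∀ i, 1 ≤ H' i := fun i => by
    have := hH'2 i
    omega
  have hPpos : 1 ≤ ∏ i, H' i := by
    apply Nat.one_le_iff_ne_zero.2
    rw [Finset.prod_ne_zero_iff]
    intro i _
    have := hpos i
    omega
  have hle : ∀ i, H' i ≤ q := fun i => by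
    have h3 : H' i ≤ ∏ i, H' i := Nat.le_of_dvd hPpos (dvd_prod_of_mem _ (mem_univ i))
    nlinarith
  have hinv := fun i => EnA_inv (hH'2 i) (hle i)
  have hsum : ∑ i, (1 : ℝ) / (Nat.log (H' i) q : ℝ) ≤ 1 := by
    rcases Nat.eq_zero_or_pos K with hK | hK
    · subst hK
      simp
    · have hq1 : (1 : ℝ) < q := by
        have h3 := hH'2 ⟨0, hK⟩
        have h4 := hle ⟨0, hK⟩
        exact_mod_cast (by omega : 1 < q)
      have hlq := Real.log_pos hq1
      calc ∑ i, (1 : ℝ) / (Nat.log (H' i) q : ℝ)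
          ≤ ∑ i, 2 * Real.log (H' i) / Real.log q := sum_le_sum fun i _ => (hinv i).2.2
        _ = 2 * (∑ i, Real.log (H' i)) / Real.log q := by
            rw [mul_sum, sum_div]
        _ = Real.log (((∏ i, H' i) ^ 2 : ℕ) : ℝ) / Real.log q := by
            push_cast
            rw [Real.log_pow, Real.log_prod]
            · push_cast
              ring
            · intro i _
              have := hpos i
              positivity
        _ ≤ 1 := by
            rw [div_le_one hlq]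
            apply Real.log_le_log
            · have : 1 ≤ (∏ i, H' i) ^ 2 := Nat.one_le_pow _ _ hPpos
              exact_mod_cast this
            · exact_mod_cast hsq
  have hE := EA_le N Δ K H' (fun i => Nat.log (H' i) q) (fun i => (hinv i).1) hsum
  have hq0 : (0 : ℝ) < q := by exact_mod_cast hq
  have hq1 : (1 : ℝ) ≤ q := by exact_mod_cast hq
  set D : ℕ := ⌊C₁ * (q : ℝ) ^ ε₁⌋₊ with hD
  have hDle : (D : ℝ) ≤ C₁ * (q : ℝ) ^ ε₁ := Nat.floor_le (by positivity)
  have hdiv : ∀ n, 1 ≤ n → n ≤ q → n.divisors.card ≤ D := by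
    intro n hn hnq
    apply Nat.le_floor
    refine (h₁ n hn).trans ?_
    apply mul_le_mul_of_nonneg_left _ (by linarith)
    exact Real.rpow_le_rpow (by positivity) (by exact_mod_cast hnq) hε₁0.le
  have hfac : ∀ i, (TA N Δ (i.val + 1) (Nat.log (H' i) q) (H' i)) ^
      ((1 : ℝ) / (Nat.log (H' i) q : ℝ)) ≤ H i * (4 * C₁ * (q : ℝ) ^ ε₁) := by
    intro i
    obtain ⟨hp1, hp2, _⟩ := hinv i
    set P := Nat.log (H' i) q with hP
    have hΔi : Δ * ((i.val + 1 : ℕ) : ℝ) * Real.log q ≤ 3 := by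
      refine le_trans ?_ hΔ3
      have hiK : ((i.val + 1 : ℕ) : ℝ) ≤ (K : ℝ) := by exact_mod_cast i.2
      have hlq : 0 ≤ Real.log q := Real.log_nonneg hq1
      exact mul_le_mul_of_nonneg_right (mul_le_mul_of_nonneg_left hiK hΔ.le) hlq
    have hT := TA_le N (i.val + 1) P (H' i) D q Δ (by omega) hp1 (hpos i) hp2 hdiv hΔ hΔi hN
    have h3 : TA N Δ (i.val + 1) P (H' i) ≤ ((H' i : ℝ) * (2 * D)) ^ P := by
      refine hT.trans ?_
      rw [mul_pow (H' i : ℝ), mul_pow (2 : ℝ)]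
      apply mul_le_mul_of_nonneg_left _ (by positivity)
      apply mul_le_mul_of_nonneg_right _ (by positivity)
      exact le_self_pow₀ (by norm_num) (by omega)
    calc (TA N Δ (i.val + 1) P (H' i)) ^ ((1 : ℝ) / (P : ℝ))
        ≤ (((H' i : ℝ) * (2 * D)) ^ P) ^ ((1 : ℝ) / (P : ℝ)) :=
          Real.rpow_le_rpow (EnA_TA_nonneg _ _ _ _ _) h3 (by positivity)
      _ = (H' i : ℝ) * (2 * D) := by
          rw [one_div]
          exact Real.pow_rpow_inv_natCast (by positivity) (by omega)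
      _ ≤ (H' i : ℝ) * (2 * (C₁ * (q : ℝ) ^ ε₁)) := by
          apply mul_le_mul_of_nonneg_left _ (by positivity)
          linarith
      _ = H i * (4 * C₁ * (q : ℝ) ^ ε₁) := by
          rw [hH']
          push_cast
          ring
  calc EA N Δ K H ≤ EA N Δ K H' := by
        exact EnA_mono N Δ fun i => by
          show H i ≤ 2 * H i
          omega
    _ ≤ ∏ i, (TA N Δ (i.val + 1) (Nat.log (H' i) q) (H' i)) ^
          ((1 : ℝ) / (Nat.log (H' i) q : ℝ)) := hE
    _ ≤ ∏ i, (H i : ℝ) * (4 * C₁ * (q : ℝ) ^ ε₁) :=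
        prod_le_prod (fun i _ => Real.rpow_nonneg (EnA_TA_nonneg _ _ _ _ _) _) fun i _ => hfac i
    _ = (4 * C₁) ^ K * (q : ℝ) ^ (ε₁ * K) * ∏ i, (H i : ℝ) := by
        rw [prod_mul_distrib, prod_const, card_univ, Fintype.card_fin, mul_pow,
          ← Real.rpow_natCast ((q : ℝ) ^ ε₁) K, ← Real.rpow_mul hq0.le]
        ring
    _ ≤ (4 * C₁) ^ K * (X : ℝ) ^ ε * ∏ i, (H i : ℝ) := by
        apply mul_le_mul_of_nonneg_right _ (by positivity)
        apply mul_le_mul_of_nonneg_left _ (by positivity)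
        have hX1 : (1 : ℝ) ≤ X := by exact_mod_cast hX
        calc (q : ℝ) ^ (ε₁ * K) ≤ ((X : ℝ) ^ A) ^ (ε₁ * K) :=
              Real.rpow_le_rpow hq0.le (by exact_mod_cast hqX) (by positivity)
          _ = (X : ℝ) ^ ((A : ℝ) * (ε₁ * K)) := by
              rw [← Real.rpow_natCast (X : ℝ) A, ← Real.rpow_mul (by positivity)]
          _ ≤ (X : ℝ) ^ ε := by
              apply Real.rpow_le_rpow_of_exponent_le hX1
              have h3 : (A : ℝ) * (ε₁ * K) = ε * (A * K / (A * K + 1)) := by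
                rw [hε₁]
                ring
              rw [h3]
              have h4 : (A : ℝ) * K / (A * K + 1) ≤ 1 := by
                rw [div_le_one hden]
                linarith
              nlinarith

end Pool.MP_a95293_nt.SF
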