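import Pool.Agent.Lib_MP_a95293_sf.EnA
import Pool.Agent.Lib_MP_a95293_ps.Ener

/-!
# Piece ENERA: archimedean energy

PROOF.  As `energy` in `Lib_MP_a95293_ps/Ener.lean` (copy): types `lam n = (Dp K n, clog of the classes)`, `card_pairs_le` with
`g n = ⌊X log n⌋`; for two numbers of the same type in the same bucket
`|∑ (i+1) (log a_i - log a_i')| = |log n - log n'| ≤ 1 / X`.  Number of such pairs `≤ 2 EA N Δ K H` as soon as the kernel is `≥ 1/2` there:
`cos θ ^ (2N) ≥ (1 - θ^2/2)^(2N) ≥ 1 - N θ^2`, `θ = Δ u / 2`, `N Δ^2 / (4 X^2) ≤ 1/2`.  Choose `Q = ⌊X / (8 (A + 1) log X + 8)⌋` or similar (`64 Q^2 log Q ≤ X^2`),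
`Δ = 1 / ((K + 1) (log Q + 1))`, `N = ⌈32 Q^2 log Q / Δ^2⌉₊`, so `N Δ^2 ≤ 32 Q^2 log Q + 1 ≤ 2 X^2`.  Box: `4^K (2^K Y)^2 ≤ Q` follows from `C X^ε Y^2 ≤ X`.
-/

set_option autoImplicit false

namespace Pool.MP_a95293_nt.SF

open Finset
open Pool.MP_a95293_nt.RC (rd)
open Pool.MP_a95293_nt.PS (cl Dp cl_pos cl_dvd Dp_dvd Dp_pos cls_prod cls_rd rd_Dp_pow sum_inv_rad
  card_pairs_le)

private theorem EnerA_clog (K : ℕ) (δ : ℝ) (hδ : 0 < δ) : ∃ C : ℝ, 1 ≤ C ∧ ∀ N : ℕ, 1 ≤ N →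
    ((Nat.clog 2 N + 1 : ℕ) : ℝ) ^ K ≤ C * (N : ℝ) ^ δ := by
  set γ : ℝ := δ / (K + 1) with hγ
  have hγ0 : 0 < γ := by positivity
  have hl2 : 0 < Real.log 2 := Real.log_pos (by norm_num)
  refine ⟨(2 + 1 / (γ * Real.log 2)) ^ K, one_le_pow₀ (by
    have : 0 < 1 / (γ * Real.log 2) := by positivity
    linarith), ?_⟩
  intro N hN
  have hN1 : (1 : ℝ) ≤ N := by exact_mod_cast hN
  have hN0 : (0 : ℝ) < N := by linarith
  have hpow1 : (1 : ℝ) ≤ (N : ℝ) ^ γ := Real.one_le_rpow hN1 hγ0.le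
  have h1 : ((Nat.clog 2 N + 1 : ℕ) : ℝ) ≤ (2 + 1 / (γ * Real.log 2)) * (N : ℝ) ^ γ := by
    have h2 : (Nat.clog 2 N : ℝ) ≤ 1 + Real.log N / Real.log 2 := by
      rcases hN.eq_or_lt with h | h
      · rw [← h]
        simp
      · have h3 : 2 ^ (Nat.clog 2 N).pred < N := Nat.pow_pred_clog_lt_self (by norm_num) h
        have h4 : (2 : ℝ) ^ (Nat.clog 2 N).pred ≤ N := by exact_mod_cast h3.le
        have h5 := Real.log_le_log (by positivity) h4
        rw [Real.log_pow] at h5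
        have h6 : ((Nat.clog 2 N).pred : ℝ) ≤ Real.log N / Real.log 2 := by
          rw [le_div_iff₀ hl2]
          exact h5
        have h7 : Nat.clog 2 N ≤ (Nat.clog 2 N).pred + 1 := by
          rw [Nat.pred_eq_sub_one]
          omega
        have h8 : (Nat.clog 2 N : ℝ) ≤ (Nat.clog 2 N).pred + 1 := by exact_mod_cast h7
        linarith
    have h3 : Real.log N ≤ (N : ℝ) ^ γ / γ := Real.log_le_rpow_div hN0.le hγ0
    have h4 : Real.log N / Real.log 2 ≤ 1 / (γ * Real.log 2) * (N : ℝ) ^ γ := by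
      rw [div_le_iff₀ hl2]
      refine h3.trans (le_of_eq ?_)
      field_simp
    push_cast
    nlinarith
  calc ((Nat.clog 2 N + 1 : ℕ) : ℝ) ^ K ≤ ((2 + 1 / (γ * Real.log 2)) * (N : ℝ) ^ γ) ^ K :=
        pow_le_pow_left₀ (by positivity) h1 K
    _ = (2 + 1 / (γ * Real.log 2)) ^ K * (N : ℝ) ^ (γ * K) := by
        rw [mul_pow, ← Real.rpow_natCast ((N : ℝ) ^ γ) K, ← Real.rpow_mul hN0.le]
    _ ≤ (2 + 1 / (γ * Real.log 2)) ^ K * (N : ℝ) ^ δ := by
        apply mul_le_mul_of_nonneg_left _ (by positivity)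
        apply Real.rpow_le_rpow_of_exponent_le hN1
        rw [hγ, div_mul_eq_mul_div, div_le_iff₀ (by positivity)]
        nlinarith

/-- The kernel is at least `1/2` near `0`. -/
private theorem EnerA_ker (N : ℕ) (Δ u : ℝ) (h : (N : ℝ) * (Δ ^ 2 * u ^ 2) ≤ 2) :
    1 / 2 ≤ ker N Δ u := by
  unfold ker
  rcases Nat.eq_zero_or_pos N with h0 | h0
  · rw [h0]
    norm_num
  · have hN : (1 : ℝ) ≤ N := by exact_mod_cast h0
    have hs : Real.sin (Δ * u / 2) ^ 2 ≤ (Δ * u / 2) ^ 2 := Real.sin_sq_le_sq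
    have hc := Real.sin_sq_add_cos_sq (Δ * u / 2)
    have e1 : (Δ * u / 2) ^ 2 = (Δ ^ 2 * u ^ 2) / 4 := by ring
    rw [e1] at hs
    have h1 : 0 ≤ Δ ^ 2 * u ^ 2 := by positivity
    have h2 : Δ ^ 2 * u ^ 2 ≤ 2 := by nlinarith
    have h3 : 1 + (-((Δ ^ 2 * u ^ 2) / 4)) ≤ Real.cos (Δ * u / 2) ^ 2 := by linarith
    rw [pow_mul]
    have h4 := one_add_mul_le_pow (a := -((Δ ^ 2 * u ^ 2) / 4)) (by linarith) N
    have h5 := pow_le_pow_left₀ (a := 1 + (-((Δ ^ 2 * u ^ 2) / 4))) (by linarith) h3 N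
    refine le_trans ?_ (h4.trans h5)
    have h6 : (N : ℝ) * -(Δ ^ 2 * u ^ 2 / 4) = -((N : ℝ) * (Δ ^ 2 * u ^ 2)) / 4 := by ring
    rw [h6]
    linarith

private theorem EnerA_log (K n : ℕ) (hn : 1 ≤ n) :
    Real.log n = Real.log (Dp K n) + ∑ i : Fin K, ((i.val : ℝ) + 1) * Real.log (cl (i.val + 1) n) := by
  have h1 := cls_prod K n (by omega)
  have h2 : (n : ℝ) = (Dp K n : ℝ) * ∏ i : Fin K, (cl (i.val + 1) n : ℝ) ^ (i.val + 1) := by
    exact_mod_cast h1.symm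
  have hD : (Dp K n : ℝ) ≠ 0 := by
    have := Dp_pos K n
    positivity
  have hc : ∀ i : Fin K, (cl (i.val + 1) n : ℝ) ^ (i.val + 1) ≠ 0 := by
    intro i
    have := cl_pos (i.val + 1) n
    positivity
  have h3 : Real.log ((Dp K n : ℝ) * ∏ i : Fin K, (cl (i.val + 1) n : ℝ) ^ (i.val + 1)) =
      Real.log (Dp K n) + ∑ i : Fin K, ((i.val : ℝ) + 1) * Real.log (cl (i.val + 1) n) := by
    rw [Real.log_mul hD (prod_ne_zero_iff.2 fun i _ => hc i), Real.log_prod fun i _ => hc i]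
    congr 1
    refine sum_congr rfl fun i _ => ?_
    rw [Real.log_pow]
    push_cast
    ring
  rw [← h3, ← h2]

/-- the pairs with a given decomposition type -/
private theorem EnerA_fib {X Y M K N : ℕ} (hX : 1 ≤ X) (Δ : ℝ) (hN : (N : ℝ) * Δ ^ 2 ≤ 2 * (X : ℝ) ^ 2)
    (D : ℕ) (j : Fin K → ℕ) (P : Finset (ℕ × ℕ))
    (hP : ∀ z ∈ P, z.1 ∈ SA Y M ∧ z.2 ∈ SA Y M ∧
      ⌊(X : ℝ) * Real.log z.1⌋ = ⌊(X : ℝ) * Real.log z.2⌋ ∧ Dp K z.1 = D ∧
      Dp K z.2 = D ∧ (∀ i : Fin K, Nat.clog 2 (cl (i.val + 1) z.1) = j i) ∧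
      ∀ i : Fin K, Nat.clog 2 (cl (i.val + 1) z.2) = j i) :
    (P.card : ℝ) ≤ 2 * EA N Δ K fun i => 2 ^ j i := by
  classical
  have hX0 : (0 : ℝ) < X := by exact_mod_cast hX
  set f : ℕ × ℕ → (Fin K → ℕ) × (Fin K → ℕ) := fun z =>
    ((fun i : Fin K => cl (i.val + 1) z.1), (fun i : Fin K => cl (i.val + 1) z.2)) with hf
  have hinj : Set.InjOn f P := by
    intro z hz z' hz' h
    obtain ⟨h1, h2, _, h4, h5, _, _⟩ := hP z hz
    obtain ⟨h1', h2', _, h4', h5', _, _⟩ := hP z' hz'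
    unfold SA at h1 h2 h1' h2'
    rw [mem_filter, mem_Icc] at h1 h2 h1' h2'
    rw [hf] at h
    simp only [Prod.mk.injEq] at h
    have e1 := cls_prod K z.1 (by omega)
    have e2 := cls_prod K z.2 (by omega)
    have e1' := cls_prod K z'.1 (by omega)
    have e2' := cls_prod K z'.2 (by omega)
    refine Prod.ext ?_ ?_
    · rw [← e1, ← e1', h4, h4']
      congr 1
      exact prod_congr rfl fun i _ => by rw [congrFun h.1 i]
    · rw [← e2, ← e2', h5, h5']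
      congr 1
      exact prod_congr rfl fun i _ => by rw [congrFun h.2 i]
  have hker : ∀ z ∈ P, 1 / 2 ≤ ker N Δ (∑ i : Fin K, ((i.val : ℝ) + 1) *
      (Real.log ((f z).1 i) - Real.log ((f z).2 i))) := by
    intro z hz
    obtain ⟨h1, h2, h3, h4, h5, _, _⟩ := hP z hz
    unfold SA at h1 h2
    rw [mem_filter, mem_Icc] at h1 h2
    have e1 := EnerA_log K z.1 h1.1.1
    have e2 := EnerA_log K z.2 h2.1.1
    rw [h4] at e1
    rw [h5] at e2
    have e3 : ∑ i : Fin K, ((i.val : ℝ) + 1) * (Real.log ((f z).1 i) - Real.log ((f z).2 i)) =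
        Real.log z.1 - Real.log z.2 := by
      rw [e1, e2]
      simp only [mul_sub, sum_sub_distrib, hf]
      ring
    rw [e3]
    apply EnerA_ker
    have h6 := Int.abs_sub_lt_one_of_floor_eq_floor h3
    rw [← mul_sub, abs_mul, abs_of_pos hX0] at h6
    have h7 : (X : ℝ) ^ 2 * (Real.log z.1 - Real.log z.2) ^ 2 ≤ 1 := by
      rw [← sq_abs (Real.log z.1 - Real.log z.2), ← mul_pow]
      exact pow_le_one₀ (by positivity) h6.le
    have h8 : 0 ≤ (Real.log z.1 - Real.log z.2) ^ 2 := sq_nonneg _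
    calc (N : ℝ) * (Δ ^ 2 * (Real.log z.1 - Real.log z.2) ^ 2)
        = ((N : ℝ) * Δ ^ 2) * (Real.log z.1 - Real.log z.2) ^ 2 := by ring
      _ ≤ (2 * (X : ℝ) ^ 2) * (Real.log z.1 - Real.log z.2) ^ 2 :=
          mul_le_mul_of_nonneg_right hN h8
      _ ≤ 2 := by linarith
  have hsub : P.image f ⊆ (Fintype.piFinset fun i => Icc 1 (2 ^ j i)) ×ˢ
      (Fintype.piFinset fun i => Icc 1 (2 ^ j i)) := by
    intro w hw
    obtain ⟨z, hz, rfl⟩ := mem_image.1 hw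
    obtain ⟨_, _, _, _, _, h6, h7⟩ := hP z hz
    rw [mem_product, Fintype.mem_piFinset, Fintype.mem_piFinset]
    refine ⟨fun i => ?_, fun i => ?_⟩
    · rw [mem_Icc, ← h6 i]
      exact ⟨cl_pos _ _, Nat.le_pow_clog (by norm_num) _⟩
    · rw [mem_Icc, ← h7 i]
      exact ⟨cl_pos _ _, Nat.le_pow_clog (by norm_num) _⟩
  have h1 : (P.card : ℝ) * (1 / 2) ≤ ∑ w ∈ P.image f, ker N Δ (∑ i : Fin K, ((i.val : ℝ) + 1) *
      (Real.log (w.1 i) - Real.log (w.2 i))) := by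
    rw [sum_image hinj, ← nsmul_eq_mul, ← sum_const]
    exact sum_le_sum hker
  have h2 : ∑ w ∈ P.image f, ker N Δ (∑ i : Fin K, ((i.val : ℝ) + 1) *
      (Real.log (w.1 i) - Real.log (w.2 i))) ≤ EA N Δ K fun i => 2 ^ j i := by
    unfold EA
    exact sum_le_sum_of_subset_of_nonneg hsub fun w _ _ => ker_nonneg _ _ _
  linarith

/-- the choice of the parameters -/
private theorem EnerA_par (K : ℕ) {X Q : ℕ} (hX : 1 ≤ X) (hQ : 1 ≤ Q)
    (hQX : (Q : ℝ) * (8 * (1 + Real.log X)) ≤ X) :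
    ∃ (N : ℕ) (Δ : ℝ), 0 < Δ ∧ Δ * K * Real.log Q ≤ 3 ∧
      32 * (Q : ℝ) ^ 2 * Real.log Q ≤ N * Δ ^ 2 ∧ (N : ℝ) * Δ ^ 2 ≤ 2 * (X : ℝ) ^ 2 := by
  have hX1 : (1 : ℝ) ≤ X := by exact_mod_cast hX
  have hQ1 : (1 : ℝ) ≤ Q := by exact_mod_cast hQ
  have hlX : 0 ≤ Real.log X := Real.log_nonneg hX1
  have hlQ : 0 ≤ Real.log Q := Real.log_nonneg hQ1
  have hQX' : (Q : ℝ) ≤ X := by nlinarith
  have hll : Real.log Q ≤ Real.log X := Real.log_le_log (by linarith) hQX'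
  set Δ : ℝ := 1 / (((K : ℝ) + 1) * (Real.log Q + 1)) with hΔ
  have hden : 0 < ((K : ℝ) + 1) * (Real.log Q + 1) := by positivity
  have hΔ0 : 0 < Δ := by positivity
  have hΔ1 : Δ ≤ 1 := by
    rw [hΔ, div_le_one hden]
    have : (0 : ℝ) ≤ K := Nat.cast_nonneg K
    nlinarith
  refine ⟨⌈32 * (Q : ℝ) ^ 2 * Real.log Q / Δ ^ 2⌉₊, Δ, hΔ0, ?_, ?_, ?_⟩
  · rw [hΔ, mul_assoc, one_div_mul_eq_div, div_le_iff₀ hden]
    have : (0 : ℝ) ≤ K := Nat.cast_nonneg K
    nlinarith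
  · have h1 := Nat.le_ceil (32 * (Q : ℝ) ^ 2 * Real.log Q / Δ ^ 2)
    rwa [div_le_iff₀ (by positivity)] at h1
  · have h1 := (Nat.ceil_lt_add_one
      (a := 32 * (Q : ℝ) ^ 2 * Real.log Q / Δ ^ 2) (by positivity)).le
    have h2 : (⌈32 * (Q : ℝ) ^ 2 * Real.log Q / Δ ^ 2⌉₊ : ℝ) * Δ ^ 2 ≤
        (32 * (Q : ℝ) ^ 2 * Real.log Q / Δ ^ 2 + 1) * Δ ^ 2 :=
      mul_le_mul_of_nonneg_right h1 (by positivity)
    have h3 : (32 * (Q : ℝ) ^ 2 * Real.log Q / Δ ^ 2 + 1) * Δ ^ 2 =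
        32 * (Q : ℝ) ^ 2 * Real.log Q + Δ ^ 2 := by
      field_simp
    rw [h3] at h2
    have h4 : Δ ^ 2 ≤ 1 := pow_le_one₀ hΔ0.le hΔ1
    have h5 : 64 * (Q : ℝ) ^ 2 * Real.log Q ≤ (X : ℝ) ^ 2 := by
      have h6 : ((Q : ℝ) * (8 * (1 + Real.log X))) ^ 2 ≤ (X : ℝ) ^ 2 :=
        pow_le_pow_left₀ (by positivity) hQX 2
      refine le_trans ?_ h6
      have h7 : Real.log Q ≤ (1 + Real.log X) ^ 2 := by nlinarith
      have h8 : 64 * (Q : ℝ) ^ 2 * Real.log Q ≤ 64 * (Q : ℝ) ^ 2 * (1 + Real.log X) ^ 2 :=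
        mul_le_mul_of_nonneg_left h7 (by positivity)
      refine h8.trans (le_of_eq (by ring))
    nlinarith

theorem energyA (A : ℕ) (ε : ℝ) (hε : 0 < ε) : ∃ C : ℝ, 1 ≤ C ∧ ∀ X Y : ℕ, 1 ≤ X → 1 ≤ Y →
    C * (X : ℝ) ^ ε * (Y : ℝ) ^ 2 ≤ X →
    ((((SA Y (X ^ A)) ×ˢ (SA Y (X ^ A))).filter fun z =>
      ⌊(X : ℝ) * Real.log z.1⌋ = ⌊(X : ℝ) * Real.log z.2⌋).card : ℝ) ≤ C * (X : ℝ) ^ ε * Y := by
  classical
  set σ : ℝ := ε / 8 with hσ
  have hσ0 : 0 < σ := by positivity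
  set K : ℕ := ⌈(A : ℝ) / σ⌉₊ with hK
  have hKσ : (A : ℝ) / (K + 1) ≤ σ := by
    have h1 : (A : ℝ) / σ ≤ K := Nat.le_ceil _
    rw [div_le_iff₀ (by positivity)]
    rw [div_le_iff₀ hσ0] at h1
    nlinarith
  set τ : ℝ := σ / (A + 1) with hτ
  have hτ0 : 0 < τ := by positivity
  obtain ⟨C₁, hC₁, h₁⟩ := sum_inv_rad τ hτ0
  obtain ⟨C₂, hC₂, h₂⟩ := enA K 1 σ hσ0
  obtain ⟨C₃, hC₃, h₃⟩ := EnerA_clog K τ hτ0
  have hC13 : 1 ≤ C₁ * C₃ := by nlinarith
  have hC13' : 1 ≤ (C₁ * C₃) ^ 2 := one_le_pow₀ hC13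
  have h16 : (1 : ℝ) ≤ 16 ^ K := one_le_pow₀ (by norm_num)
  have h2K : (1 : ℝ) ≤ 2 ^ K := one_le_pow₀ (by norm_num)
  set C₄ : ℝ := 16 ^ K * (8 * (1 + 1 / ε)) with hC₄
  have hC₄1 : 1 ≤ C₄ := by
    rw [hC₄]
    have : 0 < 1 / ε := by positivity
    exact one_le_mul_of_one_le_of_one_le h16 (by linarith)
  set C₅ : ℝ := (C₁ * C₃) ^ 2 * (2 * C₂) * 2 ^ K with hC₅
  have hC₅1 : 1 ≤ C₅ :=
    one_le_mul_of_one_le_of_one_le (one_le_mul_of_one_le_of_one_le hC13' (by linarith)) h2K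
  refine ⟨C₄ * C₅, one_le_mul_of_one_le_of_one_le hC₄1 hC₅1, ?_⟩
  intro X Y hX hY hXY
  set N : ℕ := X ^ A with hN
  have hX1 : (1 : ℝ) ≤ X := by exact_mod_cast hX
  have hX0 : (0 : ℝ) < X := by linarith
  have hlX : 0 ≤ Real.log X := Real.log_nonneg hX1
  have hN1 : 1 ≤ N := Nat.one_le_pow _ _ hX
  have hNτ : (N : ℝ) ^ τ ≤ (X : ℝ) ^ σ := by
    rw [hN]
    push_cast
    rw [← Real.rpow_natCast (X : ℝ) A, ← Real.rpow_mul hX0.le]
    apply Real.rpow_le_rpow_of_exponent_le hX1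
    rw [hτ, mul_div_assoc', div_le_iff₀ (by positivity)]
    nlinarith
  -- the parameters
  have h8 : (0 : ℝ) < 8 * (1 + Real.log X) := by positivity
  set Q : ℕ := ⌊(X : ℝ) / (8 * (1 + Real.log X))⌋₊ with hQ
  have hQle : (Q : ℝ) * (8 * (1 + Real.log X)) ≤ X := by
    rw [← le_div_iff₀ h8]
    exact Nat.floor_le (by positivity)
  have hYQ : 16 ^ K * Y ^ 2 ≤ Q := by
    apply Nat.le_floor
    rw [le_div_iff₀ h8]
    push_cast
    refine le_trans ?_ hXY
    have h1 : Real.log X ≤ (X : ℝ) ^ ε / ε := Real.log_le_rpow_div hX0.le hε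
    have h2 : (1 : ℝ) ≤ (X : ℝ) ^ ε := Real.one_le_rpow hX1 hε.le
    have h3 : 1 + Real.log X ≤ (1 + 1 / ε) * (X : ℝ) ^ ε := by
      rw [add_mul, one_mul, one_div_mul_eq_div]
      linarith
    have h4 : 16 ^ K * (Y : ℝ) ^ 2 * (8 * (1 + Real.log X)) ≤
        16 ^ K * (Y : ℝ) ^ 2 * (8 * ((1 + 1 / ε) * (X : ℝ) ^ ε)) := by
      apply mul_le_mul_of_nonneg_left _ (by positivity)
      linarith
    refine h4.trans ?_
    have h5 : 16 ^ K * (Y : ℝ) ^ 2 * (8 * ((1 + 1 / ε) * (X : ℝ) ^ ε)) =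
        C₄ * (X : ℝ) ^ ε * (Y : ℝ) ^ 2 := by
      rw [hC₄]
      ring
    rw [h5]
    apply mul_le_mul_of_nonneg_right _ (by positivity)
    apply mul_le_mul_of_nonneg_right _ (by positivity)
    exact le_mul_of_one_le_right (by linarith) hC₅1
  have hQ1 : 1 ≤ Q := by
    refine le_trans ?_ hYQ
    exact Nat.mul_pos (by positivity) (by positivity)
  have hQX : Q ≤ X ^ 1 := by
    rw [pow_one]
    have : (Q : ℝ) ≤ X := by
      have h9 : (1 : ℝ) ≤ Q := by exact_mod_cast hQ1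
      nlinarith
    exact_mod_cast this
  obtain ⟨N', Δ, hΔ0, hΔ1, hN'1, hN'2⟩ := EnerA_par K hX hQ1 hQle
  -- the set of types
  set TD : Finset ℕ := (Icc 1 N).filter fun D => (rd D : ℝ) ≤ (X : ℝ) ^ σ with hTD
  set T : Finset (ℕ × (Fin K → ℕ)) :=
    TD ×ˢ Fintype.piFinset fun _ : Fin K => range (Nat.clog 2 N + 1) with hT
  set lam : ℕ → ℕ × (Fin K → ℕ) :=
    fun n => (Dp K n, fun i => Nat.clog 2 (cl (i.val + 1) n)) with hlam
  have hTD_card : (TD.card : ℝ) ≤ (X : ℝ) ^ σ * (C₁ * (X : ℝ) ^ σ) := by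
    calc (TD.card : ℝ) = ∑ _D ∈ TD, (1 : ℝ) := by simp
      _ ≤ ∑ D ∈ TD, (X : ℝ) ^ σ * (1 / (rd D : ℝ)) := by
          refine sum_le_sum fun D hD => ?_
          rw [hTD, mem_filter] at hD
          have hr : (0 : ℝ) < rd D := by exact_mod_cast Pool.MP_a95293_nt.RC.rd_pos D
          rw [mul_one_div, le_div_iff₀ hr, one_mul]
          exact hD.2
      _ ≤ ∑ D ∈ Icc 1 N, (X : ℝ) ^ σ * (1 / (rd D : ℝ)) := by
          apply sum_le_sum_of_subset_of_nonneg (filter_subset _ _)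
          intro D _ _
          positivity
      _ = (X : ℝ) ^ σ * ∑ D ∈ Icc 1 N, 1 / (rd D : ℝ) := by rw [mul_sum]
      _ ≤ (X : ℝ) ^ σ * (C₁ * (X : ℝ) ^ σ) := by
          apply mul_le_mul_of_nonneg_left _ (by positivity)
          refine (h₁ N hN1).trans ?_
          exact mul_le_mul_of_nonneg_left hNτ (by linarith)
  have hT_card : (T.card : ℝ) ≤ C₁ * C₃ * (X : ℝ) ^ (3 * σ) := by
    have e1 : (T.card : ℝ) = TD.card * ((Nat.clog 2 N + 1 : ℕ) : ℝ) ^ K := by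
      rw [hT, card_product, Fintype.card_piFinset]
      push_cast
      congr 1
      simp
    rw [e1]
    calc (TD.card : ℝ) * ((Nat.clog 2 N + 1 : ℕ) : ℝ) ^ K
        ≤ ((X : ℝ) ^ σ * (C₁ * (X : ℝ) ^ σ)) * (C₃ * (X : ℝ) ^ σ) := by
          apply mul_le_mul hTD_card _ (by positivity) (by positivity)
          refine (h₃ N hN1).trans ?_
          exact mul_le_mul_of_nonneg_left hNτ (by linarith)
      _ = C₁ * C₃ * (X : ℝ) ^ (3 * σ) := by
          rw [show 3 * σ = σ + σ + σ by ring, Real.rpow_add hX0, Real.rpow_add hX0]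
          ring
  have hmemT : ∀ n ∈ SA Y N, lam n ∈ T := by
    intro n hn
    unfold SA at hn
    rw [mem_filter, mem_Icc] at hn
    obtain ⟨⟨n1, n2⟩, _⟩ := hn
    rw [hT, mem_product, hTD, mem_filter, mem_Icc, Fintype.mem_piFinset]
    have hDn : Dp K n ≤ n := Nat.le_of_dvd (by omega) (Dp_dvd K n (by omega))
    refine ⟨⟨⟨Dp_pos K n, hDn.trans n2⟩, ?_⟩, fun i => ?_⟩
    · show (rd (Dp K n) : ℝ) ≤ (X : ℝ) ^ σ
      have h4 : (rd (Dp K n) : ℝ) ^ (K + 1) ≤ (X : ℝ) ^ (A : ℝ) := by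
        rw [Real.rpow_natCast]
        exact_mod_cast (rd_Dp_pow K n (by omega)).trans (hDn.trans n2)
      have hr : (0 : ℝ) < rd (Dp K n) := by
        exact_mod_cast Pool.MP_a95293_nt.RC.rd_pos (Dp K n)
      have h5 := Real.rpow_le_rpow (by positivity) h4 (z := 1 / ((K : ℝ) + 1)) (by positivity)
      rw [← Real.rpow_natCast (rd (Dp K n) : ℝ) (K + 1), ← Real.rpow_mul hr.le,
        ← Real.rpow_mul hX0.le] at h5
      have h6 : ((K + 1 : ℕ) : ℝ) * (1 / ((K : ℝ) + 1)) = 1 := by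
        push_cast
        field_simp
      rw [h6, Real.rpow_one] at h5
      refine h5.trans ?_
      apply Real.rpow_le_rpow_of_exponent_le hX1
      rw [mul_one_div]
      exact hKσ
    · show Nat.clog 2 (cl (i.val + 1) n) ∈ range (Nat.clog 2 N + 1)
      rw [mem_range, Nat.lt_succ_iff]
      apply Nat.clog_mono_right
      exact (Nat.le_of_dvd (by omega) (cl_dvd _ _)).trans n2
  -- Cauchy
  have hCau := card_pairs_le (SA Y N) (fun n : ℕ => ⌊(X : ℝ) * Real.log n⌋) lam T hmemT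
  -- each fibre
  set B : ℝ := 2 * C₂ * (X : ℝ) ^ σ * (2 ^ K * Y) with hB
  have hB0 : 0 ≤ B := by positivity
  have hfib : ((((SA Y N) ×ˢ (SA Y N)).filter fun z =>
      ⌊(X : ℝ) * Real.log z.1⌋ = ⌊(X : ℝ) * Real.log z.2⌋ ∧ lam z.1 = lam z.2).card : ℝ) ≤
      T.card * B := by
    rw [card_eq_sum_card_fiberwise (f := fun z : ℕ × ℕ => lam z.1) (t := T)]
    · push_cast
      calc ∑ l ∈ T, ((((((SA Y N) ×ˢ (SA Y N)).filter fun z =>
            ⌊(X : ℝ) * Real.log z.1⌋ = ⌊(X : ℝ) * Real.log z.2⌋ ∧ lam z.1 = lam z.2).filter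
              fun z => lam z.1 = l).card : ℕ) : ℝ)
          ≤ ∑ _l ∈ T, B := by
            refine sum_le_sum fun l _ => ?_
            set P := (((SA Y N) ×ˢ (SA Y N)).filter fun z =>
              ⌊(X : ℝ) * Real.log z.1⌋ = ⌊(X : ℝ) * Real.log z.2⌋ ∧ lam z.1 = lam z.2).filter
                fun z => lam z.1 = l with hP
            rcases P.eq_empty_or_nonempty with h0 | ⟨z₀, hz₀⟩
            · rw [h0]
              simpa using hB0
            · have hmem : ∀ z ∈ P, z.1 ∈ SA Y N ∧ z.2 ∈ SA Y N ∧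
                  ⌊(X : ℝ) * Real.log z.1⌋ = ⌊(X : ℝ) * Real.log z.2⌋ ∧
                  lam z.1 = l ∧ lam z.2 = l := by
                intro z hz
                rw [hP, mem_filter, mem_filter, mem_product] at hz
                obtain ⟨⟨⟨a, b⟩, c, d⟩, e⟩ := hz
                exact ⟨a, b, c, e, d ▸ e⟩
              have hc := EnerA_fib (X := X) (Y := Y) (M := N) (K := K) (N := N') hX Δ hN'2
                l.1 l.2 P (by
                intro z hz
                obtain ⟨a, b, c, d, e⟩ := hmem z hz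
                rw [hlam] at d e
                simp only [Prod.ext_iff] at d e
                exact ⟨a, b, c, d.1, e.1, fun i => congrFun d.2 i, fun i => congrFun e.2 i⟩)
              obtain ⟨a0, _, _, d0, _⟩ := hmem z₀ hz₀
              unfold SA at a0
              rw [mem_filter, mem_Icc] at a0
              obtain ⟨⟨n1, n2⟩, n4⟩ := a0
              -- product of the box sides
              have hprod : ∏ i, 2 ^ l.2 i ≤ 2 ^ K * Y := by
                have e1 : ∀ i : Fin K, 2 ^ l.2 i ≤ 2 * cl (i.val + 1) z₀.1 := by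
                  intro i
                  rw [← d0]
                  show 2 ^ Nat.clog 2 (cl (i.val + 1) z₀.1) ≤ 2 * cl (i.val + 1) z₀.1
                  have hcl := cl_pos (i.val + 1) z₀.1
                  rcases hcl.eq_or_lt with h | h
                  · rw [← h]
                    simp
                  · have h5 := Nat.pow_pred_clog_lt_self (b := 2) (by norm_num) h
                    have h6 : 1 ≤ Nat.clog 2 (cl (i.val + 1) z₀.1) :=
                      Nat.clog_pos (by norm_num) h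
                    obtain ⟨m, hm⟩ := Nat.exists_eq_add_of_le h6
                    rw [hm] at h5 ⊢
                    have h7 : (1 + m).pred = m := by
                      rw [Nat.pred_eq_sub_one]
                      omega
                    rw [h7] at h5
                    rw [pow_add, pow_one]
                    omega
                calc ∏ i, 2 ^ l.2 i ≤ ∏ i : Fin K, 2 * cl (i.val + 1) z₀.1 :=
                      prod_le_prod' fun i _ => e1 i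
                  _ = 2 ^ K * ∏ i : Fin K, cl (i.val + 1) z₀.1 := by
                      rw [prod_mul_distrib]
                      simp
                  _ ≤ 2 ^ K * Y := by
                      apply Nat.mul_le_mul_left
                      refine le_trans ?_ n4
                      rw [← cls_rd K z₀.1 (by omega)]
                      exact Nat.le_mul_of_pos_left _ (Pool.MP_a95293_nt.RC.rd_pos _)
              have hcond : 4 ^ K * (∏ i, 2 ^ l.2 i) ^ 2 ≤ Q := by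
                have e1 : (4 ^ K * (∏ i, 2 ^ l.2 i) ^ 2 : ℕ) ≤ 4 ^ K * (2 ^ K * Y) ^ 2 :=
                  Nat.mul_le_mul_left _ (Nat.pow_le_pow_left hprod 2)
                have e2 : (4 ^ K * (2 ^ K * Y) ^ 2 : ℕ) = 16 ^ K * Y ^ 2 := by
                  rw [mul_pow, ← pow_mul, mul_comm K 2, pow_mul, ← mul_assoc, ← mul_pow]
                  norm_num
                omega
              have hen := h₂ X Q hX hQ1 hQX (fun i => 2 ^ l.2 i)
                (fun i => Nat.one_le_two_pow) hcond N' Δ hΔ0 hΔ1 hN'1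
              calc (P.card : ℝ) ≤ 2 * EA N' Δ K fun i => 2 ^ l.2 i := hc
                _ ≤ 2 * (C₂ * (X : ℝ) ^ σ * ∏ i, (((2 ^ l.2 i : ℕ)) : ℝ)) := by linarith
                _ = 2 * C₂ * (X : ℝ) ^ σ * ∏ i, (((2 ^ l.2 i : ℕ)) : ℝ) := by ring
                _ ≤ B := by
                    rw [hB]
                    apply mul_le_mul_of_nonneg_left _ (by positivity)
                    exact_mod_cast hprod
        _ = T.card * B := by rw [sum_const, nsmul_eq_mul]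
    · intro z hz
      rw [mem_coe, mem_filter, mem_product] at hz
      exact mem_coe.2 (hmemT _ hz.1.1)
  have hPPr : ((((SA Y N) ×ˢ (SA Y N)).filter fun z =>
      ⌊(X : ℝ) * Real.log z.1⌋ = ⌊(X : ℝ) * Real.log z.2⌋).card : ℝ) ≤
      T.card * (T.card * B) := by
    have hCau' : ((((SA Y N) ×ˢ (SA Y N)).filter fun z =>
        ⌊(X : ℝ) * Real.log z.1⌋ = ⌊(X : ℝ) * Real.log z.2⌋).card : ℝ) ≤ (T.card : ℝ) *
        ((((SA Y N) ×ˢ (SA Y N)).filter fun z =>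
          ⌊(X : ℝ) * Real.log z.1⌋ = ⌊(X : ℝ) * Real.log z.2⌋ ∧ lam z.1 = lam z.2).card : ℝ) := by
      exact_mod_cast hCau
    exact hCau'.trans (mul_le_mul_of_nonneg_left hfib (by positivity))
  refine hPPr.trans ?_
  calc (T.card : ℝ) * (T.card * B)
      ≤ (C₁ * C₃ * (X : ℝ) ^ (3 * σ)) * ((C₁ * C₃ * (X : ℝ) ^ (3 * σ)) * B) := by
        apply mul_le_mul hT_card _ (by positivity) (by positivity)
        exact mul_le_mul_of_nonneg_right hT_card hB0
    _ = C₅ * (X : ℝ) ^ (7 * σ) * Y := by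
        rw [hB, hC₅, show 7 * σ = 3 * σ + 3 * σ + σ by ring, Real.rpow_add hX0, Real.rpow_add hX0]
        ring
    _ ≤ (C₄ * C₅) * (X : ℝ) ^ ε * Y := by
        apply mul_le_mul_of_nonneg_right _ (by positivity)
        apply mul_le_mul _ _ (by positivity) (by positivity)
        · exact le_mul_of_one_le_left (by linarith) hC₄1
        · apply Real.rpow_le_rpow_of_exponent_le hX1
          rw [hσ]
          linarith

end Pool.MP_a95293_nt.SF
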