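import Pool.Agent.Lib_MP_a95293_sf.EnerA
import Pool.Agent.Lib_MP_a95293_ps.Fam1

/-!
# Piece FAMA: `a` much smaller than `b`

PROOF.  As `Fam1_aux` in `Lib_MP_a95293_ps/Fam1.lean` (copy it): `gcp` with the data `1`, `2^(log₂ rd b)`, `2^(log₂ rd c)`, `b = z.2`, `c = z.1 + z.2`;
in a fibre `0 < log c - log b = log (1 + a/b) ≤ a / b ≤ 1 / X`, so `⌊X log c⌋ - ⌊X log b⌋ ∈ {0, 1}`: two applications of the Cauchy inequality `Fam1_cs`
with `g n = ⌊X log n⌋`, `h n = ⌊X log n⌋` resp. `⌊X log n⌋ - 1`, and `energyA` with `ε / 4` for `Y = 2^(i+1)` and `2^(j+1)`.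
-/

set_option autoImplicit false

namespace Pool.MP_a95293_nt.SF

open Finset
open Pool.MP_a95293_nt.RC (rd Prm pr3)

private theorem FamA_cs {α : Type} [DecidableEq α] (U V : Finset ℕ) (g h : ℕ → α) :
    ((U ×ˢ V).filter fun z => g z.1 = h z.2).card ^ 2 ≤
      ((U ×ˢ U).filter fun z => g z.1 = g z.2).card *
        ((V ×ˢ V).filter fun z => h z.1 = h z.2).card := by
  classical
  have e0 : ((U ×ˢ V).filter fun z => g z.1 = h z.2).card =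
      ∑ t ∈ U.image g, (U.filter fun u => g u = t).card * (V.filter fun v => h v = t).card := by
    rw [card_eq_sum_card_fiberwise (f := fun z : ℕ × ℕ => g z.1) (t := U.image g)]
    · refine sum_congr rfl fun t _ => ?_
      rw [← card_product]
      congr 1
      ext ⟨x, y⟩
      simp only [mem_filter, mem_product]
      constructor
      · rintro ⟨⟨⟨h1, h2⟩, h3⟩, h4⟩
        exact ⟨⟨h1, h4⟩, h2, h3 ▸ h4⟩
      · rintro ⟨⟨h1, h4⟩, h2, h3⟩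
        exact ⟨⟨⟨h1, h2⟩, h4.trans h3.symm⟩, h4⟩
    · intro z hz
      rw [mem_coe, mem_filter, mem_product] at hz
      exact mem_coe.2 (mem_image_of_mem g hz.1.1)
  have e1 : ∀ (W : Finset ℕ) (k : ℕ → α), ∑ t ∈ U.image g, (W.filter fun u => k u = t).card ^ 2 ≤
      ((W ×ˢ W).filter fun z => k z.1 = k z.2).card := by
    intro W k
    have e2 : ∑ t ∈ U.image g, (W.filter fun u => k u = t).card ^ 2 =
        ∑ t ∈ U.image g, (((W ×ˢ W).filter fun z => k z.1 = k z.2).filter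
          fun z => k z.1 = t).card := by
      refine sum_congr rfl fun t _ => ?_
      rw [sq, ← card_product]
      congr 1
      ext ⟨x, y⟩
      simp only [mem_filter, mem_product]
      constructor
      · rintro ⟨⟨h1, h4⟩, h2, h3⟩
        exact ⟨⟨⟨h1, h2⟩, h4.trans h3.symm⟩, h4⟩
      · rintro ⟨⟨⟨h1, h2⟩, h3⟩, h4⟩
        exact ⟨⟨h1, h4⟩, h2, h3 ▸ h4⟩
    rw [e2, ← card_biUnion]
    · exact card_le_card (biUnion_subset.2 fun t _ => filter_subset _ _)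
    · intro t _ t' _ htt
      refine Finset.disjoint_left.2 ?_
      intro z hz hz'
      exact htt ((mem_filter.1 hz).2.symm.trans (mem_filter.1 hz').2)
  rw [e0]
  exact (sum_mul_sq_le_sq_mul_sq _ _ _).trans (Nat.mul_le_mul (e1 U g) (e1 V h))

private theorem FamA_two (i : ℕ) : rd (2 ^ i) ≤ 2 := by
  unfold Pool.MP_a95293_nt.RC.rd
  rcases Nat.eq_zero_or_pos i with h | h
  · rw [h]
    simp
  · rw [Nat.primeFactors_prime_pow (by omega) Nat.prime_two, prod_singleton]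

private theorem FamA_floor {X a b : ℕ} (hX : 1 ≤ X) (ha : 1 ≤ a) (hb : 1 ≤ b) (h : a * X ≤ b) :
    ⌊(X : ℝ) * Real.log b⌋ = ⌊(X : ℝ) * Real.log ((a + b : ℕ) : ℝ)⌋ ∨
      ⌊(X : ℝ) * Real.log b⌋ = ⌊(X : ℝ) * Real.log ((a + b : ℕ) : ℝ)⌋ - 1 := by
  have hX0 : (0 : ℝ) < X := by exact_mod_cast hX
  have hb0 : (0 : ℝ) < b := by exact_mod_cast hb
  have ha0 : (0 : ℝ) < a := by exact_mod_cast ha
  have h1 : Real.log b ≤ Real.log ((a + b : ℕ) : ℝ) := by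
    apply Real.log_le_log hb0
    push_cast
    linarith
  have h2 : Real.log ((a + b : ℕ) : ℝ) - Real.log b ≤ a / b := by
    have hc0 : (0 : ℝ) < ((a + b : ℕ) : ℝ) := by
      push_cast
      linarith
    rw [← Real.log_div hc0.ne' hb0.ne']
    refine (Real.log_le_sub_one_of_pos (by positivity)).trans (le_of_eq ?_)
    push_cast
    field_simp
    ring
  have h3 : (X : ℝ) * (a / b) ≤ 1 := by
    rw [mul_div_assoc', div_le_one hb0]
    have : ((a * X : ℕ) : ℝ) ≤ b := by exact_mod_cast h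
    push_cast at this
    linarith
  have h4 : (X : ℝ) * Real.log b ≤ (X : ℝ) * Real.log ((a + b : ℕ) : ℝ) :=
    mul_le_mul_of_nonneg_left h1 hX0.le
  have h5 : (X : ℝ) * Real.log ((a + b : ℕ) : ℝ) ≤ (X : ℝ) * Real.log b + 1 := by
    have := mul_le_mul_of_nonneg_left h2 hX0.le
    rw [mul_sub] at this
    linarith
  have h6 := Int.floor_le_floor h4
  have h7 := Int.floor_le_floor h5
  rw [Int.floor_add_one] at h7
  omega

theorem famA (A : ℕ) (ε : ℝ) (hε : 0 < ε) : ∃ C : ℝ, 1 ≤ C ∧ ∀ (X : ℕ) (Y : ℝ), 1 ≤ X → 0 ≤ Y →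
    ∀ S : Finset (ℕ × ℕ), (∀ z ∈ S, Prm z ∧ z.1 + z.2 ≤ X ^ A ∧ z.1 * X ≤ z.2 ∧
      C * (X : ℝ) ^ ε * (rd z.2 : ℝ) ^ 2 ≤ X ∧ C * (X : ℝ) ^ ε * (rd (z.1 + z.2) : ℝ) ^ 2 ≤ X ∧
      Real.sqrt ((rd z.2 : ℝ) * rd (z.1 + z.2)) ≤ Y) →
    (S.card : ℝ) ≤ C * (X : ℝ) ^ ε * Y := by
  classical
  obtain ⟨Cg, hCg, hg⟩ := Pool.MP_a95293_nt.PS.gcp A (ε / 2) (by positivity)
  obtain ⟨Ce, hCe, he⟩ := energyA A (ε / 2) (by positivity)
  have hCC : 1 ≤ Cg * Ce := one_le_mul_of_one_le_of_one_le hCg hCe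
  refine ⟨16 * (Cg * Ce), by linarith, ?_⟩
  intro X Y hX hY S hS
  set N : ℕ := X ^ A with hN
  have hX1 : (1 : ℝ) ≤ X := by exact_mod_cast hX
  have hX0 : (0 : ℝ) < X := by linarith
  have hXe : (0 : ℝ) < (X : ℝ) ^ (ε / 2) := Real.rpow_pos_of_pos hX0 _
  have hXe2 : (X : ℝ) ^ (ε / 2) * (X : ℝ) ^ (ε / 2) = (X : ℝ) ^ ε := by
    rw [← Real.rpow_add hX0]
    congr 1
    ring
  have hXle : (X : ℝ) ^ (ε / 2) ≤ (X : ℝ) ^ ε :=
    Real.rpow_le_rpow_of_exponent_le hX1 (by linarith)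
  have hCe4 : 4 * Ce ≤ 16 * (Cg * Ce) := by nlinarith
  -- the weights
  set w : ℕ × ℕ → ℝ := fun s =>
    4 * Ce * (X : ℝ) ^ (ε / 2) * Real.sqrt ((rd s.2 : ℝ) * rd (s.1 + s.2)) with hw
  have hlog : ∀ n : ℕ, 2 ^ Nat.log 2 (rd n) ≤ rd n := fun n =>
    Nat.pow_log_le_self 2 (Pool.MP_a95293_nt.RC.rd_pos n).ne'
  have hlog' : ∀ n : ℕ, rd n ≤ 2 ^ (Nat.log 2 (rd n) + 1) := fun n =>
    (Nat.lt_pow_succ_log_self (by norm_num) _).le
  have hrdN : ∀ n : ℕ, 1 ≤ n → n ≤ N → 2 ^ Nat.log 2 (rd n) ≤ N := fun n h1 h2 =>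
    (hlog n).trans ((Nat.le_of_dvd h1 (Pool.MP_a95293_nt.RC.rd_dvd n)).trans h2)
  have hpos : ∀ s ∈ S, (1 ≤ s.1 ∧ 1 ≤ s.2) ∧ s.2 ≤ N ∧ s.1 + s.2 ≤ N := fun s hs => by
    obtain ⟨p1, p2, _⟩ := hS s hs
    have q1 : 1 ≤ s.1 := p1.1
    have q2 : 1 ≤ s.2 := p1.2.1
    exact ⟨⟨q1, q2⟩, by omega, p2⟩
  have main := hg X (16 * Ce * (X : ℝ) ^ (ε / 2) * Y) hX (by positivity) S (fun _ => 1)
    (fun s => 2 ^ Nat.log 2 (rd s.2)) (fun s => 2 ^ Nat.log 2 (rd (s.1 + s.2))) w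
    (fun s _ => ⟨le_refl 1, Nat.one_le_pow _ _ hX⟩)
    (fun s hs => ⟨Nat.one_le_two_pow, hrdN _ (hpos s hs).1.2 (hpos s hs).2.1⟩)
    (fun s hs => ⟨Nat.one_le_two_pow, hrdN _ (by have := (hpos s hs).1.1; omega) (hpos s hs).2.2⟩)
    ?_ ?_
  · refine main.trans (le_of_eq ?_)
    rw [← hXe2]
    ring
  · -- fibres
    intro s hs
    refine ⟨s, hs, rfl, rfl, rfl, ?_⟩
    obtain ⟨a1, a2, a3, a8, a9, a10⟩ := hS s hs
    set i := Nat.log 2 (rd s.2) with hi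
    set j := Nat.log 2 (rd (s.1 + s.2)) with hj
    set F := S.filter fun t => (1 : ℕ) = 1 ∧ 2 ^ Nat.log 2 (rd t.2) = 2 ^ i ∧
      2 ^ Nat.log 2 (rd (t.1 + t.2)) = 2 ^ j with hF
    set U := SA (2 ^ (i + 1)) N with hU
    set V := SA (2 ^ (j + 1)) N with hV
    set fl : ℕ → ℤ := fun n => ⌊(X : ℝ) * Real.log n⌋ with hfl
    have hcard : F.card ≤ ((U ×ˢ V).filter fun z => fl z.1 = fl z.2).card +
        ((U ×ˢ V).filter fun z => fl z.1 = (fun n => fl n - 1) z.2).card := by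
      refine le_trans ?_ (card_union_le _ _)
      refine card_le_card_of_injOn (fun t => (t.2, t.1 + t.2)) ?_ ?_
      · intro t ht
        rw [mem_coe, hF, mem_filter] at ht
        obtain ⟨ht, _, t2, t3⟩ := ht
        obtain ⟨b1, b2, b3, _⟩ := hS t ht
        obtain ⟨⟨p1, p2⟩, p3, p4⟩ := hpos t ht
        have c2 : Nat.log 2 (rd t.2) = i := Nat.pow_right_injective (le_refl 2) t2
        have c3 : Nat.log 2 (rd (t.1 + t.2)) = j := Nat.pow_right_injective (le_refl 2) t3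
        have m1 : t.2 ∈ U := by
          rw [hU]
          unfold SA
          rw [mem_filter, mem_Icc, ← c2]
          exact ⟨⟨p2, p3⟩, hlog' _⟩
        have m2 : t.1 + t.2 ∈ V := by
          rw [hV]
          unfold SA
          rw [mem_filter, mem_Icc, ← c3]
          exact ⟨⟨by omega, p4⟩, hlog' _⟩
        rw [mem_coe, mem_union, mem_filter, mem_filter, mem_product]
        rcases FamA_floor hX p1 p2 b3 with h | h
        · exact Or.inl ⟨⟨m1, m2⟩, h⟩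
        · exact Or.inr ⟨⟨m1, m2⟩, h⟩
      · intro t _ t' _ h
        simp only [Prod.mk.injEq] at h
        exact Prod.ext (by omega) h.1
    have hcs1 := FamA_cs U V fl fl
    have hcs2 := FamA_cs U V fl (fun n => fl n - 1)
    have p2 : ((V ×ˢ V).filter fun z => (fun n => fl n - 1) z.1 = (fun n => fl n - 1) z.2) =
        (V ×ˢ V).filter fun z => fl z.1 = fl z.2 := by
      apply filter_congr
      intro z _
      exact ⟨fun h => by simpa using h, fun h => by simpa using h⟩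
    rw [p2] at hcs2
    have ru : (1 : ℝ) ≤ rd s.2 := by exact_mod_cast Pool.MP_a95293_nt.RC.rd_pos s.2
    have rv : (1 : ℝ) ≤ rd (s.1 + s.2) := by
      exact_mod_cast Pool.MP_a95293_nt.RC.rd_pos (s.1 + s.2)
    have hiu : ((2 ^ i : ℕ) : ℝ) ≤ rd s.2 := by exact_mod_cast hlog s.2
    have hjv : ((2 ^ j : ℕ) : ℝ) ≤ rd (s.1 + s.2) := by exact_mod_cast hlog (s.1 + s.2)
    have i0 : (0 : ℝ) ≤ ((2 ^ i : ℕ) : ℝ) := Nat.cast_nonneg _
    have j0 : (0 : ℝ) ≤ ((2 ^ j : ℕ) : ℝ) := Nat.cast_nonneg _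
    have ei : ((2 ^ (i + 1) : ℕ) : ℝ) = 2 * ((2 ^ i : ℕ) : ℝ) := by
      push_cast
      ring
    have ej : ((2 ^ (j + 1) : ℕ) : ℝ) = 2 * ((2 ^ j : ℕ) : ℝ) := by
      push_cast
      ring
    have hcond : ∀ (m : ℕ) (r : ℝ), 1 ≤ r → ((2 ^ m : ℕ) : ℝ) ≤ r →
        16 * (Cg * Ce) * (X : ℝ) ^ ε * r ^ 2 ≤ X →
        Ce * (X : ℝ) ^ (ε / 2) * (((2 ^ (m + 1) : ℕ)) : ℝ) ^ 2 ≤ X := by
      intro m r hr hmr h
      refine le_trans ?_ h
      have e1 : (((2 ^ (m + 1) : ℕ)) : ℝ) = 2 * ((2 ^ m : ℕ) : ℝ) := by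
        push_cast
        ring
      rw [e1]
      have m0 : (0 : ℝ) ≤ ((2 ^ m : ℕ) : ℝ) := Nat.cast_nonneg _
      have e2 : (2 * ((2 ^ m : ℕ) : ℝ)) ^ 2 ≤ 4 * r ^ 2 := by nlinarith
      calc Ce * (X : ℝ) ^ (ε / 2) * (2 * ((2 ^ m : ℕ) : ℝ)) ^ 2
          ≤ Ce * (X : ℝ) ^ (ε / 2) * (4 * r ^ 2) :=
            mul_le_mul_of_nonneg_left e2 (by positivity)
        _ = (4 * Ce) * (X : ℝ) ^ (ε / 2) * r ^ 2 := by ring
        _ ≤ 16 * (Cg * Ce) * (X : ℝ) ^ ε * r ^ 2 := by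
            apply mul_le_mul_of_nonneg_right _ (by positivity)
            exact mul_le_mul hCe4 hXle (by positivity) (by positivity)
    have h1 := he X (2 ^ (i + 1)) hX Nat.one_le_two_pow (hcond i _ ru hiu a8)
    have h2 := he X (2 ^ (j + 1)) hX Nat.one_le_two_pow (hcond j _ rv hjv a9)
    rw [ei] at h1
    rw [ej] at h2
    set w' : ℝ := 2 * Ce * (X : ℝ) ^ (ε / 2) * Real.sqrt ((rd s.2 : ℝ) * rd (s.1 + s.2)) with hw'
    have hw0 : 0 ≤ w' := by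
      rw [hw']
      positivity
    have hsq : w' ^ 2 = 4 * Ce ^ 2 * ((X : ℝ) ^ (ε / 2)) ^ 2 *
        ((rd s.2 : ℝ) * rd (s.1 + s.2)) := by
      rw [hw', mul_pow, Real.sq_sqrt (by positivity)]
      ring
    have hbd : ∀ n : ℕ, n ^ 2 ≤ ((U ×ˢ U).filter fun z => fl z.1 = fl z.2).card *
        ((V ×ˢ V).filter fun z => fl z.1 = fl z.2).card → (n : ℝ) ≤ w' := by
      intro n hn
      rw [← pow_le_pow_iff_left₀ (Nat.cast_nonneg _) hw0 (two_ne_zero), hsq]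
      have h3 : (n : ℝ) ^ 2 ≤ (((U ×ˢ U).filter fun z => fl z.1 = fl z.2).card : ℝ) *
          ((V ×ˢ V).filter fun z => fl z.1 = fl z.2).card := by
        exact_mod_cast hn
      refine h3.trans ((mul_le_mul h1 h2 (Nat.cast_nonneg _) (by positivity)).trans ?_)
      calc Ce * (X : ℝ) ^ (ε / 2) * (2 * ((2 ^ i : ℕ) : ℝ)) *
            (Ce * (X : ℝ) ^ (ε / 2) * (2 * ((2 ^ j : ℕ) : ℝ)))
          = 4 * Ce ^ 2 * ((X : ℝ) ^ (ε / 2)) ^ 2 * (((2 ^ i : ℕ) : ℝ) * ((2 ^ j : ℕ) : ℝ)) := by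
            ring
        _ ≤ 4 * Ce ^ 2 * ((X : ℝ) ^ (ε / 2)) ^ 2 * ((rd s.2 : ℝ) * rd (s.1 + s.2)) := by
            apply mul_le_mul_of_nonneg_left _ (by positivity)
            exact mul_le_mul hiu hjv j0 (by linarith)
    have g1 := hbd _ hcs1
    have g2 := hbd _ hcs2
    have g3 : (F.card : ℝ) ≤ (((U ×ˢ V).filter fun z => fl z.1 = fl z.2).card : ℝ) +
        ((U ×ˢ V).filter fun z => fl z.1 = (fun n => fl n - 1) z.2).card := by
      exact_mod_cast hcard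
    have g4 : w s = w' + w' := by
      rw [hw, hw']
      ring
    rw [g4]
    linarith
  · -- the weight bound
    intro s hs
    obtain ⟨a1, a2, a3, a8, a9, a10⟩ := hS s hs
    have r0 : (rd 1 : ℝ) = 1 := by
      unfold Pool.MP_a95293_nt.RC.rd
      simp
    have r1 : (rd (2 ^ Nat.log 2 (rd s.2)) : ℝ) ≤ 2 := by exact_mod_cast FamA_two _
    have r2 : (rd (2 ^ Nat.log 2 (rd (s.1 + s.2))) : ℝ) ≤ 2 := by exact_mod_cast FamA_two _
    have r1' : (0 : ℝ) ≤ (rd (2 ^ Nat.log 2 (rd s.2)) : ℝ) := Nat.cast_nonneg _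
    have r2' : (0 : ℝ) ≤ (rd (2 ^ Nat.log 2 (rd (s.1 + s.2))) : ℝ) := Nat.cast_nonneg _
    have r12 : (rd (2 ^ Nat.log 2 (rd s.2)) : ℝ) * rd (2 ^ Nat.log 2 (rd (s.1 + s.2))) ≤ 4 := by
      nlinarith
    rw [hw]
    show (rd 1 : ℝ) * rd (2 ^ Nat.log 2 (rd s.2)) * rd (2 ^ Nat.log 2 (rd (s.1 + s.2))) *
      (4 * Ce * (X : ℝ) ^ (ε / 2) * Real.sqrt ((rd s.2 : ℝ) * rd (s.1 + s.2))) ≤ _
    rw [r0, one_mul]
    calc (rd (2 ^ Nat.log 2 (rd s.2)) : ℝ) * rd (2 ^ Nat.log 2 (rd (s.1 + s.2))) *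
          (4 * Ce * (X : ℝ) ^ (ε / 2) * Real.sqrt ((rd s.2 : ℝ) * rd (s.1 + s.2)))
        = ((rd (2 ^ Nat.log 2 (rd s.2)) : ℝ) * rd (2 ^ Nat.log 2 (rd (s.1 + s.2)))) *
          (4 * Ce * (X : ℝ) ^ (ε / 2)) * Real.sqrt ((rd s.2 : ℝ) * rd (s.1 + s.2)) := by ring
      _ ≤ 4 * (4 * Ce * (X : ℝ) ^ (ε / 2)) * Y := by
          apply mul_le_mul _ a10 (by positivity) (by positivity)
          exact mul_le_mul_of_nonneg_right r12 (by positivity)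
      _ = 16 * Ce * (X : ℝ) ^ (ε / 2) * Y := by ring

end Pool.MP_a95293_nt.SF
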