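import Pool.Agent.Lib_MP_a95293_sf.Surf
import Pool.Agent.Lib_MP_a95293_ps.Gcp

/-!
# Piece FAMS: three large prime powers

PROOF.  As `fam2` in `Lib_MP_a95293_ps/Fam2.lean`: choose the data (`choose!`); for every triple of exponents `(k, m, l) ≤ E` (at most `(E+1)^3`) apply `gcp` with the data
`A', B, D` and `w = C₀ X^τ`: for given `(A', B, D)` the pair `z` is determined by the point `(x, y, t)` and `Pt k m l B (-D) A' L X (x, y, t)` holds with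
`L = ⌈X^ξ⌉₊` (`B x^k - D y^m + A' t^l = 0`; the coprimality conditions come from `Prm z`: `x ∣ z.2`, `y ∣ z.1 + z.2`, `t ∣ z.1` are prime to the other two numbers;
`x, y, t` are distinct for the same reason), so `surf` bounds the fibre.
-/

set_option autoImplicit false

namespace Pool.MP_a95293_nt.SF

open Finset
open Pool.MP_a95293_nt.RC (rd Prm pr3)

/-- the case of given exponents `k`, `m`, `l` -/
private theorem FamS_aux {e₀ : ℕ} (he₀ : 2 ≤ e₀) {τ ξ : ℝ} {E A : ℕ} {C₀ : ℝ} (hC₀ : 1 ≤ C₀)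
    (hsurf : ∀ (X L k m l : ℕ) (al be ga : ℤ), 1 ≤ X → (X : ℝ) ^ ξ ≤ L → e₀ ≤ k → k ≤ E →
      e₀ ≤ m → m ≤ E → e₀ ≤ l → l ≤ E → al ≠ 0 → be ≠ 0 → ga ≠ 0 → |al| ≤ (X : ℤ) ^ A →
      |be| ≤ (X : ℤ) ^ A → |ga| ≤ (X : ℤ) ^ A → ∀ T : Finset (ℕ × ℕ × ℕ),
      (∀ P ∈ T, Pt k m l al be ga L X P) → (T.card : ℝ) ≤ C₀ * (X : ℝ) ^ τ)
    (ε : ℝ) (hε : 0 < ε) : ∃ C : ℝ, 1 ≤ C ∧ ∀ (X : ℕ) (Y : ℝ), 1 ≤ X → 0 ≤ Y →
    ∀ (k m l : ℕ) (S : Finset (ℕ × ℕ)) (B D A' x y t : ℕ × ℕ → ℕ),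
    e₀ ≤ k → k ≤ E → e₀ ≤ m → m ≤ E → e₀ ≤ l → l ≤ E →
    (∀ z ∈ S, Prm z ∧ z.1 + z.2 ≤ X ^ A ∧ (x z).Prime ∧ (y z).Prime ∧ (t z).Prime ∧
      x z ≤ X ∧ y z ≤ X ∧ t z ≤ X ∧
      (X : ℝ) ^ ξ ≤ x z ∧ (X : ℝ) ^ ξ ≤ y z ∧ (X : ℝ) ^ ξ ≤ t z ∧
      z.1 = A' z * t z ^ l ∧ z.2 = B z * x z ^ k ∧ z.1 + z.2 = D z * y z ^ m ∧
      (rd (A' z) : ℝ) * rd (B z) * rd (D z) ≤ Y) →
    (S.card : ℝ) ≤ C * (X : ℝ) ^ (ε + τ) * Y := by
  classical
  obtain ⟨C, hC, h⟩ := PS.gcp A ε hε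
  refine ⟨C * C₀, one_le_mul_of_one_le_of_one_le hC hC₀, ?_⟩
  intro X Y hX hY k m l S B D A' x y t hk hkE hm hmE hl hlE hS
  have hX0 : (0 : ℝ) < X := by exact_mod_cast hX
  have hXt : (0 : ℝ) < (X : ℝ) ^ τ := Real.rpow_pos_of_pos hX0 _
  have pos : ∀ z ∈ S, 1 ≤ A' z ∧ 1 ≤ B z ∧ 1 ≤ D z ∧ A' z ≤ X ^ A ∧ B z ≤ X ^ A ∧
      D z ≤ X ^ A := by
    intro z hz
    obtain ⟨p1, p2, px, py, pt, -, -, -, -, -, -, e1, e2, e3, -⟩ := hS z hz
    have z1 : 0 < z.1 := p1.1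
    have z2 : 0 < z.2 := p1.2.1
    have hA : 1 ≤ A' z := by
      rcases Nat.eq_zero_or_pos (A' z) with h0 | h0
      · rw [h0, zero_mul] at e1
        omega
      · exact h0
    have hB : 1 ≤ B z := by
      rcases Nat.eq_zero_or_pos (B z) with h0 | h0
      · rw [h0, zero_mul] at e2
        omega
      · exact h0
    have hD : 1 ≤ D z := by
      rcases Nat.eq_zero_or_pos (D z) with h0 | h0
      · rw [h0, zero_mul] at e3
        omega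
      · exact h0
    have a1 : A' z ≤ z.1 := by
      rw [e1]
      exact Nat.le_mul_of_pos_right _ (pow_pos pt.pos _)
    have a2 : B z ≤ z.2 := by
      rw [e2]
      exact Nat.le_mul_of_pos_right _ (pow_pos px.pos _)
    have a3 : D z ≤ z.1 + z.2 := by
      rw [e3]
      exact Nat.le_mul_of_pos_right _ (pow_pos py.pos _)
    exact ⟨hA, hB, hD, by omega, by omega, by omega⟩
  have main := h X (C₀ * (X : ℝ) ^ τ * Y) hX (by positivity) S A' B D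
    (fun _ => C₀ * (X : ℝ) ^ τ)
    (fun z hz => ⟨(pos z hz).1, (pos z hz).2.2.2.1⟩)
    (fun z hz => ⟨(pos z hz).2.1, (pos z hz).2.2.2.2.1⟩)
    (fun z hz => ⟨(pos z hz).2.2.1, (pos z hz).2.2.2.2.2⟩)
    ?_ ?_
  · refine main.trans (le_of_eq ?_)
    rw [Real.rpow_add hX0]
    ring
  · intro s hs
    refine ⟨s, hs, rfl, rfl, rfl, ?_⟩
    set F := S.filter fun u => A' u = A' s ∧ B u = B s ∧ D u = D s with hF
    have hinj : Set.InjOn (fun u : ℕ × ℕ => (x u, y u, t u)) (F : Set (ℕ × ℕ)) := by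
      intro u hu u' hu' e
      rw [mem_coe, hF, mem_filter] at hu hu'
      simp only [Prod.mk.injEq] at e
      obtain ⟨-, -, -, -, -, -, -, -, -, -, -, e1, e2, -, -⟩ := hS u hu.1
      obtain ⟨-, -, -, -, -, -, -, -, -, -, -, f1, f2, -, -⟩ := hS u' hu'.1
      refine Prod.ext ?_ ?_
      · rw [e1, f1, hu.2.1, hu'.2.1, e.2.2]
      · rw [e2, f2, hu.2.2.1, hu'.2.2.1, e.1]
    have hcard : (F.image fun u => (x u, y u, t u)).card = F.card := card_image_of_injOn hinj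
    have ps := pos s hs
    have hp := hsurf X ⌈(X : ℝ) ^ ξ⌉₊ k m l (B s) (-(D s : ℤ)) (A' s) hX (Nat.le_ceil _)
      hk hkE hm hmE hl hlE
      (by have := ps.2.1; omega) (by have := ps.2.2.1; omega) (by have := ps.1; omega)
      (by rw [Nat.abs_cast]; exact_mod_cast ps.2.2.2.2.1)
      (by rw [abs_neg, Nat.abs_cast]; exact_mod_cast ps.2.2.2.2.2)
      (by rw [Nat.abs_cast]; exact_mod_cast ps.2.2.2.1)
      (F.image fun u => (x u, y u, t u)) (by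
        intro P hP
        obtain ⟨u, hu, rfl⟩ := mem_image.1 hP
        rw [hF, mem_filter] at hu
        obtain ⟨huS, g1, g2, g3⟩ := hu
        obtain ⟨pr, -, px, py, pt, lx, ly, lt, bx, bY, bt, e1, e2, e3, -⟩ := hS u huS
        rw [g1] at e1
        rw [g2] at e2
        rw [g3] at e3
        have dx2 : x u ∣ u.2 := by
          rw [e2]
          exact Dvd.dvd.mul_left (dvd_pow_self _ (by omega)) _
        have dt1 : t u ∣ u.1 := by
          rw [e1]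
          exact Dvd.dvd.mul_left (dvd_pow_self _ (by omega)) _
        have dy3 : y u ∣ u.1 + u.2 := by
          rw [e3]
          exact Dvd.dvd.mul_left (dvd_pow_self _ (by omega)) _
        have dA : A' s ∣ u.1 := ⟨_, e1⟩
        have dB : B s ∣ u.2 := ⟨_, e2⟩
        have dD : D s ∣ u.1 + u.2 := ⟨_, e3⟩
        have c12 : ∀ p : ℕ, p.Prime → p ∣ u.1 → p ∣ u.2 → False := fun p hp h1 h2 =>
          Nat.not_coprime_of_dvd_of_dvd hp.one_lt h1 h2 pr.2.2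
        have c13 : ∀ p : ℕ, p.Prime → p ∣ u.1 → p ∣ u.1 + u.2 → False := fun p hp h1 h2 =>
          c12 p hp h1 ((Nat.dvd_add_right h1).1 h2)
        have c23 : ∀ p : ℕ, p.Prime → p ∣ u.2 → p ∣ u.1 + u.2 → False := fun p hp h1 h2 =>
          c12 p hp ((Nat.dvd_add_left h1).1 h2) h1
        refine ⟨⟨px, py, pt⟩, ⟨?_, ?_, ?_⟩, ⟨?_, ?_, ?_⟩, ⟨lx, ly, lt⟩, ⟨?_, ?_, ?_⟩, ?_⟩
        · intro hxy
          have hxy' : x u = y u := hxy
          exact c23 _ px dx2 (hxy' ▸ dy3)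
        · intro hxt
          have hxt' : x u = t u := hxt
          exact c12 _ px (hxt' ▸ dt1) dx2
        · intro hyt
          have hyt' : y u = t u := hyt
          exact c13 _ py (hyt' ▸ dt1) dy3
        · exact Nat.ceil_le.2 bx
        · exact Nat.ceil_le.2 bY
        · exact Nat.ceil_le.2 bt
        · show ¬ ((x u : ℕ) : ℤ) ∣ -(D s : ℤ) * (A' s : ℤ)
          rw [neg_mul, dvd_neg]
          intro hd
          have hd' : x u ∣ D s * A' s := by exact_mod_cast hd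
          rcases px.dvd_mul.1 hd' with h1 | h1
          · exact c23 _ px dx2 (h1.trans dD)
          · exact c12 _ px (h1.trans dA) dx2
        · show ¬ ((y u : ℕ) : ℤ) ∣ (B s : ℤ) * (A' s : ℤ)
          intro hd
          have hd' : y u ∣ B s * A' s := by exact_mod_cast hd
          rcases py.dvd_mul.1 hd' with h1 | h1
          · exact c23 _ py (h1.trans dB) dy3
          · exact c13 _ py (h1.trans dA) dy3
        · show ¬ ((t u : ℕ) : ℤ) ∣ (B s : ℤ) * -(D s : ℤ)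
          rw [mul_neg, dvd_neg]
          intro hd
          have hd' : t u ∣ B s * D s := by exact_mod_cast hd
          rcases pt.dvd_mul.1 hd' with h1 | h1
          · exact c12 _ pt dt1 (h1.trans dB)
          · exact c13 _ pt dt1 (h1.trans dD)
        · show (B s : ℤ) * ((x u : ℕ) : ℤ) ^ k + -(D s : ℤ) * ((y u : ℕ) : ℤ) ^ m +
            (A' s : ℤ) * ((t u : ℕ) : ℤ) ^ l = 0
          have f1 : (u.1 : ℤ) = (A' s : ℤ) * ((t u : ℕ) : ℤ) ^ l := by exact_mod_cast e1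
          have f2 : (u.2 : ℤ) = (B s : ℤ) * ((x u : ℕ) : ℤ) ^ k := by exact_mod_cast e2
          have f3 : (u.1 : ℤ) + u.2 = (D s : ℤ) * ((y u : ℕ) : ℤ) ^ m := by exact_mod_cast e3
          linear_combination f3 - f1 - f2)
    rw [hcard] at hp
    exact hp
  · intro s hs
    have h5 := (hS s hs).2.2.2.2.2.2.2.2.2.2.2.2.2.2
    show (rd (A' s) : ℝ) * rd (B s) * rd (D s) * (C₀ * (X : ℝ) ^ τ) ≤ C₀ * (X : ℝ) ^ τ * Y
    calc (rd (A' s) : ℝ) * rd (B s) * rd (D s) * (C₀ * (X : ℝ) ^ τ)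
        = C₀ * (X : ℝ) ^ τ * ((rd (A' s) : ℝ) * rd (B s) * rd (D s)) := by ring
      _ ≤ C₀ * (X : ℝ) ^ τ * Y := mul_le_mul_of_nonneg_left h5 (by positivity)

theorem famS (τ ξ : ℝ) (hτ : 0 < τ) (hξ : 0 < ξ) : ∃ e₀ : ℕ, 2 ≤ e₀ ∧ ∀ (A E : ℕ) (ε : ℝ), 0 < ε →
    ∃ C : ℝ, 1 ≤ C ∧ ∀ (X : ℕ) (Y : ℝ), 1 ≤ X → 0 ≤ Y →
    ∀ S : Finset (ℕ × ℕ), (∀ z ∈ S, Prm z ∧ z.1 + z.2 ≤ X ^ A ∧
      ∃ k m l B D A' x y t : ℕ, e₀ ≤ k ∧ k ≤ E ∧ e₀ ≤ m ∧ m ≤ E ∧ e₀ ≤ l ∧ l ≤ E ∧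
        x.Prime ∧ y.Prime ∧ t.Prime ∧ x ≤ X ∧ y ≤ X ∧ t ≤ X ∧
        (X : ℝ) ^ ξ ≤ x ∧ (X : ℝ) ^ ξ ≤ y ∧ (X : ℝ) ^ ξ ≤ t ∧
        z.1 = A' * t ^ l ∧ z.2 = B * x ^ k ∧ z.1 + z.2 = D * y ^ m ∧
        (rd A' : ℝ) * rd B * rd D ≤ Y) →
    (S.card : ℝ) ≤ C * (X : ℝ) ^ (ε + τ) * Y := by
  classical
  obtain ⟨e₀, he₀, hs⟩ := surf τ ξ hτ hξ
  refine ⟨e₀, he₀, ?_⟩
  intro A E ε hε
  obtain ⟨C₀, hC₀, hsurf⟩ := hs E A
  obtain ⟨C, hC, h⟩ := FamS_aux he₀ hC₀ hsurf ε hε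
  refine ⟨((E + 1 : ℕ) : ℝ) ^ 3 * C, ?_, ?_⟩
  · have : (1 : ℝ) ≤ ((E + 1 : ℕ) : ℝ) ^ 3 := by
      exact_mod_cast Nat.one_le_pow _ _ (Nat.succ_pos E)
    exact one_le_mul_of_one_le_of_one_le this hC
  intro X Y hX hY S hS
  choose! k m l B D A' x y t hq using fun z (hz : z ∈ S) => (hS z hz).2.2
  set R : Finset (ℕ × ℕ × ℕ) := range (E + 1) ×ˢ range (E + 1) ×ˢ range (E + 1) with hR
  have hfib : S.card = ∑ p ∈ R, (S.filter fun z => (k z, m z, l z) = p).card := by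
    apply card_eq_sum_card_fiberwise
    intro z hz
    rw [mem_coe] at hz
    rw [mem_coe, hR, mem_product, mem_product, mem_range, mem_range, mem_range]
    have h1 := hq z hz
    have h2 : k z < E + 1 := by omega
    have h3 : m z < E + 1 := by omega
    have h4 : l z < E + 1 := by omega
    exact ⟨h2, h3, h4⟩
  have hb : ∀ p ∈ R, ((S.filter fun z => (k z, m z, l z) = p).card : ℝ) ≤
      C * (X : ℝ) ^ (ε + τ) * Y := by
    intro p _
    rcases (S.filter fun z => (k z, m z, l z) = p).eq_empty_or_nonempty with h0 | ⟨s, hs⟩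
    · rw [h0]
      simp only [card_empty, Nat.cast_zero]
      positivity
    · rw [mem_filter] at hs
      obtain ⟨hs, hp⟩ := hs
      obtain ⟨r1, r2, r3, r4, r5, r6, -⟩ := hq s hs
      refine h X Y hX hY (k s) (m s) (l s) _ B D A' x y t r1 r2 r3 r4 r5 r6 ?_
      intro z hz
      rw [mem_filter] at hz
      obtain ⟨hz, hz2⟩ := hz
      rw [← hp, Prod.mk.injEq, Prod.mk.injEq] at hz2
      obtain ⟨-, -, -, -, -, -, q1, q2, q3, q4, q5, q6, q7, q8, q9, q10, q11, q12, q13⟩ :=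
        hq z hz
      rw [hz2.1] at q11
      rw [hz2.2.1] at q12
      rw [hz2.2.2] at q10
      exact ⟨(hS z hz).1, (hS z hz).2.1, q1, q2, q3, q4, q5, q6, q7, q8, q9, q10, q11, q12, q13⟩
  rw [hfib]
  push_cast
  calc ∑ p ∈ R, ((S.filter fun z => (k z, m z, l z) = p).card : ℝ)
      ≤ ∑ _p ∈ R, C * (X : ℝ) ^ (ε + τ) * Y := sum_le_sum hb
    _ = ((E : ℝ) + 1) ^ 3 * C * (X : ℝ) ^ (ε + τ) * Y := by
        rw [sum_const, hR, card_product, card_product, card_range, nsmul_eq_mul]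
        push_cast
        ring

end Pool.MP_a95293_nt.SF
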