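import Mathlib

/-!
# Piece SIEG: integer relations of bounded size

PROOF.  Let `V` be the `ℚ`-span of the vectors `e P : Fin n → ℚ`, `P ∈ T`; `V ≠ ⊤` because `c ≠ 0` is orthogonal to it.  Choose
`P_1, …, P_m ∈ T`, `m = dim V < n`, with `e P_1, …, e P_m` a basis of `V` (`Submodule.exists_fun_fin_finrank_span_eq`, see
`Lib_MP_a95293_ps/BpB.lean`).  If `m = 0` then all `e P = 0`: take `c = Pi.single 0 1`.  Otherwise Siegel's lemma
(`Int.Matrix.exists_ne_zero_int_vec_norm_le` or `…_le'`) for the integer matrix with rows `e P_i` gives an integer vector `c ≠ 0` orthogonal to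
`e P_1, …, e P_m`, hence to all `e P`, with `‖c‖ ≤ (n * max 1 ‖A‖) ^ (m / (n - m)) ≤ (n * B) ^ n` (norm: sup of the absolute values).
(Or minors instead of Siegel's lemma.)
-/

set_option autoImplicit false

namespace Pool.MP_a95293_nt.SF

open Finset

attribute [local instance] Matrix.seminormedAddCommGroup in
private theorem sieg_mat (m n : ℕ) (h0 : 0 < m) (hmn : m < n) (A : Matrix (Fin m) (Fin n) ℤ)
    (B : ℕ) (hB : 1 ≤ B) (hA0 : ∀ i j, |A i j| ≤ B) :
    ∃ t : Fin n → ℤ, t ≠ 0 ∧ (∀ i, ∑ j, t j * A i j = 0) ∧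
      ∀ j, |t j| ≤ ((n * B : ℕ) : ℤ) ^ n := by
  obtain ⟨t, ht0, htA, htn⟩ := Int.Matrix.exists_ne_zero_int_vec_norm_le A (by
      rw [Fintype.card_fin, Fintype.card_fin]
      exact hmn) (by
      rw [Fintype.card_fin]
      exact h0)
  refine ⟨t, ht0, ?_, ?_⟩
  · intro i
    have h1 := congrFun htA i
    rw [Matrix.mulVec, dotProduct] at h1
    rw [← show _ = (0 : ℤ) from h1]
    exact Finset.sum_congr rfl fun j _ => mul_comm _ _
  · intro j
    have h1 : ((|t j| : ℤ) : ℝ) ≤ ‖t‖ := by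
      have h2 := norm_le_pi_norm t j
      rwa [Int.norm_eq_abs, ← Int.cast_abs] at h2
    have h2 := h1.trans htn
    rw [Fintype.card_fin, Fintype.card_fin] at h2
    have hB1 : (1 : ℝ) ≤ B := by exact_mod_cast hB
    have hm1 : (1 : ℝ) ≤ m := by exact_mod_cast h0
    have hmn' : (m : ℝ) + 1 ≤ n := by exact_mod_cast hmn
    have hA : max 1 ‖A‖ ≤ (B : ℝ) := by
      refine max_le hB1 ?_
      rw [Matrix.norm_le_iff (show (0 : ℝ) ≤ B by linarith)]
      intro i k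
      rw [Int.norm_eq_abs, ← Int.cast_abs]
      exact_mod_cast hA0 i k
    have h3 : (n : ℝ) * max 1 ‖A‖ ≤ n * B := by
      have : (0 : ℝ) ≤ n := by linarith
      exact mul_le_mul_of_nonneg_left hA this
    have h4 : (1 : ℝ) ≤ n * B := by nlinarith
    have h5 : (0 : ℝ) ≤ (m : ℝ) / (n - m) := by
      apply div_nonneg <;> linarith
    have h6 : (m : ℝ) / (n - m) ≤ n := by
      rw [div_le_iff₀ (by linarith)]
      nlinarith
    have h7 : ((|t j| : ℤ) : ℝ) ≤ ((n : ℝ) * B) ^ (n : ℝ) := by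
      refine h2.trans ((Real.rpow_le_rpow (by positivity) h3 h5).trans ?_)
      exact Real.rpow_le_rpow_of_exponent_le h4 h6
    rw [Real.rpow_natCast] at h7
    push_cast
    exact_mod_cast h7

private theorem sieg_basis {ι : Type} (T : Finset ι) (n : ℕ) (E : ι → Fin n → ℚ)
    (hc : ∃ c : Fin n → ℚ, c ≠ 0 ∧ ∀ P ∈ T, ∑ j, c j * E P j = 0) :
    ∃ (m : ℕ) (P : Fin m → ι), m < n ∧ (∀ i, P i ∈ T) ∧
      ∀ Q ∈ T, E Q ∈ Submodule.span ℚ (Set.range fun i => E (P i)) := by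
  obtain ⟨c0, hc0, hc1⟩ := hc
  obtain ⟨f, hf1, hf2, hf3⟩ := Submodule.exists_fun_fin_finrank_span_eq ℚ (E '' (T : Set ι))
  have hmn : Module.finrank ℚ (Submodule.span ℚ (E '' (T : Set ι))) < n := by
    have hlt : Submodule.span ℚ (E '' (T : Set ι)) ≠ ⊤ := by
      intro htop
      have h1 : Submodule.span ℚ (E '' (T : Set ι)) ≤
          LinearMap.ker (∑ j, c0 j • (LinearMap.proj j : (Fin n → ℚ) →ₗ[ℚ] ℚ)) := by
        rw [Submodule.span_le]
        rintro _ ⟨Q, hQ, rfl⟩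
        have h2 := hc1 Q hQ
        simpa [LinearMap.sum_apply] using h2
      rw [htop] at h1
      have h2 : c0 ∈ LinearMap.ker (∑ j, c0 j • (LinearMap.proj j : (Fin n → ℚ) →ₗ[ℚ] ℚ)) :=
        h1 Submodule.mem_top
      have h3 : ∑ j, c0 j * c0 j = 0 := by
        simpa [LinearMap.sum_apply] using h2
      apply hc0
      funext j
      have h4 := (Finset.sum_eq_zero_iff_of_nonneg fun i _ => mul_self_nonneg (c0 i)).1 h3 j
        (Finset.mem_univ j)
      exact mul_self_eq_zero.1 h4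
    have h5 := Submodule.finrank_lt hlt
    rwa [Module.finrank_fin_fun] at h5
  have hex : ∀ i, ∃ Q, Q ∈ T ∧ E Q = f i := by
    intro i
    obtain ⟨Q, hQ, hQ'⟩ := hf1 i
    exact ⟨Q, hQ, hQ'⟩
  choose P hPT hPe using hex
  refine ⟨_, P, hmn, hPT, fun Q hQ => ?_⟩
  have h6 : (fun i => E (P i)) = f := funext hPe
  rw [h6, hf2]
  exact Submodule.subset_span ⟨Q, hQ, rfl⟩

theorem sieg {ι : Type} (T : Finset ι) (n : ℕ) (e : ι → Fin n → ℤ) (B : ℕ) (hB : 1 ≤ B)
    (he : ∀ P ∈ T, ∀ j, |e P j| ≤ B)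
    (hc : ∃ c : Fin n → ℚ, c ≠ 0 ∧ ∀ P ∈ T, ∑ j, c j * (e P j : ℚ) = 0) :
    ∃ c : Fin n → ℤ, c ≠ 0 ∧ (∀ P ∈ T, ∑ j, c j * e P j = 0) ∧ ∀ j, |c j| ≤ ((n * B : ℕ) : ℤ) ^ n := by
  have hn : 0 < n := by
    obtain ⟨c0, hc0, -⟩ := hc
    rcases Nat.eq_zero_or_pos n with h | h
    · subst h
      exact absurd (Subsingleton.elim c0 0) hc0
    · exact h
  obtain ⟨m, P, hmn, hPT, hsp⟩ := sieg_basis T n (fun P j => (e P j : ℚ)) hc
  have key : ∀ c : Fin n → ℤ, (∀ i, ∑ j, c j * e (P i) j = 0) →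
      ∀ Q ∈ T, ∑ j, c j * e Q j = 0 := by
    intro c hc Q hQ
    have h1 : Submodule.span ℚ (Set.range fun i => (fun j => (e (P i) j : ℚ))) ≤
        LinearMap.ker (∑ j, (c j : ℚ) • (LinearMap.proj j : (Fin n → ℚ) →ₗ[ℚ] ℚ)) := by
      rw [Submodule.span_le]
      rintro _ ⟨i, rfl⟩
      have h2 := congrArg (Int.cast : ℤ → ℚ) (hc i)
      push_cast at h2
      simpa [LinearMap.sum_apply] using h2
    have h3 := h1 (hsp Q hQ)
    have h4 : ∑ j, (c j : ℚ) * (e Q j : ℚ) = 0 := by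
      simpa [LinearMap.sum_apply] using h3
    exact_mod_cast h4
  have hnB : 1 ≤ n * B := Nat.mul_pos hn hB
  rcases Nat.eq_zero_or_pos m with h0 | h0
  · subst h0
    refine ⟨Pi.single ⟨0, hn⟩ 1, ?_, ?_, ?_⟩
    · intro h
      have := congrFun h ⟨0, hn⟩
      rw [Pi.single_eq_same] at this
      exact one_ne_zero this
    · exact key _ fun i => i.elim0
    · intro j
      have h1 : |(Pi.single (⟨0, hn⟩ : Fin n) (1 : ℤ) : Fin n → ℤ) j| ≤ 1 := by
        by_cases h : j = ⟨0, hn⟩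
        · rw [h, Pi.single_eq_same, abs_one]
        · rw [Pi.single_eq_of_ne h, abs_zero]
          exact zero_le_one
      refine h1.trans ?_
      exact_mod_cast Nat.one_le_pow n (n * B) hnB
  · obtain ⟨t, ht0, ht1, ht2⟩ := sieg_mat m n h0 hmn (Matrix.of fun i j => e (P i) j) B hB
      fun i j => he (P i) (hPT i) j
    exact ⟨t, ht0, key t ht1, ht2⟩

end Pool.MP_a95293_nt.SF
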