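import Pool.Agent.Lib_MP_a95293_sf.Defs
import Pool.Agent.Lib_MP_a95293_sf.Sieg
import Pool.Agent.Lib_MP_a95293_ps.BpA

/-!
# Piece PLAN: plane auxiliary polynomial for points of a class on which the second coordinate is a polynomial in the first one

PROOF.  As `det_zero` and `aux_poly` in `Lib_MP_a95293_ps/BpB.lean` (copy them): the only property of the curve used there is the
output of `approx`, which is the hypothesis `hg` here; at the end `sieg` with `n = r * r`, `B = X ^ (2 * (r - 1))` gives the integer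
coefficients (`c i h = c' (finProdFinEquiv (i, h))` for `i, h < r` and `0` outside).
-/

set_option autoImplicit false

namespace Pool.MP_a95293_nt.SF

open Finset Polynomial

/-- the determinant of the monomials vanishes on a residue class -/
private theorem plane_det (q r X : ℕ) (hX : 1 ≤ X)
    (hsize : (r * r).factorial * (X ^ (2 * (r - 1))) ^ (r * r) < q ^ (r * r * (r * r - 1) / 2))
    (x0 : ℤ) (T : Finset (ℕ × ℕ)) (hT : ∀ P ∈ T, P.1 ≤ X ∧ P.2 ≤ X ∧ (q : ℤ) ∣ P.1 - x0)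
    (hg : ∀ N : ℕ, ∃ g : ℤ[X], ∀ P ∈ T, (q : ℤ) ^ (N + 1) ∣ P.2 - g.eval ((P.1 : ℤ) - x0))
    (z : Fin (r * r) → ℕ × ℕ) (hz : ∀ i, z i ∈ T) :
    Matrix.det (Matrix.of fun j i : Fin (r * r) =>
      ((z i).1 : ℤ) ^ ((finProdFinEquiv.symm j).1 : ℕ) *
        ((z i).2 : ℤ) ^ ((finProdFinEquiv.symm j).2 : ℕ)) = 0 := by
  classical
  set N := r * r * (r * r - 1) / 2 with hN
  set M : Matrix (Fin (r * r)) (Fin (r * r)) ℤ := Matrix.of fun j i =>
      ((z i).1 : ℤ) ^ ((finProdFinEquiv.symm j).1 : ℕ) *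
        ((z i).2 : ℤ) ^ ((finProdFinEquiv.symm j).2 : ℕ) with hM
  obtain ⟨g, hg⟩ := hg N
  set G : Fin (r * r) → ℤ[X] := fun j =>
    (C x0 + Polynomial.X) ^ ((finProdFinEquiv.symm j).1 : ℕ) *
      g ^ ((finProdFinEquiv.symm j).2 : ℕ) with hG
  have h1 := PS.Bp.det_dvd (q : ℤ) (r * r) G (fun i => ((z i).1 : ℤ) - x0)
    fun i => (hT _ (hz i)).2.2
  rw [← hN] at h1
  have h2 : (((q ^ N : ℕ) : ℤ)) ∣ M.det := by
    have h3 : ((M.det : ℤ) : ZMod (q ^ N)) =
        ((Matrix.det (Matrix.of fun j i => (G j).eval (((z i).1 : ℤ) - x0)) : ℤ) :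
          ZMod (q ^ N)) := by
      refine ((Int.castRingHom (ZMod (q ^ N))).map_det M).trans (Eq.trans ?_
        ((Int.castRingHom (ZMod (q ^ N))).map_det
          (Matrix.of fun j i : Fin (r * r) => (G j).eval (((z i).1 : ℤ) - x0))).symm)
      congr 1
      ext j i
      simp only [RingHom.mapMatrix_apply, Matrix.map_apply, Int.coe_castRingHom, hM,
        Matrix.of_apply, hG]
      have e3 : (((z i).2 : ℤ) : ZMod (q ^ N)) =
          ((g.eval (((z i).1 : ℤ) - x0) : ℤ) : ZMod (q ^ N)) := by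
        rw [ZMod.intCast_eq_intCast_iff_dvd_sub]
        have h4 : (((q ^ N : ℕ) : ℤ)) ∣ (z i).2 - g.eval (((z i).1 : ℤ) - x0) := by
          push_cast
          exact (pow_dvd_pow _ (Nat.le_succ N)).trans (hg _ (hz i))
        have h5 := (dvd_neg (α := ℤ)).2 h4
        rwa [neg_sub] at h5
      simp only [eval_mul, eval_pow, eval_add, eval_C, eval_X]
      push_cast
      push_cast at e3
      rw [e3]
      ring
    have h4 : ((Matrix.det (Matrix.of fun j i => (G j).eval (((z i).1 : ℤ) - x0)) : ℤ) :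
        ZMod (q ^ N)) = 0 := by
      rw [ZMod.intCast_zmod_eq_zero_iff_dvd]
      push_cast
      exact h1
    rw [h4, ZMod.intCast_zmod_eq_zero_iff_dvd] at h3
    exact h3
  have h5 : |M.det| ≤ (r * r).factorial * ((X : ℤ) ^ (2 * (r - 1))) ^ (r * r) := by
    have h6 := Matrix.det_le (A := M) (abv := AbsoluteValue.abs) (x := (X : ℤ) ^ (2 * (r - 1)))
      (by
        intro j i
        rw [AbsoluteValue.abs_apply, hM, Matrix.of_apply, abs_of_nonneg (by positivity)]
        have a1 : ((finProdFinEquiv.symm j).1 : ℕ) ≤ r - 1 := by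
          have := (finProdFinEquiv.symm j).1.isLt
          omega
        have a2 : ((finProdFinEquiv.symm j).2 : ℕ) ≤ r - 1 := by
          have := (finProdFinEquiv.symm j).2.isLt
          omega
        have hX' : (1 : ℤ) ≤ X := by exact_mod_cast hX
        calc ((z i).1 : ℤ) ^ ((finProdFinEquiv.symm j).1 : ℕ) *
              ((z i).2 : ℤ) ^ ((finProdFinEquiv.symm j).2 : ℕ)
            ≤ (X : ℤ) ^ ((finProdFinEquiv.symm j).1 : ℕ) *
              (X : ℤ) ^ ((finProdFinEquiv.symm j).2 : ℕ) := by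
                have := (hT _ (hz i)).1
                have := (hT _ (hz i)).2.1
                gcongr
          _ ≤ (X : ℤ) ^ (r - 1) * (X : ℤ) ^ (r - 1) := by
                gcongr
          _ = (X : ℤ) ^ (2 * (r - 1)) := by rw [← pow_add, two_mul])
    rw [Fintype.card_fin, nsmul_eq_mul] at h6
    exact_mod_cast h6
  refine Int.eq_zero_of_abs_lt_dvd h2 (lt_of_le_of_lt h5 ?_)
  exact_mod_cast hsize

/-- the rational auxiliary polynomial -/
private theorem plane_rat (q r X : ℕ) (hX : 1 ≤ X)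
    (hsize : (r * r).factorial * (X ^ (2 * (r - 1))) ^ (r * r) < q ^ (r * r * (r * r - 1) / 2))
    (x0 : ℤ) (T : Finset (ℕ × ℕ)) (hT : ∀ P ∈ T, P.1 ≤ X ∧ P.2 ≤ X ∧ (q : ℤ) ∣ P.1 - x0)
    (hg : ∀ N : ℕ, ∃ g : ℤ[X], ∀ P ∈ T, (q : ℤ) ^ (N + 1) ∣ P.2 - g.eval ((P.1 : ℤ) - x0)) :
    ∃ c : Fin (r * r) → ℚ, c ≠ 0 ∧ ∀ P ∈ T, ∑ j, c j *
      (((P.1 : ℤ) ^ ((finProdFinEquiv.symm j).1 : ℕ) *
        (P.2 : ℤ) ^ ((finProdFinEquiv.symm j).2 : ℕ) : ℤ) : ℚ) = 0 := by
  classical
  set e : ℕ × ℕ → Fin (r * r) → ℚ := fun P j =>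
    (((P.1 : ℤ) ^ ((finProdFinEquiv.symm j).1 : ℕ) *
        (P.2 : ℤ) ^ ((finProdFinEquiv.symm j).2 : ℕ) : ℤ) : ℚ) with he
  set W : Submodule ℚ (Fin (r * r) → ℚ) := Submodule.span ℚ (e '' (T : Set (ℕ × ℕ))) with hW
  by_cases hWT : W = ⊤
  · exfalso
    obtain ⟨f, hf1, -, hf3⟩ := Submodule.exists_fun_fin_finrank_span_eq ℚ (e '' (T : Set (ℕ × ℕ)))
    have hfr : Module.finrank ℚ (Submodule.span ℚ (e '' (T : Set (ℕ × ℕ)))) = r * r := by
      rw [← hW, hWT, finrank_top, Module.finrank_fin_fun]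
    have hLI : LinearIndependent ℚ (fun i : Fin (r * r) => f (Fin.cast hfr.symm i)) :=
      hf3.comp _ (Fin.cast_injective _)
    have hex : ∀ i : Fin (r * r), ∃ z : ℕ × ℕ, z ∈ T ∧ e z = f (Fin.cast hfr.symm i) := by
      intro i
      obtain ⟨z, hz, hz'⟩ := hf1 (Fin.cast hfr.symm i)
      exact ⟨z, hz, hz'⟩
    choose z hz hz' using hex
    have hdet := plane_det q r X hX hsize x0 T hT hg z hz
    set B : Matrix (Fin (r * r)) (Fin (r * r)) ℚ := Matrix.of fun i j => e (z i) j with hB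
    have hrow : B.row = fun i => f (Fin.cast hfr.symm i) := by
      funext i j
      rw [Matrix.row_apply, hB, Matrix.of_apply, hz']
    have hU : IsUnit B := by
      rw [← Matrix.linearIndependent_rows_iff_isUnit, hrow]
      exact hLI
    have hd : B.det ≠ 0 := ((Matrix.isUnit_iff_isUnit_det B).1 hU).ne_zero
    apply hd
    have h6 := congrArg (Int.castRingHom ℚ) hdet
    rw [RingHom.map_det, map_zero] at h6
    rw [← Matrix.det_transpose, ← h6]
    congr 1
  · obtain ⟨f, hf, hWf⟩ := Submodule.exists_le_ker_of_lt_top W (lt_top_iff_ne_top.2 hWT)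
    refine ⟨fun j => f (Pi.single j 1), ?_, ?_⟩
    · intro h
      apply hf
      refine LinearMap.pi_ext' fun j => ?_
      ext
      have h1 : f (Pi.single j 1) = 0 := congrFun h j
      simpa using h1
    · intro w hw
      have h1 : f (e w) = 0 := hWf (Submodule.subset_span ⟨w, hw, rfl⟩)
      have h2 : f (e w) = ∑ j, e w j * f (Pi.single j 1) := by
        rw [LinearMap.pi_apply_eq_sum_univ f (e w)]
        refine sum_congr rfl fun j _ => ?_
        rw [smul_eq_mul]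
        congr 2
        ext i
        rw [Pi.single_apply]
        simp only [eq_comm]
      rw [h1] at h2
      rw [h2]
      exact sum_congr rfl fun j _ => mul_comm _ _

theorem plane (q : ℕ) (hq : q.Prime) (r X : ℕ) (hr : 1 ≤ r) (hX : 1 ≤ X)
    (hsize : (r * r).factorial * (X ^ (2 * (r - 1))) ^ (r * r) < q ^ (r * r * (r * r - 1) / 2))
    (x0 : ℤ) (T : Finset (ℕ × ℕ)) (hT : ∀ P ∈ T, P.1 ≤ X ∧ P.2 ≤ X ∧ (q : ℤ) ∣ P.1 - x0)
    (hg : ∀ N : ℕ, ∃ g : ℤ[X], ∀ P ∈ T, (q : ℤ) ^ (N + 1) ∣ P.2 - g.eval ((P.1 : ℤ) - x0)) :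
    ∃ c : ℕ → ℕ → ℤ, (∃ i h, c i h ≠ 0) ∧ Sup2 r c ∧
      (∀ i h, |c i h| ≤ ((r * r * X ^ (2 * (r - 1)) : ℕ) : ℤ) ^ (r * r)) ∧
      ∀ P ∈ T, ev2 r c P.1 P.2 = 0 := by
  classical
  obtain ⟨c', hc0, hc1, hc2⟩ := sieg T (r * r)
    (fun P j => (P.1 : ℤ) ^ ((finProdFinEquiv.symm j).1 : ℕ) *
        (P.2 : ℤ) ^ ((finProdFinEquiv.symm j).2 : ℕ)) (X ^ (2 * (r - 1)))
    (Nat.one_le_pow _ _ hX) (by
      intro P hP j
      rw [abs_of_nonneg (by positivity)]
      have a1 : ((finProdFinEquiv.symm j).1 : ℕ) ≤ r - 1 := by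
        have := (finProdFinEquiv.symm j).1.isLt
        omega
      have a2 : ((finProdFinEquiv.symm j).2 : ℕ) ≤ r - 1 := by
        have := (finProdFinEquiv.symm j).2.isLt
        omega
      have hX' : (1 : ℤ) ≤ X := by exact_mod_cast hX
      push_cast
      calc (P.1 : ℤ) ^ ((finProdFinEquiv.symm j).1 : ℕ) *
            (P.2 : ℤ) ^ ((finProdFinEquiv.symm j).2 : ℕ)
          ≤ (X : ℤ) ^ ((finProdFinEquiv.symm j).1 : ℕ) *
            (X : ℤ) ^ ((finProdFinEquiv.symm j).2 : ℕ) := by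
              have := (hT _ hP).1
              have := (hT _ hP).2.1
              gcongr
        _ ≤ (X : ℤ) ^ (r - 1) * (X : ℤ) ^ (r - 1) := by
              gcongr
        _ = (X : ℤ) ^ (2 * (r - 1)) := by rw [← pow_add, two_mul])
    (plane_rat q r X hX hsize x0 T hT hg)
  set c : ℕ → ℕ → ℤ := fun i h =>
    if hh : i < r ∧ h < r then c' (finProdFinEquiv (⟨i, hh.1⟩, ⟨h, hh.2⟩)) else 0 with hc
  have hcv : ∀ i h : Fin r, c i h = c' (finProdFinEquiv (i, h)) := by
    intro i h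
    rw [hc]
    exact dif_pos ⟨i.isLt, h.isLt⟩
  refine ⟨c, ?_, ?_, ?_, ?_⟩
  · by_contra hne
    push Not at hne
    apply hc0
    funext j
    have h1 := hcv (finProdFinEquiv.symm j).1 (finProdFinEquiv.symm j).2
    rw [hne] at h1
    have h2 : finProdFinEquiv ((finProdFinEquiv.symm j).1, (finProdFinEquiv.symm j).2) = j :=
      finProdFinEquiv.apply_symm_apply j
    rw [h2] at h1
    exact h1.symm
  · intro i h hih
    by_contra hcon
    exact hih (dif_neg hcon)
  · intro i h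
    by_cases hh : i < r ∧ h < r
    · have h1 : c i h = c' (finProdFinEquiv (⟨i, hh.1⟩, ⟨h, hh.2⟩)) := dif_pos hh
      rw [h1]
      exact hc2 _
    · have h1 : c i h = 0 := dif_neg hh
      rw [h1, abs_zero]
      positivity
  · intro P hP
    have h1 := hc1 P hP
    unfold ev2
    rw [← finProdFinEquiv.sum_comp, Fintype.sum_prod_type] at h1
    rw [Finset.sum_range]
    refine Eq.trans (Finset.sum_congr rfl fun i _ => ?_) h1
    rw [Finset.sum_range]
    refine Finset.sum_congr rfl fun h _ => ?_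
    rw [hcv, Equiv.symm_apply_apply, mul_assoc]

end Pool.MP_a95293_nt.SF
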