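import Pool.Agent.Lib_MP_a95293_sf.Ind
import Pool.Agent.Lib_MP_a95293_sf.ApxC
import Pool.Agent.Lib_MP_a95293_sf.Plan
import Pool.Agent.Lib_MP_a95293_ps.Bp

/-!
# Piece GOOD: points of the curve `F = G = 0` at which the minor `F_y G_z - F_z G_y` is not zero

PROOF.  Parameters: `r₂` with `16 / (r₂ + 1) ≤ τ / 2`, `r₂ ≥ 2`; `f = (r₂ * r₂)!`, `w = ⌈X ^ (4 / (r₂ + 1))⌉₊`, `Z = f * w` (as in the proof of `bp`, `size_ineq`
there gives the hypothesis `hsize` of `plane` for every `q > Z`).  `|Jyz (P)| ≤ 2 E X^A X^E r^3 (r X^h) X^(3r) < Z ^ (t + 1)` for some `t` depending on `E, A, r, h, r₂`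
(`X ≥ 1`, `Z ≥ 2`, `Z ≥ X^(4/(r₂+1))`), so `Bp.choose_prime` gives for every `P ∈ T` a prime `q ∈ (Z, 2^(t+1) Z]` not dividing `Jyz (P)`.  Split `T` according to `q` and the
residue classes of the three coordinates modulo `q`: at most `(2^(t+1) Z)^4 ≤ C X^(16/(r₂+1))` parts.  In one part (base point `P₀` in it):
`approxC` gives `y` and `z` as polynomials in `x - x₀`; `plane` for the pairs `(x, z)` and `(x, y)` gives `c ≠ 0`, `c₂ ≠ 0` with coefficients at most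
`H = (r₂^2 X^(2(r₂-1)))^(r₂^2)`; `curve_count r₂ E` with `B = ⌊C₀ X^(τ/2)⌋₊` from `bp (τ/2)` (points with given `x`: pairs of primes `(y, z)` with
`β y^m + γ z^l = - α x^k ≠ 0`).  The size condition `K X^(4r₂+1) H^2 < L^(k-1)` holds for `X ≥ X₀` since `L ≥ X^ξ` and `ξ (e₀ - 1) ≥ 4 r₂ + 1 + 4 r₂^3 + 1`.
For `X < X₀` use `T.card ≤ X^3 ≤ X₀^3` (all coordinates are in `[1, X]`).
-/

set_option autoImplicit false

namespace Pool.MP_a95293_nt.SF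

open Finset

namespace Good

private theorem ev3_bound (r X : ℕ) (hX : 1 ≤ X) (N : ℤ) (hN : 0 ≤ N) (G : ℕ → ℕ → ℕ → ℤ)
    (hG : ∀ i j n, i < r → j < r → n < r → |G i j n| ≤ N) (x y z : ℕ) (hx : x ≤ X) (hy : y ≤ X)
    (hz : z ≤ X) : |ev3 r G x y z| ≤ (r : ℤ) ^ 3 * (N * (X : ℤ) ^ (3 * r)) := by
  have hX' : (1 : ℤ) ≤ X := by exact_mod_cast hX
  unfold ev3
  have h1 : |∑ i ∈ range r, ∑ j ∈ range r, ∑ h ∈ range r,
      G i j h * (x : ℤ) ^ i * (y : ℤ) ^ j * (z : ℤ) ^ h| ≤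
      ∑ _i ∈ range r, ∑ _j ∈ range r, ∑ _h ∈ range r, (N * (X : ℤ) ^ (3 * r)) := by
    refine (abs_sum_le_sum_abs _ _).trans (sum_le_sum fun i hi => ?_)
    refine (abs_sum_le_sum_abs _ _).trans (sum_le_sum fun j hj => ?_)
    refine (abs_sum_le_sum_abs _ _).trans (sum_le_sum fun n hn => ?_)
    rw [mem_range] at hi hj hn
    have e1 : |G i j n * (x : ℤ) ^ i * (y : ℤ) ^ j * (z : ℤ) ^ n| =
        |G i j n| * ((x : ℤ) ^ i * (y : ℤ) ^ j * (z : ℤ) ^ n) := by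
      rw [mul_assoc, mul_assoc, abs_mul, ← mul_assoc, abs_of_nonneg (a := (x : ℤ) ^ i *
        (y : ℤ) ^ j * (z : ℤ) ^ n) (by positivity)]
    rw [e1]
    refine mul_le_mul (hG i j n hi hj hn) ?_ (by positivity) hN
    calc (x : ℤ) ^ i * (y : ℤ) ^ j * (z : ℤ) ^ n ≤ (X : ℤ) ^ i * (X : ℤ) ^ j * (X : ℤ) ^ n := by
          gcongr
      _ = (X : ℤ) ^ (i + j + n) := by rw [pow_add, pow_add]
      _ ≤ (X : ℤ) ^ (3 * r) := pow_le_pow_right₀ hX' (by omega)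
  refine h1.trans (le_of_eq ?_)
  simp only [sum_const, card_range, nsmul_eq_mul]
  ring

private theorem jyz_bound (m l r h E A X : ℕ) (be ga : ℤ) (G : ℕ → ℕ → ℕ → ℤ) (hX : 1 ≤ X)
    (hm : m ≤ E) (hl : l ≤ E) (hbe : |be| ≤ (X : ℤ) ^ A) (hga : |ga| ≤ (X : ℤ) ^ A)
    (hG : ∀ i j n, |G i j n| ≤ (X : ℤ) ^ h) (x y z : ℕ) (hx : x ≤ X) (hy : y ≤ X) (hz : z ≤ X) :
    |Jyz m l r be ga G x y z| ≤ 2 * E * (r : ℤ) ^ 4 * (X : ℤ) ^ (A + E + h + 3 * r) := by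
  have hX' : (1 : ℤ) ≤ X := by exact_mod_cast hX
  have h3 : |ev3 r (d3 G) x y z| ≤ (r : ℤ) ^ 3 * ((r * (X : ℤ) ^ h) * (X : ℤ) ^ (3 * r)) := by
    refine ev3_bound r X hX _ (by positivity) _ (fun i j n _ _ hn => ?_) x y z hx hy hz
    unfold d3
    rw [abs_mul, abs_of_nonneg (by positivity)]
    have : (n : ℤ) + 1 ≤ r := by exact_mod_cast hn
    exact mul_le_mul this (hG _ _ _) (abs_nonneg _) (by positivity)
  have h2 : |ev3 r (d2 G) x y z| ≤ (r : ℤ) ^ 3 * ((r * (X : ℤ) ^ h) * (X : ℤ) ^ (3 * r)) := by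
    refine ev3_bound r X hX _ (by positivity) _ (fun i j n _ hj _ => ?_) x y z hx hy hz
    unfold d2
    rw [abs_mul, abs_of_nonneg (by positivity)]
    have : (j : ℤ) + 1 ≤ r := by exact_mod_cast hj
    exact mul_le_mul this (hG _ _ _) (abs_nonneg _) (by positivity)
  have hc : ∀ (m' y' : ℕ) (b : ℤ), m' ≤ E → |b| ≤ (X : ℤ) ^ A → y' ≤ X →
      |(m' : ℤ) * b * (y' : ℤ) ^ (m' - 1)| ≤ E * (X : ℤ) ^ A * (X : ℤ) ^ E := by
    intro m' y' b h1 hb hy'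
    rw [abs_mul, abs_mul, abs_of_nonneg (a := (m' : ℤ)) (by positivity),
      abs_of_nonneg (a := (y' : ℤ) ^ (m' - 1)) (by positivity)]
    calc (m' : ℤ) * |b| * (y' : ℤ) ^ (m' - 1) ≤ E * (X : ℤ) ^ A * (X : ℤ) ^ (m' - 1) := by
          gcongr
      _ ≤ E * (X : ℤ) ^ A * (X : ℤ) ^ E := by
          have := pow_le_pow_right₀ hX' (show m' - 1 ≤ E by omega)
          gcongr
  unfold Jyz
  have a1 := mul_le_mul (hc m y be hm hbe hy) h3 (abs_nonneg _) (by positivity)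
  have a2 := mul_le_mul (hc l z ga hl hga hz) h2 (abs_nonneg _) (by positivity)
  rw [← abs_mul] at a1 a2
  refine (abs_sub _ _).trans ((add_le_add a1 a2).trans (le_of_eq ?_))
  rw [pow_add, pow_add, pow_add]
  ring

private theorem part_count (r₂ E : ℕ) (hr₂ : 2 ≤ r₂) : ∃ K : ℕ, ∀ (k m l L X r q B : ℕ)
    (al be ga : ℤ) (G : ℕ → ℕ → ℕ → ℤ), 1 ≤ k → 1 ≤ m → 1 ≤ l → k ≤ E → m ≤ E → l ≤ E → 1 ≤ X →
    al ≠ 0 → Sup3 r G → q.Prime →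
    (r₂ * r₂).factorial * (X ^ (2 * (r₂ - 1))) ^ (r₂ * r₂) < q ^ (r₂ * r₂ * (r₂ * r₂ - 1) / 2) →
    K * X ^ (4 * r₂ + 1) * ((r₂ * r₂ * X ^ (2 * (r₂ - 1))) ^ (r₂ * r₂)) ^ 2 < L ^ (k - 1) →
    ∀ (S : Finset (ℕ × ℕ × ℕ)) (u : ℕ × ℕ × ℕ), (∀ P ∈ S, Pt k m l al be ga L X P ∧
      ev3 r G P.1 P.2.1 P.2.2 = 0 ∧ ¬ (q : ℤ) ∣ Jyz m l r be ga G P.1 P.2.1 P.2.2 ∧
      (P.1 % q, P.2.1 % q, P.2.2 % q) = u) →
    (∀ x, (S.filter fun P => P.1 = x).card ≤ B) → S.card ≤ K * B := by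
  classical
  obtain ⟨K, hK⟩ := curve_count r₂ E
  refine ⟨K, ?_⟩
  intro k m l L X r q B al be ga G hk hm hl hkE hmE hlE hX hal hG hq hsize hbig S u hS hB
  rcases S.eq_empty_or_nonempty with h | ⟨P0, hP0⟩
  · rw [h, card_empty]
    exact Nat.zero_le _
  obtain ⟨-, -, hJ, hu0⟩ := hS P0 hP0
  have hmod : ∀ a b : ℕ, a % q = b % q → (q : ℤ) ∣ (a : ℤ) - b := by
    intro a b hab
    have h4 : b ≡ a [MOD q] := hab.symm
    exact (Nat.modEq_iff_dvd.1 h4)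
  have hcl : ∀ P ∈ S, (q : ℤ) ∣ (P.1 : ℤ) - P0.1 ∧ (q : ℤ) ∣ (P.2.1 : ℤ) - P0.2.1 ∧
      (q : ℤ) ∣ (P.2.2 : ℤ) - P0.2.2 := by
    intro P hP
    have h1 := (hS P hP).2.2.2
    rw [← hu0] at h1
    have h2 := Prod.mk.inj h1
    have h3 := Prod.mk.inj h2.2
    exact ⟨hmod _ _ h2.1, hmod _ _ h3.1, hmod _ _ h3.2⟩
  have happ : ∀ N : ℕ, ∃ g₁ g₂ : Polynomial ℤ, ∀ P ∈ S,
      (q : ℤ) ^ (N + 1) ∣ (P.2.1 : ℤ) - g₁.eval ((P.1 : ℤ) - P0.1) ∧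
      (q : ℤ) ^ (N + 1) ∣ (P.2.2 : ℤ) - g₂.eval ((P.1 : ℤ) - P0.1) := by
    intro N
    obtain ⟨g₁, g₂, hg⟩ := approxC q hq k m l r al be ga G hG P0.1 P0.2.1 P0.2.2 hJ
      (ι := {P : ℕ × ℕ × ℕ // P ∈ S}) (fun P => (P.1.1 : ℤ)) (fun P => (P.1.2.1 : ℤ))
      (fun P => (P.1.2.2 : ℤ)) (fun P => (hS P.1 P.2).1.2.2.2.2.2) (fun P => (hS P.1 P.2).2.1)
      (fun P => (hcl P.1 P.2).1) (fun P => (hcl P.1 P.2).2.1) (fun P => (hcl P.1 P.2).2.2) N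
    exact ⟨g₁, g₂, fun P hP => hg ⟨P, hP⟩⟩
  obtain ⟨c, hc0, hc1, hc2, hc3⟩ := plane q hq r₂ X (by omega) hX hsize P0.1
    (S.image fun P => (P.1, P.2.2)) (by
      intro Q hQ
      obtain ⟨P, hP, rfl⟩ := mem_image.1 hQ
      exact ⟨(hS P hP).1.2.2.2.1.1, (hS P hP).1.2.2.2.1.2.2, (hcl P hP).1⟩) (by
      intro N
      obtain ⟨g₁, g₂, hg⟩ := happ N
      refine ⟨g₂, fun Q hQ => ?_⟩
      obtain ⟨P, hP, rfl⟩ := mem_image.1 hQ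
      exact (hg P hP).2)
  obtain ⟨c', hc0', hc1', hc2', hc3'⟩ := plane q hq r₂ X (by omega) hX hsize P0.1
    (S.image fun P => (P.1, P.2.1)) (by
      intro Q hQ
      obtain ⟨P, hP, rfl⟩ := mem_image.1 hQ
      exact ⟨(hS P hP).1.2.2.2.1.1, (hS P hP).1.2.2.2.1.2.1, (hcl P hP).1⟩) (by
      intro N
      obtain ⟨g₁, g₂, hg⟩ := happ N
      refine ⟨g₁, fun Q hQ => ?_⟩
      obtain ⟨P, hP, rfl⟩ := mem_image.1 hQ
      exact (hg P hP).1)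
  refine hK k m l L X al be ga hk hm hl hkE hmE hlE hX hal c c'
    ((r₂ * r₂ * X ^ (2 * (r₂ - 1))) ^ (r₂ * r₂)) hc1 hc1' hc0 hc0' ?_ ?_ hbig S B ?_ hB
  · intro i n
    rw [Nat.cast_pow]
    exact hc2 i n
  · intro i n
    rw [Nat.cast_pow]
    exact hc2' i n
  · intro P hP
    have h1 := hc3 (P.1, P.2.2) (mem_image.2 ⟨P, hP, rfl⟩)
    have h2 := hc3' (P.1, P.2.1) (mem_image.2 ⟨P, hP, rfl⟩)
    exact ⟨(hS P hP).1, h1, h2⟩

/-- points with given first coordinate -/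
private theorem fib_count (k m l L X B : ℕ) (al be ga : ℤ) (hal : al ≠ 0)
    (hB : ∀ g : ℤ, g ≠ 0 → ∀ S : Finset (ℕ × ℕ), (∀ z ∈ S, z.1.Prime ∧ z.2.Prime ∧ z.1 ≤ X ∧
      z.2 ≤ X ∧ be * (z.1 : ℤ) ^ m + ga * (z.2 : ℤ) ^ l = g) → S.card ≤ B)
    (S : Finset (ℕ × ℕ × ℕ)) (hS : ∀ P ∈ S, Pt k m l al be ga L X P) (x : ℕ) :
    (S.filter fun P => P.1 = x).card ≤ B := by
  classical
  by_cases hx : x = 0
  · have : (S.filter fun P => P.1 = x) = ∅ := by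
      rw [filter_eq_empty_iff]
      intro P hP h
      exact (hS P hP).1.1.ne_zero (h.trans hx)
    rw [this, card_empty]
    exact Nat.zero_le _
  · have h1 := hB (-(al * (x : ℤ) ^ k))
      (neg_ne_zero.2 (mul_ne_zero hal (pow_ne_zero _ (by exact_mod_cast hx))))
      ((S.filter fun P => P.1 = x).image fun P => P.2) (by
        intro z hz
        obtain ⟨P, hP, rfl⟩ := mem_image.1 hz
        rw [mem_filter] at hP
        have h2 := hS P hP.1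
        have h3 := h2.2.2.2.2.2
        rw [hP.2] at h3
        exact ⟨h2.1.2.1, h2.1.2.2, h2.2.2.2.1.2.1, h2.2.2.2.1.2.2, by linarith⟩)
    rwa [card_image_of_injOn] at h1
    intro P hP Q hQ h
    rw [mem_coe, mem_filter] at hP hQ
    exact Prod.ext (hP.2.trans hQ.2.symm) h

/-- the trivial bound -/
private theorem triv_count (k m l L X : ℕ) (al be ga : ℤ) (S : Finset (ℕ × ℕ × ℕ))
    (hS : ∀ P ∈ S, Pt k m l al be ga L X P) : S.card ≤ X ^ 3 := by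
  have h1 : S ⊆ (Icc 1 X) ×ˢ ((Icc 1 X) ×ˢ (Icc 1 X)) := by
    intro P hP
    have h := hS P hP
    rw [mem_product, mem_product, mem_Icc, mem_Icc, mem_Icc]
    exact ⟨⟨h.1.1.one_lt.le, h.2.2.2.1.1⟩, ⟨h.1.2.1.one_lt.le, h.2.2.2.1.2.1⟩,
      ⟨h.1.2.2.one_lt.le, h.2.2.2.1.2.2⟩⟩
  refine (card_le_card h1).trans (le_of_eq ?_)
  rw [card_product, card_product, Nat.card_Icc, Nat.add_sub_cancel]
  ring

end Good

theorem good_x (τ ξ : ℝ) (hτ : 0 < τ) (hξ : 0 < ξ) (r h : ℕ) : ∃ e₀ : ℕ, 2 ≤ e₀ ∧ ∀ E A : ℕ,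
    ∃ C : ℝ, 1 ≤ C ∧ ∀ (X L k m l : ℕ) (al be ga : ℤ), 1 ≤ X → (X : ℝ) ^ ξ ≤ L → e₀ ≤ k → k ≤ E →
    e₀ ≤ m → m ≤ E → e₀ ≤ l → l ≤ E → al ≠ 0 → be ≠ 0 → ga ≠ 0 → |al| ≤ (X : ℤ) ^ A →
    |be| ≤ (X : ℤ) ^ A → |ga| ≤ (X : ℤ) ^ A → ∀ G : ℕ → ℕ → ℕ → ℤ, Sup3 r G →
    (∀ i j n, |G i j n| ≤ (X : ℤ) ^ h) → ∀ T : Finset (ℕ × ℕ × ℕ),
    (∀ P ∈ T, Pt k m l al be ga L X P ∧ ev3 r G P.1 P.2.1 P.2.2 = 0 ∧
      Jyz m l r be ga G P.1 P.2.1 P.2.2 ≠ 0) → (T.card : ℝ) ≤ C * (X : ℝ) ^ τ := by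
  classical
  set r₂ : ℕ := ⌈32 / τ⌉₊ + 2 with hr₂
  have hr2 : 2 ≤ r₂ := by omega
  set e₁ : ℕ := 4 * r₂ + 1 + 2 * (r₂ - 1) * (r₂ * r₂) * 2 with he₁
  obtain ⟨eb, heb, hbp⟩ := PS.bp (τ / 2) (by positivity)
  refine ⟨max eb (⌈((e₁ : ℝ) + 1) / ξ⌉₊ + 1), le_max_of_le_left heb, fun E A => ?_⟩
  obtain ⟨C₀, hC₀, hbp⟩ := hbp E A
  obtain ⟨K, hK⟩ := Good.part_count r₂ E hr2
  set f : ℕ := (r₂ * r₂).factorial with hf
  have hf1 : 1 ≤ f := Nat.factorial_pos _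
  have hf2 : 2 ≤ f := by
    rw [hf]
    calc 2 = Nat.factorial 2 := rfl
      _ ≤ (r₂ * r₂).factorial := Nat.factorial_le (by nlinarith)
  set K₁ : ℕ := K * (r₂ * r₂) ^ (r₂ * r₂ * 2) with hK₁
  set D : ℕ := A + E + h + 3 * r with hD
  set t : ℕ := 1 + E + 4 * r + (r₂ + 1) * D with ht
  refine ⟨1 + (K₁ : ℝ) ^ 3 + K * C₀ * (2 ^ (t + 2) * f) ^ 4, ?_, ?_⟩
  · have : (0 : ℝ) ≤ (K₁ : ℝ) ^ 3 + K * C₀ * (2 ^ (t + 2) * f) ^ 4 := by positivity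
    linarith
  intro X L k m l al be ga hX hL hk hkE hm hmE hl hlE hal0 hbe0 hga0 hal hbe hga G hG hGb T hT
  have hX0 : (0 : ℝ) < X := by exact_mod_cast hX
  have hX1 : (1 : ℝ) ≤ X := by exact_mod_cast hX
  have hXτ : (1 : ℝ) ≤ (X : ℝ) ^ τ := Real.one_le_rpow hX1 hτ.le
  rcases Nat.lt_or_ge K₁ X with hXK | hXK
  swap
  · have h1 := Good.triv_count k m l L X al be ga T fun P hP => (hT P hP).1
    have h2 : (T.card : ℝ) ≤ (K₁ : ℝ) ^ 3 := by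
      exact_mod_cast h1.trans (Nat.pow_le_pow_left hXK 3)
    have h3 : (0 : ℝ) ≤ K * C₀ * (2 ^ (t + 2) * f) ^ 4 := by positivity
    calc (T.card : ℝ) ≤ (1 + (K₁ : ℝ) ^ 3 + K * C₀ * (2 ^ (t + 2) * f) ^ 4) * 1 := by linarith
      _ ≤ _ := by gcongr
  -- the size condition of `curve_count`
  have hke : ⌈((e₁ : ℝ) + 1) / ξ⌉₊ + 1 ≤ k := (le_max_right _ _).trans hk
  have hbig : K * X ^ (4 * r₂ + 1) * ((r₂ * r₂ * X ^ (2 * (r₂ - 1))) ^ (r₂ * r₂)) ^ 2 <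
      L ^ (k - 1) := by
    have h1 : K * X ^ (4 * r₂ + 1) * ((r₂ * r₂ * X ^ (2 * (r₂ - 1))) ^ (r₂ * r₂)) ^ 2 =
        K₁ * X ^ e₁ := by
      have h0 : ∀ a s u n : ℕ, K * X ^ a * ((s * X ^ u) ^ n) ^ 2 =
          K * s ^ (n * 2) * X ^ (a + u * n * 2) := by
        intro a s u n
        rw [pow_add, pow_mul X _ 2, pow_mul X u n, mul_pow s, mul_pow _ _ 2, pow_mul s n 2]
        ring
      rw [hK₁, he₁]
      exact h0 _ _ _ _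
    have h2 : K₁ * X ^ e₁ < X ^ (e₁ + 1) := by
      rw [pow_succ, mul_comm (X ^ e₁)]
      exact Nat.mul_lt_mul_of_pos_right hXK (by positivity)
    have h3 : X ^ (e₁ + 1) ≤ L ^ (k - 1) := by
      have h4 : (X : ℝ) ^ (e₁ + 1) ≤ (L : ℝ) ^ (k - 1) := by
        calc (X : ℝ) ^ (e₁ + 1) = (X : ℝ) ^ ((e₁ : ℝ) + 1) := by
              rw [← Real.rpow_natCast]
              push_cast
              rfl
          _ ≤ (X : ℝ) ^ (ξ * ((k - 1 : ℕ) : ℝ)) := by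
              apply Real.rpow_le_rpow_of_exponent_le hX1
              have h5 : ((e₁ : ℝ) + 1) / ξ ≤ ((k - 1 : ℕ) : ℝ) := by
                refine (Nat.le_ceil _).trans ?_
                exact_mod_cast (by omega : ⌈((e₁ : ℝ) + 1) / ξ⌉₊ ≤ k - 1)
              rw [div_le_iff₀ hξ] at h5
              linarith
          _ = ((X : ℝ) ^ ξ) ^ (k - 1) := by
              rw [Real.rpow_mul hX0.le, Real.rpow_natCast]
          _ ≤ (L : ℝ) ^ (k - 1) := pow_le_pow_left₀ (by positivity) hL _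
      exact_mod_cast h4
    omega
  -- the auxiliary primes
  set w : ℕ := ⌈(X : ℝ) ^ ((4 : ℝ) / ((r₂ : ℝ) + 1))⌉₊ with hw
  have hw1 : (X : ℝ) ^ ((4 : ℝ) / ((r₂ : ℝ) + 1)) ≤ w := Nat.le_ceil _
  have hX4 : (1 : ℝ) ≤ (X : ℝ) ^ ((4 : ℝ) / ((r₂ : ℝ) + 1)) :=
    Real.one_le_rpow hX1 (by positivity)
  have hw2 : (w : ℝ) ≤ 2 * (X : ℝ) ^ ((4 : ℝ) / ((r₂ : ℝ) + 1)) := by
    have := Nat.ceil_lt_add_one (a := (X : ℝ) ^ ((4 : ℝ) / ((r₂ : ℝ) + 1))) (by positivity)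
    rw [← hw] at this
    linarith
  have hw4 : X ^ 4 ≤ w ^ (r₂ + 1) := by
    have h4 : (X : ℝ) ^ 4 ≤ (w : ℝ) ^ (r₂ + 1) := by
      calc (X : ℝ) ^ 4 = ((X : ℝ) ^ ((4 : ℝ) / ((r₂ : ℝ) + 1))) ^ (r₂ + 1) := by
            rw [← Real.rpow_natCast ((X : ℝ) ^ ((4 : ℝ) / ((r₂ : ℝ) + 1))), ← Real.rpow_mul hX0.le]
            push_cast
            rw [div_mul_cancel₀ _ (by positivity)]
            norm_num
        _ ≤ (w : ℝ) ^ (r₂ + 1) := pow_le_pow_left₀ (by positivity) hw1 _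
    exact_mod_cast h4
  have hwpos : 1 ≤ w := by
    have : (1 : ℝ) ≤ w := hX4.trans hw1
    exact_mod_cast this
  have hex : ∀ P ∈ T, ∃ q : ℕ, q.Prime ∧ f * w < q ∧ q ≤ 2 ^ (t + 1) * (f * w) ∧
      ¬ (q : ℤ) ∣ Jyz m l r be ga G P.1 P.2.1 P.2.2 := by
    intro P hP
    obtain ⟨hP1, -, hP3⟩ := hT P hP
    have hb := Good.jyz_bound m l r h E A X be ga G hX hmE hlE hbe hga hGb P.1 P.2.1 P.2.2
      hP1.2.2.2.1.1 hP1.2.2.2.1.2.1 hP1.2.2.2.1.2.2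
    rw [← hD] at hb
    set J : ℤ := Jyz m l r be ga G P.1 P.2.1 P.2.2 with hJ
    have hn : J.natAbs ≤ 2 * E * r ^ 4 * X ^ D := by
      have h1 : ((J.natAbs : ℕ) : ℤ) ≤ ((2 * E * r ^ 4 * X ^ D : ℕ) : ℤ) := by
        rw [Int.natCast_natAbs]
        push_cast
        exact hb
      exact_mod_cast h1
    have hnt : J.natAbs < (f * w) ^ (t + 1) := by
      have a1 : X ^ D ≤ w ^ ((r₂ + 1) * D) := by
        rw [pow_mul w]
        exact Nat.pow_le_pow_left ((Nat.le_self_pow (by norm_num) X).trans hw4) _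
      have a2 : 2 * E * r ^ 4 < 2 ^ (1 + E + 4 * r + 1) := by
        have h5 : E < 2 ^ E := Nat.lt_two_pow_self
        have h6 : r < 2 ^ r := Nat.lt_two_pow_self
        calc 2 * E * r ^ 4 ≤ 2 * 2 ^ E * (2 ^ r) ^ 4 := by gcongr
          _ = 2 ^ (1 + E + 4 * r) := by
            rw [← pow_mul, pow_add, pow_add, pow_one, mul_comm r 4]
          _ < 2 ^ (1 + E + 4 * r + 1) := Nat.pow_lt_pow_right (by norm_num) (by omega)
      calc J.natAbs ≤ 2 * E * r ^ 4 * X ^ D := hn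
        _ ≤ 2 * E * r ^ 4 * w ^ ((r₂ + 1) * D) := Nat.mul_le_mul_left _ a1
        _ < 2 ^ (1 + E + 4 * r + 1) * w ^ ((r₂ + 1) * D) :=
            Nat.mul_lt_mul_of_pos_right a2 (by positivity)
        _ ≤ (f * w) ^ (1 + E + 4 * r + 1) * (f * w) ^ ((r₂ + 1) * D) := by
            gcongr
            · calc 2 ≤ f := hf2
                _ ≤ f * w := Nat.le_mul_of_pos_right _ hwpos
            · exact Nat.le_mul_of_pos_left _ hf1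
        _ = (f * w) ^ (t + 1) := by
            rw [← pow_add]
            congr 1
            omega
    obtain ⟨q, hq, hq1, hq2, hq3⟩ := PS.Bp.choose_prime (f * w) t J.natAbs
      (Nat.succ_le_of_lt (Nat.mul_pos hf1 hwpos)) (Int.natAbs_ne_zero.2 hP3) hnt
    exact ⟨q, hq, hq1, hq2, fun hd => hq3 (Int.natCast_dvd.1 hd)⟩
  choose! q hq using hex
  set B : ℕ := ⌊C₀ * (X : ℝ) ^ (τ / 2)⌋₊ with hB
  set M : ℕ := 2 ^ (t + 1) * (f * w) with hM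
  have hmeb : eb ≤ m := (le_max_left _ _).trans hm
  have hleb : eb ≤ l := (le_max_left _ _).trans hl
  have hkeb : eb ≤ k := (le_max_left _ _).trans hk
  have hfib : ∀ S : Finset (ℕ × ℕ × ℕ), S ⊆ T → ∀ x, (S.filter fun P => P.1 = x).card ≤ B := by
    intro S hS x
    refine Good.fib_count k m l L X B al be ga hal0 ?_ S (fun P hP => (hT P (hS hP)).1) x
    intro g hg S' hS'
    exact Nat.le_floor (hbp X m l hX hmeb hmE hleb hlE be ga g hbe0 hga0 hg hbe hga S' hS')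
  have c3 : T.card ≤ (K * B) *
      (T.image fun P => (q P, (P.1 % q P, P.2.1 % q P, P.2.2 % q P))).card := by
    refine card_le_mul_card_image _ _ fun b hb => ?_
    obtain ⟨P₁, hP₁, hb₁⟩ := mem_image.1 hb
    have hq0 := hq P₁ hP₁
    have hbq : b.1 = q P₁ := (congrArg Prod.fst hb₁).symm
    rw [← hbq] at hq0
    refine hK k m l L X r b.1 B al be ga G (by omega) (by omega) (by omega) hkE hmE hlE hX hal0
      hG hq0.1 (PS.Bp.size_ineq r₂ w X f b.1 hr2 hX hw4 hq0.2.1) hbig _ b.2 ?_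
      (hfib _ (filter_subset _ _))
    intro P hP
    rw [mem_filter] at hP
    obtain ⟨hP, hPb⟩ := hP
    have h1 : q P = b.1 := congrArg Prod.fst hPb
    have h2 : (P.1 % q P, P.2.1 % q P, P.2.2 % q P) = b.2 := congrArg Prod.snd hPb
    rw [h1] at h2
    have h3 := (hq P hP).2.2.2
    rw [h1] at h3
    exact ⟨(hT P hP).1, (hT P hP).2.1, h3, h2⟩
  have c4 : (T.image fun P => (q P, (P.1 % q P, P.2.1 % q P, P.2.2 % q P))).card ≤ M ^ 4 := by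
    have h1 : (T.image fun P => (q P, (P.1 % q P, P.2.1 % q P, P.2.2 % q P))) ⊆
        (Icc 1 M) ×ˢ ((range M) ×ˢ ((range M) ×ˢ (range M))) := by
      intro b hb
      obtain ⟨P, hP, rfl⟩ := mem_image.1 hb
      have h2 := hq P hP
      have h3 : ∀ a : ℕ, a % q P < M := fun a => (Nat.mod_lt a h2.1.pos).trans_le h2.2.2.1
      simp only [mem_product, mem_Icc, mem_range]
      exact ⟨⟨h2.1.one_lt.le, h2.2.2.1⟩, h3 _, h3 _, h3 _⟩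
    refine (card_le_card h1).trans (le_of_eq ?_)
    rw [card_product, card_product, card_product, Nat.card_Icc, Nat.add_sub_cancel, card_range]
    ring
  have c5 : T.card ≤ K * B * M ^ 4 := c3.trans (Nat.mul_le_mul_left _ c4)
  have c6 : (M : ℝ) ≤ 2 ^ (t + 2) * f * (X : ℝ) ^ ((4 : ℝ) / ((r₂ : ℝ) + 1)) := by
    rw [hM]
    push_cast
    calc (2 : ℝ) ^ (t + 1) * (f * w) ≤
          2 ^ (t + 1) * (f * (2 * (X : ℝ) ^ ((4 : ℝ) / ((r₂ : ℝ) + 1)))) := by gcongr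
      _ = 2 ^ (t + 2) * f * (X : ℝ) ^ ((4 : ℝ) / ((r₂ : ℝ) + 1)) := by ring
  have c7 : ((X : ℝ) ^ ((4 : ℝ) / ((r₂ : ℝ) + 1))) ^ 4 ≤ (X : ℝ) ^ (τ / 2) := by
    rw [← Real.rpow_natCast ((X : ℝ) ^ ((4 : ℝ) / ((r₂ : ℝ) + 1))), ← Real.rpow_mul hX0.le]
    apply Real.rpow_le_rpow_of_exponent_le hX1
    have h5 : 32 / τ ≤ r₂ := by
      have := Nat.le_ceil (32 / τ)
      rw [hr₂]
      push_cast
      linarith
    have h6 : 32 ≤ r₂ * τ := by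
      rw [div_le_iff₀ hτ] at h5
      exact h5
    push_cast
    rw [div_mul_eq_mul_div, div_le_iff₀ (by positivity)]
    nlinarith
  have c8 : (B : ℝ) ≤ C₀ * (X : ℝ) ^ (τ / 2) := Nat.floor_le (by positivity)
  have c9 : (M : ℝ) ^ 4 ≤ (2 ^ (t + 2) * f) ^ 4 * (X : ℝ) ^ (τ / 2) := by
    calc (M : ℝ) ^ 4 ≤ (2 ^ (t + 2) * f * (X : ℝ) ^ ((4 : ℝ) / ((r₂ : ℝ) + 1))) ^ 4 := by
          gcongr
      _ = (2 ^ (t + 2) * f) ^ 4 * ((X : ℝ) ^ ((4 : ℝ) / ((r₂ : ℝ) + 1))) ^ 4 := by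
          rw [mul_pow]
      _ ≤ (2 ^ (t + 2) * f) ^ 4 * (X : ℝ) ^ (τ / 2) := by gcongr
  have c10 : (T.card : ℝ) ≤ K * B * (M : ℝ) ^ 4 := by exact_mod_cast c5
  have c11 : (X : ℝ) ^ (τ / 2) * (X : ℝ) ^ (τ / 2) = (X : ℝ) ^ τ := by
    rw [← Real.rpow_add hX0]
    congr 1
    ring
  calc (T.card : ℝ) ≤ K * B * (M : ℝ) ^ 4 := c10
    _ ≤ K * (C₀ * (X : ℝ) ^ (τ / 2)) * ((2 ^ (t + 2) * f) ^ 4 * (X : ℝ) ^ (τ / 2)) := by
        gcongr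
    _ = K * C₀ * (2 ^ (t + 2) * f) ^ 4 * ((X : ℝ) ^ (τ / 2) * (X : ℝ) ^ (τ / 2)) := by ring
    _ = K * C₀ * (2 ^ (t + 2) * f) ^ 4 * (X : ℝ) ^ τ := by rw [c11]
    _ ≤ (1 + (K₁ : ℝ) ^ 3 + K * C₀ * (2 ^ (t + 2) * f) ^ 4) * (X : ℝ) ^ τ := by
        gcongr
        have : (0 : ℝ) ≤ 1 + (K₁ : ℝ) ^ 3 := by positivity
        linarith

end Pool.MP_a95293_nt.SF
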