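import Pool.Agent.Lib_MP_a95293_sf.Defs

/-!
# Piece SIZE: divisibility and size

PROOF of `weight_zero`.  Write `F = α x^k + β y^m + γ z^l = 0`.  The hypothesis `hstar` times `z`, with `γ z^l = - α x^k - β y^m`:
`α x^(k-1) [k z c_z + l x c_x] c₂_y = β y^(m-1) [m z c₂_x c_z - l y c_x c₂_y]` (here `z * z^(l-1) = z^l`, `x * x^(k-1) = x^k`,
`y * y^(m-1) = y^m`, exponents `≥ 1`).  `x` is a prime not dividing `β y`, so `x^(k-1)` divides `[m z c₂_x c_z - l y c_x c₂_y]`, whose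
absolute value is at most `2 E X (r^2 * r H X^(2r))^2 < L^(k-1) ≤ x^(k-1)` (`ev2_le`); so it is `0`, and
`[k z c_z + l x c_x] = 0` because `α, x, c₂_y ≠ 0`.  Finally `ev2 r (W k l c) x z = l x c_x + k z c_z` (`W_ev`; the support is in `[0,r)²`).
PROOF of `minor_ne`.  Suppose all three minors vanish.  `Jxy = 0`: `k α x^(k-1) G_y = m β y^(m-1) G_x`, so `x^(k-1)` divides
`m β y^(m-1) G_x`; `x` is prime, `x ∤ m` (`m < L ≤ x`, `m ≥ 1`), `x ∤ β`, `x ≠ y` prime: `x^(k-1) ∣ G_x`, and `|G_x| < L^(k-1)`, so `G_x = 0`; then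
`G_y = 0` (`k, α, x ≠ 0`), and `Jxz = 0` gives `G_z = 0`.
-/

set_option autoImplicit false

namespace Pool.MP_a95293_nt.SF

open Finset

theorem ev2_le (r : ℕ) (c : ℕ → ℕ → ℤ) (H : ℤ) (hH : ∀ i h, |c i h| ≤ H) (x z : ℤ) (X : ℕ)
    (hX : 1 ≤ X) (hx : |x| ≤ X) (hz : |z| ≤ X) : |ev2 r c x z| ≤ (r : ℤ) ^ 2 * H * (X : ℤ) ^ (2 * r) := by
  have hX' : (1 : ℤ) ≤ X := by exact_mod_cast hX
  have hH0 : 0 ≤ H := (abs_nonneg _).trans (hH 0 0)
  have hterm : ∀ i ∈ range r, ∀ h ∈ range r, |c i h * x ^ i * z ^ h| ≤ H * (X : ℤ) ^ (2 * r) := by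
    intro i hi h hh
    rw [mem_range] at hi hh
    rw [abs_mul, abs_mul, abs_pow, abs_pow]
    calc |c i h| * |x| ^ i * |z| ^ h ≤ H * (X : ℤ) ^ i * (X : ℤ) ^ h := by
          gcongr
          exact hH i h
      _ = H * (X : ℤ) ^ (i + h) := by rw [pow_add]; ring
      _ ≤ H * (X : ℤ) ^ (2 * r) := by
          apply mul_le_mul_of_nonneg_left _ hH0
          exact pow_le_pow_right₀ hX' (by omega)
  unfold ev2
  calc |∑ i ∈ range r, ∑ h ∈ range r, c i h * x ^ i * z ^ h|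
      ≤ ∑ i ∈ range r, |∑ h ∈ range r, c i h * x ^ i * z ^ h| := abs_sum_le_sum_abs _ _
    _ ≤ ∑ i ∈ range r, ∑ h ∈ range r, |c i h * x ^ i * z ^ h| :=
        sum_le_sum (fun i _ => abs_sum_le_sum_abs _ _)
    _ ≤ ∑ _i ∈ range r, ∑ _h ∈ range r, H * (X : ℤ) ^ (2 * r) :=
        sum_le_sum (fun i hi => sum_le_sum (fun h hh => hterm i hi h hh))
    _ = (r : ℤ) ^ 2 * H * (X : ℤ) ^ (2 * r) := by
        simp only [sum_const, card_range, nsmul_eq_mul]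
        ring

theorem ev3_le (r : ℕ) (G : ℕ → ℕ → ℕ → ℤ) (H : ℤ) (hH : ∀ i j h, |G i j h| ≤ H) (x y z : ℤ)
    (X : ℕ) (hX : 1 ≤ X) (hx : |x| ≤ X) (hy : |y| ≤ X) (hz : |z| ≤ X) :
    |ev3 r G x y z| ≤ (r : ℤ) ^ 3 * H * (X : ℤ) ^ (3 * r) := by
  have hX' : (1 : ℤ) ≤ X := by exact_mod_cast hX
  have hH0 : 0 ≤ H := (abs_nonneg _).trans (hH 0 0 0)
  have hterm : ∀ i ∈ range r, ∀ j ∈ range r, ∀ h ∈ range r,
      |G i j h * x ^ i * y ^ j * z ^ h| ≤ H * (X : ℤ) ^ (3 * r) := by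
    intro i hi j hj h hh
    rw [mem_range] at hi hj hh
    rw [abs_mul, abs_mul, abs_mul, abs_pow, abs_pow, abs_pow]
    calc |G i j h| * |x| ^ i * |y| ^ j * |z| ^ h
        ≤ H * (X : ℤ) ^ i * (X : ℤ) ^ j * (X : ℤ) ^ h := by
          gcongr
          exact hH i j h
      _ = H * (X : ℤ) ^ (i + j + h) := by rw [pow_add, pow_add]; ring
      _ ≤ H * (X : ℤ) ^ (3 * r) := by
          apply mul_le_mul_of_nonneg_left _ hH0
          exact pow_le_pow_right₀ hX' (by omega)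
  unfold ev3
  calc |∑ i ∈ range r, ∑ j ∈ range r, ∑ h ∈ range r, G i j h * x ^ i * y ^ j * z ^ h|
      ≤ ∑ i ∈ range r, |∑ j ∈ range r, ∑ h ∈ range r, G i j h * x ^ i * y ^ j * z ^ h| :=
        abs_sum_le_sum_abs _ _
    _ ≤ ∑ i ∈ range r, ∑ j ∈ range r, |∑ h ∈ range r, G i j h * x ^ i * y ^ j * z ^ h| :=
        sum_le_sum (fun i _ => abs_sum_le_sum_abs _ _)
    _ ≤ ∑ i ∈ range r, ∑ j ∈ range r, ∑ h ∈ range r, |G i j h * x ^ i * y ^ j * z ^ h| :=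
        sum_le_sum (fun i _ => sum_le_sum (fun j _ => abs_sum_le_sum_abs _ _))
    _ ≤ ∑ _i ∈ range r, ∑ _j ∈ range r, ∑ _h ∈ range r, H * (X : ℤ) ^ (3 * r) :=
        sum_le_sum (fun i hi => sum_le_sum (fun j hj => sum_le_sum (fun h hh => hterm i hi j hj h hh)))
    _ = (r : ℤ) ^ 3 * H * (X : ℤ) ^ (3 * r) := by
        simp only [sum_const, card_range, nsmul_eq_mul]
        ring

private lemma size_shift (r : ℕ) (f : ℕ → ℤ) (h0 : f 0 = 0) (hr : f r = 0) :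
    ∑ i ∈ range r, f (i + 1) = ∑ i ∈ range r, f i := by
  have h1 := sum_range_succ' f r
  have h2 := sum_range_succ f r
  rw [h0, add_zero] at h1
  rw [hr, add_zero] at h2
  rw [← h1, h2]

theorem W_ev (r k l : ℕ) (c : ℕ → ℕ → ℤ) (hc : Sup2 r c) (x z : ℤ) :
    ev2 r (W k l c) x z = l * x * ev2 r (dx c) x z + k * z * ev2 r (dz c) x z := by
  have hz0 : ∀ i h, r ≤ i ∨ r ≤ h → c i h = 0 := by
    intro i h hih
    by_contra hne
    have := hc i h hne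
    omega
  have h1 : (l : ℤ) * x * ev2 r (dx c) x z =
      ∑ h ∈ range r, ∑ i ∈ range r, ((l * i : ℕ) : ℤ) * c i h * x ^ i * z ^ h := by
    unfold ev2 dx
    rw [sum_comm, mul_sum]
    refine sum_congr rfl (fun h _ => ?_)
    have := size_shift r (fun i => ((l * i : ℕ) : ℤ) * c i h * x ^ i * z ^ h) (by simp)
      (by simp [hz0 r h (Or.inl le_rfl)])
    rw [← this, mul_sum]
    refine sum_congr rfl (fun i _ => ?_)
    push_cast
    ring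
  have h2 : (k : ℤ) * z * ev2 r (dz c) x z =
      ∑ i ∈ range r, ∑ h ∈ range r, ((k * h : ℕ) : ℤ) * c i h * x ^ i * z ^ h := by
    unfold ev2 dz
    rw [mul_sum]
    refine sum_congr rfl (fun i _ => ?_)
    have := size_shift r (fun h => ((k * h : ℕ) : ℤ) * c i h * x ^ i * z ^ h) (by simp)
      (by simp [hz0 i r (Or.inr le_rfl)])
    rw [← this, mul_sum]
    refine sum_congr rfl (fun h _ => ?_)
    push_cast
    ring
  rw [h1, h2, sum_comm, ← sum_add_distrib]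
  unfold ev2 W
  refine sum_congr rfl (fun i _ => ?_)
  rw [← sum_add_distrib]
  refine sum_congr rfl (fun h _ => ?_)
  push_cast
  ring

private lemma size_dx (r : ℕ) (c : ℕ → ℕ → ℤ) (hc : Sup2 r c) (H : ℕ) (hH : ∀ i h, |c i h| ≤ H) :
    ∀ i h, |dx c i h| ≤ ((r * H : ℕ) : ℤ) := by
  intro i h
  unfold dx
  by_cases h0 : c (i + 1) h = 0
  · rw [h0]; simp; positivity
  · have h1 := (hc _ _ h0).1
    rw [abs_mul]
    have h2 : |((i : ℤ) + 1)| ≤ r := by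
      rw [abs_of_nonneg (by positivity)]
      exact_mod_cast h1.le
    push_cast
    exact mul_le_mul h2 (hH _ _) (abs_nonneg _) (by positivity)

private lemma size_dz (r : ℕ) (c : ℕ → ℕ → ℤ) (hc : Sup2 r c) (H : ℕ) (hH : ∀ i h, |c i h| ≤ H) :
    ∀ i h, |dz c i h| ≤ ((r * H : ℕ) : ℤ) := by
  intro i h
  unfold dz
  by_cases h0 : c i (h + 1) = 0
  · rw [h0]; simp; positivity
  · have h1 := (hc _ _ h0).2
    rw [abs_mul]
    have h2 : |((h : ℤ) + 1)| ≤ r := by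
      rw [abs_of_nonneg (by positivity)]
      exact_mod_cast h1.le
    push_cast
    exact mul_le_mul h2 (hH _ _) (abs_nonneg _) (by positivity)

private lemma size_coprime (x y : ℕ) (hx : x.Prime) (hy : y.Prime) (hxy : x ≠ y) (be : ℤ)
    (hb : ¬ (x : ℤ) ∣ be) (n e : ℕ) : IsCoprime ((x : ℤ) ^ n) (be * (y : ℤ) ^ e) := by
  have hxp : Prime (x : ℤ) := Nat.prime_iff_prime_int.mp hx
  have h1 : IsCoprime (x : ℤ) be := (hxp.coprime_iff_not_dvd).mpr hb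
  have h2 : IsCoprime (x : ℤ) (y : ℤ) := by
    rw [Nat.isCoprime_iff_coprime]
    exact (Nat.coprime_primes hx hy).mpr hxy
  exact (h1.mul_right h2.pow_right).pow_left

theorem weight_zero (r E k m l L X : ℕ) (al be ga : ℤ) (hk : 1 ≤ k) (hm : 1 ≤ m) (hl : 1 ≤ l)
    (hkE : k ≤ E) (hmE : m ≤ E) (hlE : l ≤ E) (hal : al ≠ 0) (c c₂ : ℕ → ℕ → ℤ) (hc : Sup2 r c)
    (hc₂ : Sup2 r c₂) (H : ℕ) (hH : ∀ i h, |c i h| ≤ H) (hH₂ : ∀ i h, |c₂ i h| ≤ H)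
    (hsize : 2 * E * X * (r ^ 3 * H * X ^ (2 * r)) ^ 2 < L ^ (k - 1))
    (P : ℕ × ℕ × ℕ) (hP : Pt k m l al be ga L X P) (hy0 : ev2 r (dz c₂) P.1 P.2.1 ≠ 0)
    (hstar : k * al * (P.1 : ℤ) ^ (k - 1) * ev2 r (dz c) P.1 P.2.2 * ev2 r (dz c₂) P.1 P.2.1 -
        m * be * (P.2.1 : ℤ) ^ (m - 1) * ev2 r (dx c₂) P.1 P.2.1 * ev2 r (dz c) P.1 P.2.2 -
        l * ga * (P.2.2 : ℤ) ^ (l - 1) * ev2 r (dx c) P.1 P.2.2 * ev2 r (dz c₂) P.1 P.2.1 = 0) :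
    ev2 r (W k l c) P.1 P.2.2 = 0 := by
  obtain ⟨⟨hpx, hpy, hpz⟩, ⟨hxy, hxz, hyz⟩, ⟨hLx, hLy, hLz⟩, ⟨hxX, hyX, hzX⟩, ⟨hdx, hdy, hdz⟩, hF⟩ := hP
  obtain ⟨x, y, z⟩ := P
  simp only at *
  have hX : 1 ≤ X := hpx.one_lt.le.trans hxX
  have hxa : |(x : ℤ)| ≤ X := by rw [abs_of_nonneg (by positivity)]; exact_mod_cast hxX
  have hya : |(y : ℤ)| ≤ X := by rw [abs_of_nonneg (by positivity)]; exact_mod_cast hyX
  have hza : |(z : ℤ)| ≤ X := by rw [abs_of_nonneg (by positivity)]; exact_mod_cast hzX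
  set B : ℤ := (r : ℤ) ^ 3 * H * (X : ℤ) ^ (2 * r) with hB
  have hB0 : 0 ≤ B := by positivity
  have hBe : ∀ c : ℕ → ℕ → ℤ, (∀ i h, |c i h| ≤ ((r * H : ℕ) : ℤ)) → ∀ u v : ℤ, |u| ≤ X → |v| ≤ X →
      |ev2 r c u v| ≤ B := by
    intro c' hc' u v hu hv
    refine (ev2_le r c' _ hc' u v X hX hu hv).trans (le_of_eq ?_)
    rw [hB]; push_cast; ring
  have b1 := hBe _ (size_dz r c hc H hH) x z hxa hza
  have b2 := hBe _ (size_dx r c hc H hH) x z hxa hza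
  have b3 := hBe _ (size_dz r c₂ hc₂ H hH₂) x y hxa hya
  have b4 := hBe _ (size_dx r c₂ hc₂ H hH₂) x y hxa hya
  rw [W_ev r k l c hc]
  set cz := ev2 r (dz c) x z
  set cx := ev2 r (dx c) x z
  set c2y := ev2 r (dz c₂) x y
  set c2x := ev2 r (dx c₂) x y
  have px : (x : ℤ) ^ k = x * (x : ℤ) ^ (k - 1) := by
    rw [← pow_succ']; congr 1; omega
  have py : (y : ℤ) ^ m = y * (y : ℤ) ^ (m - 1) := by
    rw [← pow_succ']; congr 1; omega
  have pz : (z : ℤ) ^ l = z * (z : ℤ) ^ (l - 1) := by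
    rw [← pow_succ']; congr 1; omega
  rw [px, py, pz] at hF
  have key : al * (x : ℤ) ^ (k - 1) * c2y * (l * x * cx + k * z * cz) =
      (be * (y : ℤ) ^ (m - 1)) * (m * z * c2x * cz - l * y * cx * c2y) := by
    linear_combination (z : ℤ) * hstar + (l : ℤ) * cx * c2y * hF
  have hdvd : (x : ℤ) ^ (k - 1) ∣ (m * z * c2x * cz - l * y * cx * c2y) := by
    have hb : ¬ (x : ℤ) ∣ be := fun h => hdx (Dvd.dvd.mul_right h ga)
    have hcop := size_coprime x y hpx hpy hxy be hb (k - 1) (m - 1)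
    refine hcop.dvd_of_dvd_mul_left ?_
    rw [← key]
    exact ⟨al * c2y * (l * x * cx + k * z * cz), by ring⟩
  have hQ : |(m : ℤ) * z * c2x * cz - l * y * cx * c2y| < (x : ℤ) ^ (k - 1) := by
    have hE1 : (m : ℤ) ≤ E := by exact_mod_cast hmE
    have hE2 : (l : ℤ) ≤ E := by exact_mod_cast hlE
    have t1 : |(m : ℤ) * z * c2x * cz| ≤ E * X * B * B := by
      rw [abs_mul, abs_mul, abs_mul, abs_of_nonneg (show (0 : ℤ) ≤ m by positivity)]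
      gcongr
    have t2 : |(l : ℤ) * y * cx * c2y| ≤ E * X * B * B := by
      rw [abs_mul, abs_mul, abs_mul, abs_of_nonneg (show (0 : ℤ) ≤ l by positivity)]
      gcongr
    have t3 : (2 * E * X * B ^ 2 : ℤ) < (L : ℤ) ^ (k - 1) := by
      rw [hB]; exact_mod_cast hsize
    have t4 : (L : ℤ) ^ (k - 1) ≤ (x : ℤ) ^ (k - 1) := by
      have : (L : ℤ) ≤ x := by exact_mod_cast hLx
      gcongr
    calc |(m : ℤ) * z * c2x * cz - l * y * cx * c2y|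
        ≤ |(m : ℤ) * z * c2x * cz| + |(l : ℤ) * y * cx * c2y| := abs_sub _ _
      _ ≤ E * X * B * B + E * X * B * B := add_le_add t1 t2
      _ = 2 * E * X * B ^ 2 := by ring
      _ < _ := t3.trans_le t4
  have hQ0 : (m : ℤ) * z * c2x * cz - l * y * cx * c2y = 0 := Int.eq_zero_of_abs_lt_dvd hdvd hQ
  rw [hQ0, mul_zero] at key
  have hx0 : (x : ℤ) ≠ 0 := by exact_mod_cast hpx.ne_zero
  have hne : al * (x : ℤ) ^ (k - 1) * c2y ≠ 0 := mul_ne_zero (mul_ne_zero hal (pow_ne_zero _ hx0)) hy0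
  exact (mul_eq_zero.mp key).resolve_left hne

private lemma size_d1 (r : ℕ) (G : ℕ → ℕ → ℕ → ℤ) (hG : Sup3 r G) (H : ℕ)
    (hH : ∀ i j h, |G i j h| ≤ H) : ∀ i j h, |d1 G i j h| ≤ ((r * H : ℕ) : ℤ) := by
  intro i j h
  unfold d1
  by_cases h0 : G (i + 1) j h = 0
  · rw [h0]; simp; positivity
  · have h1 := (hG _ _ _ h0).1
    rw [abs_mul]
    have h2 : |((i : ℤ) + 1)| ≤ r := by
      rw [abs_of_nonneg (by positivity)]
      exact_mod_cast h1.le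
    push_cast
    exact mul_le_mul h2 (hH _ _ _) (abs_nonneg _) (by positivity)

theorem minor_ne (r k m l L X : ℕ) (al be ga : ℤ) (hk : 1 ≤ k) (hm : 1 ≤ m) (hmL : m < L)
    (hal : al ≠ 0) (G : ℕ → ℕ → ℕ → ℤ) (H : ℕ) (hH : ∀ i j h, |G i j h| ≤ H)
    (hsize : r ^ 3 * (r * H) * X ^ (3 * r) < L ^ (k - 1)) (P : ℕ × ℕ × ℕ)
    (hP : Pt k m l al be ga L X P) (hG : Sup3 r G)
    (hgrad : ¬ (ev3 r (d1 G) P.1 P.2.1 P.2.2 = 0 ∧ ev3 r (d2 G) P.1 P.2.1 P.2.2 = 0 ∧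
      ev3 r (d3 G) P.1 P.2.1 P.2.2 = 0)) :
    Jyz m l r be ga G P.1 P.2.1 P.2.2 ≠ 0 ∨ Jxz k l r al ga G P.1 P.2.1 P.2.2 ≠ 0 ∨
      Jxy k m r al be G P.1 P.2.1 P.2.2 ≠ 0 := by
  by_contra hcon
  push Not at hcon
  obtain ⟨-, h2, h3⟩ := hcon
  obtain ⟨⟨hpx, hpy, hpz⟩, ⟨hxy, hxz, hyz⟩, ⟨hLx, hLy, hLz⟩, ⟨hxX, hyX, hzX⟩, ⟨hdx, hdy, hdz⟩, hF⟩ := hP
  obtain ⟨x, y, z⟩ := P
  simp only at *
  unfold Jxz at h2
  unfold Jxy at h3
  have hX : 1 ≤ X := hpx.one_lt.le.trans hxX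
  have hxa : |(x : ℤ)| ≤ X := by rw [abs_of_nonneg (by positivity)]; exact_mod_cast hxX
  have hya : |(y : ℤ)| ≤ X := by rw [abs_of_nonneg (by positivity)]; exact_mod_cast hyX
  have hza : |(z : ℤ)| ≤ X := by rw [abs_of_nonneg (by positivity)]; exact_mod_cast hzX
  have bx := ev3_le r (d1 G) _ (size_d1 r G hG H hH) x y z X hX hxa hya hza
  set Gx := ev3 r (d1 G) x y z
  set Gy := ev3 r (d2 G) x y z
  set Gz := ev3 r (d3 G) x y z
  have hx0 : (x : ℤ) ≠ 0 := by exact_mod_cast hpx.ne_zero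
  have hk0 : (k : ℤ) ≠ 0 := by exact_mod_cast (by omega : k ≠ 0)
  have hne : (k : ℤ) * al * (x : ℤ) ^ (k - 1) ≠ 0 :=
    mul_ne_zero (mul_ne_zero hk0 hal) (pow_ne_zero _ hx0)
  have hb : ¬ (x : ℤ) ∣ be := fun h => hdx (Dvd.dvd.mul_right h ga)
  have hmx : ¬ (x : ℤ) ∣ (m : ℤ) := by
    intro h
    have := Nat.le_of_dvd (by omega) (Int.natCast_dvd_natCast.mp h)
    omega
  have hmb : ¬ (x : ℤ) ∣ (m : ℤ) * be := by
    intro h
    rcases (Nat.prime_iff_prime_int.mp hpx).dvd_or_dvd h with h' | h'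
    · exact hmx h'
    · exact hb h'
  have hcop := size_coprime x y hpx hpy hxy ((m : ℤ) * be) hmb (k - 1) (m - 1)
  have hdvd : (x : ℤ) ^ (k - 1) ∣ Gx := by
    refine hcop.dvd_of_dvd_mul_left ?_
    refine ⟨(k : ℤ) * al * Gy, ?_⟩
    linear_combination -h3
  have hlt : |Gx| < (x : ℤ) ^ (k - 1) := by
    refine lt_of_le_of_lt bx ?_
    have t3 : ((r : ℤ) ^ 3 * ((r * H : ℕ) : ℤ) * (X : ℤ) ^ (3 * r)) < (L : ℤ) ^ (k - 1) := by
      exact_mod_cast hsize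
    have t4 : (L : ℤ) ^ (k - 1) ≤ (x : ℤ) ^ (k - 1) := by
      have : (L : ℤ) ≤ x := by exact_mod_cast hLx
      gcongr
    exact t3.trans_le t4
  have hGx : Gx = 0 := Int.eq_zero_of_abs_lt_dvd hdvd hlt
  have hGy : Gy = 0 := by
    rw [hGx, mul_zero, sub_zero] at h3
    exact (mul_eq_zero.mp h3).resolve_left hne
  have hGz : Gz = 0 := by
    rw [hGx, mul_zero, sub_zero] at h2
    exact (mul_eq_zero.mp h2).resolve_left hne
  exact hgrad ⟨hGx, hGy, hGz⟩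

end Pool.MP_a95293_nt.SF
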