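import Pool.Agent.Lib_MP_a95293_sf.Defs

/-!
# Piece WH: a weighted homogeneous plane curve has few points with distinct prime coordinates

PROOF.  All `(i, h)` in the support satisfy `l i + k h = w`.  Let `g = gcd k l`, `k = g a`, `l = g b` (`a, b ≥ 1`, coprime).  Two elements
`(i, h), (i', h')` of the support satisfy `b (i - i') = a (h' - h)`, so `i - i'` is a multiple of `a`.  Let `(i₁, h₁)` be the element of the
support with the smallest `i` (so the largest `h`): every element is `(i₁ + a s, h₁ - b s)` with `s ≥ 0`, `s ≤ i < r`.  At a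
point: `0 = ev2 r c x z = x^i₁ z^h₁ ∑_s c_s (x^a / z^b)^s` over `ℚ`, `c_s = c (i₁ + a s) (h₁ - b s)` (`0` if `b s > h₁`), `c_0 ≠ 0`, so `x^a / z^b` is a
root of a nonzero polynomial of degree `< r`.  And `x^a / z^b` determines `(x, z)` for distinct primes: `x^a z'^b = x'^a z^b`
implies `x ∣ x'^a z^b`, so `x = x'` or `x = z`; so `x = x'` and `z = z'`.
-/

set_option autoImplicit false

namespace Pool.MP_a95293_nt.SF

open Finset

theorem wh (r k l w : ℕ) (hk : 1 ≤ k) (hl : 1 ≤ l) (c : ℕ → ℕ → ℤ) (hc : Sup2 r c)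
    (h0 : ∃ i h, c i h ≠ 0) (hw : ∀ i h, c i h ≠ 0 → l * i + k * h = w) (T : Finset (ℕ × ℕ))
    (hT : ∀ P ∈ T, P.1.Prime ∧ P.2.Prime ∧ P.1 ≠ P.2 ∧ ev2 r c P.1 P.2 = 0) : T.card ≤ r := by
  classical
  obtain ⟨g, a, b, hg, hab, hka, hlb⟩ : ∃ g a b : ℕ, 0 < g ∧ Nat.Coprime a b ∧ k = a * g ∧ l = b * g := by
    obtain ⟨a, b, hab, h1, h2⟩ := Nat.exists_coprime k l
    exact ⟨Nat.gcd k l, a, b, Nat.gcd_pos_of_pos_left _ hk, hab, h1, h2⟩
  have ha : 1 ≤ a := by
    rcases Nat.eq_zero_or_pos a with h | h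
    · subst h; omega
    · exact h
  have hb : 1 ≤ b := by
    rcases Nat.eq_zero_or_pos b with h | h
    · subst h; omega
    · exact h
  set i₁ := Nat.find h0 with hi₁
  obtain ⟨h₁, hh₁⟩ := Nat.find_spec h0
  have hmin : ∀ i h, c i h ≠ 0 → i₁ ≤ i := fun i h hne => Nat.find_min' h0 ⟨h, hne⟩
  have hstr : ∀ i h, c i h ≠ 0 → ∃ s, i = i₁ + a * s ∧ h + b * s = h₁ := by
    intro i h hne
    have e1 := hw i h hne
    have e2 := hw i₁ h₁ hh₁
    have e3 : b * i + a * h = b * i₁ + a * h₁ := by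
      have : g * (b * i + a * h) = g * (b * i₁ + a * h₁) := by
        have e4 : l * i + k * h = l * i₁ + k * h₁ := e1.trans e2.symm
        rw [hka, hlb] at e4
        linarith
      exact Nat.eq_of_mul_eq_mul_left hg this
    obtain ⟨d, hd⟩ := Nat.exists_eq_add_of_le (hmin i h hne)
    rw [hd] at e3
    have e5 : b * d + a * h = a * h₁ := by
      have : b * (i₁ + d) = b * i₁ + b * d := by ring
      omega
    have hdv : a ∣ b * d := by
      have h6 : a ∣ b * d + a * h := by rw [e5]; exact Dvd.intro _ rfl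
      exact (Nat.dvd_add_left (Dvd.intro _ rfl)).mp h6
    obtain ⟨s, hs⟩ := hab.dvd_of_dvd_mul_left hdv
    refine ⟨s, by rw [hd, hs], ?_⟩
    rw [hs] at e5
    have e7 : a * (h + b * s) = a * h₁ := by linarith
    exact Nat.eq_of_mul_eq_mul_left ha e7
  set p : Polynomial ℚ := ∑ i ∈ range r, ∑ h ∈ range r,
    Polynomial.monomial ((i - i₁) / a) ((c i h : ℤ) : ℚ) with hp
  have hp0 : p ≠ 0 := by
    intro h
    have h1 : p.coeff 0 = 0 := by rw [h]; simp
    rw [hp, Polynomial.finset_sum_coeff] at h1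
    have hb1 := hc i₁ h₁ hh₁
    rw [sum_eq_single i₁] at h1
    · rw [Polynomial.finset_sum_coeff, sum_eq_single h₁] at h1
      · rw [Polynomial.coeff_monomial] at h1
        simp at h1
        exact hh₁ h1
      · intro h _ hne
        rw [Polynomial.coeff_monomial]
        have : c i₁ h = 0 := by
          by_contra hcon
          obtain ⟨s, hs1, hs2⟩ := hstr i₁ h hcon
          have : a * s = 0 := by omega
          have hs0 : s = 0 := by
            rcases Nat.mul_eq_zero.mp this with h' | h'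
            · omega
            · exact h'
          rw [hs0] at hs2
          simp at hs2
          exact hne hs2
        simp [this]
      · intro hn
        exact absurd (mem_range.mpr hb1.2) hn
    · intro i _ hne
      rw [Polynomial.finset_sum_coeff]
      refine sum_eq_zero (fun h _ => ?_)
      rw [Polynomial.coeff_monomial]
      split_ifs with hif
      · have : c i h = 0 := by
          by_contra hcon
          obtain ⟨s, hs1, hs2⟩ := hstr i h hcon
          have : (i - i₁) / a = s := by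
            rw [hs1, Nat.add_sub_cancel_left]
            exact Nat.mul_div_cancel_left s ha
          rw [hif] at this
          rw [← this] at hs1
          simp at hs1
          exact hne hs1
        rw [this]; simp
      · rfl
    · intro hn
      exact absurd (mem_range.mpr hb1.1) hn
  have hpdeg : p.natDegree ≤ r := by
    rw [hp]
    refine Polynomial.natDegree_sum_le_of_forall_le _ _ (fun i hi => ?_)
    refine Polynomial.natDegree_sum_le_of_forall_le _ _ (fun h _ => ?_)
    refine (Polynomial.natDegree_monomial_le _).trans ?_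
    have : (i - i₁) / a ≤ i - i₁ := Nat.div_le_self _ _
    have := mem_range.mp hi
    omega
  have hroot : ∀ P ∈ T, p.eval (((P.1 : ℚ) ^ a) / ((P.2 : ℚ) ^ b)) = 0 := by
    intro P hP
    obtain ⟨hx, hz, hne, hev⟩ := hT P hP
    have hx0 : (P.1 : ℚ) ≠ 0 := by exact_mod_cast hx.ne_zero
    have hz0 : (P.2 : ℚ) ≠ 0 := by exact_mod_cast hz.ne_zero
    have h1 : ((ev2 r c P.1 P.2 : ℤ) : ℚ) = 0 := by rw [hev]; simp
    have h2 : ((ev2 r c P.1 P.2 : ℤ) : ℚ) =
        (P.1 : ℚ) ^ i₁ * (P.2 : ℚ) ^ h₁ * p.eval (((P.1 : ℚ) ^ a) / ((P.2 : ℚ) ^ b)) := by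
      rw [hp, Polynomial.eval_finset_sum, mul_sum]
      unfold ev2
      push_cast
      refine sum_congr rfl (fun i _ => ?_)
      rw [Polynomial.eval_finset_sum, mul_sum]
      refine sum_congr rfl (fun h _ => ?_)
      rw [Polynomial.eval_monomial]
      by_cases hcz : c i h = 0
      · rw [hcz]; simp
      · obtain ⟨s, hs1, hs2⟩ := hstr i h hcz
        have hdiv : (i - i₁) / a = s := by
          rw [hs1, Nat.add_sub_cancel_left]
          exact Nat.mul_div_cancel_left s ha
        rw [hdiv, hs1, ← hs2, div_pow, pow_add, pow_add, ← pow_mul, ← pow_mul]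
        field_simp
    rw [h2] at h1
    have h3 : (P.1 : ℚ) ^ i₁ * (P.2 : ℚ) ^ h₁ ≠ 0 :=
      mul_ne_zero (pow_ne_zero _ hx0) (pow_ne_zero _ hz0)
    exact (mul_eq_zero.mp h1).resolve_left h3
  have hinj : Set.InjOn (fun P : ℕ × ℕ => ((P.1 : ℚ) ^ a) / ((P.2 : ℚ) ^ b)) (T : Set (ℕ × ℕ)) := by
    intro P hP Q hQ hPQ
    obtain ⟨hx, hz, hne, -⟩ := hT P hP
    obtain ⟨hx', hz', hne', -⟩ := hT Q hQ
    have hz0 : (P.2 : ℚ) ^ b ≠ 0 := pow_ne_zero _ (by exact_mod_cast hz.ne_zero)
    have hz0' : (Q.2 : ℚ) ^ b ≠ 0 := pow_ne_zero _ (by exact_mod_cast hz'.ne_zero)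
    simp only at hPQ
    rw [div_eq_div_iff hz0 hz0'] at hPQ
    have h4 : P.1 ^ a * Q.2 ^ b = Q.1 ^ a * P.2 ^ b := by exact_mod_cast hPQ
    have h5 : P.1 ∣ Q.1 ^ a * P.2 ^ b := by
      rw [← h4]
      exact Dvd.dvd.mul_right (dvd_pow_self _ (by omega)) _
    have h6 : P.1 = Q.1 := by
      rcases (Nat.Prime.dvd_mul hx).mp h5 with h | h
      · exact (Nat.prime_dvd_prime_iff_eq hx hx').mp (hx.dvd_of_dvd_pow h)
      · exact absurd ((Nat.prime_dvd_prime_iff_eq hx hz).mp (hx.dvd_of_dvd_pow h)) hne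
    rw [h6] at h4
    have h7 : Q.2 ^ b = P.2 ^ b := Nat.eq_of_mul_eq_mul_left (pow_pos hx'.pos a) h4
    have h8 : Q.2 = P.2 := Nat.pow_left_injective (by omega : b ≠ 0) h7
    exact Prod.ext h6 h8.symm
  calc T.card ≤ p.roots.toFinset.card := by
        refine card_le_card_of_injOn (fun P : ℕ × ℕ => ((P.1 : ℚ) ^ a) / ((P.2 : ℚ) ^ b)) ?_ hinj
        intro P hP
        rw [mem_coe, Multiset.mem_toFinset, Polynomial.mem_roots hp0]
        exact hroot P hP
    _ ≤ Multiset.card p.roots := Multiset.toFinset_card_le _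
    _ ≤ p.natDegree := Polynomial.card_roots' p
    _ ≤ r := hpdeg

end Pool.MP_a95293_nt.SF
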