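import Pool.Agent.Lib_MP_a95293_sf.Dich
import Pool.Agent.Lib_MP_a95293_sf.Size
import Pool.Agent.Lib_MP_a95293_sf.Wh

/-!
# Piece IND: few points on the surface with `c (x, z) = 0` and `c₂ (x, y) = 0`

PROOF.  `B` bounds the number of points of `T` with given `x`.  Let `N` be the constant of `dich r E`.
Inner statement `Q n`: for all `H`, all `c` with `Sup2 r c`, `c ≠ 0`, `μ (c) ≤ n` where `μ (c) = (largest h in the support) + #support`,
`|c| ≤ H`, all `c₂` with `Sup2 r c₂`, `|c₂| ≤ H`, all `T` of points with `c = 0`, `c₂ = 0`, `c₂_y ≠ 0`, and `K_n X^(4r+1) H² < L^(k-1)`: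
`#T ≤ K_n B`.  Strong induction on `n`:
 * `c` has no monomial with `h ≥ 1`: `c = c (x) ≠ 0`, at most `r` values of `x` (roots of a nonzero polynomial of degree `< r`): `#T ≤ r B`;
 * otherwise split `T`: (a) points with `c_z = 0`: `dz c ≠ 0` has `μ (dz c) < μ (c)` (the support is the shift of the part with `h ≥ 1`), `|dz c| ≤ r H`;
   (b) points with `c_z ≠ 0`: `dich` and `weight_zero`: `x` is a root of `φ` (at most `N` values, `≤ N B` points) or `ev2 r (W k l c) x z = 0`.
   Let `w` be the weight `l i + k h` of some element of the support.  If all weights are equal to `w`: `wh` bounds the number of pairs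
   `(x, z)` by `r`, so at most `r` values of `x`, `≤ r B` points.  Otherwise `c' = W k l c - w c` (coefficients `(l i + k h - w) c i h`) is nonzero,
   its support is a proper subset of the support of `c`, `μ (c') < μ (c)`, `|c'| ≤ 2 E r H` (weights are `≤ 2 E r`), and `ev2 r c' x z = 0`.
 `K_n = N + 2 r + 1 + …` grows by a factor at most `(2 E r + 1)^2 * 3` in every step, `μ (c) ≤ r + r^2`.
Outer induction on the largest `h` in the support of `c₂` (variable `y`): if it is `0`, at most `r` values of `x`; points with `c₂_y = 0` satisfy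
`dz c₂ = 0` (`dz c₂ ≠ 0`, smaller degree, `|dz c₂| ≤ r H`); the others by the inner statement.
If `r = 0` there is no nonzero `c`.
-/

set_option autoImplicit false

namespace Pool.MP_a95293_nt.SF

open Finset

/-- the support -/
private def isupp (r : ℕ) (c : ℕ → ℕ → ℤ) : Finset (ℕ × ℕ) :=
  (range r ×ˢ range r).filter fun p => c p.1 p.2 ≠ 0

/-- the measure for the induction -/
private def imu (r : ℕ) (c : ℕ → ℕ → ℤ) : ℕ := ∑ p ∈ isupp r c, (p.2 + 1)

private lemma mem_isupp (r : ℕ) (c : ℕ → ℕ → ℤ) (hc : Sup2 r c) (p : ℕ × ℕ) :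
    p ∈ isupp r c ↔ c p.1 p.2 ≠ 0 := by
  unfold isupp
  rw [mem_filter, mem_product, mem_range, mem_range]
  constructor
  · intro h
    exact h.2
  · intro h
    exact ⟨hc _ _ h, h⟩

private lemma sup2_dz (r : ℕ) (c : ℕ → ℕ → ℤ) (hc : Sup2 r c) : Sup2 r (dz c) := by
  intro i h hne
  have h1 : c i (h + 1) ≠ 0 := by
    intro h0
    apply hne
    simp [dz, h0]
  have := hc i (h + 1) h1
  exact ⟨this.1, by omega⟩

private lemma dz_bound (r H : ℕ) (c : ℕ → ℕ → ℤ) (hc : Sup2 r c) (hH : ∀ i h, |c i h| ≤ H)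
    (i h : ℕ) : |dz c i h| ≤ (r : ℤ) * H := by
  by_cases h1 : c i (h + 1) = 0
  · simp only [dz, h1, mul_zero, abs_zero]
    positivity
  · have h2 := (hc i (h + 1) h1).2
    have h3 := hH i (h + 1)
    simp only [dz, abs_mul]
    have h4 : |((h : ℤ) + 1)| = (h : ℤ) + 1 := abs_of_nonneg (by positivity)
    rw [h4]
    have h5 : (h : ℤ) + 1 ≤ r := by exact_mod_cast h2.le
    exact mul_le_mul h5 h3 (abs_nonneg _) (by positivity)

private lemma imu_dz (r : ℕ) (c : ℕ → ℕ → ℤ) (hc : Sup2 r c) (hne : ∃ i h, dz c i h ≠ 0) :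
    imu r (dz c) < imu r c := by
  have hd := sup2_dz r c hc
  have hsub : (isupp r (dz c)).image (fun p => (p.1, p.2 + 1)) ⊆ isupp r c := by
    intro q hq
    obtain ⟨p, hp, rfl⟩ := mem_image.1 hq
    rw [mem_isupp r _ hd] at hp
    rw [mem_isupp r _ hc]
    intro h0
    apply hp
    simp only [dz]
    simp only at h0
    rw [h0, mul_zero]
  have hinj : Function.Injective (fun p : ℕ × ℕ => (p.1, p.2 + 1)) := by
    intro p q h
    simp only [Prod.mk.injEq, Nat.add_right_cancel_iff] at h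
    exact Prod.ext h.1 h.2
  have hnon : (isupp r (dz c)).Nonempty := by
    obtain ⟨i, h, hne⟩ := hne
    exact ⟨(i, h), (mem_isupp r _ hd _).2 hne⟩
  calc imu r (dz c) < ∑ p ∈ isupp r (dz c), (p.2 + 1 + 1) := by
        unfold imu
        exact Finset.sum_lt_sum_of_nonempty hnon (fun p _ => by omega)
    _ = ∑ q ∈ (isupp r (dz c)).image (fun p => (p.1, p.2 + 1)), (q.2 + 1) := by
        rw [Finset.sum_image (fun a _ b _ h => hinj h)]
    _ ≤ imu r c := by
        unfold imu
        exact Finset.sum_le_sum_of_subset hsub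

private lemma imu_le (r : ℕ) (c : ℕ → ℕ → ℤ) (hc : Sup2 r c) : imu r c ≤ r * r * r := by
  unfold imu
  calc ∑ p ∈ isupp r c, (p.2 + 1) ≤ ∑ p ∈ isupp r c, r := by
        apply Finset.sum_le_sum
        intro p hp
        have := hc _ _ ((mem_isupp r c hc p).1 hp)
        omega
    _ = (isupp r c).card * r := by rw [Finset.sum_const, smul_eq_mul]
    _ ≤ (r * r) * r := by
        apply Nat.mul_le_mul_right
        calc (isupp r c).card ≤ (range r ×ˢ range r).card := card_filter_le _ _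
          _ = r * r := by rw [card_product, card_range]

private lemma fib_card (T : Finset (ℕ × ℕ × ℕ)) (B N : ℕ)
    (hB : ∀ x, (T.filter fun P => P.1 = x).card ≤ B) (S : Finset ℕ) (hS : ∀ P ∈ T, P.1 ∈ S)
    (hN : S.card ≤ N) : T.card ≤ N * B := by
  have h1 : T.card ≤ B * S.card :=
    Finset.card_le_mul_card_image_of_maps_to (f := fun P : ℕ × ℕ × ℕ => P.1) hS B
      (fun b _ => hB b)
  calc T.card ≤ B * S.card := h1
    _ ≤ B * N := Nat.mul_le_mul_left _ hN
    _ = N * B := mul_comm _ _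

private lemma fib_filter (T : Finset (ℕ × ℕ × ℕ)) (B : ℕ)
    (hB : ∀ x, (T.filter fun P => P.1 = x).card ≤ B) (p : ℕ × ℕ × ℕ → Prop) [DecidablePred p]
    (x : ℕ) : ((T.filter p).filter fun P => P.1 = x).card ≤ B := by
  refine le_trans (card_le_card ?_) (hB x)
  intro P hP
  rw [mem_filter, mem_filter] at hP
  rw [mem_filter]
  exact ⟨hP.1.1, hP.2⟩

private lemma fib_root (T : Finset (ℕ × ℕ × ℕ)) (B N : ℕ)
    (hB : ∀ x, (T.filter fun P => P.1 = x).card ≤ B) (φ : Polynomial ℚ) (h0 : φ ≠ 0)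
    (hN : φ.natDegree ≤ N) (hT : ∀ P ∈ T, φ.eval (P.1 : ℚ) = 0) : T.card ≤ N * B := by
  refine fib_card T B N hB (T.image fun P => P.1) (fun P hP => mem_image_of_mem _ hP) ?_
  have h1 : ((T.image fun P => P.1).image (fun x : ℕ => (x : ℚ))) ⊆ φ.roots.toFinset := by
    intro q hq
    obtain ⟨x, hx, rfl⟩ := mem_image.1 hq
    obtain ⟨P, hP, rfl⟩ := mem_image.1 hx
    rw [Multiset.mem_toFinset, Polynomial.mem_roots h0]
    exact hT P hP
  have h2 : ((T.image fun P => P.1).image (fun x : ℕ => (x : ℚ))).card =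
      (T.image fun P => P.1).card := card_image_of_injective _ Nat.cast_injective
  rw [← h2]
  calc ((T.image fun P => P.1).image (fun x : ℕ => (x : ℚ))).card
      ≤ φ.roots.toFinset.card := card_le_card h1
    _ ≤ Multiset.card φ.roots := Multiset.toFinset_card_le _
    _ ≤ φ.natDegree := φ.card_roots'
    _ ≤ N := hN

private lemma base_case (r : ℕ) (c : ℕ → ℕ → ℤ) (hc : Sup2 r c) (hne : ∃ i h, c i h ≠ 0)
    (hz : ∀ i h, dz c i h = 0) (T : Finset (ℕ × ℕ × ℕ)) (B : ℕ)
    (hB : ∀ x, (T.filter fun P => P.1 = x).card ≤ B) (g : ℕ × ℕ × ℕ → ℤ)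
    (hT : ∀ P ∈ T, ev2 r c P.1 (g P) = 0) : T.card ≤ r * B := by
  have hc0 : ∀ i h, h ≠ 0 → c i h = 0 := by
    intro i h hh
    obtain ⟨h', rfl⟩ : ∃ h', h = h' + 1 := ⟨h - 1, by omega⟩
    have := hz i h'
    simp only [dz] at this
    rcases mul_eq_zero.1 this with h1 | h1
    · exfalso
      have : (0 : ℤ) < (h' : ℤ) + 1 := by positivity
      omega
    · exact h1
  obtain ⟨i₀, h₀, hne⟩ := hne
  have hh₀ : h₀ = 0 := by
    by_contra h
    exact hne (hc0 _ _ h)
  subst hh₀
  have hr := hc _ _ hne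
  set φ : Polynomial ℚ := ∑ i ∈ range r, Polynomial.monomial i (c i 0 : ℚ) with hφ
  have hcoef : φ.coeff i₀ = (c i₀ 0 : ℚ) := by
    rw [hφ, Polynomial.finsetSum_coeff, Finset.sum_eq_single i₀]
    · rw [Polynomial.coeff_monomial, if_pos rfl]
    · intro j _ hj
      rw [Polynomial.coeff_monomial, if_neg hj]
    · intro hj
      exact absurd (mem_range.2 hr.1) hj
  have hφ0 : φ ≠ 0 := by
    intro h0
    rw [h0, Polynomial.coeff_zero] at hcoef
    exact hne (by exact_mod_cast hcoef.symm)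
  refine fib_root T B r hB φ hφ0 ?_ ?_
  · rw [hφ]
    apply Polynomial.natDegree_sum_le_of_forall_le
    intro i hi
    exact le_trans (Polynomial.natDegree_monomial_le _) (mem_range.1 hi).le
  · intro P hP
    have h1 := hT P hP
    have h2 : ev2 r c P.1 (g P) = ∑ i ∈ range r, c i 0 * (P.1 : ℤ) ^ i := by
      unfold ev2
      apply Finset.sum_congr rfl
      intro i _
      rw [Finset.sum_eq_single 0]
      · rw [pow_zero, mul_one]
      · intro h _ hh
        rw [hc0 i h hh, zero_mul, zero_mul]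
      · intro h
        exact absurd (mem_range.2 hr.2) h
    rw [h2] at h1
    rw [hφ, Polynomial.eval_finsetSum]
    have h3 : ((∑ i ∈ range r, c i 0 * (P.1 : ℤ) ^ i : ℤ) : ℚ) = 0 := by
      rw [h1, Int.cast_zero]
    rw [← h3]
    push_cast
    apply Finset.sum_congr rfl
    intro i _
    rw [Polynomial.eval_monomial]

private lemma wh_fib (r k l w : ℕ) (hk : 1 ≤ k) (hl : 1 ≤ l) (c : ℕ → ℕ → ℤ) (hc : Sup2 r c)
    (h0 : ∃ i h, c i h ≠ 0) (hw : ∀ i h, c i h ≠ 0 → l * i + k * h = w)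
    (T : Finset (ℕ × ℕ × ℕ)) (B : ℕ) (hB : ∀ x, (T.filter fun P => P.1 = x).card ≤ B)
    (hT : ∀ P ∈ T, P.1.Prime ∧ P.2.2.Prime ∧ P.1 ≠ P.2.2 ∧ ev2 r c P.1 P.2.2 = 0) :
    T.card ≤ r * B := by
  have h1 : (T.image fun P => (P.1, P.2.2)).card ≤ r := by
    apply wh r k l w hk hl c hc h0 hw
    intro Q hQ
    obtain ⟨P, hP, rfl⟩ := mem_image.1 hQ
    exact hT P hP
  refine fib_card T B r hB ((T.image fun P => (P.1, P.2.2)).image Prod.fst) ?_
    (le_trans card_image_le h1)
  intro P hP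
  exact mem_image.2 ⟨(P.1, P.2.2), mem_image.2 ⟨P, hP, rfl⟩, rfl⟩

/-- the inner statement -/
private def QI (r E n K : ℕ) : Prop :=
  ∀ (k m l L X : ℕ) (al be ga : ℤ), 1 ≤ k → 1 ≤ m → 1 ≤ l →
    k ≤ E → m ≤ E → l ≤ E → 1 ≤ X → al ≠ 0 → ∀ (c c₂ : ℕ → ℕ → ℤ) (H : ℕ), Sup2 r c → Sup2 r c₂ →
    (∃ i h, c i h ≠ 0) → imu r c ≤ n → (∀ i h, |c i h| ≤ H) → (∀ i h, |c₂ i h| ≤ H) →
    K * X ^ (4 * r + 1) * H ^ 2 < L ^ (k - 1) → ∀ (T : Finset (ℕ × ℕ × ℕ)) (B : ℕ),
    (∀ P ∈ T, Pt k m l al be ga L X P ∧ ev2 r c P.1 P.2.2 = 0 ∧ ev2 r c₂ P.1 P.2.1 = 0 ∧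
      ev2 r (dz c₂) P.1 P.2.1 ≠ 0) →
    (∀ x, (T.filter fun P => P.1 = x).card ≤ B) → T.card ≤ K * B

private lemma size_mono (K K' M X r H L k : ℕ) (hK : K' * M ^ 2 ≤ K)
    (h : K * X ^ (4 * r + 1) * H ^ 2 < L ^ (k - 1)) :
    K' * X ^ (4 * r + 1) * (M * H) ^ 2 < L ^ (k - 1) := by
  refine lt_of_le_of_lt ?_ h
  calc K' * X ^ (4 * r + 1) * (M * H) ^ 2 = (K' * M ^ 2) * (X ^ (4 * r + 1) * H ^ 2) := by ring
    _ ≤ K * (X ^ (4 * r + 1) * H ^ 2) := Nat.mul_le_mul_right _ hK
    _ = K * X ^ (4 * r + 1) * H ^ 2 := by ring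

private lemma size_weight (K E X r H L k : ℕ) (hK : 2 * E * r ^ 6 ≤ K)
    (h : K * X ^ (4 * r + 1) * H ^ 2 < L ^ (k - 1)) :
    2 * E * X * (r ^ 3 * H * X ^ (2 * r)) ^ 2 < L ^ (k - 1) := by
  refine lt_of_le_of_lt ?_ h
  calc 2 * E * X * (r ^ 3 * H * X ^ (2 * r)) ^ 2
      = (2 * E * r ^ 6) * (X ^ (4 * r + 1) * H ^ 2) := by ring
    _ ≤ K * (X ^ (4 * r + 1) * H ^ 2) := Nat.mul_le_mul_right _ hK
    _ = K * X ^ (4 * r + 1) * H ^ 2 := by ring

private lemma bound_mul (M r H : ℕ) (hM : r ≤ M) (a : ℤ) (h : |a| ≤ (r : ℤ) * H) :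
    |a| ≤ ((M * H : ℕ) : ℤ) := by
  refine le_trans h ?_
  push_cast
  exact mul_le_mul_of_nonneg_right (by exact_mod_cast hM) (by positivity)

private lemma QI_step (r E n K' : ℕ) (hQ : QI r E n K') : ∃ K, QI r E (n + 1) K := by
  classical
  obtain ⟨N, hN⟩ := dich r E
  set M : ℕ := 2 * E * r + r + 1 with hM
  set K : ℕ := N + r + 2 * E * r ^ 6 + 2 * (K' * M ^ 2) with hK
  refine ⟨K, ?_⟩
  intro k m l L X al be ga hk hm hl hkE hmE hlE hX hal c c₂ H hc hc₂ hne hmu hH hH₂ hsize T B hT hB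
  have hM1 : 1 ≤ M := by omega
  have hKM : K' * M ^ 2 ≤ K := by omega
  have hK' : K' ≤ K' * M ^ 2 := Nat.le_mul_of_pos_right _ (by positivity)
  have hsz := size_mono K K' M X r H L k hKM hsize
  have hsw := size_weight K E X r H L k (by omega) hsize
  have hH₂' : ∀ i h, |c₂ i h| ≤ ((M * H : ℕ) : ℤ) := by
    intro i h
    refine le_trans (hH₂ i h) ?_
    exact_mod_cast Nat.le_mul_of_pos_left H hM1
  by_cases hdz : ∀ i h, dz c i h = 0
  · have h1 := base_case r c hc hne hdz T B hB (fun P => (P.2.2 : ℤ)) (fun P hP => (hT P hP).2.1)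
    exact le_trans h1 (Nat.mul_le_mul_right _ (by omega))
  · push Not at hdz
    -- points with `c_z = 0`
    set Ta := T.filter (fun P => ev2 r (dz c) P.1 P.2.2 = 0) with hTa
    set Tb := T.filter (fun P => ¬ ev2 r (dz c) P.1 P.2.2 = 0) with hTb
    have hsplit : Ta.card + Tb.card = T.card := Finset.card_filter_add_card_filter_not _
    have hA : Ta.card ≤ K' * B := by
      apply hQ k m l L X al be ga hk hm hl hkE hmE hlE hX hal (dz c) c₂ (M * H) (sup2_dz r c hc) hc₂
        hdz ?_ ?_ hH₂' hsz Ta B ?_ (fib_filter T B hB _)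
      · have := imu_dz r c hc hdz
        omega
      · intro i h
        exact bound_mul M r H (by omega) _ (dz_bound r H c hc hH i h)
      · intro P hP
        rw [hTa, mem_filter] at hP
        exact ⟨(hT P hP.1).1, hP.2, (hT P hP.1).2.2⟩
    obtain ⟨φ, hφ0, hφd, hφ⟩ := hN k m l hkE hmE hlE al be ga c c₂ hc hc₂
    set Tc := Tb.filter (fun P => φ.eval (P.1 : ℚ) = 0) with hTc
    set Td := Tb.filter (fun P => ¬ φ.eval (P.1 : ℚ) = 0) with hTd
    have hsplit₂ : Tc.card + Td.card = Tb.card := Finset.card_filter_add_card_filter_not _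
    have hBb := fib_filter T B hB (fun P => ¬ ev2 r (dz c) P.1 P.2.2 = 0)
    have hBd := fib_filter Tb B hBb (fun P => ¬ φ.eval (P.1 : ℚ) = 0)
    have hC : Tc.card ≤ N * B := by
      refine fib_root Tc B N (fib_filter Tb B hBb _) φ hφ0 hφd ?_
      intro P hP
      rw [hTc, mem_filter] at hP
      exact hP.2
    -- the remaining points
    have hW : ∀ P ∈ Td, Pt k m l al be ga L X P ∧ ev2 r c P.1 P.2.2 = 0 ∧
        ev2 r c₂ P.1 P.2.1 = 0 ∧ ev2 r (dz c₂) P.1 P.2.1 ≠ 0 ∧ ev2 r (W k l c) P.1 P.2.2 = 0 := by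
      intro P hP
      rw [hTd, mem_filter, hTb, mem_filter] at hP
      obtain ⟨⟨hPT, hPz⟩, hPφ⟩ := hP
      obtain ⟨hPt, hc0, hc₂0, hc₂y⟩ := hT P hPT
      refine ⟨hPt, hc0, hc₂0, hc₂y, ?_⟩
      have heq : al * (P.1 : ℤ) ^ k + be * (P.2.1 : ℤ) ^ m + ga * (P.2.2 : ℤ) ^ l = 0 :=
        hPt.2.2.2.2.2
      have hst := hφ P.1 P.2.1 P.2.2 hc0 hPz hc₂0 hc₂y heq
      have hst' : k * al * (P.1 : ℤ) ^ (k - 1) * ev2 r (dz c) P.1 P.2.2 *
          ev2 r (dz c₂) P.1 P.2.1 -
        m * be * (P.2.1 : ℤ) ^ (m - 1) * ev2 r (dx c₂) P.1 P.2.1 * ev2 r (dz c) P.1 P.2.2 -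
        l * ga * (P.2.2 : ℤ) ^ (l - 1) * ev2 r (dx c) P.1 P.2.2 *
          ev2 r (dz c₂) P.1 P.2.1 = 0 := by
        rcases hst with h | h
        · exfalso
          apply hPφ
          simpa using h
        · exact h
      exact weight_zero r E k m l L X al be ga hk hm hl hkE hmE hlE hal c c₂ hc hc₂ H hH hH₂ hsw P
        hPt hc₂y hst'
    have hD : Td.card ≤ r * B + K' * B := by
      obtain ⟨i₀, h₀, hne₀⟩ := hne
      set w : ℕ := l * i₀ + k * h₀ with hw
      by_cases hall : ∀ i h, c i h ≠ 0 → l * i + k * h = w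
      · have h1 := wh_fib r k l w hk hl c hc ⟨i₀, h₀, hne₀⟩ hall Td B hBd (by
          intro P hP
          obtain ⟨hPt, hc0, _⟩ := hW P hP
          exact ⟨hPt.1.1, hPt.1.2.2, hPt.2.1.2.1, hc0⟩)
        omega
      · push Not at hall
        obtain ⟨i₁, h₁, hne₁, hw₁⟩ := hall
        set c' : ℕ → ℕ → ℤ := fun i h => ((l * i + k * h : ℕ) - w : ℤ) * c i h with hc'
        have hsup' : Sup2 r c' := by
          intro i h hh
          apply hc i h
          intro h0
          apply hh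
          simp only [hc', h0, mul_zero]
        have hne' : ∃ i h, c' i h ≠ 0 := by
          refine ⟨i₁, h₁, ?_⟩
          simp only [hc']
          apply mul_ne_zero _ hne₁
          intro h0
          apply hw₁
          have : ((l * i₁ + k * h₁ : ℕ) : ℤ) = (w : ℤ) := by linarith
          exact_mod_cast this
        have hmu' : imu r c' ≤ n := by
          have hlt : imu r c' < imu r c := by
            unfold imu
            apply Finset.sum_lt_sum_of_subset (i := (i₀, h₀))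
            · intro p hp
              rw [mem_isupp r _ hsup'] at hp
              rw [mem_isupp r _ hc]
              intro h0
              apply hp
              simp only [hc', h0, mul_zero]
            · exact (mem_isupp r _ hc _).2 hne₀
            · rw [mem_isupp r _ hsup']
              simp only [hc', not_not]
              rw [hw, sub_self, zero_mul]
            · exact Nat.succ_pos _
            · intro j _ _
              exact Nat.zero_le _
          omega
        have hbd' : ∀ i h, |c' i h| ≤ ((M * H : ℕ) : ℤ) := by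
          intro i h
          by_cases hci : c i h = 0
          · simp only [hc', hci, mul_zero, abs_zero]
            positivity
          · have hih := hc i h hci
            have hih₀ := hc i₀ h₀ hne₀
            have hb1 : l * i + k * h ≤ 2 * E * r := by
              have h1 : l * i ≤ E * r := Nat.mul_le_mul hlE hih.1.le
              have h2 : k * h ≤ E * r := Nat.mul_le_mul hkE hih.2.le
              nlinarith
            have hb2 : w ≤ 2 * E * r := by
              have h1 : l * i₀ ≤ E * r := Nat.mul_le_mul hlE hih₀.1.le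
              have h2 : k * h₀ ≤ E * r := Nat.mul_le_mul hkE hih₀.2.le
              rw [hw]
              nlinarith
            have hb3 : |((l * i + k * h : ℕ) : ℤ) - (w : ℤ)| ≤ (M : ℤ) := by
              rw [abs_le]
              constructor
              · have : (w : ℤ) ≤ (M : ℤ) := by
                  have : w ≤ M := by omega
                  exact_mod_cast this
                have h0 : (0 : ℤ) ≤ ((l * i + k * h : ℕ) : ℤ) := by positivity
                linarith
              · have : ((l * i + k * h : ℕ) : ℤ) ≤ (M : ℤ) := by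
                  have : l * i + k * h ≤ M := by omega
                  exact_mod_cast this
                have h0 : (0 : ℤ) ≤ (w : ℤ) := by positivity
                linarith
            simp only [hc', abs_mul]
            push_cast at hb3 ⊢
            exact mul_le_mul hb3 (hH i h) (abs_nonneg _) (by positivity)
        have hev' : ∀ x z : ℤ, ev2 r c' x z = ev2 r (W k l c) x z - w * ev2 r c x z := by
          intro x z
          unfold ev2
          rw [Finset.mul_sum, ← Finset.sum_sub_distrib]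
          apply Finset.sum_congr rfl
          intro i _
          rw [Finset.mul_sum, ← Finset.sum_sub_distrib]
          apply Finset.sum_congr rfl
          intro h _
          simp only [hc', W]
          ring
        have h1 : Td.card ≤ K' * B := by
          apply hQ k m l L X al be ga hk hm hl hkE hmE hlE hX hal c' c₂ (M * H) hsup' hc₂
            hne' hmu' hbd' hH₂' hsz Td B ?_ hBd
          intro P hP
          obtain ⟨hPt, hc0, hc₂0, hc₂y, hWP⟩ := hW P hP
          refine ⟨hPt, ?_, hc₂0, hc₂y⟩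
          rw [hev', hWP, hc0, mul_zero, sub_zero]
        omega
    have hfin : (N + r + 2 * K') * B ≤ K * B := Nat.mul_le_mul_right _ (by omega)
    calc T.card = Ta.card + (Tc.card + Td.card) := by omega
      _ ≤ K' * B + (N * B + (r * B + K' * B)) := by omega
      _ = (N + r + 2 * K') * B := by ring
      _ ≤ K * B := hfin

private lemma QI_all (r E n : ℕ) : ∃ K, QI r E n K := by
  induction n with
  | zero =>
    refine ⟨0, ?_⟩
    intro k m l L X al be ga hk hm hl hkE hmE hlE hX hal c c₂ H hc hc₂ hne hmu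
    exfalso
    obtain ⟨i, h, hne⟩ := hne
    have h1 : 1 ≤ imu r c := by
      unfold imu
      calc 1 ≤ ((i, h) : ℕ × ℕ).2 + 1 := by omega
        _ ≤ _ := Finset.single_le_sum (f := fun p : ℕ × ℕ => p.2 + 1) (fun _ _ => Nat.zero_le _)
            ((mem_isupp r c hc (i, h)).2 hne)
    omega
  | succ n ih =>
    obtain ⟨K', hK'⟩ := ih
    exact QI_step r E n K' hK'

/-- the outer statement -/
private def QO (r E n K : ℕ) : Prop :=
  ∀ (k m l L X : ℕ) (al be ga : ℤ), 1 ≤ k → 1 ≤ m → 1 ≤ l →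
    k ≤ E → m ≤ E → l ≤ E → 1 ≤ X → al ≠ 0 → ∀ (c c₂ : ℕ → ℕ → ℤ) (H : ℕ), Sup2 r c → Sup2 r c₂ →
    (∃ i h, c i h ≠ 0) → (∃ i h, c₂ i h ≠ 0) → imu r c₂ ≤ n → (∀ i h, |c i h| ≤ H) →
    (∀ i h, |c₂ i h| ≤ H) →
    K * X ^ (4 * r + 1) * H ^ 2 < L ^ (k - 1) → ∀ (T : Finset (ℕ × ℕ × ℕ)) (B : ℕ),
    (∀ P ∈ T, Pt k m l al be ga L X P ∧ ev2 r c P.1 P.2.2 = 0 ∧ ev2 r c₂ P.1 P.2.1 = 0) →
    (∀ x, (T.filter fun P => P.1 = x).card ≤ B) → T.card ≤ K * B

private lemma QO_all (r E n : ℕ) : ∃ K, QO r E n K := by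
  classical
  induction n with
  | zero =>
    refine ⟨0, ?_⟩
    intro k m l L X al be ga hk hm hl hkE hmE hlE hX hal c c₂ H hc hc₂ hne hne₂ hmu
    exfalso
    obtain ⟨i, h, hne⟩ := hne₂
    have h1 : 1 ≤ imu r c₂ := by
      unfold imu
      calc 1 ≤ ((i, h) : ℕ × ℕ).2 + 1 := by omega
        _ ≤ _ := Finset.single_le_sum (f := fun p : ℕ × ℕ => p.2 + 1) (fun _ _ => Nat.zero_le _)
            ((mem_isupp r c₂ hc₂ (i, h)).2 hne)
    omega
  | succ n ih =>
    obtain ⟨K', hK'⟩ := ih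
    obtain ⟨K₁, hK₁⟩ := QI_all r E (r * r * r)
    set M : ℕ := r + 1 with hM
    set K : ℕ := r + K₁ + K' * M ^ 2 with hK
    refine ⟨K, ?_⟩
    intro k m l L X al be ga hk hm hl hkE hmE hlE hX hal c c₂ H hc hc₂ hne hne₂ hmu hH hH₂ hsize T
      B hT hB
    have hM1 : 1 ≤ M := by omega
    have hKM : K' * M ^ 2 ≤ K := by omega
    have hK'' : K' ≤ K' * M ^ 2 := Nat.le_mul_of_pos_right _ (by positivity)
    have hsz := size_mono K K' M X r H L k hKM hsize
    have hs1 : K₁ * X ^ (4 * r + 1) * H ^ 2 < L ^ (k - 1) := by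
      have := size_mono K K₁ 1 X r H L k (by omega) hsize
      rwa [one_mul] at this
    by_cases hdz : ∀ i h, dz c₂ i h = 0
    · have h1 := base_case r c₂ hc₂ hne₂ hdz T B hB (fun P => (P.2.1 : ℤ))
        (fun P hP => (hT P hP).2.2)
      exact le_trans h1 (Nat.mul_le_mul_right _ (by omega))
    · push Not at hdz
      set Ta := T.filter (fun P => ev2 r (dz c₂) P.1 P.2.1 = 0) with hTa
      set Tb := T.filter (fun P => ¬ ev2 r (dz c₂) P.1 P.2.1 = 0) with hTb
      have hsplit : Ta.card + Tb.card = T.card := Finset.card_filter_add_card_filter_not _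
      have hA : Ta.card ≤ K' * B := by
        apply hK' k m l L X al be ga hk hm hl hkE hmE hlE hX hal c (dz c₂) (M * H) hc
          (sup2_dz r c₂ hc₂) hne hdz ?_ ?_ ?_ hsz Ta B ?_ (fib_filter T B hB _)
        · have := imu_dz r c₂ hc₂ hdz
          omega
        · intro i h
          refine le_trans (hH i h) ?_
          exact_mod_cast Nat.le_mul_of_pos_left H hM1
        · intro i h
          exact bound_mul M r H (by omega) _ (dz_bound r H c₂ hc₂ hH₂ i h)
        · intro P hP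
          rw [hTa, mem_filter] at hP
          exact ⟨(hT P hP.1).1, (hT P hP.1).2.1, hP.2⟩
      have hBc : Tb.card ≤ K₁ * B := by
        apply hK₁ k m l L X al be ga hk hm hl hkE hmE hlE hX hal c c₂ H hc hc₂ hne
          (imu_le r c hc) hH hH₂ hs1 Tb B ?_ (fib_filter T B hB _)
        intro P hP
        rw [hTb, mem_filter] at hP
        exact ⟨(hT P hP.1).1, (hT P hP.1).2.1, (hT P hP.1).2.2, hP.2⟩
      calc T.card = Ta.card + Tb.card := hsplit.symm
        _ ≤ K' * B + K₁ * B := Nat.add_le_add hA hBc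
        _ = (K' + K₁) * B := by ring
        _ ≤ K * B := Nat.mul_le_mul_right _ (by omega)

theorem curve_count (r E : ℕ) : ∃ K : ℕ, ∀ (k m l L X : ℕ) (al be ga : ℤ), 1 ≤ k → 1 ≤ m → 1 ≤ l →
    k ≤ E → m ≤ E → l ≤ E → 1 ≤ X → al ≠ 0 → ∀ (c c₂ : ℕ → ℕ → ℤ) (H : ℕ), Sup2 r c → Sup2 r c₂ →
    (∃ i h, c i h ≠ 0) → (∃ i h, c₂ i h ≠ 0) → (∀ i h, |c i h| ≤ H) → (∀ i h, |c₂ i h| ≤ H) →
    K * X ^ (4 * r + 1) * H ^ 2 < L ^ (k - 1) → ∀ (T : Finset (ℕ × ℕ × ℕ)) (B : ℕ),
    (∀ P ∈ T, Pt k m l al be ga L X P ∧ ev2 r c P.1 P.2.2 = 0 ∧ ev2 r c₂ P.1 P.2.1 = 0) →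
    (∀ x, (T.filter fun P => P.1 = x).card ≤ B) → T.card ≤ K * B := by
  obtain ⟨K, hK⟩ := QO_all r E (r * r * r)
  refine ⟨K, ?_⟩
  intro k m l L X al be ga hk hm hl hkE hmE hlE hX hal c c₂ H hc hc₂ hne hne₂ hH hH₂ hsize T B hT hB
  exact hK k m l L X al be ga hk hm hl hkE hmE hlE hX hal c c₂ H hc hc₂ hne hne₂ (imu_le r c₂ hc₂)
    hH hH₂ hsize T B hT hB

end Pool.MP_a95293_nt.SF
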