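import Pool.Agent.Lib_MP_a95293_sf.CasH
import Pool.Agent.Lib_MP_a95293_sf.FamA
import Pool.Agent.Lib_MP_a95293_sf.FamS
import Pool.Agent.Lib_MP_a95293_ps.Fam0
import Pool.Agent.Lib_MP_a95293_ps.FamC
import Pool.Agent.Lib_MP_a95293_rc.CorC

/-!
# MAINH: exponent `1/2`
-/

set_option autoImplicit false

namespace Pool.MP_a95293_nt.SF

open Finset
open Pool.MP_a95293_nt.RC (rd Prm pr3 radZ Adm)
open Pool.MP_a95293_nt.PS (fam0 fam1 fam1' fam1b)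

private theorem MainH_core {p q r : ℤ} (hp : p ≠ 0) (hq : q ≠ 0)
    (hs : (0 < p ∧ 0 < q) ∨ (p < 0 ∧ q < 0)) (hr : p + q + r = 0)
    (hg : ∀ d : ℤ, d ∣ p → d ∣ q → d ∣ r → IsUnit d) :
    Prm (p.natAbs, q.natAbs) ∧ (p * q * r).natAbs = pr3 (p.natAbs, q.natAbs) ∧
      r.natAbs = p.natAbs + q.natAbs := by
  have hr' : r.natAbs = p.natAbs + q.natAbs := by omega
  refine ⟨⟨Int.natAbs_pos.2 hp, Int.natAbs_pos.2 hq, ?_⟩, ?_, hr'⟩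
  · apply Nat.coprime_of_dvd
    intro d hd h1 h2
    have h3 : (d : ℤ) ∣ p := Int.natCast_dvd.2 h1
    have h4 : (d : ℤ) ∣ q := Int.natCast_dvd.2 h2
    have h5 : (d : ℤ) ∣ r := by
      have : r = -(p + q) := by linarith
      rw [this]
      exact (dvd_add h3 h4).neg_right
    have h6 := hg d h3 h4 h5
    have h7 := hd.one_lt
    rcases Int.isUnit_iff.1 h6 with h8 | h8 <;> omega
  · unfold Pool.MP_a95293_nt.RC.pr3
    rw [Int.natAbs_mul, Int.natAbs_mul, hr']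

private theorem MainH_vals {p q r : ℤ} (hr : r.natAbs = p.natAbs + q.natAbs) (v : ℤ)
    (hv : v = p ∨ v = q ∨ v = r) :
    v.natAbs = p.natAbs ∨ v.natAbs = q.natAbs ∨ v.natAbs = p.natAbs + q.natAbs := by
  rcases hv with rfl | rfl | rfl
  · exact Or.inl rfl
  · exact Or.inr (Or.inl rfl)
  · exact Or.inr (Or.inr hr)

/-- the entries of an admissible triple are, up to sign, `a`, `b`, `a + b`, and `a + b` occurs -/
private theorem MainH_adm0 {x : Fin 3 → ℤ} (hx : Adm x) : ∃ z : ℕ × ℕ, Prm z ∧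
    radZ (∏ i, x i) = rd (pr3 z) ∧
    (∀ j, (x j).natAbs = z.1 ∨ (x j).natAbs = z.2 ∨ (x j).natAbs = z.1 + z.2) ∧
    ∃ j, (x j).natAbs = z.1 + z.2 := by
  obtain ⟨hgcd, hsum, hne⟩ := hx
  rw [Fin.sum_univ_three] at hsum
  have h0 : x 0 ≠ 0 := by
    have := hne {0} (singleton_nonempty _) (by decide)
    rwa [sum_singleton] at this
  have h1 : x 1 ≠ 0 := by
    have := hne {1} (singleton_nonempty _) (by decide)
    rwa [sum_singleton] at this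
  have h2 : x 2 ≠ 0 := by
    have := hne {2} (singleton_nonempty _) (by decide)
    rwa [sum_singleton] at this
  have hg : ∀ d : ℤ, d ∣ x 0 → d ∣ x 1 → d ∣ x 2 → IsUnit d := by
    intro d e0 e1 e2
    apply isUnit_of_dvd_one
    rw [← hgcd]
    apply Finset.dvd_gcd
    intro i _
    fin_cases i
    · exact e0
    · exact e1
    · exact e2
  have hrad : ∀ z : ℕ × ℕ, (∏ i, x i).natAbs = pr3 z → radZ (∏ i, x i) = rd (pr3 z) := by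
    intro z hz
    unfold Pool.MP_a95293_nt.RC.radZ Pool.MP_a95293_nt.RC.rd
    rw [hz]
  have hprod : ∏ i, x i = x 0 * x 1 * x 2 := Fin.prod_univ_three _
  have hcases : ((0 < x 0 ∧ 0 < x 1) ∨ (x 0 < 0 ∧ x 1 < 0)) ∨
      ((0 < x 0 ∧ 0 < x 2) ∨ (x 0 < 0 ∧ x 2 < 0)) ∨
      ((0 < x 1 ∧ 0 < x 2) ∨ (x 1 < 0 ∧ x 2 < 0)) := by omega
  rcases hcases with hs | hs | hs
  · obtain ⟨hz, hp, hr⟩ := MainH_core h0 h1 hs (by omega) hg
    refine ⟨_, hz, hrad _ (by rw [hprod, ← hp]), ?_, 2, hr⟩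
    intro j
    refine MainH_vals hr (x j) ?_
    fin_cases j
    · exact Or.inl rfl
    · exact Or.inr (Or.inl rfl)
    · exact Or.inr (Or.inr rfl)
  · obtain ⟨hz, hp, hr⟩ := MainH_core h0 h2 hs (by omega) (fun d a b c => hg d a c b)
    refine ⟨_, hz, hrad _ (by
      rw [hprod, ← hp]
      congr 1
      ring), ?_, 1, hr⟩
    intro j
    refine MainH_vals hr (x j) ?_
    fin_cases j
    · exact Or.inl rfl
    · exact Or.inr (Or.inr rfl)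
    · exact Or.inr (Or.inl rfl)
  · obtain ⟨hz, hp, hr⟩ := MainH_core h1 h2 hs (by omega) (fun d a b c => hg d c a b)
    refine ⟨_, hz, hrad _ (by
      rw [hprod, ← hp]
      congr 1
      ring), ?_, 0, hr⟩
    intro j
    refine MainH_vals hr (x j) ?_
    fin_cases j
    · exact Or.inr (Or.inr rfl)
    · exact Or.inl rfl
    · exact Or.inr (Or.inl rfl)

/-- the same with `a ≤ b` -/
private theorem MainH_adm {x : Fin 3 → ℤ} (hx : Adm x) : ∃ z : ℕ × ℕ, Prm z ∧ z.1 ≤ z.2 ∧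
    radZ (∏ i, x i) = rd (pr3 z) ∧
    (∀ j, (x j).natAbs = z.1 ∨ (x j).natAbs = z.2 ∨ (x j).natAbs = z.1 + z.2) ∧
    ∃ j, (x j).natAbs = z.1 + z.2 := by
  obtain ⟨z, hz, hr, hv, j, hj⟩ := MainH_adm0 hx
  rcases le_total z.1 z.2 with h | h
  · exact ⟨z, hz, h, hr, hv, j, hj⟩
  · refine ⟨z.swap, hz.swap.1, h, ?_, ?_, j, ?_⟩
    · rw [hz.swap.2]
      exact hr
    · intro i
      rcases hv i with h | h | h
      · exact Or.inr (Or.inl h)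
      · exact Or.inl h
      · exact Or.inr (Or.inr (by
          rw [h]
          exact add_comm _ _))
    · rw [hj]
      exact add_comm _ _

private theorem MainH_six {a b c d e f : ℤ} : ({a, b, c, d, e, f} : Finset ℤ).card ≤ 6 := card_le_six

/-- at most `36` triples with sum `0` have their entries in `{± a, ± b, ± (a + b)}` -/
private theorem MainH_fiber (z : ℕ × ℕ) (W : Finset (Fin 3 → ℤ)) (hW : ∀ x ∈ W, ∑ i, x i = 0 ∧
    ∀ j, (x j).natAbs = z.1 ∨ (x j).natAbs = z.2 ∨ (x j).natAbs = z.1 + z.2) : W.card ≤ 36 := by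
  classical
  set V : Finset ℤ := {(z.1 : ℤ), -(z.1 : ℤ), (z.2 : ℤ), -(z.2 : ℤ), ((z.1 + z.2 : ℕ) : ℤ),
    -((z.1 + z.2 : ℕ) : ℤ)} with hV
  have hVc : V.card ≤ 6 := MainH_six
  have hsub : W ⊆ (V ×ˢ V).image fun st => (![st.1, st.2, -(st.1 + st.2)] : Fin 3 → ℤ) := by
    intro x hx
    obtain ⟨hs, e3⟩ := hW x hx
    have hmem : ∀ j, x j ∈ V := by
      intro j
      rw [hV]
      simp only [mem_insert, mem_singleton]
      rcases e3 j with h | h | h <;> omega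
    rw [mem_image]
    refine ⟨(x 0, x 1), mem_product.2 ⟨hmem 0, hmem 1⟩, ?_⟩
    rw [Fin.sum_univ_three] at hs
    funext j
    fin_cases j
    · rfl
    · rfl
    · show -(x 0 + x 1) = x 2
      omega
  refine (card_le_card hsub).trans (card_image_le.trans ?_)
  rw [card_product]
  calc V.card * V.card ≤ 6 * 6 := Nat.mul_le_mul hVc hVc
    _ = 36 := by norm_num

/-- the count of pairs `(a, b)` with `a ≤ b` -/
theorem pairsH (θ : ℝ) (h1 : 1 / 2 < θ) : ∃ M : ℕ, ∀ A : ℕ, ∃ CC : ℝ, 0 ≤ CC ∧ ∃ X₀ : ℕ,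
    ∀ X : ℕ, 1 ≤ X → X₀ ≤ X → ∀ S : Finset (ℕ × ℕ), (∀ z ∈ S, Prm z ∧ z.1 ≤ z.2 ∧
      rd (pr3 z) ≤ X ∧ rd (pr3 z) ^ M ≤ z.1 + z.2 ∧ z.1 + z.2 ≤ X ^ A) →
      (S.card : ℝ) ≤ CC * (X : ℝ) ^ θ := by
  classical
  set θ' : ℝ := (1 / 2 + min θ (2 / 3)) / 2 with hθ'
  have hmin : (1 : ℝ) / 2 < min θ (2 / 3) := lt_min h1 (by norm_num)
  have t1 : 1 / 2 < θ' := by linarith
  have t2 : θ' < min θ (2 / 3) := by linarith
  have t3 : θ' < 2 / 3 := t2.trans_le (min_le_right _ _)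
  have t4 : θ' < θ := t2.trans_le (min_le_left _ _)
  have t5 : 0 < θ - θ' := by linarith
  have t6 : 0 < 2 * θ' - 1 := by linarith
  set η : ℝ := min ((2 * θ' - 1) / 2) (θ - θ') with hη
  have hη0 : 0 < η := lt_min (by linarith) t5
  have hη1 : η < 2 * θ' - 1 := lt_of_le_of_lt (min_le_left _ _) (by linarith)
  have hη2 : η ≤ θ - θ' := min_le_right _ _
  obtain ⟨e₀, he₀, fS⟩ := famS (2 * θ' - 1) (2 * θ' - 1) t6 t6
  obtain ⟨M, hM⟩ := casH θ' t1 t3 e₀ η hη0 hη1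
  refine ⟨M, fun A => ?_⟩
  obtain ⟨E, hE⟩ := hM A
  obtain ⟨C₀, hC₀, f0⟩ := fam0 A (θ - θ') t5
  obtain ⟨C₁, hC₁, f1⟩ := fam1 A (θ - θ') t5
  obtain ⟨C₂, hC₂, f2⟩ := fam1' A (θ - θ') t5
  obtain ⟨C₃, hC₃, f3⟩ := fam1b A (θ - θ') t5
  obtain ⟨C₄, hC₄, f4⟩ := fS A E (θ - θ') t5
  obtain ⟨C₅, hC₅, f5⟩ := famA A η hη0
  obtain ⟨X₀, hX₀⟩ := hE (max C₁ (max C₂ (max C₃ C₅))) (le_max_of_le_left hC₁)
  refine ⟨C₀ + C₁ + C₂ + C₃ + C₄ + C₅, by linarith, X₀, ?_⟩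
  intro X hX hX' S hS
  have hX0 : (0 : ℝ) < X := by exact_mod_cast hX
  have hX1 : (1 : ℝ) ≤ X := by exact_mod_cast hX
  set Y : ℝ := (X : ℝ) ^ θ' with hY
  have hY0 : 0 ≤ Y := by positivity
  set Y' : ℝ := (X : ℝ) ^ (2 - 3 * θ') with hY'
  have hY'0 : 0 ≤ Y' := by positivity
  set S₀ := S.filter fun z => ((rd z.1 : ℝ) * rd z.2 ≤ Y ∨ (rd z.1 : ℝ) * rd (z.1 + z.2) ≤ Y ∨
      (rd z.2 : ℝ) * rd (z.1 + z.2) ≤ Y) with hS₀
  set S₁ := S.filter fun z => ∃ q : ℕ, 1 ≤ q ∧ q ∣ z.1 + z.2 ∧ C₁ * (rd z.1 : ℝ) ^ 2 ≤ q ∧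
    C₁ * (rd z.2 : ℝ) ^ 2 ≤ q ∧ (rd q : ℝ) * Real.sqrt ((rd z.1 : ℝ) * rd z.2) ≤ Y with hS₁
  set S₂ := S.filter fun z => ∃ q : ℕ, 1 ≤ q ∧ q ∣ z.2 ∧ C₂ * (rd z.1 : ℝ) ^ 2 ≤ q ∧
    C₂ * (rd (z.1 + z.2) : ℝ) ^ 2 ≤ q ∧
      (rd q : ℝ) * Real.sqrt ((rd z.1 : ℝ) * rd (z.1 + z.2)) ≤ Y with hS₂
  set S₃ := S.filter fun z => ∃ q : ℕ, 1 ≤ q ∧ q ∣ z.1 ∧ C₃ * (rd z.2 : ℝ) ^ 2 ≤ q ∧
    C₃ * (rd (z.1 + z.2) : ℝ) ^ 2 ≤ q ∧
      (rd q : ℝ) * Real.sqrt ((rd z.2 : ℝ) * rd (z.1 + z.2)) ≤ Y with hS₃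
  set S₄ := S.filter fun z => ∃ k m l B D A' x y t : ℕ, e₀ ≤ k ∧ k ≤ E ∧ e₀ ≤ m ∧ m ≤ E ∧
      e₀ ≤ l ∧ l ≤ E ∧ x.Prime ∧ y.Prime ∧ t.Prime ∧ x ≤ X ∧ y ≤ X ∧ t ≤ X ∧
      (X : ℝ) ^ (2 * θ' - 1) ≤ x ∧ (X : ℝ) ^ (2 * θ' - 1) ≤ y ∧ (X : ℝ) ^ (2 * θ' - 1) ≤ t ∧
      z.1 = A' * t ^ l ∧ z.2 = B * x ^ k ∧ z.1 + z.2 = D * y ^ m ∧
      (rd A' : ℝ) * rd B * rd D ≤ Y' with hS₄
  set S₅ := S.filter fun z => z.1 * X ≤ z.2 ∧ C₅ * (X : ℝ) ^ η * (rd z.2 : ℝ) ^ 2 ≤ X ∧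
    C₅ * (X : ℝ) ^ η * (rd (z.1 + z.2) : ℝ) ^ 2 ≤ X ∧
      Real.sqrt ((rd z.2 : ℝ) * rd (z.1 + z.2)) ≤ Y with hS₅
  have c0 := f0 X Y hX hY0 S₀ (fun z hz => by
    rw [hS₀, mem_filter] at hz
    obtain ⟨hz, hz2⟩ := hz
    exact ⟨(hS z hz).1, (hS z hz).2.2.2.2, hz2⟩)
  have c1 := f1 X Y hX hY0 S₁ (fun z hz => by
    rw [hS₁, mem_filter] at hz
    obtain ⟨hz, hz2⟩ := hz
    exact ⟨(hS z hz).1, (hS z hz).2.2.1, (hS z hz).2.2.2.2, hz2⟩)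
  have c2 := f2 X Y hX hY0 S₂ (fun z hz => by
    rw [hS₂, mem_filter] at hz
    obtain ⟨hz, hz2⟩ := hz
    exact ⟨(hS z hz).1, (hS z hz).2.2.1, (hS z hz).2.2.2.2, hz2⟩)
  have c3 := f3 X Y hX hY0 S₃ (fun z hz => by
    rw [hS₃, mem_filter] at hz
    obtain ⟨hz, hz2⟩ := hz
    exact ⟨(hS z hz).1, (hS z hz).2.2.1, (hS z hz).2.2.2.2, hz2⟩)
  have c4 := f4 X Y' hX hY'0 S₄ (fun z hz => by
    rw [hS₄, mem_filter] at hz
    obtain ⟨hz, hz2⟩ := hz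
    exact ⟨(hS z hz).1, (hS z hz).2.2.2.2, hz2⟩)
  have c5 := f5 X Y hX hY0 S₅ (fun z hz => by
    rw [hS₅, mem_filter] at hz
    obtain ⟨hz, hz2⟩ := hz
    exact ⟨(hS z hz).1, (hS z hz).2.2.2.2, hz2⟩)
  have hsub : S ⊆ ((((S₀ ∪ S₁) ∪ S₂) ∪ S₃) ∪ S₄) ∪ S₅ := by
    intro z hz
    obtain ⟨p1, p2, p3, p4, p5⟩ := hS z hz
    simp only [mem_union, hS₀, hS₁, hS₂, hS₃, hS₄, hS₅, mem_filter]
    rcases hX₀ X hX' z p1 p2 p3 p4 p5 with h | h | h | h | h | h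
    · exact Or.inl (Or.inl (Or.inl (Or.inl (Or.inl ⟨hz, h⟩))))
    · obtain ⟨q1, q2, q3, q4⟩ := h
      have hm : C₅ ≤ max C₁ (max C₂ (max C₃ C₅)) :=
        (le_max_right _ _).trans ((le_max_right _ _).trans (le_max_right _ _))
      have hm' : C₅ * (X : ℝ) ^ η ≤ max C₁ (max C₂ (max C₃ C₅)) * (X : ℝ) ^ η :=
        mul_le_mul_of_nonneg_right hm (by positivity)
      refine Or.inr ⟨hz, q1, ?_, ?_, q4⟩
      · exact le_trans (mul_le_mul_of_nonneg_right hm' (by positivity)) q2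
      · exact le_trans (mul_le_mul_of_nonneg_right hm' (by positivity)) q3
    · obtain ⟨q, q1, q2, q3, q4, q5⟩ := h
      refine Or.inl (Or.inl (Or.inl (Or.inl (Or.inr ⟨hz, q, q1, q2, ?_, ?_, q5⟩))))
      · exact le_trans (mul_le_mul_of_nonneg_right (le_max_left _ _) (by positivity)) q3
      · exact le_trans (mul_le_mul_of_nonneg_right (le_max_left _ _) (by positivity)) q4
    · obtain ⟨q, q1, q2, q3, q4, q5⟩ := h
      have hm : C₂ ≤ max C₁ (max C₂ (max C₃ C₅)) := (le_max_left _ _).trans (le_max_right _ _)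
      refine Or.inl (Or.inl (Or.inl (Or.inr ⟨hz, q, q1, q2, ?_, ?_, q5⟩)))
      · exact le_trans (mul_le_mul_of_nonneg_right hm (by positivity)) q3
      · exact le_trans (mul_le_mul_of_nonneg_right hm (by positivity)) q4
    · obtain ⟨q, q1, q2, q3, q4, q5⟩ := h
      have hm : C₃ ≤ max C₁ (max C₂ (max C₃ C₅)) :=
        (le_max_left _ _).trans ((le_max_right _ _).trans (le_max_right _ _))
      refine Or.inl (Or.inl (Or.inr ⟨hz, q, q1, q2, ?_, ?_, q5⟩))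
      · exact le_trans (mul_le_mul_of_nonneg_right hm (by positivity)) q3
      · exact le_trans (mul_le_mul_of_nonneg_right hm (by positivity)) q4
    · exact Or.inl (Or.inr ⟨hz, h⟩)
  have hc : S.card ≤ S₀.card + S₁.card + S₂.card + S₃.card + S₄.card + S₅.card := by
    refine (card_le_card hsub).trans ((card_union_le _ _).trans (Nat.add_le_add_right ?_ _))
    refine (card_union_le _ _).trans (Nat.add_le_add_right ?_ _)
    refine (card_union_le _ _).trans (Nat.add_le_add_right ?_ _)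
    refine (card_union_le _ _).trans (Nat.add_le_add_right ?_ _)
    exact card_union_le _ _
  have hc' : (S.card : ℝ) ≤ S₀.card + S₁.card + S₂.card + S₃.card + S₄.card + S₅.card := by
    exact_mod_cast hc
  have hXY : (X : ℝ) ^ (θ - θ') * Y = (X : ℝ) ^ θ := by
    rw [hY, ← Real.rpow_add hX0]
    congr 1
    ring
  have hXη : (X : ℝ) ^ η * Y ≤ (X : ℝ) ^ θ := by
    rw [← hXY]
    exact mul_le_mul_of_nonneg_right (Real.rpow_le_rpow_of_exponent_le hX1 hη2) hY0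
  have hXY' : (X : ℝ) ^ (θ - θ' + (2 * θ' - 1)) * Y' ≤ (X : ℝ) ^ θ := by
    rw [hY', ← Real.rpow_add hX0]
    exact Real.rpow_le_rpow_of_exponent_le hX1 (by linarith)
  rw [mul_assoc] at c0 c1 c2 c3 c4 c5
  rw [hXY] at c0 c1 c2 c3
  have c4' := c4.trans (mul_le_mul_of_nonneg_left hXY' (by linarith : (0 : ℝ) ≤ C₄))
  have c5' := c5.trans (mul_le_mul_of_nonneg_left hXη (by linarith : (0 : ℝ) ≤ C₅))
  linarith

theorem mainH (θ : ℝ) (h1 : 1 / 2 < θ) : ∃ M : ℕ, ∀ A : ℕ, ∃ C : ℝ, ∀ X : ℕ, 1 ≤ X →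
    {x : Fin 3 → ℤ | Adm x ∧ radZ (∏ i, x i) ≤ X ∧ (∀ j, |x j| ≤ (X : ℤ) ^ A) ∧
      ∃ j, ((radZ (∏ i, x i) : ℤ)) ^ M ≤ |x j|}.Finite ∧
    ({x : Fin 3 → ℤ | Adm x ∧ radZ (∏ i, x i) ≤ X ∧ (∀ j, |x j| ≤ (X : ℤ) ^ A) ∧
      ∃ j, ((radZ (∏ i, x i) : ℤ)) ^ M ≤ |x j|}.ncard : ℝ) ≤ C * (X : ℝ) ^ θ := by
  classical
  obtain ⟨M, hM⟩ := pairsH θ h1
  refine ⟨M, fun A => ?_⟩
  obtain ⟨CC, hCC, X₀, hpairs⟩ := hM A
  -- the box
  set Bx : ℕ → Finset (Fin 3 → ℤ) := fun N =>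
    Fintype.piFinset fun _ => Icc (-((N : ℤ) ^ A)) ((N : ℤ) ^ A) with hBx
  have hsub : ∀ X N : ℕ, X ≤ N → {x : Fin 3 → ℤ | Adm x ∧ radZ (∏ i, x i) ≤ X ∧
      (∀ j, |x j| ≤ (X : ℤ) ^ A) ∧ ∃ j, ((radZ (∏ i, x i) : ℤ)) ^ M ≤ |x j|} ⊆
      (Bx N : Set (Fin 3 → ℤ)) := by
    intro X N hXN x hx
    obtain ⟨_, _, hx, _⟩ := hx
    rw [mem_coe, hBx, Fintype.mem_piFinset]
    intro j
    have h2 : (X : ℤ) ^ A ≤ (N : ℤ) ^ A :=
      pow_le_pow_left₀ (Int.natCast_nonneg X) (by exact_mod_cast hXN) A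
    rw [mem_Icc]
    exact abs_le.1 ((hx j).trans h2)
  have hfin : ∀ X : ℕ, {x : Fin 3 → ℤ | Adm x ∧ radZ (∏ i, x i) ≤ X ∧
      (∀ j, |x j| ≤ (X : ℤ) ^ A) ∧ ∃ j, ((radZ (∏ i, x i) : ℤ)) ^ M ≤ |x j|}.Finite := fun X =>
    (Bx X).finite_toSet.subset (hsub X X le_rfl)
  refine ⟨36 * CC + (Bx X₀).card, fun X hX => ⟨hfin X, ?_⟩⟩
  have hX1 : (1 : ℝ) ≤ X := by exact_mod_cast hX
  have hθ0 : 0 ≤ θ := by linarith
  have hXθ : 1 ≤ (X : ℝ) ^ θ := Real.one_le_rpow hX1 hθ0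
  rcases le_total X₀ X with hXX | hXX
  · -- large `X`
    rw [Set.ncard_eq_toFinset_card _ (hfin X)]
    set W := (hfin X).toFinset with hW
    have hWm : ∀ x ∈ W, Adm x ∧ radZ (∏ i, x i) ≤ X ∧ (∀ j, |x j| ≤ (X : ℤ) ^ A) ∧
        ∃ j, ((radZ (∏ i, x i) : ℤ)) ^ M ≤ |x j| := by
      intro x hx
      rw [hW, Set.Finite.mem_toFinset] at hx
      exact hx
    have hζ : ∀ x : Fin 3 → ℤ, ∃ z : ℕ × ℕ, x ∈ W → (Prm z ∧ z.1 ≤ z.2 ∧
        radZ (∏ i, x i) = rd (pr3 z) ∧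
        (∀ j, (x j).natAbs = z.1 ∨ (x j).natAbs = z.2 ∨ (x j).natAbs = z.1 + z.2) ∧
        ∃ j, (x j).natAbs = z.1 + z.2) := by
      intro x
      by_cases hx : x ∈ W
      · obtain ⟨z, hz⟩ := MainH_adm (hWm x hx).1
        exact ⟨z, fun _ => hz⟩
      · exact ⟨(0, 0), fun h => absurd h hx⟩
    choose ζ hζ using hζ
    have hle : W.card ≤ 36 * (W.image ζ).card := by
      apply card_le_mul_card_image
      intro z _
      apply MainH_fiber z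
      intro x hx
      rw [mem_filter] at hx
      obtain ⟨hx, rfl⟩ := hx
      exact ⟨(hWm x hx).1.2.1, (hζ x hx).2.2.2.1⟩
    have hp := hpairs X hX hXX (W.image ζ) (by
      intro z hz
      rw [mem_image] at hz
      obtain ⟨x, hx, rfl⟩ := hz
      obtain ⟨e1, e2, e3, e4, j, e5⟩ := hζ x hx
      obtain ⟨g1, g2, g3, i, g4⟩ := hWm x hx
      refine ⟨e1, e2, e3 ▸ g2, ?_, ?_⟩
      · rw [e3] at g4
        have h3 : ((rd (pr3 (ζ x)) ^ M : ℕ) : ℤ) ≤ ((x i).natAbs : ℕ) := by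
          push_cast
          exact g4
        have h4 : rd (pr3 (ζ x)) ^ M ≤ (x i).natAbs := by exact_mod_cast h3
        refine h4.trans ?_
        rcases e4 i with h | h | h <;> omega
      · rw [← e5]
        have h3 := g3 j
        rw [← Int.natCast_natAbs] at h3
        exact_mod_cast h3)
    have hle' : (W.card : ℝ) ≤ 36 * ((W.image ζ).card : ℝ) := by exact_mod_cast hle
    have hB0 : (0 : ℝ) ≤ (Bx X₀).card := Nat.cast_nonneg _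
    nlinarith
  · -- small `X`
    have h3 : {x : Fin 3 → ℤ | Adm x ∧ radZ (∏ i, x i) ≤ X ∧
        (∀ j, |x j| ≤ (X : ℤ) ^ A) ∧ ∃ j, ((radZ (∏ i, x i) : ℤ)) ^ M ≤ |x j|}.ncard ≤
        (Bx X₀).card := by
      rw [← Set.ncard_coe_finset]
      exact Set.ncard_le_ncard (hsub X X₀ hXX) (Bx X₀).finite_toSet
    have h4 : ({x : Fin 3 → ℤ | Adm x ∧ radZ (∏ i, x i) ≤ X ∧
        (∀ j, |x j| ≤ (X : ℤ) ^ A) ∧ ∃ j, ((radZ (∏ i, x i) : ℤ)) ^ M ≤ |x j|}.ncard : ℝ) ≤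
        (Bx X₀).card := by exact_mod_cast h3
    have hB0 : (0 : ℝ) ≤ (Bx X₀).card := Nat.cast_nonneg _
    refine h4.trans ?_
    have h5 : 0 ≤ 36 * CC := by linarith
    nlinarith

end Pool.MP_a95293_nt.SF
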