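import Pool.Agent.Lib_MP_a95293_sf.Defs
import Pool.Agent.Lib_MP_a95293_sf.DetB
import Pool.Agent.Lib_MP_a95293_sf.ApxS
import Pool.Agent.Lib_MP_a95293_sf.Sieg

/-!
# Piece ST1: the auxiliary polynomial of a residue class of the surface

PROOF.  As `det_zero` and `aux_poly` in `Lib_MP_a95293_ps/BpB.lean`, with three variables: the `s = r ^ 3` monomials
`x^i y^j z^h`, `i, j, h < r`.  (1) for `s` points of the class the determinant is divisible by `q ^ (d * (s - d (d+1) / 2))`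
(`approx2` with `n` = this exponent, `det_dvd2`; reduce the determinant modulo `q ^ N` as in `det_zero`) and its absolute value is at
most `s ! * (X ^ (3 * (r - 1))) ^ s`, so it is `0`; (2) so the vectors `(x^i y^j z^h)` of the points do not span `ℚ ^ s` and there is a
rational relation (as in `aux_poly`); (3) `sieg` with `n = r ^ 3`, `B = X ^ (3 * (r - 1))`.
Use `finProdFinEquiv` twice or any equivalence `Fin (r ^ 3) ≃ Fin r × Fin r × Fin r`.  If `T` is empty take the constant `1`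
(`r ≥ 1`).
-/

set_option autoImplicit false

namespace Pool.MP_a95293_nt.SF

open Finset

namespace St1P

/-- an enumeration of the monomials -/
private noncomputable def st1_eq (r : ℕ) : Fin (r ^ 3) ≃ Fin r × Fin r × Fin r :=
  Fintype.equivOfCardEq (by simp only [Fintype.card_fin, Fintype.card_prod]; ring)

/-- the vector of the monomials at a point -/
private noncomputable def st1_e (r : ℕ) (P : ℕ × ℕ × ℕ) (j : Fin (r ^ 3)) : ℤ :=
  (P.1 : ℤ) ^ ((st1_eq r j).1 : ℕ) * (P.2.1 : ℤ) ^ ((st1_eq r j).2.1 : ℕ) *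
    (P.2.2 : ℤ) ^ ((st1_eq r j).2.2 : ℕ)

private lemma st1_e_le (r X : ℕ) (hX : 1 ≤ X) (P : ℕ × ℕ × ℕ) (h1 : P.1 ≤ X) (h2 : P.2.1 ≤ X)
    (h3 : P.2.2 ≤ X) (j : Fin (r ^ 3)) : |st1_e r P j| ≤ ((X ^ (3 * (r - 1)) : ℕ) : ℤ) := by
  rw [st1_e, abs_of_nonneg (by positivity)]
  have a1 : ((st1_eq r j).1 : ℕ) ≤ r - 1 := by
    have := (st1_eq r j).1.isLt
    omega
  have a2 : ((st1_eq r j).2.1 : ℕ) ≤ r - 1 := by
    have := (st1_eq r j).2.1.isLt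
    omega
  have a3 : ((st1_eq r j).2.2 : ℕ) ≤ r - 1 := by
    have := (st1_eq r j).2.2.isLt
    omega
  have hX' : (1 : ℤ) ≤ X := by exact_mod_cast hX
  have g1 : (P.1 : ℤ) ^ ((st1_eq r j).1 : ℕ) ≤ (X : ℤ) ^ (r - 1) := by
    have h1' : (P.1 : ℤ) ≤ X := by exact_mod_cast h1
    calc (P.1 : ℤ) ^ ((st1_eq r j).1 : ℕ) ≤ (X : ℤ) ^ ((st1_eq r j).1 : ℕ) := by gcongr
      _ ≤ (X : ℤ) ^ (r - 1) := by gcongr
  have g2 : (P.2.1 : ℤ) ^ ((st1_eq r j).2.1 : ℕ) ≤ (X : ℤ) ^ (r - 1) := by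
    have h1' : (P.2.1 : ℤ) ≤ X := by exact_mod_cast h2
    calc (P.2.1 : ℤ) ^ ((st1_eq r j).2.1 : ℕ) ≤ (X : ℤ) ^ ((st1_eq r j).2.1 : ℕ) := by gcongr
      _ ≤ (X : ℤ) ^ (r - 1) := by gcongr
  have g3 : (P.2.2 : ℤ) ^ ((st1_eq r j).2.2 : ℕ) ≤ (X : ℤ) ^ (r - 1) := by
    have h1' : (P.2.2 : ℤ) ≤ X := by exact_mod_cast h3
    calc (P.2.2 : ℤ) ^ ((st1_eq r j).2.2 : ℕ) ≤ (X : ℤ) ^ ((st1_eq r j).2.2 : ℕ) := by gcongr
      _ ≤ (X : ℤ) ^ (r - 1) := by gcongr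
  calc (P.1 : ℤ) ^ ((st1_eq r j).1 : ℕ) * (P.2.1 : ℤ) ^ ((st1_eq r j).2.1 : ℕ) *
        (P.2.2 : ℤ) ^ ((st1_eq r j).2.2 : ℕ)
      ≤ (X : ℤ) ^ (r - 1) * (X : ℤ) ^ (r - 1) * (X : ℤ) ^ (r - 1) := by gcongr
    _ = ((X ^ (3 * (r - 1)) : ℕ) : ℤ) := by
        push_cast
        rw [show 3 * (r - 1) = (r - 1) + (r - 1) + (r - 1) by ring, pow_add, pow_add]

/-- the determinant of the monomials vanishes on a residue class -/
private theorem st1_det_zero (q : ℕ) (hq : q.Prime) (k m l r d X : ℕ) (hX : 1 ≤ X) (hm : ¬ q ∣ m)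
    (al be ga x0 y0 z0 : ℤ) (hbe : ¬ (q : ℤ) ∣ be) (hy0 : ¬ (q : ℤ) ∣ y0)
    (hsize : (r ^ 3).factorial * (X ^ (3 * (r - 1))) ^ (r ^ 3) <
      q ^ (d * (r ^ 3 - d * (d + 1) / 2)))
    (P : Fin (r ^ 3) → ℕ × ℕ × ℕ) (hP : ∀ i,
      al * ((P i).1 : ℤ) ^ k + be * ((P i).2.1 : ℤ) ^ m + ga * ((P i).2.2 : ℤ) ^ l = 0 ∧
      (q : ℤ) ∣ (P i).1 - x0 ∧ (q : ℤ) ∣ (P i).2.1 - y0 ∧ (q : ℤ) ∣ (P i).2.2 - z0 ∧
      (P i).1 ≤ X ∧ (P i).2.1 ≤ X ∧ (P i).2.2 ≤ X) :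
    Matrix.det (Matrix.of fun j i : Fin (r ^ 3) => st1_e r (P i) j) = 0 := by
  classical
  set N := d * (r ^ 3 - d * (d + 1) / 2) with hN
  set M : Matrix (Fin (r ^ 3)) (Fin (r ^ 3)) ℤ := Matrix.of fun j i => st1_e r (P i) j with hM
  obtain ⟨g, hg⟩ := approx2 q hq k m l hm al be ga x0 y0 z0 hbe hy0 (fun i => ((P i).1 : ℤ))
    (fun i => ((P i).2.1 : ℤ)) (fun i => ((P i).2.2 : ℤ)) (fun i => (hP i).1)
    (fun i => (hP i).2.2.1) N
  set G : Fin (r ^ 3) → MvPolynomial (Fin 2) ℤ := fun j =>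
    (MvPolynomial.C x0 + MvPolynomial.X 0) ^ ((st1_eq r j).1 : ℕ) * g ^ ((st1_eq r j).2.1 : ℕ) *
      (MvPolynomial.C z0 + MvPolynomial.X 1) ^ ((st1_eq r j).2.2 : ℕ) with hG
  have h1 := det_dvd2 (q : ℤ) (r ^ 3) d G (fun i => ((P i).1 : ℤ) - x0)
    (fun i => ((P i).2.2 : ℤ) - z0) (fun i => (hP i).2.1) (fun i => (hP i).2.2.2.1)
  rw [← hN] at h1
  have h2 : (((q ^ N : ℕ) : ℤ)) ∣ M.det := by
    have h3 : ((M.det : ℤ) : ZMod (q ^ N)) =
        ((Matrix.det (Matrix.of fun j i : Fin (r ^ 3) =>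
          MvPolynomial.eval ![((P i).1 : ℤ) - x0, ((P i).2.2 : ℤ) - z0] (G j)) : ℤ) :
          ZMod (q ^ N)) := by
      refine ((Int.castRingHom (ZMod (q ^ N))).map_det M).trans (Eq.trans ?_
        ((Int.castRingHom (ZMod (q ^ N))).map_det
          (Matrix.of fun j i : Fin (r ^ 3) =>
            MvPolynomial.eval ![((P i).1 : ℤ) - x0, ((P i).2.2 : ℤ) - z0] (G j))).symm)
      congr 1
      ext j i
      simp only [RingHom.mapMatrix_apply, Matrix.map_apply, Int.coe_castRingHom, hM,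
        Matrix.of_apply, hG, st1_e]
      have e3 : (((P i).2.1 : ℤ) : ZMod (q ^ N)) =
          ((MvPolynomial.eval ![((P i).1 : ℤ) - x0, ((P i).2.2 : ℤ) - z0] g : ℤ) :
            ZMod (q ^ N)) := by
        rw [ZMod.intCast_eq_intCast_iff_dvd_sub]
        have h4 : (((q ^ N : ℕ) : ℤ)) ∣ (P i).2.1 -
            MvPolynomial.eval ![((P i).1 : ℤ) - x0, ((P i).2.2 : ℤ) - z0] g := by
          push_cast
          exact (pow_dvd_pow _ (Nat.le_succ N)).trans (hg i)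
        have h5 := (dvd_neg (α := ℤ)).2 h4
        rwa [neg_sub] at h5
      simp only [map_mul, map_pow, map_add, MvPolynomial.eval_C, MvPolynomial.eval_X,
        Matrix.cons_val_zero, Matrix.cons_val_one]
      push_cast
      push_cast at e3
      rw [e3]
      ring
    have h4 : ((Matrix.det (Matrix.of fun j i : Fin (r ^ 3) =>
          MvPolynomial.eval ![((P i).1 : ℤ) - x0, ((P i).2.2 : ℤ) - z0] (G j)) : ℤ) :
        ZMod (q ^ N)) = 0 := by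
      rw [ZMod.intCast_zmod_eq_zero_iff_dvd]
      push_cast
      exact h1
    rw [h4, ZMod.intCast_zmod_eq_zero_iff_dvd] at h3
    exact h3
  have h5 : |M.det| ≤ (r ^ 3).factorial * ((X ^ (3 * (r - 1)) : ℕ) : ℤ) ^ (r ^ 3) := by
    have h6 := Matrix.det_le (A := M) (abv := AbsoluteValue.abs)
      (x := ((X ^ (3 * (r - 1)) : ℕ) : ℤ))
      (by
        intro j i
        rw [AbsoluteValue.abs_apply, hM, Matrix.of_apply]
        exact st1_e_le r X hX (P i) (hP i).2.2.2.2.1 (hP i).2.2.2.2.2.1 (hP i).2.2.2.2.2.2 j)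
    rw [Fintype.card_fin, nsmul_eq_mul] at h6
    exact_mod_cast h6
  refine Int.eq_zero_of_abs_lt_dvd h2 (lt_of_le_of_lt h5 ?_)
  exact_mod_cast hsize

/-- a rational relation -/
private theorem st1_rel (q : ℕ) (hq : q.Prime) (k m l r d X : ℕ) (hX : 1 ≤ X) (hm : ¬ q ∣ m)
    (al be ga x0 y0 z0 : ℤ) (hbe : ¬ (q : ℤ) ∣ be) (hy0 : ¬ (q : ℤ) ∣ y0)
    (hsize : (r ^ 3).factorial * (X ^ (3 * (r - 1))) ^ (r ^ 3) <
      q ^ (d * (r ^ 3 - d * (d + 1) / 2)))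
    (T : Finset (ℕ × ℕ × ℕ)) (hT : ∀ P ∈ T,
      al * (P.1 : ℤ) ^ k + be * (P.2.1 : ℤ) ^ m + ga * (P.2.2 : ℤ) ^ l = 0 ∧
      (q : ℤ) ∣ P.1 - x0 ∧ (q : ℤ) ∣ P.2.1 - y0 ∧ (q : ℤ) ∣ P.2.2 - z0 ∧
      P.1 ≤ X ∧ P.2.1 ≤ X ∧ P.2.2 ≤ X) :
    ∃ c : Fin (r ^ 3) → ℚ, c ≠ 0 ∧ ∀ P ∈ T, ∑ j, c j * (st1_e r P j : ℚ) = 0 := by
  classical
  set e : ℕ × ℕ × ℕ → Fin (r ^ 3) → ℚ := fun P j => (st1_e r P j : ℚ) with he
  set V : Submodule ℚ (Fin (r ^ 3) → ℚ) :=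
    Submodule.span ℚ (e '' (T : Set (ℕ × ℕ × ℕ))) with hV
  by_cases hTop : V = ⊤
  · exfalso
    obtain ⟨f, hf1, -, hf3⟩ :=
      Submodule.exists_fun_fin_finrank_span_eq ℚ (e '' (T : Set (ℕ × ℕ × ℕ)))
    have hfr : Module.finrank ℚ (Submodule.span ℚ (e '' (T : Set (ℕ × ℕ × ℕ)))) = r ^ 3 := by
      rw [← hV, hTop, finrank_top, Module.finrank_fin_fun]
    have hLI : LinearIndependent ℚ (fun i : Fin (r ^ 3) => f (Fin.cast hfr.symm i)) :=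
      hf3.comp _ (Fin.cast_injective _)
    have hex : ∀ i : Fin (r ^ 3), ∃ z : ℕ × ℕ × ℕ, z ∈ T ∧ e z = f (Fin.cast hfr.symm i) := by
      intro i
      obtain ⟨z, hz, hz'⟩ := hf1 (Fin.cast hfr.symm i)
      exact ⟨z, hz, hz'⟩
    choose z hz hz' using hex
    have hdet := st1_det_zero q hq k m l r d X hX hm al be ga x0 y0 z0 hbe hy0 hsize z
      (fun i => hT _ (hz i))
    set B : Matrix (Fin (r ^ 3)) (Fin (r ^ 3)) ℚ := Matrix.of fun i j => e (z i) j with hB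
    have hrow : B.row = fun i => f (Fin.cast hfr.symm i) := by
      funext i j
      rw [Matrix.row_apply, hB, Matrix.of_apply, hz']
    have hU : IsUnit B := by
      rw [← Matrix.linearIndependent_rows_iff_isUnit, hrow]
      exact hLI
    have hd : B.det ≠ 0 := ((Matrix.isUnit_iff_isUnit_det B).1 hU).ne_zero
    apply hd
    have h6 := congrArg (Int.castRingHom ℚ) hdet
    rw [RingHom.map_det, map_zero] at h6
    rw [← Matrix.det_transpose, ← h6]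
    congr 1
  · obtain ⟨f, hf, hWf⟩ := Submodule.exists_le_ker_of_lt_top V (lt_top_iff_ne_top.2 hTop)
    refine ⟨fun j => f (Pi.single j 1), ?_, ?_⟩
    · intro h
      apply hf
      refine LinearMap.pi_ext' fun j => ?_
      ext
      have h1 : f (Pi.single j 1) = 0 := congrFun h j
      simpa using h1
    · intro w hw
      have h1 : f (e w) = 0 := hWf (Submodule.subset_span ⟨w, hw, rfl⟩)
      have h2 : f (e w) = ∑ j, e w j * f (Pi.single j 1) := by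
        rw [LinearMap.pi_apply_eq_sum_univ f (e w)]
        refine sum_congr rfl fun j _ => ?_
        rw [smul_eq_mul]
        congr 2
        ext i
        rw [Pi.single_apply]
        simp only [eq_comm]
      rw [h1] at h2
      rw [h2]
      exact sum_congr rfl fun j _ => mul_comm _ _

end St1P

open St1P in
theorem stage1 (q : ℕ) (hq : q.Prime) (k m l r d X : ℕ) (hr : 1 ≤ r) (hX : 1 ≤ X) (hm : ¬ q ∣ m)
    (al be ga x0 y0 z0 : ℤ) (hbe : ¬ (q : ℤ) ∣ be) (hy0 : ¬ (q : ℤ) ∣ y0)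
    (hsize : (r ^ 3).factorial * (X ^ (3 * (r - 1))) ^ (r ^ 3) <
      q ^ (d * (r ^ 3 - d * (d + 1) / 2)))
    (T : Finset (ℕ × ℕ × ℕ)) (hT : ∀ P ∈ T,
      al * (P.1 : ℤ) ^ k + be * (P.2.1 : ℤ) ^ m + ga * (P.2.2 : ℤ) ^ l = 0 ∧
      (q : ℤ) ∣ P.1 - x0 ∧ (q : ℤ) ∣ P.2.1 - y0 ∧ (q : ℤ) ∣ P.2.2 - z0 ∧
      P.1 ≤ X ∧ P.2.1 ≤ X ∧ P.2.2 ≤ X) :
    ∃ G : ℕ → ℕ → ℕ → ℤ, (∃ i j h, G i j h ≠ 0) ∧ Sup3 r G ∧
      (∀ i j h, |G i j h| ≤ ((r ^ 3 * X ^ (3 * (r - 1)) : ℕ) : ℤ) ^ (r ^ 3)) ∧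
      ∀ P ∈ T, ev3 r G P.1 P.2.1 P.2.2 = 0 := by
  classical
  obtain ⟨c, hc0, hc1, hc2⟩ := sieg T (r ^ 3) (st1_e r) (X ^ (3 * (r - 1)))
    (Nat.one_le_pow _ _ hX)
    (fun P hP j => st1_e_le r X hX P (hT P hP).2.2.2.2.1 (hT P hP).2.2.2.2.2.1
      (hT P hP).2.2.2.2.2.2 j)
    (st1_rel q hq k m l r d X hX hm al be ga x0 y0 z0 hbe hy0 hsize T hT)
  set G : ℕ → ℕ → ℕ → ℤ := fun i j h =>
    if H : i < r ∧ j < r ∧ h < r then
      c ((st1_eq r).symm (⟨i, H.1⟩, ⟨j, H.2.1⟩, ⟨h, H.2.2⟩)) else 0 with hG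
  refine ⟨G, ?_, ?_, ?_, ?_⟩
  · obtain ⟨t, ht⟩ := Function.ne_iff.1 hc0
    refine ⟨(st1_eq r t).1, (st1_eq r t).2.1, (st1_eq r t).2.2, ?_⟩
    have e1 : G (st1_eq r t).1 (st1_eq r t).2.1 (st1_eq r t).2.2 = c t := by
      simp only [hG]
      rw [dif_pos ⟨(st1_eq r t).1.isLt, (st1_eq r t).2.1.isLt, (st1_eq r t).2.2.isLt⟩]
      congr 1
      rw [Equiv.symm_apply_eq]
    rw [e1]
    exact ht
  · intro i j h hne
    by_contra H
    exact hne (by simp only [hG]; rw [dif_neg H])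
  · intro i j h
    simp only [hG]
    split_ifs with H
    · exact hc2 _
    · rw [abs_zero]
      positivity
  · intro P hP
    have h1 := hc1 P hP
    rw [← h1, ev3, Finset.sum_range]
    rw [← (st1_eq r).symm.sum_comp, Fintype.sum_prod_type]
    refine sum_congr rfl fun i _ => ?_
    rw [Finset.sum_range, Fintype.sum_prod_type]
    refine sum_congr rfl fun j _ => ?_
    rw [Finset.sum_range]
    refine sum_congr rfl fun h _ => ?_
    simp only [hG, st1_e, Equiv.apply_symm_apply]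
    rw [dif_pos ⟨i.isLt, j.isLt, h.isLt⟩]
    ring

end Pool.MP_a95293_nt.SF
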