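import Pool.Agent.Lib_MP_a95293_sf.Deg
import Pool.Agent.Lib_MP_a95293_sf.St1

/-!
# Piece SURF: few prime points on the surface `α x^k + β y^m + γ z^l = 0`

PROOF.  `X = 1`: no points.  `ρ ≥ 2` with `36 / ρ ≤ τ / 2`, `r = ρ^2`, `d = ρ^3 - 1`, `s = r^3 = ρ^6`, `s - d (d + 1) / 2 ≥ s / 2`.  `f = (r^3)!`, `w = ⌈X ^ (12 / ρ)⌉₊`, `Z = f w`.
For a prime `q > Z`: `q ^ (d * (s - d(d+1)/2)) > f * (X^(3(r-1)))^s`, since the exponent `S` is `≥ (ρ^3 - 1) ρ^6 / 2 ≥ ρ^9 / 4` and `w^S ≥ X^(3 ρ^8)`.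
`Bp.choose_prime` (`n = m |β|`, `|β| ≤ X^A`): a prime `q ∈ (Z, 2^(t+1) Z]` with `q ∤ m`, `q ∤ β`.  Points with `q ∣ y`: `y = q`, `bp` for the pairs `(x, z)`
(`α x^k + γ z^l = - β q^m`).  The other points: at most `q^3 ≤ C X^(36/ρ)` classes; in one class `stage1` gives `G` with
`|G| ≤ (r^3 X^(3(r-1)))^(r^3) ≤ X^h`, `h = r^3 (r^3 + 3 r)` (`X ≥ 2`, `r^3 ≤ 2^(r^3)`), degree `≤ 3 r`: `deg_claim (τ/2) ξ r (3r) h`.
-/

set_option autoImplicit false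

namespace Pool.MP_a95293_nt.SF

open Finset

namespace SurfP

/-- the size condition of `stage1` -/
private lemma size3 (ρ w X f q : ℕ) (hρ : 2 ≤ ρ) (hX : 1 ≤ X)
    (hw : X ^ 12 ≤ w ^ ρ) (hq : f * w < q) :
    f * (X ^ (3 * (ρ ^ 2 - 1))) ^ ((ρ ^ 2) ^ 3) <
      q ^ ((ρ ^ 3 - 1) * ((ρ ^ 2) ^ 3 - (ρ ^ 3 - 1) * (ρ ^ 3 - 1 + 1) / 2)) := by
  set c : ℕ := ρ ^ 3 with hc
  have hc8 : 8 ≤ c := by
    calc 8 = 2 ^ 3 := by norm_num
      _ ≤ ρ ^ 3 := Nat.pow_le_pow_left hρ 3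
  have hc2 : (ρ ^ 2) ^ 3 = c * c := by
    rw [hc]
    ring
  obtain ⟨T, hT⟩ : ∃ T, (c - 1) * (c - 1 + 1) = 2 * T := by
    obtain ⟨T, hT⟩ := Nat.even_mul_succ_self (c - 1)
    exact ⟨T, by omega⟩
  set S : ℕ := (c - 1) * ((ρ ^ 2) ^ 3 - (c - 1) * (c - 1 + 1) / 2) with hS
  have hS4 : c ^ 3 ≤ 4 * S := by
    have e1 : (c - 1) * (c - 1 + 1) / 2 = T := by
      rw [hT]
      omega
    rw [hS, e1, hc2]
    clear_value c
    clear hS e1 hc2 S hc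
    obtain ⟨e, rfl⟩ : ∃ e, c = e + 1 := ⟨c - 1, by omega⟩
    simp only [Nat.add_sub_cancel] at hT ⊢
    have e2 : (e + 1) * (e + 1) - T = T + (e + 1) := by
      have : (e + 1) * (e + 1) = e * (e + 1) + (e + 1) := by ring
      omega
    rw [e2]
    have e3 : 4 * (e * (T + (e + 1))) = 2 * e * (2 * T) + 4 * e * (e + 1) := by ring
    rw [e3, ← hT]
    have e4 : 7 ≤ e := by omega
    nlinarith
  have hS0 : S ≠ 0 := by
    have : 0 < c ^ 3 := by positivity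
    omega
  have hw3 : X ^ (3 * ρ ^ 8) ≤ w ^ S := by
    have hw0 : 1 ≤ w := by
      by_contra h
      have h0 : w = 0 := by omega
      rw [h0, zero_pow (by omega)] at hw
      have : 1 ≤ X ^ 12 := Nat.one_le_pow _ _ hX
      omega
    have h1 : (X ^ (3 * ρ ^ 8)) ^ 4 ≤ (w ^ S) ^ 4 := by
      calc (X ^ (3 * ρ ^ 8)) ^ 4 = (X ^ 12) ^ (ρ ^ 8) := by
            rw [← pow_mul, ← pow_mul]
            congr 1
            ring
        _ ≤ (w ^ ρ) ^ (ρ ^ 8) := Nat.pow_le_pow_left hw _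
        _ = w ^ (c ^ 3) := by
            rw [← pow_mul, hc]
            congr 1
            ring
        _ ≤ w ^ (4 * S) := Nat.pow_le_pow_right hw0 hS4
        _ = (w ^ S) ^ 4 := by
            rw [← pow_mul]
            congr 1
            ring
    exact (Nat.pow_le_pow_iff_left (by norm_num)).1 h1
  have h2 : (X ^ (3 * (ρ ^ 2 - 1))) ^ ((ρ ^ 2) ^ 3) ≤ w ^ S := by
    refine le_trans ?_ hw3
    rw [← pow_mul]
    refine Nat.pow_le_pow_right hX ?_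
    calc 3 * (ρ ^ 2 - 1) * (ρ ^ 2) ^ 3 ≤ 3 * ρ ^ 2 * (ρ ^ 2) ^ 3 := by
          gcongr
          omega
      _ = 3 * ρ ^ 8 := by ring
  calc f * (X ^ (3 * (ρ ^ 2 - 1))) ^ ((ρ ^ 2) ^ 3) ≤ f ^ S * w ^ S :=
        Nat.mul_le_mul (Nat.le_self_pow hS0 f) h2
    _ = (f * w) ^ S := (mul_pow f w S).symm
    _ < q ^ S := Nat.pow_lt_pow_left hq hS0

private lemma natAbs_le {a : ℤ} {X A : ℕ} (h : |a| ≤ (X : ℤ) ^ A) : a.natAbs ≤ X ^ A := by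
  have : (a.natAbs : ℤ) ≤ ((X ^ A : ℕ) : ℤ) := by
    rw [Int.natCast_natAbs]
    exact_mod_cast h
  exact_mod_cast this

private lemma height (r X : ℕ) (hX : 2 ≤ X) :
    (r ^ 3 * X ^ (3 * (r - 1))) ^ (r ^ 3) ≤ X ^ ((r ^ 3 + 3 * r) * r ^ 3) := by
  rw [pow_mul X (r ^ 3 + 3 * r)]
  refine Nat.pow_le_pow_left ?_ _
  rw [pow_add]
  refine Nat.mul_le_mul ?_ ?_
  · calc r ^ 3 ≤ 2 ^ (r ^ 3) := Nat.lt_two_pow_self.le
      _ ≤ X ^ (r ^ 3) := Nat.pow_le_pow_left hX _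
  · exact Nat.pow_le_pow_right (by omega) (by omega)

end SurfP

open SurfP

theorem surf (τ ξ : ℝ) (hτ : 0 < τ) (hξ : 0 < ξ) : ∃ e₀ : ℕ, 2 ≤ e₀ ∧ ∀ E A : ℕ,
    ∃ C : ℝ, 1 ≤ C ∧ ∀ (X L k m l : ℕ) (al be ga : ℤ), 1 ≤ X → (X : ℝ) ^ ξ ≤ L → e₀ ≤ k → k ≤ E →
    e₀ ≤ m → m ≤ E → e₀ ≤ l → l ≤ E → al ≠ 0 → be ≠ 0 → ga ≠ 0 → |al| ≤ (X : ℤ) ^ A →
    |be| ≤ (X : ℤ) ^ A → |ga| ≤ (X : ℤ) ^ A → ∀ T : Finset (ℕ × ℕ × ℕ),
    (∀ P ∈ T, Pt k m l al be ga L X P) → (T.card : ℝ) ≤ C * (X : ℝ) ^ τ := by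
  classical
  set ρ : ℕ := ⌈72 / τ⌉₊ + 2 with hρ
  set r : ℕ := ρ ^ 2 with hr
  have hρ2 : 2 ≤ ρ := by omega
  have hr4 : 4 ≤ r := by
    calc 4 = 2 ^ 2 := by norm_num
      _ ≤ ρ ^ 2 := Nat.pow_le_pow_left hρ2 2
  obtain ⟨e₁, he₁, hdeg⟩ := deg_claim (τ / 2) ξ (by positivity) hξ r (3 * r)
    ((r ^ 3 + 3 * r) * r ^ 3)
  obtain ⟨e₂, he₂, hbp⟩ := PS.bp τ hτ
  refine ⟨max e₁ e₂, he₁.trans (le_max_left _ _), fun E A => ?_⟩
  obtain ⟨C₁, hC₁, hdeg⟩ := hdeg E A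
  obtain ⟨C₂, hC₂, hbp⟩ := hbp E A
  set f : ℕ := (r ^ 3).factorial with hf
  have hf1 : 1 ≤ f := Nat.factorial_pos _
  have hf2 : 2 ≤ f := by
    rw [hf]
    calc 2 = Nat.factorial 2 := rfl
      _ ≤ (r ^ 3).factorial := Nat.factorial_le (by
        calc 2 ≤ 4 ^ 3 := by norm_num
          _ ≤ r ^ 3 := Nat.pow_le_pow_left hr4 3)
  set t : ℕ := E + ρ * A with ht
  refine ⟨C₂ + C₁ * (2 ^ (t + 2) * f) ^ 3, ?_, ?_⟩
  · have : (0 : ℝ) ≤ C₁ * (2 ^ (t + 2) * f) ^ 3 := by positivity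
    linarith
  intro X L k m l al be ga hX hL hk hkE hm hmE hl hlE h1 h2 h3 hal hbe hga T hT
  have hX0 : (0 : ℝ) < X := by exact_mod_cast hX
  have hX1 : (1 : ℝ) ≤ X := by exact_mod_cast hX
  rcases T.eq_empty_or_nonempty with hTe | ⟨P₀, hP₀⟩
  · rw [hTe, card_empty]
    push_cast
    positivity
  have hX2 : 2 ≤ X := by
    have h4 := hT P₀ hP₀
    exact h4.1.1.two_le.trans h4.2.2.2.1.1
  set w : ℕ := ⌈(X : ℝ) ^ ((12 : ℝ) / (ρ : ℝ))⌉₊ with hw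
  have hρ0 : (0 : ℝ) < ρ := by
    have : 0 < ρ := by omega
    exact_mod_cast this
  have hw1 : (X : ℝ) ^ ((12 : ℝ) / (ρ : ℝ)) ≤ w := Nat.le_ceil _
  have hX4 : (1 : ℝ) ≤ (X : ℝ) ^ ((12 : ℝ) / (ρ : ℝ)) :=
    Real.one_le_rpow hX1 (by positivity)
  have hw2 : (w : ℝ) ≤ 2 * (X : ℝ) ^ ((12 : ℝ) / (ρ : ℝ)) := by
    have := Nat.ceil_lt_add_one (a := (X : ℝ) ^ ((12 : ℝ) / (ρ : ℝ))) (by positivity)
    rw [← hw] at this
    linarith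
  have hw12 : X ^ 12 ≤ w ^ ρ := by
    have h4 : (X : ℝ) ^ 12 ≤ (w : ℝ) ^ ρ := by
      calc (X : ℝ) ^ 12 = ((X : ℝ) ^ ((12 : ℝ) / (ρ : ℝ))) ^ ρ := by
            rw [← Real.rpow_natCast ((X : ℝ) ^ ((12 : ℝ) / (ρ : ℝ))), ← Real.rpow_mul hX0.le]
            rw [div_mul_cancel₀ _ hρ0.ne']
            norm_num
        _ ≤ (w : ℝ) ^ ρ := pow_le_pow_left₀ (by positivity) hw1 _
    exact_mod_cast h4
  have hwpos : 1 ≤ w := by
    have : (1 : ℝ) ≤ w := hX4.trans hw1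
    exact_mod_cast this
  set n : ℕ := m * be.natAbs with hn
  have hm0 : m ≠ 0 := by
    have := le_max_left e₁ e₂
    omega
  have hk0 : k ≠ 0 := by
    have := le_max_left e₁ e₂
    omega
  have hn0 : n ≠ 0 := Nat.mul_ne_zero hm0 (Int.natAbs_ne_zero.2 h2)
  have hnt : n < (f * w) ^ (t + 1) := by
    have a2 : be.natAbs ≤ X ^ A := natAbs_le hbe
    have a3 : X ^ A ≤ w ^ (ρ * A) := by
      rw [pow_mul w]
      exact Nat.pow_le_pow_left ((Nat.le_self_pow (by norm_num) X).trans hw12) _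
    have a4 : E < 2 ^ (E + 1) := Nat.lt_two_pow_self.trans_le
      (Nat.pow_le_pow_right (by norm_num) (by omega))
    calc n ≤ E * X ^ A := Nat.mul_le_mul hmE a2
      _ ≤ E * w ^ (ρ * A) := Nat.mul_le_mul_left _ a3
      _ < 2 ^ (E + 1) * w ^ (ρ * A) := Nat.mul_lt_mul_of_pos_right a4 (by positivity)
      _ ≤ (f * w) ^ (E + 1) * (f * w) ^ (ρ * A) := by
          gcongr
          · calc 2 ≤ f := hf2
              _ ≤ f * w := Nat.le_mul_of_pos_right _ hwpos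
          · exact Nat.le_mul_of_pos_left _ hf1
      _ = (f * w) ^ (t + 1) := by
          rw [← pow_add]
          congr 1
          omega
  obtain ⟨q, hq, hq1, hq2, hq3⟩ := PS.Bp.choose_prime (f * w) t n
    (Nat.succ_le_of_lt (Nat.mul_pos hf1 hwpos)) hn0 hnt
  have hqm : ¬ q ∣ m := fun h => hq3 (Dvd.dvd.mul_right h _)
  have hqbe : ¬ (q : ℤ) ∣ be := fun h => hq3 (Dvd.dvd.mul_left (Int.natCast_dvd.1 h) _)
  have hsize := size3 ρ w X f q hρ2 hX hw12 hq1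
  rw [← hr, hf] at hsize
  -- the points with `y = q`
  have c1 : ((T.filter fun P => P.2.1 = q).card : ℝ) ≤ C₂ * (X : ℝ) ^ τ := by
    have hinj : Set.InjOn (fun P : ℕ × ℕ × ℕ => (P.1, P.2.2))
        ((T.filter fun P => P.2.1 = q : Finset (ℕ × ℕ × ℕ)) : Set (ℕ × ℕ × ℕ)) := by
      intro P hP Q hQ hPQ
      have hP' := (mem_filter.1 (mem_coe.1 hP)).2
      have hQ' := (mem_filter.1 (mem_coe.1 hQ)).2
      have hPQ' : (P.1, P.2.2) = (Q.1, Q.2.2) := hPQ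
      have e1 : P.1 = Q.1 := (Prod.ext_iff.1 hPQ').1
      have e2 : P.2.2 = Q.2.2 := (Prod.ext_iff.1 hPQ').2
      exact Prod.ext e1 (Prod.ext (hP'.trans hQ'.symm) e2)
    rw [← card_image_of_injOn hinj]
    refine hbp X k l hX (le_trans (le_max_right _ _) hk) hkE (le_trans (le_max_right _ _) hl) hlE
      al ga (- (be * (q : ℤ) ^ m)) h1 h3 ?_ hal hga _ ?_
    · refine neg_ne_zero.2 (mul_ne_zero h2 (pow_ne_zero _ ?_))
      exact_mod_cast hq.ne_zero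
    · intro z hz
      obtain ⟨P, hP, rfl⟩ := mem_image.1 hz
      rw [mem_filter] at hP
      obtain ⟨⟨p1, p2, p3⟩, -, -, ⟨b1, b2, b3⟩, -, heq⟩ := hT P hP.1
      refine ⟨p1, p3, b1, b3, ?_⟩
      rw [hP.2] at heq
      show al * (P.1 : ℤ) ^ k + ga * (P.2.2 : ℤ) ^ l = - (be * (q : ℤ) ^ m)
      linarith
  -- the other points
  set T' := T.filter fun P => ¬ P.2.1 = q with hT'
  set B : ℕ := ⌊C₁ * (X : ℝ) ^ (τ / 2)⌋₊ with hB
  have hmod : ∀ u v : ℕ, u % q = v % q → (q : ℤ) ∣ (u : ℤ) - v := by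
    intro u v huv
    have h4 : v ≡ u [MOD q] := huv.symm
    exact (Nat.modEq_iff_dvd.1 h4)
  have c3 : T'.card ≤ B * (T'.image fun P => (P.1 % q, P.2.1 % q, P.2.2 % q)).card := by
    refine card_le_mul_card_image _ _ fun ab hab => ?_
    obtain ⟨P, hP, hPab⟩ := mem_image.1 hab
    have hPT := mem_filter.1 hP
    have hPy : ¬ (q : ℤ) ∣ (P.2.1 : ℤ) := by
      intro h
      have h5 : q ∣ P.2.1 := Int.natCast_dvd_natCast.1 h
      rw [Nat.prime_dvd_prime_iff_eq hq (hT P hPT.1).1.2.1] at h5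
      exact hPT.2 h5.symm
    obtain ⟨G, hG0, hG1, hG2, hG3⟩ := stage1 q hq k m l r (ρ ^ 3 - 1) X (by omega) hX hqm al be ga
      P.1 P.2.1 P.2.2 hqbe hPy hsize
      (T'.filter fun Q => (Q.1 % q, Q.2.1 % q, Q.2.2 % q) = ab) (by
        intro Q hQ
        rw [mem_filter] at hQ
        obtain ⟨hQ1, hQ2⟩ := hQ
        have hQT := mem_filter.1 hQ1
        obtain ⟨-, -, -, ⟨b1, b2, b3⟩, -, heq⟩ := hT Q hQT.1
        rw [← hPab] at hQ2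
        refine ⟨heq, hmod _ _ (congrArg Prod.fst hQ2),
          hmod _ _ (congrArg (fun z : ℕ × ℕ × ℕ => z.2.1) hQ2),
          hmod _ _ (congrArg (fun z : ℕ × ℕ × ℕ => z.2.2) hQ2), b1, b2, b3⟩)
    refine Nat.le_floor ?_
    refine hdeg X L k m l al be ga hX hL (le_trans (le_max_left _ _) hk) hkE
      (le_trans (le_max_left _ _) hm) hmE (le_trans (le_max_left _ _) hl) hlE h1 h2 h3 hal hbe hga
      G hG1 hG0 ?_ ?_ _ ?_
    · intro i j p hne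
      have := hG1 i j p hne
      omega
    · intro i j p
      refine (hG2 i j p).trans ?_
      exact_mod_cast height r X hX2
    · intro Q hQ
      refine ⟨hT Q (mem_filter.1 (mem_filter.1 hQ).1).1, hG3 Q hQ⟩
  have c4 : (T'.image fun P => (P.1 % q, P.2.1 % q, P.2.2 % q)).card ≤ q * (q * q) := by
    have : (T'.image fun P => (P.1 % q, P.2.1 % q, P.2.2 % q)) ⊆
        range q ×ˢ (range q ×ˢ range q) := by
      intro ab hab
      obtain ⟨z, _, rfl⟩ := mem_image.1 hab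
      rw [mem_product, mem_product, mem_range, mem_range, mem_range]
      exact ⟨Nat.mod_lt _ hq.pos, Nat.mod_lt _ hq.pos, Nat.mod_lt _ hq.pos⟩
    calc _ ≤ (range q ×ˢ (range q ×ˢ range q)).card := card_le_card this
      _ = q * (q * q) := by rw [card_product, card_product, card_range]
  have c6 : (q : ℝ) ≤ 2 ^ (t + 2) * f * (X : ℝ) ^ ((12 : ℝ) / (ρ : ℝ)) := by
    have h5 : (q : ℝ) ≤ 2 ^ (t + 1) * (f * w) := by exact_mod_cast hq2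
    calc (q : ℝ) ≤ 2 ^ (t + 1) * (f * w) := h5
      _ ≤ 2 ^ (t + 1) * (f * (2 * (X : ℝ) ^ ((12 : ℝ) / (ρ : ℝ)))) := by gcongr
      _ = 2 ^ (t + 2) * f * (X : ℝ) ^ ((12 : ℝ) / (ρ : ℝ)) := by ring
  have c7 : ((X : ℝ) ^ ((12 : ℝ) / (ρ : ℝ))) ^ 3 ≤ (X : ℝ) ^ (τ / 2) := by
    rw [← Real.rpow_natCast ((X : ℝ) ^ ((12 : ℝ) / (ρ : ℝ))), ← Real.rpow_mul hX0.le]
    apply Real.rpow_le_rpow_of_exponent_le hX1
    have h5 : 72 / τ ≤ ρ := by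
      have := Nat.le_ceil (72 / τ)
      rw [hρ]
      push_cast
      linarith
    have h6 : 72 ≤ ρ * τ := by
      rw [div_le_iff₀ hτ] at h5
      exact h5
    push_cast
    rw [div_mul_eq_mul_div, div_le_iff₀ hρ0]
    nlinarith
  have c9 : ((q * (q * q) : ℕ) : ℝ) ≤ (2 ^ (t + 2) * f) ^ 3 * (X : ℝ) ^ (τ / 2) := by
    have h5 : (0 : ℝ) ≤ q := Nat.cast_nonneg q
    calc ((q * (q * q) : ℕ) : ℝ) = (q : ℝ) ^ 3 := by
          push_cast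
          ring
      _ ≤ (2 ^ (t + 2) * f * (X : ℝ) ^ ((12 : ℝ) / (ρ : ℝ))) ^ 3 := by gcongr
      _ = (2 ^ (t + 2) * f) ^ 3 * ((X : ℝ) ^ ((12 : ℝ) / (ρ : ℝ))) ^ 3 := by ring
      _ ≤ (2 ^ (t + 2) * f) ^ 3 * (X : ℝ) ^ (τ / 2) := by gcongr
  have c10 : (T'.card : ℝ) ≤ C₁ * (2 ^ (t + 2) * f) ^ 3 * (X : ℝ) ^ τ := by
    have hB1 : (B : ℝ) ≤ C₁ * (X : ℝ) ^ (τ / 2) := Nat.floor_le (by positivity)
    have h5 : (T'.card : ℝ) ≤ (B : ℝ) * ((q * (q * q) : ℕ) : ℝ) := by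
      exact_mod_cast c3.trans (Nat.mul_le_mul_left B c4)
    have h6 : (X : ℝ) ^ τ = (X : ℝ) ^ (τ / 2) * (X : ℝ) ^ (τ / 2) := by
      rw [← Real.rpow_add hX0]
      congr 1
      ring
    calc (T'.card : ℝ) ≤ (B : ℝ) * ((q * (q * q) : ℕ) : ℝ) := h5
      _ ≤ (C₁ * (X : ℝ) ^ (τ / 2)) * ((2 ^ (t + 2) * f) ^ 3 * (X : ℝ) ^ (τ / 2)) := by gcongr
      _ = C₁ * (2 ^ (t + 2) * f) ^ 3 * (X : ℝ) ^ τ := by
          rw [h6]
          ring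
  have c11 : (T.card : ℝ) = ((T.filter fun P => P.2.1 = q).card : ℝ) + (T'.card : ℝ) := by
    have h5 := card_filter_add_card_filter_not (s := T) (fun P => P.2.1 = q)
    rw [hT']
    exact_mod_cast h5.symm
  rw [c11, add_mul]
  exact add_le_add c1 c10

end Pool.MP_a95293_nt.SF
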