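import Pool.Agent.Lib_MP_a95293_sf.MainH

/-!
# abc triples of natural numbers
-/

set_option autoImplicit false

namespace Pool.MP_a95293_nt.SF

open Finset
open Pool.MP_a95293_nt.RC (rd Prm pr3)

/-- the triples counted -/
def TS (M A X : ℕ) : Set (ℕ × ℕ × ℕ) :=
  {t | (0 < t.1 ∧ 0 < t.2.1 ∧ t.1.Coprime t.2.1 ∧ t.1 + t.2.1 = t.2.2) ∧
    ∏ p ∈ (t.1 * t.2.1 * t.2.2).primeFactors, p ≤ X ∧
    (∏ p ∈ (t.1 * t.2.1 * t.2.2).primeFactors, p) ^ M ≤ t.2.2 ∧ t.2.2 ≤ X ^ A}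

theorem trip_wrap (θ : ℝ) (hθ : 0 ≤ θ) (M A : ℕ) (CC : ℝ) (hCC : 0 ≤ CC) (X₀ : ℕ)
    (hpairs : ∀ X : ℕ, 1 ≤ X → X₀ ≤ X → ∀ S : Finset (ℕ × ℕ), (∀ z ∈ S, Prm z ∧ z.1 ≤ z.2 ∧
      rd (pr3 z) ≤ X ∧ rd (pr3 z) ^ M ≤ z.1 + z.2 ∧ z.1 + z.2 ≤ X ^ A) →
      (S.card : ℝ) ≤ CC * (X : ℝ) ^ θ) :
    ∃ C : ℝ, ∀ X : ℕ, 1 ≤ X → (TS M A X).Finite ∧ ((TS M A X).ncard : ℝ) ≤ C * (X : ℝ) ^ θ := by
  classical
  set Bx : ℕ → Finset (ℕ × ℕ × ℕ) := fun N =>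
    Icc 0 (N ^ A) ×ˢ (Icc 0 (N ^ A) ×ˢ Icc 0 (N ^ A)) with hBx
  have hsub : ∀ X N : ℕ, X ≤ N → TS M A X ⊆ (Bx N : Set (ℕ × ℕ × ℕ)) := by
    intro X N hXN t ht
    obtain ⟨⟨h1, h2, h3, h4⟩, h5, h6, h7⟩ := ht
    have h8 : X ^ A ≤ N ^ A := Nat.pow_le_pow_left hXN A
    rw [mem_coe, hBx, mem_product, mem_product, mem_Icc, mem_Icc, mem_Icc]
    omega
  have hfin : ∀ X : ℕ, (TS M A X).Finite := fun X =>
    (Bx X).finite_toSet.subset (hsub X X le_rfl)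
  refine ⟨2 * CC + (Bx X₀).card, fun X hX => ⟨hfin X, ?_⟩⟩
  have hX1 : (1 : ℝ) ≤ X := by exact_mod_cast hX
  have hXθ : 1 ≤ (X : ℝ) ^ θ := Real.one_le_rpow hX1 hθ
  rcases le_total X₀ X with hXX | hXX
  · rw [Set.ncard_eq_toFinset_card _ (hfin X)]
    set W := (hfin X).toFinset with hW
    have hWm : ∀ t ∈ W, t ∈ TS M A X := by
      intro t ht
      rw [hW, Set.Finite.mem_toFinset] at ht
      exact ht
    set W₁ := W.filter fun t => t.1 ≤ t.2.1 with hW₁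
    set W₂ := W.filter fun t => ¬ t.1 ≤ t.2.1 with hW₂
    have hpr : ∀ a b c : ℕ, a + b = c → rd (pr3 (a, b)) = ∏ p ∈ (a * b * c).primeFactors, p := by
      intro a b c h
      unfold Pool.MP_a95293_nt.RC.rd Pool.MP_a95293_nt.RC.pr3
      rw [h]
    have c1 : (W₁.card : ℝ) ≤ CC * (X : ℝ) ^ θ := by
      have hinj : W₁.card = (W₁.image fun t => (t.1, t.2.1)).card := by
        rw [card_image_of_injOn]
        intro t ht t' ht' h
        rw [mem_coe, hW₁, mem_filter] at ht ht'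
        have e1 := (hWm t ht.1).1.2.2.2
        have e2 := (hWm t' ht'.1).1.2.2.2
        have h' : (t.1, t.2.1) = (t'.1, t'.2.1) := h
        rw [Prod.mk.injEq] at h'
        exact Prod.ext h'.1 (Prod.ext h'.2 (by rw [← e1, ← e2, h'.1, h'.2]))
      rw [hinj]
      refine hpairs X hX hXX _ ?_
      intro z hz
      rw [mem_image] at hz
      obtain ⟨t, ht, rfl⟩ := hz
      rw [hW₁, mem_filter] at ht
      obtain ⟨⟨h1, h2, h3, h4⟩, h5, h6, h7⟩ := hWm t ht.1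
      have h8 := hpr t.1 t.2.1 t.2.2 h4
      refine ⟨⟨h1, h2, h3⟩, ht.2, ?_, ?_, ?_⟩
      · rw [h8]
        exact h5
      · rw [h8]
        show _ ≤ t.1 + t.2.1
        rw [h4]
        exact h6
      · show t.1 + t.2.1 ≤ _
        rw [h4]
        exact h7
    have c2 : (W₂.card : ℝ) ≤ CC * (X : ℝ) ^ θ := by
      have hinj : W₂.card = (W₂.image fun t => (t.2.1, t.1)).card := by
        rw [card_image_of_injOn]
        intro t ht t' ht' h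
        rw [mem_coe, hW₂, mem_filter] at ht ht'
        have e1 := (hWm t ht.1).1.2.2.2
        have e2 := (hWm t' ht'.1).1.2.2.2
        have h' : (t.2.1, t.1) = (t'.2.1, t'.1) := h
        rw [Prod.mk.injEq] at h'
        exact Prod.ext h'.2 (Prod.ext h'.1 (by rw [← e1, ← e2, h'.1, h'.2]))
      rw [hinj]
      refine hpairs X hX hXX _ ?_
      intro z hz
      rw [mem_image] at hz
      obtain ⟨t, ht, rfl⟩ := hz
      rw [hW₂, mem_filter] at ht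
      obtain ⟨⟨h1, h2, h3, h4⟩, h5, h6, h7⟩ := hWm t ht.1
      have h4' : t.2.1 + t.1 = t.2.2 := by rw [add_comm]; exact h4
      have h8 := hpr t.2.1 t.1 t.2.2 h4'
      rw [mul_comm t.2.1 t.1] at h8
      refine ⟨⟨h2, h1, h3.symm⟩, (not_le.1 ht.2).le, ?_, ?_, ?_⟩
      · rw [h8]
        exact h5
      · rw [h8]
        show _ ≤ t.2.1 + t.1
        rw [h4']
        exact h6
      · show t.2.1 + t.1 ≤ _
        rw [h4']
        exact h7
    have hc : W.card = W₁.card + W₂.card := (card_filter_add_card_filter_not _).symm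
    have hc' : (W.card : ℝ) = W₁.card + W₂.card := by exact_mod_cast hc
    have hB0 : (0 : ℝ) ≤ (Bx X₀).card := Nat.cast_nonneg _
    rw [hc']
    nlinarith
  · have h3 : (TS M A X).ncard ≤ (Bx X₀).card := by
      rw [← Set.ncard_coe_finset]
      exact Set.ncard_le_ncard (hsub X X₀ hXX) (Bx X₀).finite_toSet
    have h4 : ((TS M A X).ncard : ℝ) ≤ (Bx X₀).card := by exact_mod_cast h3
    have hB0 : (0 : ℝ) ≤ (Bx X₀).card := Nat.cast_nonneg _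
    refine h4.trans ?_
    have h5 : 0 ≤ 2 * CC := by linarith
    nlinarith

theorem tripH (θ : ℝ) (h1 : 1 / 2 < θ) : ∃ M : ℕ, ∀ A : ℕ, ∃ C : ℝ, ∀ X : ℕ, 1 ≤ X →
    (TS M A X).Finite ∧ ((TS M A X).ncard : ℝ) ≤ C * (X : ℝ) ^ θ := by
  obtain ⟨M, hM⟩ := pairsH θ h1
  refine ⟨M, fun A => ?_⟩
  obtain ⟨CC, hCC, X₀, hp⟩ := hM A
  exact trip_wrap θ (by linarith) M A CC hCC X₀ hp

end Pool.MP_a95293_nt.SF
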